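import Pool.Agent.Helper557.Rz.Base
import Pool.Agent.Helper557.Rz.Blk
import Pool.Agent.Helper557.Rz.FADefs

set_option autoImplicit false

open MeasureTheory Set

namespace Pool.Agent.Helper557.Rz

/-- admissible functions: measurable, bounded by `C`, zero outside the ball of radius `R`, and
integer valued if `b` -/
structure Adm (b : Prop) {d : ℕ} (C R : ℝ) (φ : E d → ℝ) : Prop where
  meas : Measurable φ
  bdd : ∀ x, |φ x| ≤ C
  supp : ∀ x, R < ‖x‖ → φ x = 0
  int : b → ∀ x, ∃ m : ℤ, φ x = m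

/-- `f` is the divergence of a flow along the isometries `γ` -/
def Flw (b : Prop) {d : ℕ} (k : ℕ) (γ : Fin k → (E d ≃ᵢ E d)) (C R : ℝ) (f : E d → ℝ) : Prop :=
  ∃ φ : Fin k → E d → ℝ, (∀ i, Adm b C R (φ i)) ∧ ∀ x, f x = ∑ i, (φ i (γ i x) - φ i x)

/-- uniformly solvable classes -/
def UC (b : Prop) {d : ℕ} (F : Set (E d → ℝ)) : Prop :=
  ∃ (k : ℕ) (γ : Fin k → (E d ≃ᵢ E d)) (C R : ℝ), ∀ f ∈ F, Flw b k γ C R f

/-- `f` is the divergence of a flow along the translations by the vectors `v` -/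
def TR (b : Prop) {d : ℕ} (m : ℕ) (v : Fin m → E d) (C R : ℝ) (f : E d → ℝ) : Prop :=
  ∃ φ : Fin m → E d → ℝ, (∀ i, Adm b C R (φ i)) ∧ ∀ x, f x = ∑ i, (φ i (x + v i) - φ i x)

/-- integer vectors -/
noncomputable def zv {d : ℕ} (z : Fin d → ℤ) : E d := WithLp.toLp 2 (fun i => (z i : ℝ))

/-- the half-open cube with corner `v` and side `s` -/
def cube {d : ℕ} (v : E d) (s : ℝ) : Set (E d) := {x | ∀ i, v i ≤ x i ∧ x i < v i + s}

/-- `ℤ^d`-periodic functions -/
def Per {d : ℕ} (f : E d → ℝ) : Prop := ∀ (z : Fin d → ℤ) (x : E d), f (x + zv z) = f x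

/-- uniformly solvable classes of functions with a parameter on the three-dimensional space -/
def UP (F : ∀ (P : Type) [MeasurableSpace P], Set (E 3 → P → ℝ)) : Prop :=
  ∃ (k : ℕ) (γ : Fin k → (E 3 ≃ᵢ E 3)) (C R : ℝ), ∀ (P : Type) [MeasurableSpace P],
    ∀ f ∈ F P, ∃ φ : Fin k → E 3 → P → ℝ,
      (∀ i, Measurable (fun q : E 3 × P => φ i q.1 q.2)) ∧ (∀ i x p, |φ i x p| ≤ C) ∧
      (∀ i x p, R < ‖x‖ → φ i x p = 0) ∧
      ∀ x p, f x p = ∑ i, (φ i (γ i x) p - φ i x p)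

/-- measurable functions with a parameter, bounded by `1`, zero outside the ball of radius `R` -/
def Nice (R : ℝ) (P : Type) [MeasurableSpace P] (f : E 3 → P → ℝ) : Prop :=
  Measurable (fun q : E 3 × P => f q.1 q.2) ∧ (∀ x p, |f x p| ≤ 1) ∧ (∀ x p, R < ‖x‖ → f x p = 0)

/-- spherical mean about `c` -/
noncomputable def sm (c : E 3) {P : Type} (f : E 3 → P → ℝ) (y : E 3) (p : P) : ℝ :=
  ∫ x : S 3, f (c + ‖y - c‖ • (x : E 3)) p ∂(sg 3)

/-- the circle -/
abbrev TTc := AddCircle (1 : ℝ)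

/-- three commuting automorphisms with vanishing sequences of recurrent marker sets; the markers of
one automorphism are invariant under the others -/
structure Mark {X : Type} [MeasurableSpace X] (ρ : Fin 3 → X ≃ X) (M : Fin 3 → ℕ → Set X)
    (B : Fin 3 → ℕ → ℕ) : Prop where
  meas : ∀ i, Measurable (ρ i)
  meas' : ∀ i, Measurable (ρ i).symm
  comm : ∀ i j x, ρ i (ρ j x) = ρ j (ρ i x)
  mM : ∀ i n, MeasurableSet (M i n)
  inv : ∀ i j n x, i ≠ j → (ρ j x ∈ M i n ↔ x ∈ M i n)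
  recur : ∀ i n x, ∃ j, 1 ≤ j ∧ j ≤ B i n ∧ ((ρ i).symm^[j]) x ∈ M i n
  van : ∀ i x, ∃ N, ∀ n, N ≤ n → x ∉ M i n

open Classical in
/-- sum over the past of `x` until the marker set `M` is met -/
noncomputable def hs {X A : Type} [AddCommGroup A] (ρ : X ≃ X) (M : Set X) (B : ℕ) (f : X → A)
    (x : X) : A :=
  ∑ j ∈ Finset.Icc 1 B,
    if ∀ i ∈ Finset.Icc 1 j, (ρ.symm^[i]) x ∉ M then f ((ρ.symm^[j]) x) else 0

/-- the mass moved to the next marker -/
noncomputable def ls {X A : Type} [AddCommGroup A] (ρ : X ≃ X) (M : Set X) (B : ℕ) (f : X → A)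
    (x : X) : A := f x - (hs ρ M B f (ρ x) - hs ρ M B f x)

/-- the companion of `ls` on edges -/
noncomputable def lt {X A : Type} [AddCommGroup A] (ρ : X ≃ X) (M : Set X) (B : ℕ) (f : X → A)
    (x : X) : A := f x - hs ρ M B (fun y => f (ρ y) - f y) x

/-- maps commuting with the automorphisms and preserving the markers -/
def Cm {X : Type} (ρ : Fin 3 → X ≃ X) (M : Fin 3 → ℕ → Set X) (τ : X → X) : Prop :=
  (∀ i x, ρ i (τ x) = τ (ρ i x)) ∧ ∀ i n x, τ x ∈ M i n ↔ x ∈ M i n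

/-- equidecomposability of multisets -/
def Eqd {d : ℕ} (F G : E d → ℕ) : Prop :=
  ∃ (k : ℕ) (γ : Fin k → (E d ≃ᵢ E d)) (w : Fin k → E d → ℕ), (∀ i, Measurable (w i)) ∧
    (∀ x, F x = ∑ i, w i x) ∧ ∀ x, G x = ∑ i, w i ((γ i).symm x)

open Classical in
/-- indicator function with values in `ℕ` -/
noncomputable def ind {d : ℕ} (A : Set (E d)) (x : E d) : ℕ := if x ∈ A then 1 else 0

/-- the half-open column of height `h` over the cube of side `t` (the coordinate `0` is the height) -/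
def slab (d : ℕ) (t h : ℝ) : Set (E d) :=
  {x | (∀ i, 0 ≤ x i) ∧ (∀ i, i.val ≠ 0 → x i < t) ∧ ∀ i, i.val = 0 → x i < h}

/-- average over the coordinates in the block `e`, on the unit cube -/
noncomputable def cx {d : ℕ} (e : Fin 3 ↪ Fin d) (f : E d → ℝ) (x : E d) : ℝ :=
  (cube 0 1).indicator (fun x => ∫ y : E 3, f (setB e x y)) x

end Pool.Agent.Helper557.Rz
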