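import Pool.Agent.Helper557.Rz.M_gap3
import Pool.Agent.Helper557.Rz.M_hb
import Pool.Agent.Helper557.Rz.M_movgap

set_option autoImplicit false

open MeasureTheory Set

namespace Pool.Agent.Helper557.Rz

theorem gap_flow : ∃ (k : ℕ) (g : Fin k → Iso 3) (κ C : ℝ), SGD 3 k g κ ∧ 0 < C ∧ Flow 3 k g C := by
  obtain ⟨k, g, κ, hg⟩ := gap3
  obtain ⟨ε₀, h0, hmov⟩ := mov_of_gap 3 (by omega) k g κ hg
  exact ⟨k, g, κ, 1 / ε₀, hg, by positivity, flow_of_mov 3 (by omega) k g ε₀ h0 hmov⟩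

end Pool.Agent.Helper557.Rz
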