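import Pool.Agent.Helper557.Eq.Defs

set_option autoImplicit false

open MeasureTheory Set

namespace Pool.Agent.Helper557.Rz
theorem hs1_shift {A : Type} [AddCommGroup A] (B : ℕ) (g : ℕ → A) :
    ∑ j ∈ Finset.Icc 1 B, g j = ∑ j ∈ Finset.range B, g (j + 1) := by
  induction B with
  | zero => simp
  | succ B ih =>
    rw [Finset.sum_Icc_succ_top (by omega), ih, Finset.sum_range_succ]

open Classical in
theorem hs1_step {X A : Type} [AddCommGroup A] (ρ : X ≃ X) (M : Set X) (B : ℕ)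
    (hB : ∀ x, ∃ j, 1 ≤ j ∧ j ≤ B ∧ (ρ.symm^[j]) x ∈ M) (f : X → A) (x : X) (hx : x ∉ M) :
    hs ρ M B f (ρ x) = hs ρ M B f x + f x := by
  obtain ⟨b, hb⟩ : ∃ b : ℕ → A, b = fun j => if ∀ i ∈ Finset.Icc 1 j, (ρ.symm^[i]) x ∉ M then f ((ρ.symm^[j]) x) else 0 :=
    ⟨_, rfl⟩
  have h1 : hs ρ M B f (ρ x) = ∑ j ∈ Finset.range B, b j := by
    unfold hs
    rw [hs1_shift]
    refine Finset.sum_congr rfl fun j _ => ?_
    rw [hb]
    simp only
    have e1 : (ρ.symm^[j + 1]) (ρ x) = (ρ.symm^[j]) x := by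
      rw [Function.iterate_succ_apply, Equiv.symm_apply_apply]
    rw [e1]
    have e2 : (∀ i ∈ Finset.Icc 1 (j + 1), (ρ.symm^[i]) (ρ x) ∉ M) ↔ (∀ i ∈ Finset.Icc 1 j, (ρ.symm^[i]) x ∉ M) := by
      constructor
      · intro h i hi
        rw [Finset.mem_Icc] at hi
        have h2 := h (i + 1) (Finset.mem_Icc.2 ⟨by omega, by omega⟩)
        rwa [Function.iterate_succ_apply, Equiv.symm_apply_apply] at h2
      · intro h i hi
        rw [Finset.mem_Icc] at hi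
        obtain ⟨i', rfl⟩ : ∃ i', i = i' + 1 := ⟨i - 1, by omega⟩
        rw [Function.iterate_succ_apply, Equiv.symm_apply_apply]
        rcases Nat.eq_zero_or_pos i' with h0 | h0
        · rw [h0]; exact hx
        · exact h i' (Finset.mem_Icc.2 ⟨h0, by omega⟩)
    by_cases hc : ∀ i ∈ Finset.Icc 1 j, (ρ.symm^[i]) x ∉ M
    · rw [if_pos hc, if_pos (e2.2 hc)]
    · rw [if_neg hc, if_neg (fun h => hc (e2.1 h))]
  have h2 : hs ρ M B f x = ∑ j ∈ Finset.range B, b (j + 1) := by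
    unfold hs
    rw [hs1_shift, hb]
  have h3 : b 0 = f x := by
    rw [hb]
    simp
  have h4 : b B = 0 := by
    rw [hb]
    simp only
    rw [if_neg]
    intro h
    obtain ⟨j, j1, j2, j3⟩ := hB x
    exact h j (Finset.mem_Icc.2 ⟨j1, j2⟩) j3
  have h5 := Finset.sum_range_succ b B
  have h6 := Finset.sum_range_succ' b B
  rw [h5, h3, h4, add_zero] at h6
  rw [h1, h2, h6]


theorem ls_supp {X A : Type} [AddCommGroup A] (ρ : X ≃ X) (M : Set X) (B : ℕ)
    (hB : ∀ x, ∃ j, 1 ≤ j ∧ j ≤ B ∧ (ρ.symm^[j]) x ∈ M) (f : X → A) (x : X) (hx : x ∉ M) :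
    ls ρ M B f x = 0 := by
  unfold ls
  rw [hs1_step ρ M B hB f x hx]
  abel

theorem hs_alg {X A : Type} [AddCommGroup A] (ρ : X ≃ X) (M : Set X) (B : ℕ) (f g : X → A) (x : X) :
    hs ρ M B (fun y => f y + g y) x = hs ρ M B f x + hs ρ M B g x ∧
    hs ρ M B (fun y => f y - g y) x = hs ρ M B f x - hs ρ M B g x ∧
    hs ρ M B (fun y => - f y) x = - hs ρ M B f x ∧ hs ρ M B (fun _ => (0 : A)) x = 0 := by
  classical
  unfold hs
  refine ⟨?_, ?_, ?_, ?_⟩
  · rw [← Finset.sum_add_distrib]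
    refine Finset.sum_congr rfl fun j _ => ?_
    split_ifs <;> simp
  · rw [← Finset.sum_sub_distrib]
    refine Finset.sum_congr rfl fun j _ => ?_
    split_ifs <;> simp
  · rw [← Finset.sum_neg_distrib]
    refine Finset.sum_congr rfl fun j _ => ?_
    split_ifs <;> simp
  · refine Finset.sum_eq_zero fun j _ => ?_
    split_ifs <;> rfl

theorem hs1_zero {X A : Type} [AddCommGroup A] (ρ : X ≃ X) (M : Set X) (B : ℕ) (Q : Set X)
    (hQ : ∀ x, ρ x ∈ Q ↔ x ∈ Q) (f : X → A) (hf : ∀ x, x ∉ Q → f x = 0) (x : X) (hx : x ∉ Q) :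
    hs ρ M B f x = 0 := by
  classical
  unfold hs
  have h1 : ∀ j : ℕ, (ρ.symm^[j]) x ∉ Q := by
    intro j
    induction j with
    | zero => exact hx
    | succ j ih =>
      rw [Function.iterate_succ_apply']
      intro h
      apply ih
      have := (hQ (ρ.symm ((ρ.symm^[j]) x))).2 h
      rwa [Equiv.apply_symm_apply] at this
  refine Finset.sum_eq_zero fun j _ => ?_
  rw [hf _ (h1 j)]
  split_ifs <;> rfl

theorem hs_set {X A : Type} [AddCommGroup A] (ρ : X ≃ X) (M : Set X) (B : ℕ) (Q : Set X)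
    (hQ : ∀ x, ρ x ∈ Q ↔ x ∈ Q) (f : X → A) (hf : ∀ x, x ∉ Q → f x = 0) (x : X) (hx : x ∉ Q) :
    hs ρ M B f x = 0 ∧ ls ρ M B f x = 0 ∧ lt ρ M B f x = 0 := by
  have hx' : ρ x ∉ Q := fun h => hx ((hQ x).1 h)
  refine ⟨hs1_zero ρ M B Q hQ f hf x hx, ?_, ?_⟩
  · unfold ls
    rw [hs1_zero ρ M B Q hQ f hf x hx, hs1_zero ρ M B Q hQ f hf (ρ x) hx', hf x hx]
    abel
  · unfold lt
    rw [hs1_zero ρ M B Q hQ (fun y => f (ρ y) - f y) (fun y hy => by
      rw [hf y hy, hf (ρ y) (fun h => hy ((hQ y).1 h)), sub_zero]) x hx, hf x hx, sub_zero]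

theorem lt_edge {X A : Type} [AddCommGroup A] (ρ : X ≃ X) (M : Set X) (B : ℕ) (f : X → A) (x : X) :
    lt ρ M B f (ρ x) - lt ρ M B f x = ls ρ M B (fun y => f (ρ y) - f y) x := by
  unfold lt ls
  generalize hs ρ M B (fun y => f (ρ y) - f y) (ρ x) = a
  generalize hs ρ M B (fun y => f (ρ y) - f y) x = b
  show f (ρ x) - a - (f x - b) = (f (ρ x) - f x) - (a - b)
  abel


end Pool.Agent.Helper557.Rz
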