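import Pool.Agent.Helper557.Eq.Defs

set_option autoImplicit false

open MeasureTheory Set

namespace Pool.Agent.Helper557.Rz
theorem hs2_iter {X : Type} (ρ : X ≃ X) (τ : X → X) (h1 : ∀ x, ρ (τ x) = τ (ρ x)) (j : ℕ) (x : X) :
    (ρ.symm^[j]) (τ x) = τ ((ρ.symm^[j]) x) := by
  have h3 : ∀ x, ρ.symm (τ x) = τ (ρ.symm x) := by
    intro x
    apply ρ.injective
    rw [ρ.apply_symm_apply, h1, ρ.apply_symm_apply]
  induction j generalizing x with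
  | zero => rfl
  | succ j ih =>
    rw [Function.iterate_succ_apply, Function.iterate_succ_apply, h3, ih]

theorem hs2_key {X A : Type} [AddCommGroup A] (ρ : X ≃ X) (M : Set X) (B : ℕ) (τ : X → X)
    (h1 : ∀ x, ρ (τ x) = τ (ρ x)) (h2 : ∀ x, τ x ∈ M ↔ x ∈ M) (f : X → A) (x : X) :
    hs ρ M B (fun y => f (τ y)) x = hs ρ M B f (τ x) := by
  unfold hs
  refine Finset.sum_congr rfl fun j _ => ?_
  have e : (∀ i ∈ Finset.Icc 1 j, (ρ.symm^[i]) x ∉ M) ↔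
      (∀ i ∈ Finset.Icc 1 j, (ρ.symm^[i]) (τ x) ∉ M) := by
    refine forall₂_congr fun i _ => ?_
    rw [hs2_iter ρ τ h1, h2]
  rw [hs2_iter ρ τ h1]
  by_cases h : ∀ i ∈ Finset.Icc 1 j, (ρ.symm^[i]) x ∉ M
  · rw [if_pos h, if_pos (e.1 h)]
  · rw [if_neg h, if_neg (fun h' => h (e.2 h'))]


theorem hs_comm {X A : Type} [AddCommGroup A] (ρ : X ≃ X) (M : Set X) (B : ℕ) (τ : X → X)
    (h1 : ∀ x, ρ (τ x) = τ (ρ x)) (h2 : ∀ x, τ x ∈ M ↔ x ∈ M) (f : X → A) (x : X) :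
    hs ρ M B (fun y => f (τ y)) x = hs ρ M B f (τ x) ∧
    ls ρ M B (fun y => f (τ y)) x = ls ρ M B f (τ x) ∧
    lt ρ M B (fun y => f (τ y)) x = lt ρ M B f (τ x) := by
  refine ⟨hs2_key ρ M B τ h1 h2 f x, ?_, ?_⟩
  · unfold ls
    rw [hs2_key ρ M B τ h1 h2 f, hs2_key ρ M B τ h1 h2 f, h1]
  · unfold lt
    have h := hs2_key ρ M B τ h1 h2 (fun y => f (ρ y) - f y) x
    simp only [h1] at h
    rw [h]



end Pool.Agent.Helper557.Rz
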