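import Pool.Agent.Helper557.Eq.Defs

set_option autoImplicit false

open MeasureTheory Set

namespace Pool.Agent.Helper557.Rz
theorem hs3_meas1 {X : Type} [MeasurableSpace X] (ρ : X ≃ X)
    (h2 : Measurable ρ.symm) (M : Set X) (hM : MeasurableSet M) (B : ℕ) (f : X → TTc)
    (hf : Measurable f) : Measurable (hs ρ M B f) := by
  classical
  have e : hs ρ M B f = fun x => ∑ j ∈ Finset.Icc 1 B,
    if ∀ i ∈ Finset.Icc 1 j, (ρ.symm^[i]) x ∉ M then f ((ρ.symm^[j]) x) else 0 := by
    funext x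
    unfold hs
    apply Finset.sum_congr rfl
    intro j _
    congr
  rw [e]
  apply Finset.measurable_fun_sum
  intro j _
  apply Measurable.ite _ _ measurable_const
  · have e2 : {x : X | ∀ i ∈ Finset.Icc 1 j, (ρ.symm^[i]) x ∉ M} =
        ⋂ i ∈ Finset.Icc 1 j, {x : X | (ρ.symm^[i]) x ∉ M} := by
      ext x
      simp only [Set.mem_ofPred_eq, Set.mem_iInter]
    rw [e2]
    apply Finset.measurableSet_biInter
    intro i _
    exact ((h2.iterate i) hM).compl
  · exact hf.comp (h2.iterate j)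


theorem hs_meas {X : Type} [MeasurableSpace X] (ρ : X ≃ X) (h1 : Measurable ρ)
    (h2 : Measurable ρ.symm) (M : Set X) (hM : MeasurableSet M) (B : ℕ) (f : X → TTc)
    (hf : Measurable f) :
    Measurable (hs ρ M B f) ∧ Measurable (ls ρ M B f) ∧ Measurable (lt ρ M B f) := by
  have h3 := hs3_meas1 ρ h2 M hM B f hf
  refine ⟨h3, ?_, ?_⟩
  · exact hf.sub ((h3.comp h1).sub h3)
  · exact hf.sub (hs3_meas1 ρ h2 M hM B (fun y => f (ρ y) - f y) ((hf.comp h1).sub hf))


end Pool.Agent.Helper557.Rz
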