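import Pool.Agent.Helper557.Eq.Defs
import Pool.Agent.Helper557.Eq.M_hs1
import Pool.Agent.Helper557.Eq.M_hs2
import Pool.Agent.Helper557.Eq.M_hs3

set_option autoImplicit false

open MeasureTheory Set

namespace Pool.Agent.Helper557.Rz


/-- the iterates -/
noncomputable def H0_F {X : Type} (ρ : Fin 3 → X ≃ X) (M : Fin 3 → ℕ → Set X)
    (B : Fin 3 → ℕ → ℕ) (f : X → TTc) : ℕ → X → TTc
  | 0 => f
  | n + 1 => ls (ρ 1) (M 1 n) (B 1 n) (ls (ρ 0) (M 0 n) (B 0 n) (H0_F ρ M B f n))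

/-- eventually constant partial sums -/
theorem H0_lim {X : Type} [MeasurableSpace X] (A : ℕ → X → TTc) (hA : ∀ n, Measurable (A n))
    (hv : ∀ x, ∃ N, ∀ n, N ≤ n → A n x = 0) :
    ∃ a : X → TTc, Measurable a ∧ ∀ x, ∃ N, ∀ n, N ≤ n → ∑ k ∈ Finset.range n, A k x = a x := by
  have h1 : ∀ x, ∃ v : TTc, ∃ N, ∀ n, N ≤ n → ∑ k ∈ Finset.range n, A k x = v := by
    intro x
    obtain ⟨N, hN⟩ := hv x
    refine ⟨∑ k ∈ Finset.range N, A k x, N, fun n hn => ?_⟩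
    induction n, hn using Nat.le_induction with
    | base => rfl
    | succ n hn ih => rw [Finset.sum_range_succ, ih, hN n hn, add_zero]
  choose a ha using h1
  refine ⟨a, ?_, ha⟩
  refine measurable_of_tendsto_metrizable (f := fun n x => ∑ k ∈ Finset.range n, A k x)
    (fun n => Finset.measurable_sum _ fun k _ => hA k) ?_
  rw [tendsto_pi_nhds]
  intro x
  obtain ⟨N, hN⟩ := ha x
  refine tendsto_const_nhds.congr' ?_
  filter_upwards [Filter.eventually_ge_atTop N] with n hn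
  exact (hN n hn).symm

theorem H0_meas {X : Type} [MeasurableSpace X] (ρ : Fin 3 → X ≃ X) (M : Fin 3 → ℕ → Set X)
    (B : Fin 3 → ℕ → ℕ) (h : Mark ρ M B) (f : X → TTc) (hf : Measurable f) (n : ℕ) :
    Measurable (H0_F ρ M B f n) := by
  induction n with
  | zero => exact hf
  | succ n ih =>
    exact (hs_meas (ρ 1) (h.meas 1) (h.meas' 1) (M 1 n) (h.mM 1 n) (B 1 n) _
      (hs_meas (ρ 0) (h.meas 0) (h.meas' 0) (M 0 n) (h.mM 0 n) (B 0 n) _ ih).2.1).2.1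

theorem H0_tau {X : Type} [MeasurableSpace X] (ρ : Fin 3 → X ≃ X) (M : Fin 3 → ℕ → Set X)
    (B : Fin 3 → ℕ → ℕ) (f : X → TTc) (τ : X → X)
    (hτ : Cm ρ M τ) (hfτ : ∀ x, f (τ x) = f x) (n : ℕ) :
    ∀ x, H0_F ρ M B f n (τ x) = H0_F ρ M B f n x := by
  induction n with
  | zero => exact hfτ
  | succ n ih =>
    have e1 : (fun y => H0_F ρ M B f n (τ y)) = H0_F ρ M B f n := funext ih
    have h1 : ∀ x, ls (ρ 0) (M 0 n) (B 0 n) (H0_F ρ M B f n) (τ x) =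
        ls (ρ 0) (M 0 n) (B 0 n) (H0_F ρ M B f n) x := by
      intro x
      have := (hs_comm (ρ 0) (M 0 n) (B 0 n) τ (hτ.1 0) (hτ.2 0 n) (H0_F ρ M B f n) x).2.1
      rw [e1] at this
      exact this.symm
    intro x
    have e2 : (fun y => ls (ρ 0) (M 0 n) (B 0 n) (H0_F ρ M B f n) (τ y)) =
        ls (ρ 0) (M 0 n) (B 0 n) (H0_F ρ M B f n) := funext h1
    have := (hs_comm (ρ 1) (M 1 n) (B 1 n) τ (hτ.1 1) (hτ.2 1 n)
      (ls (ρ 0) (M 0 n) (B 0 n) (H0_F ρ M B f n)) x).2.1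
    rw [e2] at this
    exact this.symm

theorem H0 {X : Type} [MeasurableSpace X] (ρ : Fin 3 → X ≃ X) (M : Fin 3 → ℕ → Set X)
    (B : Fin 3 → ℕ → ℕ) (h : Mark ρ M B) (f : X → TTc) (hf : Measurable f) :
    ∃ a b : X → TTc, Measurable a ∧ Measurable b ∧
      (∀ x, f x = (a (ρ 0 x) - a x) + (b (ρ 1 x) - b x)) ∧
      ∀ τ : X → X, Cm ρ M τ → (∀ x, f (τ x) = f x) → ∀ x, a (τ x) = a x ∧ b (τ x) = b x := by
  set F := H0_F ρ M B f with hF
  set L : ℕ → X → TTc := fun n => ls (ρ 0) (M 0 n) (B 0 n) (F n) with hL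
  set A : ℕ → X → TTc := fun n => hs (ρ 0) (M 0 n) (B 0 n) (F n) with hA
  set G : ℕ → X → TTc := fun n => hs (ρ 1) (M 1 n) (B 1 n) (L n) with hG
  have hFs : ∀ n, F (n + 1) = ls (ρ 1) (M 1 n) (B 1 n) (L n) := fun n => rfl
  have hFm : ∀ n, Measurable (F n) := fun n => H0_meas ρ M B h f hf n
  have hAm : ∀ n, Measurable (A n) := fun n =>
    (hs_meas (ρ 0) (h.meas 0) (h.meas' 0) (M 0 n) (h.mM 0 n) (B 0 n) _ (hFm n)).1
  have hLm : ∀ n, Measurable (L n) := fun n =>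
    (hs_meas (ρ 0) (h.meas 0) (h.meas' 0) (M 0 n) (h.mM 0 n) (B 0 n) _ (hFm n)).2.1
  have hGm : ∀ n, Measurable (G n) := fun n =>
    (hs_meas (ρ 1) (h.meas 1) (h.meas' 1) (M 1 n) (h.mM 1 n) (B 1 n) _ (hLm n)).1
  -- supports
  have hFsupp : ∀ n x, x ∉ M 1 n → F (n + 1) x = 0 := fun n x hx =>
    ls_supp (ρ 1) (M 1 n) (B 1 n) (h.recur 1 n) (L n) x hx
  have hLsupp : ∀ n x, x ∉ M 0 n → L n x = 0 := fun n x hx =>
    ls_supp (ρ 0) (M 0 n) (B 0 n) (h.recur 0 n) (F n) x hx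
  have hAsupp : ∀ n x, x ∉ M 1 n → A (n + 1) x = 0 := fun n x hx =>
    (hs_set (ρ 0) (M 0 (n + 1)) (B 0 (n + 1)) (M 1 n)
      (fun y => h.inv 1 0 n y (by decide)) (F (n + 1)) (hFsupp n) x hx).1
  have hGsupp : ∀ n x, x ∉ M 0 n → G n x = 0 := fun n x hx =>
    (hs_set (ρ 1) (M 1 n) (B 1 n) (M 0 n)
      (fun y => h.inv 0 1 n y (by decide)) (L n) (hLsupp n) x hx).1
  have hFv : ∀ x, ∃ N, ∀ n, N ≤ n → F n x = 0 := by
    intro x
    obtain ⟨N, hN⟩ := h.van 1 x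
    refine ⟨N + 1, fun n hn => ?_⟩
    obtain ⟨m, rfl⟩ : ∃ m, n = m + 1 := ⟨n - 1, by omega⟩
    exact hFsupp m x (hN m (by omega))
  have hAv : ∀ x, ∃ N, ∀ n, N ≤ n → A n x = 0 := by
    intro x
    obtain ⟨N, hN⟩ := h.van 1 x
    refine ⟨N + 1, fun n hn => ?_⟩
    obtain ⟨m, rfl⟩ : ∃ m, n = m + 1 := ⟨n - 1, by omega⟩
    exact hAsupp m x (hN m (by omega))
  have hGv : ∀ x, ∃ N, ∀ n, N ≤ n → G n x = 0 := by
    intro x
    obtain ⟨N, hN⟩ := h.van 0 x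
    exact ⟨N, fun n hn => hGsupp n x (hN n hn)⟩
  obtain ⟨a, ham, ha⟩ := H0_lim A hAm hAv
  obtain ⟨b, hbm, hb⟩ := H0_lim G hGm hGv
  have hstep : ∀ n x, F n x = F (n + 1) x + ((A n (ρ 0 x) - A n x) + (G n (ρ 1 x) - G n x)) := by
    intro n x
    have e1 : L n x = F n x - (A n (ρ 0 x) - A n x) := rfl
    have e2 : F (n + 1) x = L n x - (G n (ρ 1 x) - G n x) := rfl
    rw [e2, e1]; abel
  have htel : ∀ N x, f x = F N x + ((∑ k ∈ Finset.range N, A k (ρ 0 x) -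
      ∑ k ∈ Finset.range N, A k x) + (∑ k ∈ Finset.range N, G k (ρ 1 x) -
      ∑ k ∈ Finset.range N, G k x)) := by
    intro N x
    induction N with
    | zero => simp [hF, H0_F]
    | succ N ih =>
      rw [ih, hstep N x]
      simp only [Finset.sum_range_succ]
      abel
  refine ⟨a, b, ham, hbm, ?_, ?_⟩
  · intro x
    obtain ⟨N1, h1⟩ := ha (ρ 0 x)
    obtain ⟨N2, h2⟩ := ha x
    obtain ⟨N3, h3⟩ := hb (ρ 1 x)
    obtain ⟨N4, h4⟩ := hb x
    obtain ⟨N5, h5⟩ := hFv x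
    have := htel (N1 + N2 + N3 + N4 + N5) x
    rw [h1 _ (by omega), h2 _ (by omega), h3 _ (by omega), h4 _ (by omega), h5 _ (by omega),
      zero_add] at this
    exact this
  · intro τ hτ hfτ x
    have hFτ : ∀ n y, F n (τ y) = F n y := fun n => H0_tau ρ M B f τ hτ hfτ n
    have hAτ : ∀ n y, A n (τ y) = A n y := by
      intro n y
      have e1 : (fun y => F n (τ y)) = F n := funext (hFτ n)
      have := (hs_comm (ρ 0) (M 0 n) (B 0 n) τ (hτ.1 0) (hτ.2 0 n) (F n) y).1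
      rw [e1] at this
      exact this.symm
    have hLτ : ∀ n y, L n (τ y) = L n y := by
      intro n y
      have e1 : (fun y => F n (τ y)) = F n := funext (hFτ n)
      have := (hs_comm (ρ 0) (M 0 n) (B 0 n) τ (hτ.1 0) (hτ.2 0 n) (F n) y).2.1
      rw [e1] at this
      exact this.symm
    have hGτ : ∀ n y, G n (τ y) = G n y := by
      intro n y
      have e1 : (fun y => L n (τ y)) = L n := funext (hLτ n)
      have := (hs_comm (ρ 1) (M 1 n) (B 1 n) τ (hτ.1 1) (hτ.2 1 n) (L n) y).1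
      rw [e1] at this
      exact this.symm
    obtain ⟨N1, h1⟩ := ha (τ x)
    obtain ⟨N2, h2⟩ := ha x
    obtain ⟨N3, h3⟩ := hb (τ x)
    obtain ⟨N4, h4⟩ := hb x
    constructor
    · rw [← h1 (N1 + N2) (by omega), ← h2 (N1 + N2) (by omega)]
      exact Finset.sum_congr rfl fun k _ => hAτ k x
    · rw [← h3 (N3 + N4) (by omega), ← h4 (N3 + N4) (by omega)]
      exact Finset.sum_congr rfl fun k _ => hGτ k x


end Pool.Agent.Helper557.Rz
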