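import Pool.Agent.Helper557.Eq.Defs
import Pool.Agent.Helper557.Eq.M_hs1
import Pool.Agent.Helper557.Eq.M_hs2
import Pool.Agent.Helper557.Eq.M_hs3

set_option autoImplicit false

open MeasureTheory Set

namespace Pool.Agent.Helper557.Rz
/-- difference along an automorphism -/
def H1_D {X A : Type} [AddCommGroup A] (ρ : X ≃ X) : (X → A) →+ (X → A) :=
  AddMonoidHom.mk' (fun f x => f (ρ x) - f x) (by
    intro f g; ext x; simp only [Pi.add_apply]; abel)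

/-- `hs` as a homomorphism -/
noncomputable def H1_H {X A : Type} [AddCommGroup A] (ρ : X ≃ X) (M : Set X) (B : ℕ) :
    (X → A) →+ (X → A) :=
  AddMonoidHom.mk' (hs ρ M B) (by
    intro f g; ext x; exact (hs_alg ρ M B f g x).1)

theorem H1_H_apply {X A : Type} [AddCommGroup A] (ρ : X ≃ X) (M : Set X) (B : ℕ) (f : X → A) :
    H1_H ρ M B f = hs ρ M B f := rfl

theorem H1_ls_eq {X A : Type} [AddCommGroup A] (ρ : X ≃ X) (M : Set X) (B : ℕ) (f : X → A) :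
    ls ρ M B f = f - H1_D ρ (H1_H ρ M B f) := rfl

theorem H1_lt_eq {X A : Type} [AddCommGroup A] (ρ : X ≃ X) (M : Set X) (B : ℕ) (f : X → A) :
    lt ρ M B f = f - H1_H ρ M B (H1_D ρ f) := rfl

/-- `ls` as a homomorphism -/
noncomputable def H1_L {X A : Type} [AddCommGroup A] (ρ : X ≃ X) (M : Set X) (B : ℕ) :
    (X → A) →+ (X → A) :=
  AddMonoidHom.mk' (ls ρ M B) (by
    intro f g; rw [H1_ls_eq, H1_ls_eq, H1_ls_eq, map_add, map_add]; abel)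

/-- `lt` as a homomorphism -/
noncomputable def H1_T {X A : Type} [AddCommGroup A] (ρ : X ≃ X) (M : Set X) (B : ℕ) :
    (X → A) →+ (X → A) :=
  AddMonoidHom.mk' (lt ρ M B) (by
    intro f g; rw [H1_lt_eq, H1_lt_eq, H1_lt_eq, map_add, map_add]; abel)

/-- the abstract step -/
theorem H1_step {V : Type} [AddCommGroup V] (D0 D1 D2 H G F L L' K K' J : V →+ V)
    (hL : ∀ x, L x = x - D0 (H x)) (hL' : ∀ x, L' x = x - H (D0 x))
    (hK : ∀ x, K x = x - D1 (G x)) (hK' : ∀ x, K' x = x - G (D1 x))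
    (hJ : ∀ x, J x = x - D2 (F x))
    (c01 : ∀ x, D0 (D1 x) = D1 (D0 x)) (c02 : ∀ x, D0 (D2 x) = D2 (D0 x))
    (c12 : ∀ x, D1 (D2 x) = D2 (D1 x))
    (h1 : ∀ x, H (D1 x) = D1 (H x)) (g0 : ∀ x, G (D0 x) = D0 (G x))
    (f0 : ∀ x, F (D0 x) = D0 (F x)) (f1 : ∀ x, F (D1 x) = D1 (F x))
    (f g : V) (hz : D0 f + D1 g = 0) :
    f - J (L' (K f)) = D1 (L' (G f) - H g) + D2 (F (L' (K f))) ∧
    g - J (L (K' g)) = - D0 (L' (G f) - H g) + D2 (F (L (K' g))) ∧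
    D0 (F (L' (K f))) + D1 (F (L (K' g))) = 0 ∧
    D0 (J (L' (K f))) + D1 (J (L (K' g))) = 0 := by
  have hg1 : D1 g = - D0 f := (neg_eq_of_add_eq_zero_right hz).symm
  have e1 : L' (K f) = f - D1 (L' (G f) - H g) := by
    rw [hK, map_sub, map_sub, hL' f, hL' (D1 (G f)), hL' (G f), c01, h1, map_sub, ← h1 g, hg1,
      map_neg]
    abel
  have e2 : L (K' g) = g + D0 (L' (G f) - H g) := by
    rw [hK', hg1, map_neg, g0, sub_neg_eq_add, map_add, hL g, hL (D0 (G f)), hL' (G f), map_sub,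
      map_sub]
    abel
  have e3 : D0 (L' (K f)) + D1 (L (K' g)) = 0 := by
    rw [e1, e2, map_sub, map_add, c01, hg1]
    abel
  refine ⟨?_, ?_, ?_, ?_⟩
  · rw [hJ, e1]
    abel
  · rw [hJ, e2]
    abel
  · rw [← f0, ← f1, ← map_add, e3, map_zero]
  · rw [hJ, hJ, map_sub, map_sub, c02, c12]
    have h2 : D2 (D0 (F (L' (K f)))) + D2 (D1 (F (L (K' g)))) = 0 := by
      rw [← map_add, ← f0, ← f1, ← map_add, e3, map_zero, map_zero]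
    have h3 : D0 (L' (K f)) - D2 (D0 (F (L' (K f)))) + (D1 (L (K' g)) - D2 (D1 (F (L (K' g))))) =
        (D0 (L' (K f)) + D1 (L (K' g))) - (D2 (D0 (F (L' (K f)))) + D2 (D1 (F (L (K' g))))) := by
      abel
    rw [h3, e3, h2, sub_zero]

theorem H1_comm_DD {X A : Type} [AddCommGroup A] (ρ σ : X ≃ X) (h : ∀ x, ρ (σ x) = σ (ρ x))
    (f : X → A) : H1_D ρ (H1_D σ f) = H1_D σ (H1_D ρ f) := by
  ext x
  show (f (σ (ρ x)) - f (ρ x)) - (f (σ x) - f x) = (f (ρ (σ x)) - f (σ x)) - (f (ρ x) - f x)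
  rw [h]
  abel

theorem H1_comm_HD {X A : Type} [AddCommGroup A] (ρ σ : X ≃ X) (M : Set X) (B : ℕ)
    (h : ∀ x, ρ (σ x) = σ (ρ x)) (hM : ∀ x, σ x ∈ M ↔ x ∈ M) (f : X → A) :
    H1_H ρ M B (H1_D σ f) = H1_D σ (H1_H ρ M B f) := by
  ext x
  show hs ρ M B (fun y => f (σ y) - f y) x = hs ρ M B f (σ x) - hs ρ M B f x
  rw [(hs_alg ρ M B (fun y => f (σ y)) f x).2.1, (hs_comm ρ M B σ h hM f x).1]

/-- the iteration -/
noncomputable def H1_seq {X : Type} (ρ : Fin 3 → X ≃ X) (M : Fin 3 → ℕ → Set X)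
    (B : Fin 3 → ℕ → ℕ) (f g : X → TTc) : ℕ → (X → TTc) × (X → TTc)
  | 0 => (f, g)
  | n + 1 => (ls (ρ 2) (M 2 n) (B 2 n) (lt (ρ 0) (M 0 n) (B 0 n)
      (ls (ρ 1) (M 1 n) (B 1 n) (H1_seq ρ M B f g n).1)),
      ls (ρ 2) (M 2 n) (B 2 n) (ls (ρ 0) (M 0 n) (B 0 n)
      (lt (ρ 1) (M 1 n) (B 1 n) (H1_seq ρ M B f g n).2)))

noncomputable def H1_w {X : Type} (ρ : Fin 3 → X ≃ X) (M : Fin 3 → ℕ → Set X)
    (B : Fin 3 → ℕ → ℕ) (f g : X → TTc) (n : ℕ) : X → TTc := fun x =>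
  lt (ρ 0) (M 0 n) (B 0 n) (hs (ρ 1) (M 1 n) (B 1 n) (H1_seq ρ M B f g n).1) x -
    hs (ρ 0) (M 0 n) (B 0 n) (H1_seq ρ M B f g n).2 x

noncomputable def H1_u {X : Type} (ρ : Fin 3 → X ≃ X) (M : Fin 3 → ℕ → Set X)
    (B : Fin 3 → ℕ → ℕ) (f g : X → TTc) (n : ℕ) : X → TTc :=
  hs (ρ 2) (M 2 n) (B 2 n) (lt (ρ 0) (M 0 n) (B 0 n)
      (ls (ρ 1) (M 1 n) (B 1 n) (H1_seq ρ M B f g n).1))

noncomputable def H1_v {X : Type} (ρ : Fin 3 → X ≃ X) (M : Fin 3 → ℕ → Set X)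
    (B : Fin 3 → ℕ → ℕ) (f g : X → TTc) (n : ℕ) : X → TTc :=
  hs (ρ 2) (M 2 n) (B 2 n) (ls (ρ 0) (M 0 n) (B 0 n)
      (lt (ρ 1) (M 1 n) (B 1 n) (H1_seq ρ M B f g n).2))

theorem H1_identities {X : Type} [MeasurableSpace X] (ρ : Fin 3 → X ≃ X) (M : Fin 3 → ℕ → Set X)
    (B : Fin 3 → ℕ → ℕ) (h : Mark ρ M B) (f g : X → TTc)
    (hz : ∀ x, (f (ρ 0 x) - f x) + (g (ρ 1 x) - g x) = 0) (n : ℕ) :
    (∀ x, ((H1_seq ρ M B f g n).1 (ρ 0 x) - (H1_seq ρ M B f g n).1 x) +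
      ((H1_seq ρ M B f g n).2 (ρ 1 x) - (H1_seq ρ M B f g n).2 x) = 0) ∧
    (∀ x, (H1_seq ρ M B f g n).1 x - (H1_seq ρ M B f g (n + 1)).1 x =
      (H1_w ρ M B f g n (ρ 1 x) - H1_w ρ M B f g n x) +
      (H1_u ρ M B f g n (ρ 2 x) - H1_u ρ M B f g n x)) ∧
    (∀ x, (H1_seq ρ M B f g n).2 x - (H1_seq ρ M B f g (n + 1)).2 x =
      - (H1_w ρ M B f g n (ρ 0 x) - H1_w ρ M B f g n x) +
      (H1_v ρ M B f g n (ρ 2 x) - H1_v ρ M B f g n x)) ∧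
    (∀ x, (H1_u ρ M B f g n (ρ 0 x) - H1_u ρ M B f g n x) +
      (H1_v ρ M B f g n (ρ 1 x) - H1_v ρ M B f g n x) = 0) := by
  have key : ∀ n (f' g' : X → TTc), (∀ x, (f' (ρ 0 x) - f' x) + (g' (ρ 1 x) - g' x) = 0) → _ :=
    fun n f' g' hz' => H1_step (H1_D (ρ 0)) (H1_D (ρ 1)) (H1_D (ρ 2))
      (H1_H (ρ 0) (M 0 n) (B 0 n)) (H1_H (ρ 1) (M 1 n) (B 1 n)) (H1_H (ρ 2) (M 2 n) (B 2 n))
      (H1_L (ρ 0) (M 0 n) (B 0 n)) (H1_T (ρ 0) (M 0 n) (B 0 n))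
      (H1_L (ρ 1) (M 1 n) (B 1 n)) (H1_T (ρ 1) (M 1 n) (B 1 n))
      (H1_L (ρ 2) (M 2 n) (B 2 n))
      (fun _ => rfl) (fun _ => rfl) (fun _ => rfl) (fun _ => rfl) (fun _ => rfl)
      (H1_comm_DD _ _ (h.comm 0 1)) (H1_comm_DD _ _ (h.comm 0 2)) (H1_comm_DD _ _ (h.comm 1 2))
      (H1_comm_HD _ _ _ _ (h.comm 0 1) (fun x => h.inv 0 1 n x (by decide)))
      (H1_comm_HD _ _ _ _ (h.comm 1 0) (fun x => h.inv 1 0 n x (by decide)))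
      (H1_comm_HD _ _ _ _ (h.comm 2 0) (fun x => h.inv 2 0 n x (by decide)))
      (H1_comm_HD _ _ _ _ (h.comm 2 1) (fun x => h.inv 2 1 n x (by decide)))
      f' g' (funext hz')
  have hcyc : ∀ n, ∀ x, ((H1_seq ρ M B f g n).1 (ρ 0 x) - (H1_seq ρ M B f g n).1 x) +
      ((H1_seq ρ M B f g n).2 (ρ 1 x) - (H1_seq ρ M B f g n).2 x) = 0 := by
    intro n
    induction n with
    | zero => exact hz
    | succ n ih => exact fun x => congrFun (key n _ _ ih).2.2.2 x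
  obtain ⟨k1, k2, k3, _⟩ := key n _ _ (hcyc n)
  exact ⟨hcyc n, fun x => congrFun k1 x, fun x => congrFun k2 x, fun x => congrFun k3 x⟩

theorem H1_supp {X : Type} [MeasurableSpace X] (ρ : Fin 3 → X ≃ X) (M : Fin 3 → ℕ → Set X)
    (B : Fin 3 → ℕ → ℕ) (h : Mark ρ M B) (f g : X → TTc) (x : X) :
    ∃ N, ∀ n, N ≤ n → (H1_seq ρ M B f g n).1 x = 0 ∧ (H1_seq ρ M B f g n).2 x = 0 ∧
      H1_w ρ M B f g n x = 0 ∧ H1_u ρ M B f g n x = 0 ∧ H1_v ρ M B f g n x = 0 := by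
  obtain ⟨N0, hN0⟩ := h.van 0 x
  obtain ⟨N1, hN1⟩ := h.van 1 x
  obtain ⟨N2, hN2⟩ := h.van 2 x
  have hf : ∀ n, ∀ y, y ∉ M 2 n → (H1_seq ρ M B f g (n + 1)).1 y = 0 := fun n y hy =>
    ls_supp _ _ _ (h.recur 2 n) _ y hy
  have hg : ∀ n, ∀ y, y ∉ M 2 n → (H1_seq ρ M B f g (n + 1)).2 y = 0 := fun n y hy =>
    ls_supp _ _ _ (h.recur 2 n) _ y hy
  have hw : ∀ n, ∀ y, y ∉ M 2 n → H1_w ρ M B f g (n + 1) y = 0 := by
    intro n y hy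
    unfold H1_w
    have a1 : ∀ y, y ∉ M 2 n →
        hs (ρ 1) (M 1 (n + 1)) (B 1 (n + 1)) (H1_seq ρ M B f g (n + 1)).1 y = 0 := fun y hy =>
      (hs_set (ρ 1) _ _ (M 2 n) (fun x => h.inv 2 1 n x (by decide)) _ (hf n) y hy).1
    rw [(hs_set (ρ 0) _ _ (M 2 n) (fun x => h.inv 2 0 n x (by decide)) _ a1 y hy).2.2,
      (hs_set (ρ 0) _ _ (M 2 n) (fun x => h.inv 2 0 n x (by decide)) _ (hg n) y hy).1, sub_zero]
  have hu : ∀ n, ∀ y, y ∉ M 1 n → H1_u ρ M B f g n y = 0 := by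
    intro n y hy
    have a1 : ∀ y, y ∉ M 1 n →
        ls (ρ 1) (M 1 n) (B 1 n) (H1_seq ρ M B f g n).1 y = 0 := fun y hy =>
      ls_supp _ _ _ (h.recur 1 n) _ y hy
    have a2 : ∀ y, y ∉ M 1 n → lt (ρ 0) (M 0 n) (B 0 n)
        (ls (ρ 1) (M 1 n) (B 1 n) (H1_seq ρ M B f g n).1) y = 0 := fun y hy =>
      (hs_set (ρ 0) _ _ (M 1 n) (fun x => h.inv 1 0 n x (by decide)) _ a1 y hy).2.2
    exact (hs_set (ρ 2) _ _ (M 1 n) (fun x => h.inv 1 2 n x (by decide)) _ a2 y hy).1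
  have hv : ∀ n, ∀ y, y ∉ M 0 n → H1_v ρ M B f g n y = 0 := by
    intro n y hy
    have a1 : ∀ y, y ∉ M 0 n → ls (ρ 0) (M 0 n) (B 0 n)
        (lt (ρ 1) (M 1 n) (B 1 n) (H1_seq ρ M B f g n).2) y = 0 := fun y hy =>
      ls_supp _ _ _ (h.recur 0 n) _ y hy
    exact (hs_set (ρ 2) _ _ (M 0 n) (fun x => h.inv 0 2 n x (by decide)) _ a1 y hy).1
  refine ⟨N0 + N1 + N2 + 1, fun n hn => ?_⟩
  obtain ⟨m, rfl⟩ : ∃ m, n = m + 1 := ⟨n - 1, by omega⟩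
  exact ⟨hf m x (hN2 m (by omega)), hg m x (hN2 m (by omega)), hw m x (hN2 m (by omega)),
    hu (m + 1) x (hN1 _ (by omega)), hv (m + 1) x (hN0 _ (by omega))⟩

theorem H1_meas {X : Type} [MeasurableSpace X] (ρ : Fin 3 → X ≃ X) (M : Fin 3 → ℕ → Set X)
    (B : Fin 3 → ℕ → ℕ) (h : Mark ρ M B) (f g : X → TTc) (hf : Measurable f) (hg : Measurable g)
    (n : ℕ) : (Measurable (H1_seq ρ M B f g n).1 ∧ Measurable (H1_seq ρ M B f g n).2) ∧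
      Measurable (H1_w ρ M B f g n) ∧ Measurable (H1_u ρ M B f g n) ∧
      Measurable (H1_v ρ M B f g n) := by
  have hm : ∀ (i : Fin 3) (n : ℕ) (φ : X → TTc), Measurable φ →
      Measurable (hs (ρ i) (M i n) (B i n) φ) ∧ Measurable (ls (ρ i) (M i n) (B i n) φ) ∧
      Measurable (lt (ρ i) (M i n) (B i n) φ) := fun i n φ hφ =>
    hs_meas (ρ i) (h.meas i) (h.meas' i) _ (h.mM i n) _ φ hφ
  have hseq : ∀ n, Measurable (H1_seq ρ M B f g n).1 ∧ Measurable (H1_seq ρ M B f g n).2 := by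
    intro n
    induction n with
    | zero => exact ⟨hf, hg⟩
    | succ n ih =>
      exact ⟨(hm 2 n _ (hm 0 n _ (hm 1 n _ ih.1).2.1).2.2).2.1,
        (hm 2 n _ (hm 0 n _ (hm 1 n _ ih.2).2.2).2.1).2.1⟩
  refine ⟨hseq n, ?_, ?_, ?_⟩
  · exact (hm 0 n _ (hm 1 n _ (hseq n).1).1).2.2.sub (hm 0 n _ (hseq n).2).1
  · exact (hm 2 n _ (hm 0 n _ (hm 1 n _ (hseq n).1).2.1).2.2).1
  · exact (hm 2 n _ (hm 0 n _ (hm 1 n _ (hseq n).2).2.2).2.1).1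

theorem H1_inv {X : Type} (ρ : Fin 3 → X ≃ X) (M : Fin 3 → ℕ → Set X)
    (B : Fin 3 → ℕ → ℕ) (f g : X → TTc) (τ : X → X) (hτ : Cm ρ M τ) (hf : ∀ x, f (τ x) = f x)
    (hg : ∀ x, g (τ x) = g x) (n : ℕ) :
    ((∀ x, (H1_seq ρ M B f g n).1 (τ x) = (H1_seq ρ M B f g n).1 x) ∧
      (∀ x, (H1_seq ρ M B f g n).2 (τ x) = (H1_seq ρ M B f g n).2 x)) ∧
    ∀ x, H1_w ρ M B f g n (τ x) = H1_w ρ M B f g n x ∧
      H1_u ρ M B f g n (τ x) = H1_u ρ M B f g n x ∧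
      H1_v ρ M B f g n (τ x) = H1_v ρ M B f g n x := by
  have hm : ∀ (i : Fin 3) (n : ℕ) (φ : X → TTc), (∀ x, φ (τ x) = φ x) →
      (∀ x, hs (ρ i) (M i n) (B i n) φ (τ x) = hs (ρ i) (M i n) (B i n) φ x) ∧
      (∀ x, ls (ρ i) (M i n) (B i n) φ (τ x) = ls (ρ i) (M i n) (B i n) φ x) ∧
      (∀ x, lt (ρ i) (M i n) (B i n) φ (τ x) = lt (ρ i) (M i n) (B i n) φ x) := by
    intro i n φ hφ
    have hfe : (fun y => φ (τ y)) = φ := funext hφ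
    have hc := fun x => hs_comm (ρ i) (M i n) (B i n) τ (hτ.1 i) (hτ.2 i n) φ x
    rw [hfe] at hc
    exact ⟨fun x => (hc x).1.symm, fun x => (hc x).2.1.symm, fun x => (hc x).2.2.symm⟩
  have hseq : ∀ n, (∀ x, (H1_seq ρ M B f g n).1 (τ x) = (H1_seq ρ M B f g n).1 x) ∧
      (∀ x, (H1_seq ρ M B f g n).2 (τ x) = (H1_seq ρ M B f g n).2 x) := by
    intro n
    induction n with
    | zero => exact ⟨hf, hg⟩
    | succ n ih =>
      exact ⟨(hm 2 n _ (hm 0 n _ (hm 1 n _ ih.1).2.1).2.2).2.1,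
        (hm 2 n _ (hm 0 n _ (hm 1 n _ ih.2).2.2).2.1).2.1⟩
  refine ⟨hseq n, fun x => ⟨?_, ?_, ?_⟩⟩
  · unfold H1_w
    rw [(hm 0 n _ (hm 1 n _ (hseq n).1).1).2.2 x, (hm 0 n _ (hseq n).2).1 x]
  · exact (hm 2 n _ (hm 0 n _ (hm 1 n _ (hseq n).1).2.1).2.2).1 x
  · exact (hm 2 n _ (hm 0 n _ (hm 1 n _ (hseq n).2).2.2).2.1).1 x

theorem H1_finsum {X : Type} (a : ℕ → X → TTc) (x : X) (N : ℕ) (hN : ∀ n, N ≤ n → a n x = 0) :
    ∑ᶠ n, a n x = ∑ n ∈ Finset.range N, a n x := by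
  apply finsum_eq_sum_of_support_subset
  intro n hn
  rw [Finset.coe_range, mem_Iio]
  by_contra hcon
  exact hn (hN n (not_lt.1 hcon))

theorem H1_meas_sum {X : Type} [MeasurableSpace X] (a : ℕ → X → TTc) (ha : ∀ n, Measurable (a n))
    (hN : ∀ x, ∃ N, ∀ n, N ≤ n → a n x = 0) : Measurable (fun x => ∑ᶠ n, a n x) := by
  apply measurable_of_tendsto_metrizable (f := fun N x => ∑ n ∈ Finset.range N, a n x)
  · intro N
    exact Finset.measurable_fun_sum _ fun n _ => ha n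
  · rw [tendsto_pi_nhds]
    intro x
    obtain ⟨N, hN⟩ := hN x
    apply tendsto_const_nhds.congr'
    filter_upwards [Filter.eventually_ge_atTop N] with m hm
    exact H1_finsum a x m fun n hn => hN n (hm.trans hn)


theorem H1 {X : Type} [MeasurableSpace X] (ρ : Fin 3 → X ≃ X) (M : Fin 3 → ℕ → Set X)
    (B : Fin 3 → ℕ → ℕ) (h : Mark ρ M B) (f g : X → TTc) (hf : Measurable f) (hg : Measurable g)
    (hz : ∀ x, (f (ρ 0 x) - f x) + (g (ρ 1 x) - g x) = 0) :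
    ∃ w u v : X → TTc, Measurable w ∧ Measurable u ∧ Measurable v ∧
      (∀ x, f x = (w (ρ 1 x) - w x) + (u (ρ 2 x) - u x)) ∧
      (∀ x, g x = - (w (ρ 0 x) - w x) + (v (ρ 2 x) - v x)) ∧
      (∀ x, (u (ρ 0 x) - u x) + (v (ρ 1 x) - v x) = 0) ∧
      ∀ τ : X → X, Cm ρ M τ → (∀ x, f (τ x) = f x) → (∀ x, g (τ x) = g x) →
        ∀ x, w (τ x) = w x ∧ u (τ x) = u x ∧ v (τ x) = v x := by
  have hs := H1_supp ρ M B h f g
  have hm := H1_meas ρ M B h f g hf hg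
  have hid := H1_identities ρ M B h f g hz
  have hw : ∀ x, ∃ N, ∀ n, N ≤ n → H1_w ρ M B f g n x = 0 := fun x => by
    obtain ⟨N, hN⟩ := hs x
    exact ⟨N, fun n hn => (hN n hn).2.2.1⟩
  have hu : ∀ x, ∃ N, ∀ n, N ≤ n → H1_u ρ M B f g n x = 0 := fun x => by
    obtain ⟨N, hN⟩ := hs x
    exact ⟨N, fun n hn => (hN n hn).2.2.2.1⟩
  have hv : ∀ x, ∃ N, ∀ n, N ≤ n → H1_v ρ M B f g n x = 0 := fun x => by
    obtain ⟨N, hN⟩ := hs x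
    exact ⟨N, fun n hn => (hN n hn).2.2.2.2⟩
  have hcommon : ∀ x, ∃ N, (∀ y ∈ ({x, ρ 0 x, ρ 1 x, ρ 2 x} : Set X),
      (∀ n, N ≤ n → H1_w ρ M B f g n y = 0) ∧ (∀ n, N ≤ n → H1_u ρ M B f g n y = 0) ∧
      (∀ n, N ≤ n → H1_v ρ M B f g n y = 0)) ∧ (H1_seq ρ M B f g N).1 x = 0 ∧
      (H1_seq ρ M B f g N).2 x = 0 := by
    intro x
    obtain ⟨N, hN⟩ := hs x
    obtain ⟨N0, hN0⟩ := hs (ρ 0 x)
    obtain ⟨N1, hN1⟩ := hs (ρ 1 x)
    obtain ⟨N2, hN2⟩ := hs (ρ 2 x)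
    refine ⟨N + N0 + N1 + N2, ?_, (hN _ (by omega)).1, (hN _ (by omega)).2.1⟩
    rintro y (rfl | rfl | rfl | rfl)
    · exact ⟨fun n hn => (hN n (by omega)).2.2.1, fun n hn => (hN n (by omega)).2.2.2.1,
        fun n hn => (hN n (by omega)).2.2.2.2⟩
    · exact ⟨fun n hn => (hN0 n (by omega)).2.2.1, fun n hn => (hN0 n (by omega)).2.2.2.1,
        fun n hn => (hN0 n (by omega)).2.2.2.2⟩
    · exact ⟨fun n hn => (hN1 n (by omega)).2.2.1, fun n hn => (hN1 n (by omega)).2.2.2.1,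
        fun n hn => (hN1 n (by omega)).2.2.2.2⟩
    · exact ⟨fun n hn => (hN2 n (by omega)).2.2.1, fun n hn => (hN2 n (by omega)).2.2.2.1,
        fun n hn => (hN2 n (by omega)).2.2.2.2⟩
  refine ⟨fun x => ∑ᶠ n, H1_w ρ M B f g n x, fun x => ∑ᶠ n, H1_u ρ M B f g n x,
    fun x => ∑ᶠ n, H1_v ρ M B f g n x, H1_meas_sum _ (fun n => (hm n).2.1) hw,
    H1_meas_sum _ (fun n => (hm n).2.2.1) hu, H1_meas_sum _ (fun n => (hm n).2.2.2) hv,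
    ?_, ?_, ?_, ?_⟩
  · intro x
    obtain ⟨N, hN, hfN, hgN⟩ := hcommon x
    simp only
    rw [H1_finsum _ x N (hN x (by simp)).1, H1_finsum _ (ρ 1 x) N (hN (ρ 1 x) (by simp)).1,
      H1_finsum _ x N (hN x (by simp)).2.1, H1_finsum _ (ρ 2 x) N (hN (ρ 2 x) (by simp)).2.1,
      ← Finset.sum_sub_distrib, ← Finset.sum_sub_distrib, ← Finset.sum_add_distrib]
    have h1 := Finset.sum_range_sub' (fun n => (H1_seq ρ M B f g n).1 x) N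
    rw [hfN, sub_zero] at h1
    rw [Finset.sum_congr rfl fun n _ => (hid n).2.1 x] at h1
    exact h1.symm
  · intro x
    obtain ⟨N, hN, hfN, hgN⟩ := hcommon x
    simp only
    rw [H1_finsum _ x N (hN x (by simp)).1, H1_finsum _ (ρ 0 x) N (hN (ρ 0 x) (by simp)).1,
      H1_finsum _ x N (hN x (by simp)).2.2, H1_finsum _ (ρ 2 x) N (hN (ρ 2 x) (by simp)).2.2,
      ← Finset.sum_sub_distrib, ← Finset.sum_sub_distrib, ← Finset.sum_neg_distrib,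
      ← Finset.sum_add_distrib]
    have h1 := Finset.sum_range_sub' (fun n => (H1_seq ρ M B f g n).2 x) N
    rw [hgN, sub_zero] at h1
    rw [Finset.sum_congr rfl fun n _ => (hid n).2.2.1 x] at h1
    exact h1.symm
  · intro x
    obtain ⟨N, hN, hfN, hgN⟩ := hcommon x
    simp only
    rw [H1_finsum _ x N (hN x (by simp)).2.1, H1_finsum _ (ρ 0 x) N (hN (ρ 0 x) (by simp)).2.1,
      H1_finsum _ x N (hN x (by simp)).2.2, H1_finsum _ (ρ 1 x) N (hN (ρ 1 x) (by simp)).2.2,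
      ← Finset.sum_sub_distrib, ← Finset.sum_sub_distrib, ← Finset.sum_add_distrib]
    exact Finset.sum_eq_zero fun n _ => (hid n).2.2.2 x
  · intro τ hτ hfτ hgτ x
    have hi := fun n => (H1_inv ρ M B f g τ hτ hfτ hgτ n).2 x
    exact ⟨finsum_congr fun n => (hi n).1, finsum_congr fun n => (hi n).2.1,
      finsum_congr fun n => (hi n).2.2⟩


end Pool.Agent.Helper557.Rz
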