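import Pool.Agent.Helper557.Eq.Defs

set_option autoImplicit false

open MeasureTheory Set

namespace Pool.Agent.Helper557.Rz
def HB_V (Y : Type) [MeasurableSpace Y] : Submodule ℝ (Y → ℝ) where
  carrier := {u | Measurable u ∧ ∃ M : ℝ, ∀ y, |u y| ≤ M}
  add_mem' := by
    rintro a b ⟨ha, M, hM⟩ ⟨hb, M', hM'⟩
    exact ⟨ha.add hb, M + M', fun y => (abs_add_le _ _).trans (add_le_add (hM y) (hM' y))⟩
  zero_mem' := ⟨measurable_const, 0, fun y => by simp⟩
  smul_mem' := by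
    rintro c a ⟨ha, M, hM⟩
    refine ⟨ha.const_smul c, |c| * M, fun y => ?_⟩
    simp only [Pi.smul_apply, smul_eq_mul, abs_mul]
    exact mul_le_mul_of_nonneg_left (hM y) (abs_nonneg _)

def HB_A {Y : Type} [MeasurableSpace Y] (k : ℕ) (g : Fin k → Y → Y) (C ε : ℝ) (u : Y → ℝ) : Set ℝ :=
  {s | 0 ≤ s ∧ ∃ (w : Y → ℝ) (φ : Fin k → Y → ℝ), Measurable w ∧ (∀ i, Measurable (φ i)) ∧
    (∀ y, |w y| ≤ 4 * ε * s) ∧ (∀ i y, |φ i y| ≤ 4 * C * s) ∧
    ∀ y, u y = w y + ∑ i, (φ i (g i y) - φ i y)}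

theorem HB_A_smul {Y : Type} [MeasurableSpace Y] {k : ℕ} {g : Fin k → Y → Y} {C ε : ℝ} {u : Y → ℝ} {c s : ℝ}
    (hc : 0 < c) (h : s ∈ HB_A k g C ε u) : c * s ∈ HB_A k g C ε (c • u) := by
  obtain ⟨hs, w, φ, hw, hφ, hwb, hφb, he⟩ := h
  refine ⟨by positivity, c • w, fun i => c • φ i, hw.const_smul c, fun i => (hφ i).const_smul c, ?_, ?_, ?_⟩
  · intro y
    simp only [Pi.smul_apply, smul_eq_mul, abs_mul, abs_of_pos hc]
    have := mul_le_mul_of_nonneg_left (hwb y) hc.le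
    linarith
  · intro i y
    simp only [Pi.smul_apply, smul_eq_mul, abs_mul, abs_of_pos hc]
    have := mul_le_mul_of_nonneg_left (hφb i y) hc.le
    linarith
  · intro y
    simp only [Pi.smul_apply, smul_eq_mul]
    rw [he y, mul_add, Finset.mul_sum]
    congr 1
    refine Finset.sum_congr rfl (fun i _ => ?_)
    ring

theorem HB_A_add {Y : Type} [MeasurableSpace Y] {k : ℕ} {g : Fin k → Y → Y} {C ε : ℝ} {u u' : Y → ℝ} {s s' : ℝ}
    (h : s ∈ HB_A k g C ε u) (h' : s' ∈ HB_A k g C ε u') : s + s' ∈ HB_A k g C ε (u + u') := by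
  obtain ⟨hs, w, φ, hw, hφ, hwb, hφb, he⟩ := h
  obtain ⟨hs', w', φ', hw', hφ', hwb', hφb', he'⟩ := h'
  refine ⟨by positivity, w + w', fun i => φ i + φ' i, hw.add hw', fun i => (hφ i).add (hφ' i), ?_, ?_, ?_⟩
  · intro y
    have := (abs_add_le (w y) (w' y)).trans (add_le_add (hwb y) (hwb' y))
    simp only [Pi.add_apply]
    linarith
  · intro i y
    have := (abs_add_le (φ i y) (φ' i y)).trans (add_le_add (hφb i y) (hφb' i y))
    simp only [Pi.add_apply]
    linarith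
  · intro y
    simp only [Pi.add_apply]
    rw [he y, he' y]
    have : ∑ i, (φ i (g i y) + φ' i (g i y) - (φ i y + φ' i y)) =
        ∑ i, (φ i (g i y) - φ i y) + ∑ i, (φ' i (g i y) - φ' i y) := by
      rw [← Finset.sum_add_distrib]
      refine Finset.sum_congr rfl (fun i _ => ?_)
      ring
    rw [this]; ring

theorem HB_A_const {Y : Type} [MeasurableSpace Y] {k : ℕ} {g : Fin k → Y → Y} {C ε : ℝ} (hC : 0 < C) (hε : 0 < ε)
    {u : Y → ℝ} (hu : Measurable u) {a : ℝ} (ha : 0 ≤ a) (hb : ∀ y, |u y| ≤ a) : a / (4 * ε) ∈ HB_A k g C ε u := by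
  refine ⟨by positivity, u, fun _ _ => 0, hu, fun _ => measurable_const, ?_, ?_, ?_⟩
  · intro y
    have : 4 * ε * (a / (4 * ε)) = a := by field_simp
    rw [this]; exact hb y
  · intro i y
    rw [abs_zero]; positivity
  · intro y; simp

theorem HB_A_T {Y : Type} [MeasurableSpace Y] {k : ℕ} {g : Fin k → Y → Y} {C ε : ℝ} (hC : 0 < C) (hε : 0 < ε)
    {φ : Fin k → Y → ℝ} (hφ : ∀ i, Measurable (φ i)) {a : ℝ} (ha : 0 ≤ a) (hb : ∀ i y, |φ i y| ≤ a) :
    a / (4 * C) ∈ HB_A k g C ε (fun y => ∑ i, (φ i (g i y) - φ i y)) := by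
  refine ⟨by positivity, fun _ => 0, φ, measurable_const, hφ, ?_, ?_, ?_⟩
  · intro y
    rw [abs_zero]; positivity
  · intro i y
    have : 4 * C * (a / (4 * C)) = a := by field_simp
    rw [this]; exact hb i y
  · intro y; simp

theorem HB_clamp (z a b : ℝ) (ha : 0 ≤ a) (hb : 0 ≤ b) (h : |z| ≤ b + a) :
    |max (-a) (min a z)| ≤ a ∧ |z - max (-a) (min a z)| ≤ b := by
  rw [abs_le] at h
  refine ⟨?_, ?_⟩
  · rw [abs_le]
    refine ⟨le_max_left _ _, max_le (by linarith) (min_le_left _ _)⟩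
  · rcases le_total z a with h1 | h1
    · rw [min_eq_right h1]
      rcases le_total (-a) z with h2 | h2
      · rw [max_eq_right h2, sub_self, abs_zero]; exact hb
      · rw [max_eq_left h2, abs_le]
        constructor <;> linarith
    · rw [min_eq_left h1, max_eq_right (by linarith), abs_le]
      constructor <;> linarith

theorem HB_decomp {Y : Type} [MeasurableSpace Y] {k : ℕ} (ψ : Fin k → Y → ℝ) (hψ : ∀ i, Measurable (ψ i))
    (hψ0 : ∀ i y, 0 ≤ ψ i y) (ε : ℝ) (hε : 0 ≤ ε) (s : Finset (Fin k)) :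
    ∀ z : Y → ℝ, Measurable z → (∀ y, |z y| ≤ ε + ∑ i ∈ s, ψ i y) →
    ∃ (z0 : Y → ℝ) (zi : Fin k → Y → ℝ), Measurable z0 ∧ (∀ i, Measurable (zi i)) ∧ (∀ y, |z0 y| ≤ ε) ∧
      (∀ i y, |zi i y| ≤ ψ i y) ∧ ∀ y, z y = z0 y + ∑ i ∈ s, zi i y := by
  classical
  induction s using Finset.induction_on with
  | empty =>
    intro z hz hb
    refine ⟨z, fun _ _ => 0, hz, fun _ => measurable_const, ?_, ?_, ?_⟩
    · intro y; simpa using hb y
    · intro i y; rw [abs_zero]; exact hψ0 i y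
    · intro y; simp
  | insert j s hj ih =>
    intro z hz hb
    have hcl : ∀ y, |max (-(ψ j y)) (min (ψ j y) (z y))| ≤ ψ j y ∧
        |z y - max (-(ψ j y)) (min (ψ j y) (z y))| ≤ ε + ∑ i ∈ s, ψ i y := by
      intro y
      refine HB_clamp _ _ _ (hψ0 j y) (add_nonneg hε (Finset.sum_nonneg (fun i _ => hψ0 i y))) ?_
      have := hb y
      rw [Finset.sum_insert hj] at this
      linarith
    have hm : Measurable (fun y => max (-(ψ j y)) (min (ψ j y) (z y))) :=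
      (hψ j).neg.max ((hψ j).min hz)
    obtain ⟨z0, zi, h1, h2, h3, h4, h5⟩ := ih (fun y => z y - max (-(ψ j y)) (min (ψ j y) (z y)))
      (hz.sub hm) (fun y => (hcl y).2)
    refine ⟨z0, Function.update zi j (fun y => max (-(ψ j y)) (min (ψ j y) (z y))), h1, ?_, h3, ?_, ?_⟩
    · intro i
      by_cases hi : i = j
      · subst hi; rw [Function.update_self]; exact hm
      · rw [Function.update_of_ne hi]; exact h2 i
    · intro i y
      by_cases hi : i = j
      · subst hi; rw [Function.update_self]; exact (hcl y).1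
      · rw [Function.update_of_ne hi]; exact h4 i y
    · intro y
      rw [Finset.sum_insert hj, Function.update_self]
      have e : ∑ i ∈ s, Function.update zi j (fun y => max (-(ψ j y)) (min (ψ j y) (z y))) i y = ∑ i ∈ s, zi i y := by
        refine Finset.sum_congr rfl (fun i hi => ?_)
        rw [Function.update_of_ne (fun h : i = j => hj (by rw [← h]; exact hi))]
      rw [e]
      have := h5 y
      linarith


theorem two_sided {Y : Type} [MeasurableSpace Y] (k : ℕ) (g : Fin k → Y → Y)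
    (hg : ∀ i, Measurable (g i)) (C ε : ℝ) (hC : 0 < C) (hε : 0 < ε) (D : Set Y) (hD : MeasurableSet D)
    (φ : Fin k → Y → ℝ) (hφ : ∀ i, Measurable (φ i)) (hb : ∀ i y, |φ i y| ≤ C)
    (h : ∀ y, D.indicator (fun _ => (1 : ℝ)) y + ∑ i, (φ i (g i y) - φ i y) ≤ ε)
    (v : Y → ℝ) (hv : Measurable v) (hvD : ∀ y, |v y| ≤ D.indicator (fun _ => (1 : ℝ)) y) :
    ∃ (w : Y → ℝ) (φ' : Fin k → Y → ℝ), Measurable w ∧ (∀ i, Measurable (φ' i)) ∧
      (∀ y, |w y| ≤ 4 * ε) ∧ (∀ i y, |φ' i y| ≤ 4 * C) ∧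
      ∀ y, v y = w y + ∑ i, (φ' i (g i y) - φ' i y) := by
  classical
  by_cases hv0 : v = 0
  · refine ⟨fun _ => 0, fun _ _ => 0, measurable_const, fun _ => measurable_const, ?_, ?_, ?_⟩
    · intro y; rw [abs_zero]; positivity
    · intro i y; rw [abs_zero]; positivity
    · intro y; rw [hv0]; simp
  have hD1 : ∀ y, D.indicator (fun _ => (1 : ℝ)) y ≤ 1 := by
    intro y
    by_cases hy : y ∈ D
    · rw [Set.indicator_of_mem hy]
    · rw [Set.indicator_of_notMem hy]; norm_num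
  set N : HB_V Y → ℝ := fun u => sInf (HB_A k g C ε u.1) with hN
  have hbdd : ∀ u : HB_V Y, BddBelow (HB_A k g C ε u.1) := fun u => ⟨0, fun s hs => hs.1⟩
  have hne : ∀ u : HB_V Y, (HB_A k g C ε u.1).Nonempty := by
    intro u
    obtain ⟨hu, M, hM⟩ := u.2
    exact ⟨_, HB_A_const (k := k) (g := g) hC hε hu (a := max M 0) (le_max_right _ _) (fun y => (hM y).trans (le_max_left _ _))⟩
  have hN0 : ∀ u, 0 ≤ N u := fun u => le_csInf (hne u) (fun s hs => hs.1)
  have hNle : ∀ (u : HB_V Y) (s : ℝ), s ∈ HB_A k g C ε u.1 → N u ≤ s := fun u s hs => csInf_le (hbdd u) hs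
  have hNhom1 : ∀ c : ℝ, 0 < c → ∀ u : HB_V Y, N (c • u) ≤ c * N u := by
    intro c hc u
    have h1 : N (c • u) / c ≤ N u := by
      refine le_csInf (hne u) (fun s hs => ?_)
      rw [div_le_iff₀ hc]
      have h2 := hNle (c • u) (c * s) (HB_A_smul hc hs)
      linarith
    rw [div_le_iff₀ hc] at h1
    linarith
  have hNhom : ∀ c : ℝ, 0 < c → ∀ u : HB_V Y, N (c • u) = c * N u := by
    intro c hc u
    apply le_antisymm (hNhom1 c hc u)
    have h1 := hNhom1 c⁻¹ (inv_pos.mpr hc) (c • u)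
    rw [smul_smul, inv_mul_cancel₀ hc.ne', one_smul] at h1
    have h2 := mul_le_mul_of_nonneg_left h1 hc.le
    rw [← mul_assoc, mul_inv_cancel₀ hc.ne', one_mul] at h2
    exact h2
  have hNadd : ∀ u u' : HB_V Y, N (u + u') ≤ N u + N u' := by
    intro u u'
    have h1 : ∀ s ∈ HB_A k g C ε u.1, ∀ s' ∈ HB_A k g C ε u'.1, N (u + u') ≤ s + s' :=
      fun s hs s' hs' => hNle _ _ (HB_A_add hs hs')
    have h2 : ∀ s ∈ HB_A k g C ε u.1, N (u + u') - s ≤ N u' := by
      intro s hs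
      refine le_csInf (hne u') (fun s' hs' => ?_)
      linarith [h1 s hs s' hs']
    have h3 : N (u + u') - N u' ≤ N u := by
      refine le_csInf (hne u) (fun s hs => ?_)
      linarith [h2 s hs]
    linarith
  have hvb : ∀ y, |v y| ≤ 1 := fun y => (hvD y).trans (hD1 y)
  set v' : HB_V Y := ⟨v, hv, 1, hvb⟩ with hv'
  have hv'0 : v' ≠ 0 := fun h0 => hv0 (congrArg Subtype.val h0)
  obtain ⟨G, hG1, hG2⟩ := exists_extension_of_le_sublinear (LinearPMap.mkSpanSingleton v' (N v') hv'0) N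
    (fun c hc u => hNhom c hc u) hNadd (by
      rintro ⟨u, hu⟩
      obtain ⟨c, rfl⟩ := Submodule.mem_span_singleton.mp hu
      rw [LinearPMap.mkSpanSingleton'_apply]
      show c • N v' ≤ N (c • v')
      rw [smul_eq_mul]
      rcases lt_trichotomy c 0 with hc | hc | hc
      · have := hN0 v'
        have := hN0 (c • v')
        nlinarith
      · rw [hc, zero_mul]; exact hN0 _
      · rw [hNhom c hc])
  have hGv : G v' = N v' :=
    (hG1 ⟨v', Submodule.mem_span_singleton_self v'⟩).trans (LinearPMap.mkSpanSingleton'_apply_self _ _ _ _)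
  have P1 : ∀ u : HB_V Y, ∀ a : ℝ, 0 ≤ a → (∀ y, |u.1 y| ≤ a) → G u ≤ a / (4 * ε) :=
    fun u a ha hu => (hG2 u).trans (hNle u _ (HB_A_const hC hε u.2.1 ha hu))
  have P2 : ∀ (u : HB_V Y) (f : Fin k → Y → ℝ), (∀ i, Measurable (f i)) → ∀ a : ℝ, 0 ≤ a → (∀ i y, |f i y| ≤ a) →
      (u.1 = fun y => ∑ i, (f i (g i y) - f i y)) → G u ≤ a / (4 * C) := by
    intro u f hf a ha hfb hu
    refine (hG2 u).trans (hNle u _ ?_)
    rw [hu]
    exact HB_A_T hC hε hf ha hfb
  have hψm : ∀ i, Measurable (fun y => φ i y + C) := fun i => (hφ i).add_const C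
  have hψ0 : ∀ i y, 0 ≤ φ i y + C := fun i y => by have := (abs_le.mp (hb i y)).1; linarith
  have hψ2 : ∀ i y, φ i y + C ≤ 2 * C := fun i y => by have := (abs_le.mp (hb i y)).2; linarith
  have h' : ∀ y, D.indicator (fun _ => (1 : ℝ)) y + ∑ i, (φ i (g i y) + C) ≤ ε + ∑ i, (φ i y + C) := by
    intro y
    have h1 := h y
    have h2 : ∑ i, (φ i (g i y) - φ i y) = ∑ i, (φ i (g i y) + C) - ∑ i, (φ i y + C) := by
      rw [← Finset.sum_sub_distrib]
      refine Finset.sum_congr rfl (fun i _ => ?_)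
      ring
    linarith
  set m : Fin k → ℝ := fun i => sSup {x : ℝ | ∃ w : HB_V Y, (∀ y, |w.1 y| ≤ φ i y + C) ∧ G w = x} with hm
  have hmb : ∀ i, BddAbove {x : ℝ | ∃ w : HB_V Y, (∀ y, |w.1 y| ≤ φ i y + C) ∧ G w = x} := by
    intro i
    refine ⟨2 * C / (4 * ε), ?_⟩
    rintro x ⟨w, hw, rfl⟩
    exact P1 w (2 * C) (by positivity) (fun y => (hw y).trans (hψ2 i y))
  have hmne : ∀ i, {x : ℝ | ∃ w : HB_V Y, (∀ y, |w.1 y| ≤ φ i y + C) ∧ G w = x}.Nonempty := by
    intro i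
    refine ⟨G 0, 0, fun y => ?_, rfl⟩
    have : ((0 : HB_V Y).1 y) = 0 := rfl
    rw [this, abs_zero]; exact hψ0 i y
  have hτ : (0:ℝ) < 1 / (8 * (k + 1)) := by positivity
  have hwex : ∀ i, ∃ w : HB_V Y, (∀ y, |w.1 y| ≤ φ i y + C) ∧ m i - 1 / (8 * (k + 1)) < G w := by
    intro i
    obtain ⟨x, ⟨w, hw, rfl⟩, hx⟩ := exists_lt_of_lt_csSup (hmne i) (show m i - 1 / (8 * (k + 1)) < sSup _ by
      have : sSup {x : ℝ | ∃ w : HB_V Y, (∀ y, |w.1 y| ≤ φ i y + C) ∧ G w = x} = m i := rfl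
      rw [this]; linarith)
    exact ⟨w, hw, hx⟩
  choose w hwb hwG using hwex
  set wg : Fin k → HB_V Y := fun i => ⟨fun y => (w i).1 (g i y), (w i).2.1.comp (hg i), 2 * C,
    fun y => (hwb i (g i y)).trans (hψ2 i (g i y))⟩ with hwg
  set z : HB_V Y := v' + ∑ i, wg i with hz
  have hzv : ∀ y, z.1 y = v y + ∑ i, (w i).1 (g i y) := by
    intro y
    rw [hz]
    simp only [Submodule.coe_add, Submodule.coe_sum, Pi.add_apply, Finset.sum_apply]
    rfl
  have hzb : ∀ y, |z.1 y| ≤ ε + ∑ i, (φ i y + C) := by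
    intro y
    rw [hzv]
    calc |v y + ∑ i, (w i).1 (g i y)| ≤ |v y| + ∑ i, |(w i).1 (g i y)| :=
          (abs_add_le _ _).trans (add_le_add le_rfl (Finset.abs_sum_le_sum_abs _ _))
      _ ≤ D.indicator (fun _ => (1 : ℝ)) y + ∑ i, (φ i (g i y) + C) :=
          add_le_add (hvD y) (Finset.sum_le_sum (fun i _ => hwb i (g i y)))
      _ ≤ _ := h' y
  obtain ⟨z0, zi, hz0m, hzim, hz0b, hzib, hze⟩ := HB_decomp (fun i y => φ i y + C) hψm hψ0 ε hε.le Finset.univ
    z.1 z.2.1 hzb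
  set z0' : HB_V Y := ⟨z0, hz0m, ε, hz0b⟩ with hz0'
  set zi' : Fin k → HB_V Y := fun i => ⟨zi i, hzim i, 2 * C, fun y => (hzib i y).trans (hψ2 i y)⟩ with hzi'
  have hzeq : z = z0' + ∑ i, zi' i := by
    apply Subtype.ext
    funext y
    rw [hze y]
    simp only [Submodule.coe_add, Submodule.coe_sum, Pi.add_apply, Finset.sum_apply]
    rfl
  have hG1' : G z ≤ 1 / 4 + ∑ i, m i := by
    rw [hzeq, map_add, map_sum]
    have a1 : G z0' ≤ ε / (4 * ε) := P1 z0' ε hε.le hz0b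
    have a2 : ε / (4 * ε) = 1 / 4 := by field_simp
    have a3 : ∑ i, G (zi' i) ≤ ∑ i, m i :=
      Finset.sum_le_sum (fun i _ => le_csSup (hmb i) ⟨zi' i, hzib i, rfl⟩)
    linarith
  have hG2' : G z = G v' + ∑ i, G (wg i) := by
    rw [hz, map_add, map_sum]
  have hq : G (∑ i, (w i - wg i)) ≤ 2 * C / (4 * C) := by
    refine P2 _ (fun i y => -(w i).1 y) (fun i => (w i).2.1.neg) (2 * C) (by positivity) ?_ ?_
    · intro i y
      rw [abs_neg]
      exact (hwb i y).trans (hψ2 i y)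
    · funext y
      simp only [Submodule.coe_sum, Finset.sum_apply, Submodule.coe_sub, Pi.sub_apply]
      refine Finset.sum_congr rfl (fun i _ => ?_)
      show (w i).1 y - (w i).1 (g i y) = -(w i).1 (g i y) - -(w i).1 y
      ring
  have hq2 : G (∑ i, (w i - wg i)) = ∑ i, G (w i) - ∑ i, G (wg i) := by
    rw [map_sum, ← Finset.sum_sub_distrib]
    refine Finset.sum_congr rfl (fun i _ => ?_)
    rw [map_sub]
  have hq3 : 2 * C / (4 * C) = 1 / 2 := by field_simp; norm_num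
  have hwsum : ∑ i, m i - k * (1 / (8 * (k + 1))) ≤ ∑ i, G (w i) := by
    have e1 : ∑ i : Fin k, (m i - 1 / (8 * ((k : ℝ) + 1))) = ∑ i, m i - k * (1 / (8 * (k + 1))) := by
      rw [Finset.sum_sub_distrib, Finset.sum_const, Finset.card_univ, Fintype.card_fin, nsmul_eq_mul]
    rw [← e1]
    exact Finset.sum_le_sum (fun i _ => (hwG i).le)
  have hkτ : (k:ℝ) * (1 / (8 * (k + 1))) ≤ 1 / 8 := by
    rw [mul_one_div, div_le_div_iff₀ (by positivity) (by norm_num)]
    have : (0:ℝ) ≤ k := Nat.cast_nonneg k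
    linarith
  have hfin : N v' < 1 := by
    rw [← hGv]
    rw [hq2, hq3] at hq
    linarith
  obtain ⟨s, hs, hs1⟩ := exists_lt_of_csInf_lt (hne v') hfin
  obtain ⟨hs0, w', φ', h1, h2, h3, h4, h5⟩ := hs
  refine ⟨w', φ', h1, h2, fun y => (h3 y).trans ?_, fun i y => (h4 i y).trans ?_, h5⟩
  · nlinarith
  · nlinarith



end Pool.Agent.Helper557.Rz
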