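import Pool.Agent.Helper557.Eq.Defs

set_option autoImplicit false

open MeasureTheory Set

namespace Pool.Agent.Helper557.Rz
/-- coordinates of the small cube containing `x` -/
noncomputable def grid_fl (N : ℕ) (x : E 3) : Fin 3 → ℤ := fun i => ⌊(N : ℝ) * x i⌋

/-- corner of the small cube with number `z` -/
noncomputable def grid_v (N : ℕ) (z : Fin 3 → ℤ) : E 3 := WithLp.toLp 2 (fun i => (z i : ℝ) / N)

theorem grid_fl_add {N : ℕ} (hN : 0 < N) (x : E 3) (z : Fin 3 → ℤ) :
    grid_fl N (x + grid_v N z) = grid_fl N x + z := by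
  have hN' : (N : ℝ) ≠ 0 := by exact_mod_cast hN.ne'
  funext i
  simp only [grid_fl, grid_v, Pi.add_apply, PiLp.add_apply]
  rw [mul_add, mul_div_cancel₀ _ hN', Int.floor_add_intCast]

theorem grid_fl_sub {N : ℕ} (hN : 0 < N) (x : E 3) (z : Fin 3 → ℤ) :
    grid_fl N (x - grid_v N z) = grid_fl N x - z := by
  have h := grid_fl_add hN (x - grid_v N z) z
  rw [sub_add_cancel] at h
  rw [h, add_sub_cancel_right]

theorem grid_fl_meas (N : ℕ) : Measurable (grid_fl N) := by
  refine measurable_pi_lambda _ fun i => Int.measurable_floor.comp ?_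
  have : Continuous fun x : E 3 => (N : ℝ) * x i := by fun_prop
  exact this.measurable

theorem grid_set_meas (N : ℕ) (z : Fin 3 → ℤ) : MeasurableSet {x : E 3 | grid_fl N x = z} :=
  (grid_fl_meas N) (measurableSet_singleton z)

theorem grid_zero_iff {N : ℕ} (hN : 0 < N) (x : E 3) :
    grid_fl N x = 0 ↔ ∀ i, 0 ≤ x i ∧ x i < 1 / N := by
  have hN' : (0 : ℝ) < N := by exact_mod_cast hN
  constructor
  · intro h i
    have h1 := congrFun h i
    simp only [grid_fl, Pi.zero_apply] at h1
    rw [Int.floor_eq_zero_iff, Set.mem_Ico] at h1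
    constructor
    · by_contra hcon
      push Not at hcon
      have := mul_neg_of_pos_of_neg hN' hcon
      linarith [h1.1]
    · rw [lt_div_iff₀ hN']
      linarith [h1.2]
  · intro h
    funext i
    simp only [grid_fl, Pi.zero_apply]
    rw [Int.floor_eq_zero_iff, Set.mem_Ico]
    obtain ⟨h1, h2⟩ := h i
    rw [lt_div_iff₀ hN'] at h2
    exact ⟨by positivity, by linarith⟩

theorem grid_norm_le (x : E 3) (a : ℝ) (ha : 0 ≤ a) (h : ∀ i, |x i| ≤ a) : ‖x‖ ≤ 2 * a := by
  rw [EuclideanSpace.norm_eq]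
  rw [Real.sqrt_le_left (by positivity)]
  rw [Fin.sum_univ_three]
  have h' : ∀ i, ‖x i‖ ^ 2 ≤ a ^ 2 := fun i => pow_le_pow_left₀ (norm_nonneg _) (h i) 2
  nlinarith [h' 0, h' 1, h' 2, sq_nonneg a]

theorem grid_abs_le (x : E 3) (i : Fin 3) : |x i| ≤ ‖x‖ := by
  have := PiLp.norm_apply_le x i
  simpa using this

theorem grid_q0_dist {N : ℕ} (hN : 0 < N) (x t : E 3) (hx : grid_fl N x = 0)
    (ht : grid_fl N t = 0) : ‖x - t‖ ≤ 2 / N := by
  have hN' : (0 : ℝ) < N := by exact_mod_cast hN
  rw [grid_zero_iff hN] at hx ht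
  have := grid_norm_le (x - t) (1 / N) (by positivity) (fun i => by
    rw [PiLp.sub_apply, abs_le]
    obtain ⟨h1, h2⟩ := hx i
    obtain ⟨h3, h4⟩ := ht i
    constructor <;> linarith)
  calc ‖x - t‖ ≤ 2 * (1 / N) := this
    _ = _ := by ring

theorem grid_q0_norm {N : ℕ} (hN : 0 < N) (x : E 3) (hx : grid_fl N x = 0) : ‖x‖ ≤ 2 := by
  have hN' : (1 : ℝ) ≤ N := by exact_mod_cast hN
  rw [grid_zero_iff hN] at hx
  have h5 : (1 : ℝ) / N ≤ 1 := by rw [div_le_one (by linarith)]; exact hN'
  have := grid_norm_le x 1 (by norm_num) (fun i => by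
    rw [abs_le]
    obtain ⟨h1, h2⟩ := hx i
    constructor <;> linarith)
  linarith

theorem grid_q0_vol {N : ℕ} (hN : 0 < N) :
    0 < (volume : Measure (E 3)).real {x : E 3 | grid_fl N x = 0} := by
  have hN' : (0 : ℝ) < N := by exact_mod_cast hN
  rw [Measure.real, ENNReal.toReal_pos_iff]
  constructor
  · set c : E 3 := WithLp.toLp 2 (fun _ => 1 / (2 * (N : ℝ))) with hc
    have hsub : Metric.ball c (1 / (2 * N)) ⊆ {x : E 3 | grid_fl N x = 0} := by
      intro x hx
      rw [Metric.mem_ball, dist_eq_norm] at hx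
      rw [Set.mem_ofPred_eq, grid_zero_iff hN]
      intro i
      have h1 := (grid_abs_le (x - c) i).trans_lt hx
      have h2 : (x - c) i = x i - 1 / (2 * N) := by simp [hc]
      rw [h2, abs_lt] at h1
      have h3 : (1 : ℝ) / N = 1 / (2 * N) + 1 / (2 * N) := by field_simp; norm_num
      constructor
      · linarith [h1.1]
      · rw [h3]; linarith [h1.2]
    exact lt_of_lt_of_le (Metric.measure_ball_pos volume c (by positivity)) (measure_mono hsub)
  · refine lt_of_le_of_lt (measure_mono (t := Metric.closedBall (0 : E 3) 2) ?_)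
      measure_closedBall_lt_top
    intro x hx
    rw [mem_closedBall_zero_iff]
    exact grid_q0_norm hN x hx

/-- the box -/
noncomputable def grid_Z (N r : ℕ) : Finset (Fin 3 → ℤ) :=
  Fintype.piFinset (fun _ : Fin 3 => Finset.Ico (-((N * r : ℕ) : ℤ)) ((N * r : ℕ) : ℤ))

theorem grid_mem_Z {N r : ℕ} (hN : 0 < N) {R : ℝ} (hr : R < r) (x : E 3) (hx : ‖x‖ ≤ R) :
    grid_fl N x ∈ grid_Z N r := by
  have hN' : (0 : ℝ) < N := by exact_mod_cast hN
  rw [grid_Z, Fintype.mem_piFinset]
  intro i
  have h1 := abs_le.1 ((grid_abs_le x i).trans hx)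
  rw [Finset.mem_Ico]
  simp only [grid_fl]
  constructor
  · rw [Int.le_floor]
    push_cast
    nlinarith [h1.1]
  · rw [Int.floor_lt]
    push_cast
    nlinarith [h1.2]

theorem grid_card_Z (N r : ℕ) : (grid_Z N r).card = (2 * N * r) ^ 3 := by
  rw [grid_Z, Fintype.card_piFinset, Finset.prod_const, Int.card_Ico, Finset.card_univ,
    Fintype.card_fin]
  congr 1
  have h : ((N * r : ℕ) : ℤ) - -((N * r : ℕ) : ℤ) = ((2 * N * r : ℕ) : ℤ) := by push_cast; ring
  rw [h, Int.toNat_natCast]

/-- the Riemann sum estimate -/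
theorem grid_est {N r : ℕ} (hN : 0 < N) {L R : ℝ} (hL : 0 ≤ L) (hr : R < r) (g : E 3 → ℝ)
    (hg : ∀ y y', |g y - g y'| ≤ L * ‖y - y'‖) (hsupp : ∀ x, R < ‖x‖ → g x = 0)
    (hint : ∫ y, g y = 0) (x : E 3) (hx : grid_fl N x = 0) :
    |∑ z ∈ grid_Z N r, g (x + grid_v N z)| ≤ (grid_Z N r).card * (L * (2 / N)) := by
  classical
  have hN' : (0 : ℝ) < N := by exact_mod_cast hN
  have hcont : Continuous g := by
    have : LipschitzWith ⟨L, hL⟩ g := LipschitzWith.of_dist_le_mul fun y y' => by
      rw [Real.dist_eq, dist_eq_norm]; exact hg y y'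
    exact this.continuous
  have hgi : Integrable g := by
    apply hcont.integrable_of_hasCompactSupport
    apply HasCompactSupport.of_support_subset_isCompact (isCompact_closedBall (0 : E 3) R)
    intro t ht
    rw [mem_closedBall_zero_iff]
    by_contra hcon
    exact ht (hsupp t (not_le.1 hcon))
  set Q : Set (E 3) := {t : E 3 | grid_fl N t = 0} with hQ
  have hQm : MeasurableSet Q := grid_set_meas N 0
  have hV := grid_q0_vol hN
  have hQfin : volume Q ≠ ⊤ := by
    intro h
    rw [Measure.real, h] at hV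
    simp at hV
  -- the integral of the sum vanishes
  have hz : ∀ z : Fin 3 → ℤ, ∫ t in Q, g (t + grid_v N z) =
      ∫ t, {t : E 3 | grid_fl N t = z}.indicator g t := by
    intro z
    rw [← integral_indicator hQm]
    rw [← integral_add_right_eq_self (fun t => {t : E 3 | grid_fl N t = z}.indicator g t) (grid_v N z)]
    refine integral_congr_ae (Filter.Eventually.of_forall fun t => ?_)
    show Q.indicator (fun t => g (t + grid_v N z)) t =
      {t : E 3 | grid_fl N t = z}.indicator g (t + grid_v N z)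
    by_cases ht : grid_fl N t = 0
    · rw [Set.indicator_of_mem (show t ∈ Q from ht), Set.indicator_of_mem]
      show grid_fl N (t + grid_v N z) = z
      rw [grid_fl_add hN, ht, zero_add]
    · rw [Set.indicator_of_notMem (show t ∉ Q from ht), Set.indicator_of_notMem]
      show ¬ grid_fl N (t + grid_v N z) = z
      rw [grid_fl_add hN]
      intro h
      exact ht (by simpa using h)
  have hsum0 : ∫ t in Q, ∑ z ∈ grid_Z N r, g (t + grid_v N z) = 0 := by
    rw [integral_finsetSum _ fun z _ => (hgi.comp_add_right (grid_v N z)).integrableOn]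
    rw [Finset.sum_congr rfl fun z _ => hz z]
    rw [← integral_finsetSum _ fun z _ => hgi.indicator (grid_set_meas N z)]
    rw [← hint]
    refine integral_congr_ae (Filter.Eventually.of_forall fun t => ?_)
    show ∑ z ∈ grid_Z N r, {t : E 3 | grid_fl N t = z}.indicator g t = g t
    have h1 : ∀ z ∈ grid_Z N r, {t : E 3 | grid_fl N t = z}.indicator g t =
        if grid_fl N t = z then g t else 0 := fun z _ => by
      rw [Set.indicator_apply]; rfl
    rw [Finset.sum_congr rfl h1, Finset.sum_ite_eq]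
    split_ifs with h2
    · rfl
    · by_contra h3
      apply h2
      apply grid_mem_Z hN hr
      by_contra h4
      exact h3 (hsupp t (not_le.1 h4)).symm
  set H : E 3 → ℝ := fun t => ∑ z ∈ grid_Z N r, g (t + grid_v N z) with hH
  have hHi : IntegrableOn H Q := by
    apply Integrable.integrableOn
    exact integrable_finsetSum _ fun z _ => hgi.comp_add_right (grid_v N z)
  have hd : ∀ t ∈ Q, ‖H x - H t‖ ≤ (grid_Z N r).card * (L * (2 / N)) := by
    intro t ht
    rw [hH]
    simp only
    rw [← Finset.sum_sub_distrib]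
    refine (norm_sum_le _ _).trans ?_
    rw [← nsmul_eq_mul]
    refine Finset.sum_le_card_nsmul _ _ _ fun z _ => ?_
    rw [Real.norm_eq_abs]
    refine (hg _ _).trans ?_
    rw [add_sub_add_right_eq_sub]
    exact mul_le_mul_of_nonneg_left (grid_q0_dist hN x t hx ht) hL
  have h1 : ‖∫ t in Q, (H x - H t)‖ ≤ ((grid_Z N r).card * (L * (2 / N))) * volume.real Q :=
    norm_setIntegral_le_of_norm_le_const (lt_top_iff_ne_top.2 hQfin) hd
  have h2 : ∫ t in Q, (H x - H t) = volume.real Q * H x := by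
    have hci : IntegrableOn (fun _ : E 3 => H x) Q := integrableOn_const hQfin
    rw [integral_sub hci hHi, hsum0, sub_zero, setIntegral_const, smul_eq_mul]
  rw [h2, norm_mul, Real.norm_of_nonneg hV.le, mul_comm] at h1
  exact le_of_mul_le_mul_right h1 hV


theorem grid (L R : ℝ) (hL : 0 ≤ L) (hR : 0 ≤ R) : ∃ (k : ℕ) (γ : Fin k → (E 3 ≃ᵢ E 3)) (C R' : ℝ),
    ∀ (P : Type) [MeasurableSpace P] (f : E 3 → P → ℝ), Nice R P f →
      (∀ y y' p, |f y p - f y' p| ≤ L * ‖y - y'‖) → (∀ p, ∫ y, f y p = 0) →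
      ∃ (u : E 3 → P → ℝ) (φ : Fin k → E 3 → P → ℝ), Measurable (fun z : E 3 × P => u z.1 z.2) ∧
        (∀ x p, |u x p| ≤ 1 / 2) ∧ (∀ x p, x ∉ cube 0 1 → u x p = 0) ∧
        (∀ i, Measurable (fun z : E 3 × P => φ i z.1 z.2)) ∧ (∀ i x p, |φ i x p| ≤ C) ∧
        (∀ i x p, R' < ‖x‖ → φ i x p = 0) ∧
        ∀ x p, f x p = u x p + ∑ i, (φ i (γ i x) p - φ i x p) := by
  classical
  obtain ⟨r, hr⟩ := exists_nat_gt R
  obtain ⟨N0, hN0⟩ := exists_nat_ge (4 * L * (2 * r) ^ 3)
  set N := N0 + 1 with hNdef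
  have hN : 0 < N := by omega
  have hN' : (0 : ℝ) < N := by exact_mod_cast hN
  have hNbig : 4 * L * (2 * r) ^ 3 ≤ (N : ℝ) := by
    rw [hNdef]; push_cast; linarith
  set Z := grid_Z N r with hZ
  set W : Finset (Fin 3 → ℤ) := Fintype.piFinset (fun _ : Fin 3 => Finset.Ico (0 : ℤ) N) with hW
  have hWc : W.card = N ^ 3 := by
    rw [hW, Fintype.card_piFinset, Finset.prod_const, Int.card_Ico, Finset.card_univ,
      Fintype.card_fin]
    congr 1
  let ι := {z // z ∈ Z} ⊕ {w // w ∈ W}
  let e : Fin (Fintype.card ι) ≃ ι := (Fintype.equivFin ι).symm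
  let γ' : ι → (E 3 ≃ᵢ E 3) := fun s => Sum.elim (fun z => IsometryEquiv.addRight (grid_v N z.1))
    (fun w => IsometryEquiv.addRight (-grid_v N w.1)) s
  refine ⟨Fintype.card ι, fun i => γ' (e i), 1, R + 2, ?_⟩
  intro P _ f hf hfL hf0
  obtain ⟨hfm, hfb, hfs⟩ := hf
  -- the functions
  let A : E 3 → P → ℝ := fun x p => (∑ z ∈ Z, f (x + grid_v N z) p) / (N : ℝ) ^ 3
  let F : (Fin 3 → ℤ) → E 3 → P → ℝ := fun z x p => if grid_fl N x = z then f x p else 0
  let G : E 3 → P → ℝ := fun x p => if grid_fl N x = 0 then A x p else 0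
  let φ' : ι → E 3 → P → ℝ := fun s => Sum.elim (fun z x p => -F z.1 x p) (fun _ x p => -G x p) s
  have hGb : ∀ x p, |G x p| ≤ 1 / 2 := by
    intro x p
    show |if grid_fl N x = 0 then A x p else 0| ≤ 1 / 2
    split_ifs with h
    · have h1 := grid_est hN hL hr (fun y => f y p) (fun y y' => hfL y y' p)
        (fun x hx => hfs x p hx) (hf0 p) x h
      show |(∑ z ∈ Z, f (x + grid_v N z) p) / (N : ℝ) ^ 3| ≤ 1 / 2
      rw [abs_div, abs_of_pos (by positivity : (0 : ℝ) < (N : ℝ) ^ 3), div_le_iff₀ (by positivity)]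
      refine h1.trans ?_
      rw [grid_card_Z]
      push_cast
      have h2 : (2 * (N : ℝ) * r) ^ 3 * (L * (2 / N)) = (4 * L * (2 * r) ^ 3) * ((N : ℝ) ^ 2 / 2) := by
        field_simp
        ring
      rw [h2]
      have h3 : (1 : ℝ) / 2 * (N : ℝ) ^ 3 = N * ((N : ℝ) ^ 2 / 2) := by ring
      rw [h3]
      exact mul_le_mul_of_nonneg_right hNbig (by positivity)
    · norm_num
  have hAm : Measurable (fun q : E 3 × P => A q.1 q.2) := by
    refine Measurable.div_const ?_ _
    refine Finset.measurable_sum _ fun z _ => ?_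
    have : Measurable fun q : E 3 × P => (q.1 + grid_v N z, q.2) :=
      (measurable_fst.add_const _).prodMk measurable_snd
    exact hfm.comp this
  have hsetm : ∀ z, MeasurableSet {q : E 3 × P | grid_fl N q.1 = z} := fun z =>
    measurable_fst (grid_set_meas N z)
  have hGm : Measurable (fun q : E 3 × P => G q.1 q.2) := Measurable.ite (hsetm 0) hAm measurable_const
  have hFm : ∀ z, Measurable (fun q : E 3 × P => F z q.1 q.2) := fun z =>
    Measurable.ite (hsetm z) hfm measurable_const
  refine ⟨fun y p => ∑ w ∈ W, G (y - grid_v N w) p, fun i => φ' (e i), ?_, ?_, ?_, ?_, ?_, ?_, ?_⟩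
  · refine Finset.measurable_sum _ fun w _ => ?_
    have : Measurable fun q : E 3 × P => (q.1 - grid_v N w, q.2) :=
      (measurable_fst.sub_const _).prodMk measurable_snd
    exact hGm.comp this
  · intro x p
    have h1 : ∀ w ∈ W, G (x - grid_v N w) p =
        if grid_fl N x = w then G (x - grid_v N (grid_fl N x)) p else 0 := by
      intro w _
      split_ifs with h
      · rw [h]
      · show (if grid_fl N (x - grid_v N w) = 0 then A (x - grid_v N w) p else 0) = 0
        rw [if_neg]
        rw [grid_fl_sub hN, sub_eq_zero]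
        exact h
    show |∑ w ∈ W, G (x - grid_v N w) p| ≤ 1 / 2
    rw [Finset.sum_congr rfl h1, Finset.sum_ite_eq]
    split_ifs
    · exact hGb _ _
    · norm_num
  · intro x p hx
    refine Finset.sum_eq_zero fun w hw => ?_
    show (if grid_fl N (x - grid_v N w) = 0 then A (x - grid_v N w) p else 0) = 0
    rw [if_neg]
    rw [grid_fl_sub hN, sub_eq_zero]
    intro h
    apply hx
    intro i
    rw [hW, Fintype.mem_piFinset] at hw
    have h1 := hw i
    rw [← h, Finset.mem_Ico] at h1
    simp only [grid_fl] at h1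
    rw [Int.le_floor, Int.floor_lt] at h1
    push_cast at h1
    obtain ⟨h2, h3⟩ := h1
    have h4 : (0 : E 3) i = 0 := rfl
    rw [h4]
    constructor
    · by_contra hcon
      push Not at hcon
      have := mul_neg_of_pos_of_neg hN' hcon
      linarith
    · by_contra hcon
      push Not at hcon
      have h5 : (N : ℝ) * (0 + 1) ≤ N * x i := mul_le_mul_of_nonneg_left hcon hN'.le
      linarith
  · intro i
    show Measurable fun q : E 3 × P => φ' (e i) q.1 q.2
    rcases e i with z | w
    · exact (hFm z.1).neg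
    · exact hGm.neg
  · intro i x p
    show |φ' (e i) x p| ≤ 1
    rcases e i with z | w
    · show |-F z.1 x p| ≤ 1
      rw [abs_neg]
      show |if grid_fl N x = z.1 then f x p else 0| ≤ 1
      split_ifs
      · exact hfb x p
      · norm_num
    · show |-G x p| ≤ 1
      rw [abs_neg]
      linarith [hGb x p]
  · intro i x p hx
    show φ' (e i) x p = 0
    rcases e i with z | w
    · show -F z.1 x p = 0
      show -(if grid_fl N x = z.1 then f x p else 0) = 0
      rw [hfs x p (by linarith)]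
      simp
    · show -G x p = 0
      show -(if grid_fl N x = 0 then A x p else 0) = 0
      rw [if_neg, neg_zero]
      intro h
      have := grid_q0_norm hN x h
      linarith
  · intro x p
    have hsum : ∑ i, (φ' (e i) (γ' (e i) x) p - φ' (e i) x p) =
        ∑ s : ι, (φ' s (γ' s x) p - φ' s x p) :=
      Equiv.sum_comp e (fun s => φ' s (γ' s x) p - φ' s x p)
    show f x p = ∑ w ∈ W, G (x - grid_v N w) p + ∑ i, (φ' (e i) (γ' (e i) x) p - φ' (e i) x p)
    rw [hsum, Fintype.sum_sum_type]
    have s1 : ∑ z : {z // z ∈ Z}, (φ' (Sum.inl z) (γ' (Sum.inl z) x) p - φ' (Sum.inl z) x p) =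
        ∑ z ∈ Z, (F z x p - F z (x + grid_v N z) p) := by
      rw [← Finset.sum_coe_sort Z]
      refine Finset.sum_congr rfl fun z _ => ?_
      show -F z.1 (x + grid_v N z.1) p - -F z.1 x p = _
      ring
    have s2 : ∑ w : {w // w ∈ W}, (φ' (Sum.inr w) (γ' (Sum.inr w) x) p - φ' (Sum.inr w) x p) =
        ∑ w ∈ W, (G x p - G (x - grid_v N w) p) := by
      rw [← Finset.sum_coe_sort W]
      refine Finset.sum_congr rfl fun w _ => ?_
      show -G (x + -grid_v N w.1) p - -G x p = _
      rw [← sub_eq_add_neg]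
      ring
    rw [s1, s2, Finset.sum_sub_distrib, Finset.sum_sub_distrib, Finset.sum_const, hWc]
    have t1 : ∑ z ∈ Z, F z x p = f x p := by
      show ∑ z ∈ Z, (if grid_fl N x = z then f x p else 0) = f x p
      rw [Finset.sum_ite_eq]
      split_ifs with h2
      · rfl
      · by_contra h3
        apply h2
        apply grid_mem_Z hN hr
        by_contra h4
        exact h3 (hfs x p (not_le.1 h4)).symm
    have t2 : ∑ z ∈ Z, F z (x + grid_v N z) p = (N : ℝ) ^ 3 * G x p := by
      have h1 : ∀ z ∈ Z, F z (x + grid_v N z) p =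
          if grid_fl N x = 0 then f (x + grid_v N z) p else 0 := by
        intro z _
        show (if grid_fl N (x + grid_v N z) = z then f (x + grid_v N z) p else 0) = _
        rw [grid_fl_add hN]
        simp only [add_eq_right]
      rw [Finset.sum_congr rfl h1]
      show _ = (N : ℝ) ^ 3 * (if grid_fl N x = 0 then (∑ z ∈ Z, f (x + grid_v N z) p) / (N : ℝ) ^ 3 else 0)
      split_ifs
      · field_simp
      · simp
    rw [t1, t2, nsmul_eq_mul]
    push_cast
    ring


end Pool.Agent.Helper557.Rz
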