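import Pool.Agent.Helper557.Eq.Defs
import Pool.Agent.Helper557.Rz.M_meas

set_option autoImplicit false

open MeasureTheory Set

namespace Pool.Agent.Helper557.Rz


/-- bounded measurable functions -/
def decay_Bd (φ : S 3 → ℝ) : Prop := Measurable φ ∧ ∃ C, ∀ x, |φ x| ≤ C

theorem decay_int (μ : Measure (S 3)) [IsProbabilityMeasure μ] {φ : S 3 → ℝ} (h : decay_Bd φ) :
    Integrable φ μ := by
  obtain ⟨h1, C, hC⟩ := h
  exact Integrable.of_bound h1.aestronglyMeasurable C (Filter.Eventually.of_forall hC)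

theorem decay_Bd_add {p q : S 3 → ℝ} (hp : decay_Bd p) (hq : decay_Bd q) :
    decay_Bd (fun x => p x + q x) := by
  obtain ⟨h1, C, hC⟩ := hp
  obtain ⟨h2, D, hD⟩ := hq
  exact ⟨h1.add h2, C + D, fun x => (abs_add_le _ _).trans (add_le_add (hC x) (hD x))⟩

theorem decay_Bd_sub {p q : S 3 → ℝ} (hp : decay_Bd p) (hq : decay_Bd q) :
    decay_Bd (fun x => p x - q x) := by
  obtain ⟨h1, C, hC⟩ := hp
  obtain ⟨h2, D, hD⟩ := hq
  exact ⟨h1.sub h2, C + D, fun x => (abs_sub _ _).trans (add_le_add (hC x) (hD x))⟩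

theorem decay_Bd_sq {p : S 3 → ℝ} (hp : decay_Bd p) : decay_Bd (fun x => p x ^ 2) := by
  obtain ⟨h1, C, hC⟩ := hp
  refine ⟨h1.pow_const 2, C ^ 2, fun x => ?_⟩
  rw [abs_pow]
  exact pow_le_pow_left₀ (abs_nonneg _) (hC x) 2

theorem decay_Bd_rot {p : S 3 → ℝ} (hp : decay_Bd p) (g : Iso 3) :
    decay_Bd (fun x => p (rot g x)) := by
  obtain ⟨h1, C, hC⟩ := hp
  exact ⟨h1.comp (rot_continuous g).measurable, C, fun x => hC _⟩

theorem decay_rot_int (g : Iso 3) {p : S 3 → ℝ} (hp : Measurable p) :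
    ∫ x, p (rot g x) ∂(sg 3) = ∫ x, p x ∂(sg 3) := by
  have h1 := (rot_mp 3 (by norm_num) g).map_eq
  have h2 : ∫ y, p y ∂(Measure.map (rot g) (sg 3)) = ∫ x, p (rot g x) ∂(sg 3) :=
    integral_map (rot_continuous g).measurable.aemeasurable hp.aestronglyMeasurable
  rw [← h2, h1]

theorem decay_sq_add (μ : Measure (S 3)) [IsProbabilityMeasure μ] {p q : S 3 → ℝ}
    (hp : decay_Bd p) (hq : decay_Bd q) {δ : ℝ} (hδ : 0 < δ) :
    ∫ x, (p x + q x) ^ 2 ∂μ ≤ (1 + δ) * ∫ x, p x ^ 2 ∂μ + (1 + 1 / δ) * ∫ x, q x ^ 2 ∂μ := by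
  rw [← integral_const_mul, ← integral_const_mul, ← integral_add
    ((decay_int μ (decay_Bd_sq hp)).const_mul _) ((decay_int μ (decay_Bd_sq hq)).const_mul _)]
  refine integral_mono (decay_int μ (decay_Bd_sq (decay_Bd_add hp hq)))
    (((decay_int μ (decay_Bd_sq hp)).const_mul _).add
      ((decay_int μ (decay_Bd_sq hq)).const_mul _)) fun x => ?_
  change (p x + q x) ^ 2 ≤ (1 + δ) * p x ^ 2 + (1 + 1 / δ) * q x ^ 2
  have h1 : (1 + δ) * p x ^ 2 + (1 + 1 / δ) * q x ^ 2 - (p x + q x) ^ 2 =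
      (δ * p x - q x) ^ 2 / δ := by
    field_simp
    ring
  have h2 : 0 ≤ (δ * p x - q x) ^ 2 / δ := by positivity
  linarith

theorem decay_mean_sq (μ : Measure (S 3)) [IsProbabilityMeasure μ] {p : S 3 → ℝ}
    (hp : decay_Bd p) : (∫ x, p x ∂μ) ^ 2 ≤ ∫ x, p x ^ 2 ∂μ := by
  set m := ∫ x, p x ∂μ with hm
  have hi := decay_int μ hp
  have hi2 := decay_int μ (decay_Bd_sq hp)
  have h1 : 0 ≤ ∫ x, (p x ^ 2 - 2 * m * p x + m ^ 2) ∂μ := by
    apply integral_nonneg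
    intro x
    change 0 ≤ p x ^ 2 - 2 * m * p x + m ^ 2
    nlinarith [sq_nonneg (p x - m)]
  have a1 : Integrable (fun x => 2 * m * p x) μ := hi.const_mul _
  have a2 : Integrable (fun x => p x ^ 2 - 2 * m * p x) μ := hi2.sub a1
  rw [integral_add a2 (integrable_const _), integral_sub hi2 a1, integral_const_mul, ← hm,
    integral_const] at h1
  simp only [probReal_univ, one_smul, smul_eq_mul, one_mul] at h1
  nlinarith

theorem decay_gap (k : ℕ) (g : Fin k → Iso 3) (κ : ℝ) (h : SGD 3 k g κ) (ψ : S 3 → ℝ)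
    (hψ : decay_Bd ψ) (h0 : ∫ x, ψ x ∂(sg 3) = 0) :
    κ * ∫ x, ψ x ^ 2 ∂(sg 3) ≤ ∑ i, ∫ x, (ψ (rot (g i) x) - ψ x) ^ 2 ∂(sg 3) := by
  have := sg_prob 3 (by norm_num)
  obtain ⟨hκ, hgap⟩ := h
  set A := ∫ x, ψ x ^ 2 ∂(sg 3) with hA
  set B := ∑ i, ∫ x, (ψ (rot (g i) x) - ψ x) ^ 2 ∂(sg 3) with hB
  have hB0 : 0 ≤ B := Finset.sum_nonneg fun i _ => integral_nonneg fun x => sq_nonneg _
  have key : ∀ δ : ℝ, 0 < δ → ∀ η : ℝ, 0 < η → κ * A ≤ (1 + δ) ^ 2 * B +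
      ((1 + δ) * (κ + 4 * k * (1 + 1 / δ)) + κ * (1 + 1 / δ)) * η := by
    intro δ hδ η hη
    have hmem : MemLp ψ (ENNReal.ofReal 2) (sg 3) := by
      obtain ⟨h1, C, hC⟩ := hψ
      exact MemLp.of_bound h1.aestronglyMeasurable C (Filter.Eventually.of_forall hC)
    obtain ⟨f, hf, -⟩ := hmem.exists_boundedContinuous_integral_rpow_sub_le
      (by norm_num : (0 : ℝ) < 2) hη
    have hf' : ∫ x, (ψ x - f x) ^ 2 ∂(sg 3) ≤ η := by
      refine le_trans (le_of_eq ?_) hf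
      refine integral_congr_ae (Filter.Eventually.of_forall fun x => ?_)
      change (ψ x - f x) ^ 2 = ‖ψ x - f x‖ ^ (2 : ℝ)
      rw [Real.rpow_two, Real.norm_eq_abs, sq_abs]
    have hfB : decay_Bd (fun x => f x) :=
      ⟨f.continuous.measurable, ‖f‖, fun x => f.norm_coe_le_norm x⟩
    have hr : decay_Bd (fun x => ψ x - f x) := decay_Bd_sub hψ hfB
    have hr' : decay_Bd (fun x => f x - ψ x) := decay_Bd_sub hfB hψ
    set ηf := ∫ x, (ψ x - f x) ^ 2 ∂(sg 3) with hηf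
    have hηf0 : 0 ≤ ηf := integral_nonneg fun x => sq_nonneg _
    have hηf' : ∫ x, (f x - ψ x) ^ 2 ∂(sg 3) = ηf := by
      refine integral_congr_ae (Filter.Eventually.of_forall fun x => ?_)
      change (f x - ψ x) ^ 2 = (ψ x - f x) ^ 2
      ring
    set Fi := ∫ x, f x ^ 2 ∂(sg 3) with hFi
    -- (i)
    have e1 : A ≤ (1 + δ) * Fi + (1 + 1 / δ) * ηf := by
      have := decay_sq_add (sg 3) hfB hr hδ
      refine le_trans (le_of_eq ?_) this
      refine integral_congr_ae (Filter.Eventually.of_forall fun x => ?_)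
      change ψ x ^ 2 = (f x + (ψ x - f x)) ^ 2
      ring
    -- (ii)
    have e2 : (∫ x, f x ∂(sg 3)) ^ 2 ≤ ηf := by
      have h1 := decay_mean_sq (sg 3) hr
      have h2 : ∫ x, (ψ x - f x) ∂(sg 3) = - ∫ x, f x ∂(sg 3) := by
        rw [integral_sub (decay_int _ hψ) (decay_int _ hfB), h0, zero_sub]
      rw [h2, neg_sq] at h1
      exact h1
    -- (iii)
    have e3 : ∀ i, ∫ x, (f (rot (g i) x) - f x) ^ 2 ∂(sg 3) ≤
        (1 + δ) * ∫ x, (ψ (rot (g i) x) - ψ x) ^ 2 ∂(sg 3) + (1 + 1 / δ) * (4 * ηf) := by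
      intro i
      have hq : decay_Bd (fun x => (f (rot (g i) x) - ψ (rot (g i) x)) - (f x - ψ x)) :=
        decay_Bd_sub (decay_Bd_rot hr' (g i)) hr'
      have h1 := decay_sq_add (sg 3) (decay_Bd_sub (decay_Bd_rot hψ (g i)) hψ) hq hδ
      have h2 : ∫ x, ((f (rot (g i) x) - ψ (rot (g i) x)) - (f x - ψ x)) ^ 2 ∂(sg 3) ≤
          4 * ηf := by
        have i1 := decay_int (sg 3) (decay_Bd_sq (decay_Bd_rot hr' (g i)))
        have i2 := decay_int (sg 3) (decay_Bd_sq hr')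
        have h3 : ∫ x, ((f (rot (g i) x) - ψ (rot (g i) x)) - (f x - ψ x)) ^ 2 ∂(sg 3) ≤
            ∫ x, (2 * (f (rot (g i) x) - ψ (rot (g i) x)) ^ 2 + 2 * (f x - ψ x) ^ 2) ∂(sg 3) := by
          refine integral_mono (decay_int _ (decay_Bd_sq hq))
            ((i1.const_mul 2).add (i2.const_mul 2)) fun x => ?_
          change ((f (rot (g i) x) - ψ (rot (g i) x)) - (f x - ψ x)) ^ 2 ≤
            2 * (f (rot (g i) x) - ψ (rot (g i) x)) ^ 2 + 2 * (f x - ψ x) ^ 2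
          nlinarith [sq_nonneg ((f (rot (g i) x) - ψ (rot (g i) x)) + (f x - ψ x))]
        rw [integral_add (i1.const_mul 2) (i2.const_mul 2), integral_const_mul,
          integral_const_mul, decay_rot_int (g i) (p := fun x => (f x - ψ x) ^ 2)
          (decay_Bd_sq hr').1, hηf'] at h3
        linarith
      have h4 : (1 + 1 / δ) * ∫ x, ((f (rot (g i) x) - ψ (rot (g i) x)) - (f x - ψ x)) ^ 2
          ∂(sg 3) ≤ (1 + 1 / δ) * (4 * ηf) := mul_le_mul_of_nonneg_left h2 (by positivity)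
      have h5 : ∫ x, (f (rot (g i) x) - f x) ^ 2 ∂(sg 3) = ∫ x, ((ψ (rot (g i) x) - ψ x) +
          ((f (rot (g i) x) - ψ (rot (g i) x)) - (f x - ψ x))) ^ 2 ∂(sg 3) := by
        refine integral_congr_ae (Filter.Eventually.of_forall fun x => ?_)
        change (f (rot (g i) x) - f x) ^ 2 = ((ψ (rot (g i) x) - ψ x) +
          ((f (rot (g i) x) - ψ (rot (g i) x)) - (f x - ψ x))) ^ 2
        ring
      rw [h5]
      linarith
    -- (iv)
    have e4 := hgap f.toContinuousMap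
    have e5 : κ * (Fi - (∫ x, f x ∂(sg 3)) ^ 2) ≤
        ∑ i, ∫ x, (f (rot (g i) x) - f x) ^ 2 ∂(sg 3) := e4
    have e6 : ∑ i, ∫ x, (f (rot (g i) x) - f x) ^ 2 ∂(sg 3) ≤
        (1 + δ) * B + k * ((1 + 1 / δ) * (4 * ηf)) := by
      refine (Finset.sum_le_sum fun i _ => e3 i).trans (le_of_eq ?_)
      rw [Finset.sum_add_distrib, ← Finset.mul_sum, Finset.sum_const, Finset.card_univ,
        Fintype.card_fin, nsmul_eq_mul]
    have e7 : κ * Fi ≤ κ * ηf + ((1 + δ) * B + k * ((1 + 1 / δ) * (4 * ηf))) := by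
      have := mul_le_mul_of_nonneg_left e2 hκ.le
      linarith
    have e8 : κ * A ≤ (1 + δ) * (κ * Fi) + κ * ((1 + 1 / δ) * ηf) := by
      have := mul_le_mul_of_nonneg_left e1 hκ.le
      linarith
    have e9 : (1 + δ) * (κ * Fi) ≤
        (1 + δ) * (κ * ηf + ((1 + δ) * B + k * ((1 + 1 / δ) * (4 * ηf)))) :=
      mul_le_mul_of_nonneg_left e7 (by linarith)
    have hK : 0 ≤ (1 + δ) * (κ + 4 * k * (1 + 1 / δ)) + κ * (1 + 1 / δ) := by positivity
    have e10 := mul_le_mul_of_nonneg_left hf' hK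
    calc κ * A ≤ (1 + δ) * (κ * ηf + ((1 + δ) * B + k * ((1 + 1 / δ) * (4 * ηf)))) +
          κ * ((1 + 1 / δ) * ηf) := by linarith
      _ = (1 + δ) ^ 2 * B + ((1 + δ) * (κ + 4 * k * (1 + 1 / δ)) + κ * (1 + 1 / δ)) * ηf := by
          ring
      _ ≤ _ := by linarith
  refine le_of_forall_pos_le_add fun ε hε => ?_
  set δ := min 1 (ε / (2 * (3 * B + 1))) with hδ
  have hδ0 : 0 < δ := lt_min one_pos (by positivity)
  have hδ1 : δ ≤ 1 := min_le_left _ _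
  have hδ2 : δ * (3 * B) ≤ ε / 2 := by
    have h1 : δ ≤ ε / (2 * (3 * B + 1)) := min_le_right _ _
    have h2 : δ * (3 * B) ≤ ε / (2 * (3 * B + 1)) * (3 * B) :=
      mul_le_mul_of_nonneg_right h1 (by linarith)
    have h3 : ε / (2 * (3 * B + 1)) * (3 * B) ≤ ε / 2 := by
      rw [div_mul_eq_mul_div, div_le_div_iff₀ (by positivity) (by norm_num)]
      nlinarith
    exact h2.trans h3
  set K := (1 + δ) * (κ + 4 * k * (1 + 1 / δ)) + κ * (1 + 1 / δ) with hK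
  have hK0 : 0 ≤ K := by positivity
  have h1 := key δ hδ0 (ε / (2 * (K + 1))) (by positivity)
  rw [← hK] at h1
  have h2 : K * (ε / (2 * (K + 1))) ≤ ε / 2 := by
    rw [mul_div_assoc', div_le_div_iff₀ (by positivity) (by norm_num)]
    nlinarith
  have h3 : (1 + δ) ^ 2 * B ≤ B + δ * (3 * B) := by
    nlinarith [mul_nonneg (mul_nonneg hδ0.le (sub_nonneg.2 hδ1)) hB0]
  linarith

theorem decay_pointwise (k : ℕ) (a0 : ℝ) (a : Fin k → ℝ) :
    (a0 + ∑ i, a i) ^ 2 ≤ (k + 1) * (a0 ^ 2 + ∑ i, a i ^ 2) - ∑ i, (a i - a0) ^ 2 := by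
  have h1 : (∑ i, a i) ^ 2 ≤ k * ∑ i, a i ^ 2 := by
    have := sq_sum_le_card_mul_sum_sq (s := Finset.univ) (f := a)
    rwa [Finset.card_univ, Fintype.card_fin] at this
  have h2 : ∑ i, (a i - a0) ^ 2 = ∑ i, a i ^ 2 - 2 * a0 * ∑ i, a i + k * a0 ^ 2 := by
    have : ∀ i, (a i - a0) ^ 2 = a i ^ 2 - 2 * a0 * a i + a0 ^ 2 := fun i => by ring
    simp only [this, Finset.sum_add_distrib, Finset.sum_sub_distrib, ← Finset.mul_sum,
      Finset.sum_const, Finset.card_univ, Fintype.card_fin, nsmul_eq_mul]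
  rw [h2]
  nlinarith

theorem avg_decay (k : ℕ) (g : Fin k → Iso 3) (κ : ℝ) (h : SGD 3 k g κ) : ∃ c : ℝ, 0 ≤ c ∧ c < 1 ∧
    ∀ ψ : S 3 → ℝ, Measurable ψ → (∀ x, |ψ x| ≤ 1) → ∫ x, ψ x ∂(sg 3) = 0 →
      ∫ x, ((ψ x + ∑ i, ψ (rot (g i) x)) / (k + 1)) ^ 2 ∂(sg 3) ≤ c * ∫ x, ψ x ^ 2 ∂(sg 3) := by
  have := sg_prob 3 (by norm_num)
  have hκ := h.1
  have hk : (0 : ℝ) < ((k : ℝ) + 1) ^ 2 := by positivity
  refine ⟨max 0 (1 - κ / ((k : ℝ) + 1) ^ 2), le_max_left _ _, ?_, ?_⟩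
  · apply max_lt one_pos
    have : 0 < κ / ((k : ℝ) + 1) ^ 2 := by positivity
    linarith
  intro ψ hm hb h0
  have hψ : decay_Bd ψ := ⟨hm, 1, hb⟩
  have hgap := decay_gap k g κ h ψ hψ h0
  set A := ∫ x, ψ x ^ 2 ∂(sg 3) with hA
  have hA0 : 0 ≤ A := integral_nonneg fun x => sq_nonneg _
  have hi0 := decay_int (sg 3) (decay_Bd_sq hψ)
  have hi1 : ∀ i, Integrable (fun x => ψ (rot (g i) x) ^ 2) (sg 3) := fun i =>
    decay_int (sg 3) (decay_Bd_sq (decay_Bd_rot hψ (g i)))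
  have hi2 : ∀ i, Integrable (fun x => (ψ (rot (g i) x) - ψ x) ^ 2) (sg 3) := fun i =>
    decay_int (sg 3) (decay_Bd_sq (decay_Bd_sub (decay_Bd_rot hψ (g i)) hψ))
  have hi3 : Integrable (fun x => ∑ i, ψ (rot (g i) x) ^ 2) (sg 3) :=
    integrable_finsetSum _ fun i _ => hi1 i
  have hi4 : Integrable (fun x => ∑ i, (ψ (rot (g i) x) - ψ x) ^ 2) (sg 3) :=
    integrable_finsetSum _ fun i _ => hi2 i
  have hsumB : ∀ s : Finset (Fin k), decay_Bd (fun x => ∑ i ∈ s, ψ (rot (g i) x)) := by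
    intro s
    induction s using Finset.induction_on with
    | empty =>
      refine ⟨?_, 0, fun x => ?_⟩
      · simp only [Finset.sum_empty]
        exact measurable_const
      · simp
    | insert a s ha ih =>
      have : (fun x => ∑ i ∈ insert a s, ψ (rot (g i) x)) =
          fun x => ψ (rot (g a) x) + ∑ i ∈ s, ψ (rot (g i) x) := by
        funext x
        rw [Finset.sum_insert ha]
      rw [this]
      exact decay_Bd_add (decay_Bd_rot hψ (g a)) ih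
  have hi5 : Integrable (fun x => (ψ x + ∑ i, ψ (rot (g i) x)) ^ 2) (sg 3) :=
    decay_int (sg 3) (decay_Bd_sq (decay_Bd_add hψ (hsumB Finset.univ)))
  have h1 : ∫ x, (ψ x + ∑ i, ψ (rot (g i) x)) ^ 2 ∂(sg 3) ≤
      ∫ x, ((k + 1) * (ψ x ^ 2 + ∑ i, ψ (rot (g i) x) ^ 2) -
        ∑ i, (ψ (rot (g i) x) - ψ x) ^ 2) ∂(sg 3) :=
    integral_mono hi5 (((hi0.add hi3).const_mul _).sub hi4) fun x =>
      decay_pointwise k (ψ x) fun i => ψ (rot (g i) x)
  have hi6 : Integrable (fun x => ψ x ^ 2 + ∑ i, ψ (rot (g i) x) ^ 2) (sg 3) := hi0.add hi3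
  have hi7 : Integrable (fun x => ((k : ℝ) + 1) * (ψ x ^ 2 + ∑ i, ψ (rot (g i) x) ^ 2)) (sg 3) :=
    hi6.const_mul _
  rw [integral_sub hi7 hi4, integral_const_mul, integral_add hi0 hi3,
    integral_finsetSum _ fun i _ => hi1 i, integral_finsetSum _ fun i _ => hi2 i] at h1
  have h2 : ∀ i, ∫ x, ψ (rot (g i) x) ^ 2 ∂(sg 3) = A := fun i =>
    decay_rot_int (g i) (p := fun x => ψ x ^ 2) (decay_Bd_sq hψ).1
  simp only [h2, Finset.sum_const, Finset.card_univ, Fintype.card_fin, nsmul_eq_mul] at h1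
  rw [← hA] at h1
  have h3 : ∫ x, ((ψ x + ∑ i, ψ (rot (g i) x)) / (k + 1)) ^ 2 ∂(sg 3) =
      (∫ x, (ψ x + ∑ i, ψ (rot (g i) x)) ^ 2 ∂(sg 3)) / ((k : ℝ) + 1) ^ 2 := by
    rw [← integral_div]
    refine integral_congr_ae (Filter.Eventually.of_forall fun x => ?_)
    exact div_pow _ _ _
  rw [h3]
  have h4 : (∫ x, (ψ x + ∑ i, ψ (rot (g i) x)) ^ 2 ∂(sg 3)) / ((k : ℝ) + 1) ^ 2 ≤
      (1 - κ / ((k : ℝ) + 1) ^ 2) * A := by
    rw [div_le_iff₀ hk]
    have : (1 - κ / ((k : ℝ) + 1) ^ 2) * A * ((k : ℝ) + 1) ^ 2 =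
        ((k : ℝ) + 1) ^ 2 * A - κ * A := by
      field_simp
    rw [this]
    nlinarith
  exact h4.trans (mul_le_mul_of_nonneg_right (le_max_right _ _) hA0)


end Pool.Agent.Helper557.Rz
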