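import Pool.Agent.Helper557.Eq.Defs
import Pool.Agent.Helper557.Eq.M_decay
import Pool.Agent.Helper557.Rz.M_meas

set_option autoImplicit false

open MeasureTheory Set

namespace Pool.Agent.Helper557.Rz

theorem decay2_int {P : Type} [MeasurableSpace P] {u : S 3 → P → ℝ}
    (hu : Measurable (fun z : S 3 × P => u z.1 z.2)) (hb : ∀ x p, |u x p| ≤ 1) (p : P) :
    Measurable (fun x => u x p) ∧ Integrable (fun x => u x p) (sg 3) ∧
      Integrable (fun x => u x p ^ 2) (sg 3) := by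
  haveI := sg_prob 3 (by norm_num)
  have h1 : Measurable (fun x => u x p) := hu.comp (measurable_id.prodMk measurable_const)
  refine ⟨h1, ?_, ?_⟩
  · refine Integrable.mono' (g := fun _ => (1 : ℝ)) (integrable_const _) h1.aestronglyMeasurable ?_
    exact Filter.Eventually.of_forall (fun x => by rw [Real.norm_eq_abs]; exact hb x p)
  · refine Integrable.mono' (g := fun _ => (1 : ℝ)) (integrable_const _)
      (h1.pow_const 2).aestronglyMeasurable ?_
    refine Filter.Eventually.of_forall (fun x => ?_)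
    rw [Real.norm_eq_abs, abs_pow]
    exact pow_le_one₀ (abs_nonneg _) (hb x p)

theorem decay2_iter (k : ℕ) (g : Fin k → Iso 3) (c : ℝ) (hc0 : 0 ≤ c)
    (hc : ∀ ψ : S 3 → ℝ, Measurable ψ → (∀ x, |ψ x| ≤ 1) → ∫ x, ψ x ∂(sg 3) = 0 →
      ∫ x, ((ψ x + ∑ i, ψ (rot (g i) x)) / (k + 1)) ^ 2 ∂(sg 3) ≤ c * ∫ x, ψ x ^ 2 ∂(sg 3))
    (n : ℕ) (P : Type) [MeasurableSpace P] (f : S 3 → P → ℝ)
    (hf : Measurable (fun z : S 3 × P => f z.1 z.2)) (hfb : ∀ x p, |f x p| ≤ 1)
    (hf0 : ∀ p, ∫ x, f x p ∂(sg 3) = 0) :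
    ∃ (u : S 3 → P → ℝ) (φ : Fin k → S 3 → P → ℝ), Measurable (fun z : S 3 × P => u z.1 z.2) ∧
        (∀ i, Measurable (fun z : S 3 × P => φ i z.1 z.2)) ∧ (∀ x p, |u x p| ≤ 1) ∧
        (∀ i x p, |φ i x p| ≤ n) ∧ (∀ p, ∫ x, u x p ∂(sg 3) = 0) ∧
        (∀ p, ∫ x, u x p ^ 2 ∂(sg 3) ≤ c ^ n) ∧
        ∀ x p, f x p = u x p + ∑ i, (φ i (rot (g i) x) p - φ i x p) := by
  haveI := sg_prob 3 (by norm_num)
  induction n with
  | zero =>
    refine ⟨f, fun _ _ _ => 0, hf, fun i => measurable_const, hfb, fun i x p => by simp, hf0,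
      fun p => ?_, fun x p => by simp⟩
    obtain ⟨_, _, h3⟩ := decay2_int hf hfb p
    calc ∫ x, f x p ^ 2 ∂(sg 3) ≤ ∫ _x, (1 : ℝ) ∂(sg 3) := by
          refine integral_mono h3 (integrable_const _) (fun x => ?_)
          change f x p ^ 2 ≤ 1
          rw [← sq_abs]
          exact pow_le_one₀ (abs_nonneg _) (hfb x p)
      _ = 1 := by simp
      _ = c ^ 0 := (pow_zero c).symm
  | succ n ih =>
    obtain ⟨u, φ, hu, hφ, hub, hφb, hu0, hu2, hfu⟩ := ih
    have hk : (0 : ℝ) < (k : ℝ) + 1 := by positivity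
    have hrot : ∀ i, Measurable (fun z : S 3 × P => u (rot (g i) z.1) z.2) := fun i =>
      hu.comp (((rot_continuous (g i)).measurable.comp measurable_fst).prodMk measurable_snd)
    refine ⟨fun x p => (u x p + ∑ i, u (rot (g i) x) p) / (k + 1),
      fun i x p => φ i x p - u x p / (k + 1), ?_, ?_, ?_, ?_, ?_, ?_, ?_⟩
    · exact (hu.add (Finset.measurable_sum _ (fun i _ => hrot i))).div_const _
    · exact fun i => (hφ i).sub (hu.div_const _)
    · intro x p
      rw [abs_div, abs_of_pos hk, div_le_one hk]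
      calc |u x p + ∑ i, u (rot (g i) x) p| ≤ |u x p| + |∑ i, u (rot (g i) x) p| := abs_add_le _ _
        _ ≤ 1 + ∑ i : Fin k, |u (rot (g i) x) p| :=
            add_le_add (hub x p) (Finset.abs_sum_le_sum_abs _ _)
        _ ≤ 1 + ∑ i : Fin k, (1 : ℝ) :=
            add_le_add le_rfl (Finset.sum_le_sum (fun i _ => hub _ _))
        _ = (k : ℝ) + 1 := by simp; ring
    · intro i x p
      have h1 : |u x p / (k + 1)| ≤ 1 := by
        rw [abs_div, abs_of_pos hk, div_le_one hk]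
        have := hub x p
        have hk0 : (0 : ℝ) ≤ k := by positivity
        linarith
      calc |φ i x p - u x p / (k + 1)| ≤ |φ i x p| + |u x p / (k + 1)| := abs_sub _ _
        _ ≤ n + 1 := add_le_add (hφb i x p) h1
        _ = ((n + 1 : ℕ) : ℝ) := by push_cast; ring
    · intro p
      obtain ⟨h1, h2, _⟩ := decay2_int hu hub p
      have hmp : ∀ i, ∫ x, u (rot (g i) x) p ∂(sg 3) = 0 := by
        intro i
        have hmap := (rot_mp 3 (by norm_num) (g i)).map_eq
        have := integral_map (μ := sg 3) (rot_continuous (g i)).measurable.aemeasurable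
          (f := fun x => u x p) (by rw [hmap]; exact h1.aestronglyMeasurable)
        rw [hmap, hu0 p] at this
        exact this.symm
      have hint : ∀ i, Integrable (fun x => u (rot (g i) x) p) (sg 3) := fun i =>
        (decay2_int (hrot i) (fun x p => hub _ p) p).2.1
      rw [integral_div, integral_add h2 (integrable_finset_sum _ (fun i _ => hint i)),
        integral_finset_sum _ (fun i _ => hint i), hu0 p]
      simp [hmp]
    · intro p
      obtain ⟨h1, _, _⟩ := decay2_int hu hub p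
      calc _ ≤ c * ∫ x, u x p ^ 2 ∂(sg 3) := hc (fun x => u x p) h1 (fun x => hub x p) (hu0 p)
        _ ≤ c * c ^ n := mul_le_mul_of_nonneg_left (hu2 p) hc0
        _ = c ^ (n + 1) := by ring
    · intro x p
      rw [hfu x p]
      have e1 : ∑ i, ((φ i (rot (g i) x) p - u (rot (g i) x) p / (k + 1)) -
          (φ i x p - u x p / (k + 1))) =
          ∑ i, (φ i (rot (g i) x) p - φ i x p) - (∑ i, u (rot (g i) x) p) / (k + 1) +
            k * (u x p / (k + 1)) := by
        rw [Finset.sum_div]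
        have : ∀ i : Fin k, ((φ i (rot (g i) x) p - u (rot (g i) x) p / (k + 1)) -
          (φ i x p - u x p / (k + 1))) = (φ i (rot (g i) x) p - φ i x p) -
            u (rot (g i) x) p / (k + 1) + u x p / (k + 1) := fun i => by ring
        rw [Finset.sum_congr rfl (fun i _ => this i), Finset.sum_add_distrib,
          Finset.sum_sub_distrib]
        simp
      rw [e1]
      field_simp
      ring

theorem param_decay (k : ℕ) (g : Fin k → Iso 3) (κ : ℝ) (h : SGD 3 k g κ) (η : ℝ) (hη : 0 < η) :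
    ∃ C : ℝ, 0 ≤ C ∧ ∀ (P : Type) [MeasurableSpace P] (f : S 3 → P → ℝ),
      Measurable (fun z : S 3 × P => f z.1 z.2) → (∀ x p, |f x p| ≤ 1) →
      (∀ p, ∫ x, f x p ∂(sg 3) = 0) →
      ∃ (u : S 3 → P → ℝ) (φ : Fin k → S 3 → P → ℝ), Measurable (fun z : S 3 × P => u z.1 z.2) ∧
        (∀ i, Measurable (fun z : S 3 × P => φ i z.1 z.2)) ∧ (∀ x p, |u x p| ≤ 1) ∧
        (∀ i x p, |φ i x p| ≤ C) ∧ (∀ p, sg 3 {x | 1 / 8 < |u x p|} ≤ ENNReal.ofReal η) ∧
        ∀ x p, f x p = u x p + ∑ i, (φ i (rot (g i) x) p - φ i x p) := by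
  obtain ⟨c, hc0, hc1, hc⟩ := avg_decay k g κ h
  obtain ⟨n, hn⟩ : ∃ n : ℕ, 64 * c ^ n < η := by
    have ht : Filter.Tendsto (fun n : ℕ => 64 * c ^ n) Filter.atTop (nhds (64 * 0)) :=
      (tendsto_pow_atTop_nhds_zero_of_lt_one hc0 hc1).const_mul 64
    rw [mul_zero] at ht
    exact (ht.eventually (gt_mem_nhds hη)).exists
  haveI := sg_prob 3 (by norm_num)
  refine ⟨n, by positivity, ?_⟩
  intro P _ f hf hfb hf0
  obtain ⟨u, φ, hu, hφ, hub, hφb, hu0, hu2, hfu⟩ := decay2_iter k g c hc0 hc n P f hf hfb hf0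
  refine ⟨u, φ, hu, hφ, hub, hφb, fun p => ?_, hfu⟩
  obtain ⟨h1, _, h3⟩ := decay2_int hu hub p
  have hch := mul_meas_ge_le_integral_of_nonneg (μ := sg 3)
    (Filter.Eventually.of_forall (fun x => sq_nonneg (u x p))) h3 (1 / 64)
  have hsub : {x : S 3 | 1 / 8 < |u x p|} ⊆ {x : S 3 | 1 / 64 ≤ u x p ^ 2} := by
    intro x hx
    simp only [mem_setOf_eq] at hx ⊢
    rw [← sq_abs]
    nlinarith
  refine (measure_mono hsub).trans ?_
  rw [← ENNReal.ofReal_toReal (measure_ne_top (sg 3) {x : S 3 | 1 / 64 ≤ u x p ^ 2})]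
  refine ENNReal.ofReal_le_ofReal ?_
  have h4 : (sg 3).real {x : S 3 | 1 / 64 ≤ u x p ^ 2} ≤ 64 * c ^ n := by
    have := hch.trans (hu2 p)
    linarith
  exact h4.trans hn.le


end Pool.Agent.Helper557.Rz
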