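import Pool.Agent.Helper557.Eq.Defs
import Pool.Agent.Helper557.Rz.M_meas

set_option autoImplicit false

open MeasureTheory Set

namespace Pool.Agent.Helper557.Rz
/-- the enlarged functions -/
noncomputable def pexp_q {k : ℕ} (g : Fin k → Iso 3) {P : Type} (q : S 3 → P → ℝ) :
    ℕ → S 3 → P → ℝ
  | 0 => q
  | l + 1 => fun x p => pexp_q g q l x p *
      ∏ i, (pexp_q g q l (rot (g i) x) p * pexp_q g q l (rot (g i)⁻¹ x) p)

theorem pexp_cont {k : ℕ} (g : Fin k → Iso 3) {P : Type} (q : S 3 → P → ℝ)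
    (hc : ∀ p, Continuous (fun x => q x p)) (l : ℕ) :
    ∀ p, Continuous (fun x => pexp_q g q l x p) := by
  induction l with
  | zero => exact hc
  | succ l ih =>
    intro p
    apply (ih p).mul
    apply continuous_finsetProd
    intro i _
    exact ((ih p).comp (rot_continuous (g i))).mul ((ih p).comp (rot_continuous (g i)⁻¹))

theorem pexp_meas {k : ℕ} (g : Fin k → Iso 3) {P : Type} [MeasurableSpace P] (q : S 3 → P → ℝ)
    (hm : ∀ x, Measurable (q x)) (l : ℕ) : ∀ x, Measurable (pexp_q g q l x) := by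
  induction l with
  | zero => exact hm
  | succ l ih =>
    intro x
    apply (ih x).mul
    have : ∀ i ∈ (Finset.univ : Finset (Fin k)), Measurable (fun p =>
        pexp_q g q l (rot (g i) x) p * pexp_q g q l (rot (g i)⁻¹ x) p) :=
      fun i _ => (ih _).mul (ih _)
    exact Finset.measurable_fun_prod _ this

theorem pexp_nonneg {k : ℕ} (g : Fin k → Iso 3) {P : Type} (q : S 3 → P → ℝ)
    (hn : ∀ x p, 0 ≤ q x p) (l : ℕ) : ∀ x p, 0 ≤ pexp_q g q l x p := by
  induction l with
  | zero => exact hn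
  | succ l ih =>
    intro x p
    exact mul_nonneg (ih x p) (Finset.prod_nonneg fun i _ => mul_nonneg (ih _ _) (ih _ _))

theorem pexp_zero_iff {k : ℕ} (g : Fin k → Iso 3) {P : Type} (q : S 3 → P → ℝ) (l : ℕ)
    (x : S 3) (p : P) : pexp_q g q (l + 1) x p = 0 ↔ pexp_q g q l x p = 0 ∨
      ∃ i, pexp_q g q l (rot (g i) x) p = 0 ∨ pexp_q g q l (rot (g i)⁻¹ x) p = 0 := by
  change pexp_q g q l x p *
      ∏ i, (pexp_q g q l (rot (g i) x) p * pexp_q g q l (rot (g i)⁻¹ x) p) = 0 ↔ _
  rw [mul_eq_zero, Finset.prod_eq_zero_iff]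
  simp only [Finset.mem_univ, true_and, mul_eq_zero]

theorem pexp_zero_mono {k : ℕ} (g : Fin k → Iso 3) {P : Type} (q : S 3 → P → ℝ) {l m : ℕ}
    (hlm : l ≤ m) (x : S 3) (p : P) (h : pexp_q g q l x p = 0) : pexp_q g q m x p = 0 := by
  induction m, hlm using Nat.le_induction with
  | base => exact h
  | succ m _ ih => exact (pexp_zero_iff g q m x p).2 (Or.inl ih)

theorem pexp_measure {k : ℕ} (g : Fin k → Iso 3) {P : Type} (q : S 3 → P → ℝ)
    (hc : ∀ p, Continuous (fun x => q x p)) (η : ℝ)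
    (h0 : ∀ p, sg 3 {x | q x p = 0} ≤ ENNReal.ofReal η) (l : ℕ) :
    ∀ p, sg 3 {x | pexp_q g q l x p = 0} ≤ ENNReal.ofReal ((1 + 2 * k) ^ l * η) := by
  induction l with
  | zero =>
    intro p
    rw [pow_zero, one_mul]
    exact h0 p
  | succ l ih =>
    intro p
    have hcl : IsClosed {x | pexp_q g q l x p = 0} :=
      isClosed_eq (pexp_cont g q hc l p) continuous_const
    have hsub : {x | pexp_q g q (l + 1) x p = 0} ⊆ {x | pexp_q g q l x p = 0} ∪
        ⋃ i ∈ (Finset.univ : Finset (Fin k)), ((rot (g i)) ⁻¹' {x | pexp_q g q l x p = 0} ∪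
          (rot (g i)⁻¹) ⁻¹' {x | pexp_q g q l x p = 0}) := by
      intro x hx
      rcases (pexp_zero_iff g q l x p).1 hx with h | ⟨i, h⟩
      · exact Or.inl h
      · right
        simp only [Finset.mem_univ, iUnion_true, mem_iUnion]
        exact ⟨i, h⟩
    have hpre : ∀ h : Iso 3, sg 3 ((rot h) ⁻¹' {x | pexp_q g q l x p = 0}) =
        sg 3 {x | pexp_q g q l x p = 0} := fun h =>
      (rot_mp 3 (by norm_num) h).measure_preimage hcl.measurableSet.nullMeasurableSet
    have h1 : sg 3 {x | pexp_q g q (l + 1) x p = 0} ≤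
        (1 + 2 * k) * sg 3 {x | pexp_q g q l x p = 0} := by
      calc sg 3 {x | pexp_q g q (l + 1) x p = 0}
          ≤ sg 3 ({x | pexp_q g q l x p = 0} ∪
        ⋃ i ∈ (Finset.univ : Finset (Fin k)), ((rot (g i)) ⁻¹' {x | pexp_q g q l x p = 0} ∪
          (rot (g i)⁻¹) ⁻¹' {x | pexp_q g q l x p = 0})) := measure_mono hsub
        _ ≤ sg 3 {x | pexp_q g q l x p = 0} +
            sg 3 (⋃ i ∈ (Finset.univ : Finset (Fin k)), ((rot (g i)) ⁻¹' {x | pexp_q g q l x p = 0} ∪
          (rot (g i)⁻¹) ⁻¹' {x | pexp_q g q l x p = 0})) := measure_union_le _ _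
        _ ≤ sg 3 {x | pexp_q g q l x p = 0} +
            ∑ i : Fin k, sg 3 ((rot (g i)) ⁻¹' {x | pexp_q g q l x p = 0} ∪
          (rot (g i)⁻¹) ⁻¹' {x | pexp_q g q l x p = 0}) :=
            add_le_add le_rfl (measure_biUnion_finset_le _ _)
        _ ≤ sg 3 {x | pexp_q g q l x p = 0} +
            ∑ i : Fin k, (sg 3 {x | pexp_q g q l x p = 0} + sg 3 {x | pexp_q g q l x p = 0}) := by
            apply add_le_add le_rfl
            apply Finset.sum_le_sum
            intro i _
            refine (measure_union_le _ _).trans ?_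
            rw [hpre, hpre]
        _ = (1 + 2 * k) * sg 3 {x | pexp_q g q l x p = 0} := by
            rw [Finset.sum_const, Finset.card_univ, Fintype.card_fin, nsmul_eq_mul]
            ring
    refine h1.trans ?_
    have h2 : ENNReal.ofReal ((1 + 2 * (k : ℝ)) ^ (l + 1) * η) =
        (1 + 2 * k) * ENNReal.ofReal ((1 + 2 * (k : ℝ)) ^ l * η) := by
      rw [pow_succ', mul_assoc, ENNReal.ofReal_mul (by positivity)]
      congr 1
      rw [ENNReal.ofReal_add (by norm_num) (by positivity), ENNReal.ofReal_mul (by norm_num),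
        ENNReal.ofReal_one, ENNReal.ofReal_natCast]
      norm_num
    rw [h2]
    gcongr
    exact ih p

theorem pexp_sum (a b : ℕ → ℝ) (ha0 : ∀ l, 0 ≤ a l) (ha1 : ∀ l, a l ≤ 1) (hb0 : ∀ l, 0 ≤ b l)
    (hb1 : ∀ l, b l ≤ 1) (h1 : ∀ l, b l ≤ a (l + 1)) (h2 : ∀ l, a l ≤ b (l + 1)) (N : ℕ) :
    |∑ l ∈ Finset.range N, b l - ∑ l ∈ Finset.range N, a l| ≤ 1 := by
  have key : ∀ a b : ℕ → ℝ, (∀ l, 0 ≤ a l) → (∀ l, a l ≤ 1) → (∀ l, b l ≤ a (l + 1)) →
      ∑ l ∈ Finset.range N, b l - ∑ l ∈ Finset.range N, a l ≤ 1 := by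
    intro a b ha0 ha1 h1
    have e1 : ∑ l ∈ Finset.range N, b l ≤ ∑ l ∈ Finset.range N, a (l + 1) :=
      Finset.sum_le_sum fun l _ => h1 l
    have e2 : ∑ l ∈ Finset.range N, a (l + 1) + a 0 = ∑ l ∈ Finset.range N, a l + a N := by
      rw [← Finset.sum_range_succ', Finset.sum_range_succ]
    have e3 := ha0 0
    have e4 := ha1 N
    linarith
  rw [abs_le]
  constructor
  · have := key b a hb0 hb1 h2
    linarith
  · exact key a b ha0 ha1 h1


theorem param_expand (k : ℕ) (g : Fin k → Iso 3) (P : Type) [MeasurableSpace P] (q : S 3 → P → ℝ)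
    (hc : ∀ p, Continuous (fun x => q x p)) (hm : ∀ x, Measurable (q x)) (hn : ∀ x p, 0 ≤ q x p)
    (η : ℝ) (h0 : ∀ p, sg 3 {x | q x p = 0} ≤ ENNReal.ofReal η) (N : ℕ) (hN : 1 ≤ N) :
    ∃ (q' : S 3 → P → ℝ) (χ : S 3 → P → ℝ), (∀ p, Continuous (fun x => q' x p)) ∧
      (∀ x, Measurable (q' x)) ∧ (∀ x p, 0 ≤ q' x p) ∧
      (∀ p, sg 3 {x | q' x p = 0} ≤ ENNReal.ofReal ((1 + 2 * k) ^ N * η)) ∧
      Measurable (fun z : S 3 × P => χ z.1 z.2) ∧ (∀ x p, 0 ≤ χ x p ∧ χ x p ≤ 1) ∧
      (∀ x p, q x p = 0 → χ x p = 1) ∧ (∀ x p, χ x p ≠ 0 → q' x p = 0) ∧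
      ∀ i x p, |χ (rot (g i) x) p - χ x p| ≤ 1 / N := by
  classical
  have hN0 : (0 : ℝ) < N := by exact_mod_cast hN
  let ind : ℕ → S 3 → P → ℝ := fun l x p => if pexp_q g q l x p = 0 then 1 else 0
  have hind : ∀ l x p, ind l x p = if pexp_q g q l x p = 0 then 1 else 0 := fun _ _ _ => rfl
  have hi0 : ∀ l x p, 0 ≤ ind l x p := by
    intro l x p; rw [hind]; split_ifs <;> norm_num
  have hi1 : ∀ l x p, ind l x p ≤ 1 := by
    intro l x p; rw [hind]; split_ifs <;> norm_num
  refine ⟨pexp_q g q N, fun x p => (∑ l ∈ Finset.range N, ind l x p) / N,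
    pexp_cont g q hc N, pexp_meas g q hm N, pexp_nonneg g q hn N, pexp_measure g q hc η h0 N,
    ?_, ?_, ?_, ?_, ?_⟩
  · apply Measurable.div_const
    apply Finset.measurable_fun_sum
    intro l _
    have h1 : Measurable (fun z : S 3 × P => pexp_q g q l z.1 z.2) :=
      measurable_uncurry_of_continuous_of_measurable (u := pexp_q g q l) (pexp_cont g q hc l)
        (pexp_meas g q hm l)
    exact Measurable.ite (measurableSet_eq_fun h1 measurable_const) measurable_const
      measurable_const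
  · intro x p
    constructor
    · exact div_nonneg (Finset.sum_nonneg fun l _ => hi0 l x p) hN0.le
    · rw [div_le_one hN0]
      calc ∑ l ∈ Finset.range N, ind l x p ≤ ∑ l ∈ Finset.range N, (1 : ℝ) :=
            Finset.sum_le_sum fun l _ => hi1 l x p
        _ = N := by simp
  · intro x p hq
    have h1 : ∑ l ∈ Finset.range N, ind l x p = N := by
      calc ∑ l ∈ Finset.range N, ind l x p = ∑ l ∈ Finset.range N, (1 : ℝ) := by
            apply Finset.sum_congr rfl
            intro l _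
            rw [hind, if_pos]
            exact pexp_zero_mono g q (Nat.zero_le l) x p hq
        _ = N := by simp
    change (∑ l ∈ Finset.range N, ind l x p) / N = 1
    rw [h1, div_self hN0.ne']
  · intro x p hχ
    by_contra hcon
    apply hχ
    change (∑ l ∈ Finset.range N, ind l x p) / N = 0
    have h1 : ∑ l ∈ Finset.range N, ind l x p = 0 := by
      apply Finset.sum_eq_zero
      intro l hl
      rw [hind, if_neg]
      intro h
      exact hcon (pexp_zero_mono g q (Finset.mem_range.1 hl).le x p h)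
    rw [h1, zero_div]
  · intro i x p
    change |(∑ l ∈ Finset.range N, ind l (rot (g i) x) p) / N -
      (∑ l ∈ Finset.range N, ind l x p) / N| ≤ 1 / N
    rw [← sub_div, abs_div, abs_of_pos hN0]
    apply div_le_div_of_nonneg_right _ hN0.le
    apply pexp_sum (fun l => ind l x p) (fun l => ind l (rot (g i) x) p)
    · exact fun l => hi0 l _ _
    · exact fun l => hi1 l _ _
    · exact fun l => hi0 l _ _
    · exact fun l => hi1 l _ _
    · intro l
      change ind l (rot (g i) x) p ≤ ind (l + 1) x p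
      by_cases h : pexp_q g q l (rot (g i) x) p = 0
      · have h2 : pexp_q g q (l + 1) x p = 0 := (pexp_zero_iff g q l x p).2 (Or.inr ⟨i, Or.inl h⟩)
        rw [hind, hind, if_pos h, if_pos h2]
      · rw [hind, if_neg h]
        exact hi0 _ _ _
    · intro l
      change ind l x p ≤ ind (l + 1) (rot (g i) x) p
      by_cases h : pexp_q g q l x p = 0
      · have h2 : pexp_q g q (l + 1) (rot (g i) x) p = 0 := by
          apply (pexp_zero_iff g q l _ p).2 (Or.inr ⟨i, Or.inr ?_⟩)
          rw [rot_inv_rot]; exact h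
        rw [hind, hind, if_pos h, if_pos h2]
      · rw [hind, if_neg h]
        exact hi0 _ _ _


end Pool.Agent.Helper557.Rz
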