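import Pool.Agent.Helper557.Eq.Defs

set_option autoImplicit false

open MeasureTheory Set

namespace Pool.Agent.Helper557.Rz
/-- auxiliary products -/
noncomputable def pglue_a {Y : Type} (χ : ℕ → Y → ℝ) (n : ℕ) (y : Y) : ℝ :=
  ∏ j ∈ Finset.range n, (1 - χ j y)

noncomputable def pglue_psi {Y : Type} (χ : ℕ → Y → ℝ) (n : ℕ) (y : Y) : ℝ :=
  χ n y * pglue_a χ n y

theorem pglue_a_succ {Y : Type} (χ : ℕ → Y → ℝ) (n : ℕ) (y : Y) :
    pglue_a χ (n + 1) y = (1 - χ n y) * pglue_a χ n y := by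
  unfold pglue_a
  rw [Finset.prod_range_succ, mul_comm]

theorem pglue_a_bd {Y : Type} (χ : ℕ → Y → ℝ) (hχ1 : ∀ n y, 0 ≤ χ n y ∧ χ n y ≤ 1) (n : ℕ) (y : Y) :
    0 ≤ pglue_a χ n y ∧ pglue_a χ n y ≤ 1 := by
  induction n with
  | zero => simp [pglue_a]
  | succ n ih =>
    rw [pglue_a_succ]
    have h1 := hχ1 n y
    constructor
    · exact mul_nonneg (by linarith) ih.1
    · nlinarith [ih.1, ih.2, h1.1, h1.2]

theorem pglue_psi_nonneg {Y : Type} (χ : ℕ → Y → ℝ) (hχ1 : ∀ n y, 0 ≤ χ n y ∧ χ n y ≤ 1)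
    (n : ℕ) (y : Y) : 0 ≤ pglue_psi χ n y :=
  mul_nonneg (hχ1 n y).1 (pglue_a_bd χ hχ1 n y).1

theorem pglue_sum {Y : Type} (χ : ℕ → Y → ℝ) (m : ℕ) (y : Y) :
    ∑ n ∈ Finset.range m, pglue_psi χ n y = 1 - pglue_a χ m y := by
  induction m with
  | zero => simp [pglue_a]
  | succ m ih =>
    rw [Finset.sum_range_succ, ih, pglue_a_succ, pglue_psi]
    ring

theorem pglue_diff {Y : Type} (χ : ℕ → Y → ℝ) (hχ1 : ∀ n y, 0 ≤ χ n y ∧ χ n y ≤ 1)
    (m : ℕ) (y y' : Y) :
    ∑ n ∈ Finset.range m, |pglue_psi χ n y' - pglue_psi χ n y| + |pglue_a χ m y' - pglue_a χ m y|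
      ≤ 2 * ∑ n ∈ Finset.range m, |χ n y' - χ n y| := by
  induction m with
  | zero => simp [pglue_a]
  | succ m ih =>
    rw [Finset.sum_range_succ, Finset.sum_range_succ, pglue_a_succ, pglue_a_succ]
    have e1 : pglue_psi χ m y' - pglue_psi χ m y =
        χ m y' * (pglue_a χ m y' - pglue_a χ m y) + (χ m y' - χ m y) * pglue_a χ m y := by
      unfold pglue_psi; ring
    have e2 : (1 - χ m y') * pglue_a χ m y' - (1 - χ m y) * pglue_a χ m y =
        (1 - χ m y') * (pglue_a χ m y' - pglue_a χ m y) - (χ m y' - χ m y) * pglue_a χ m y := by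
      ring
    have h1 := hχ1 m y'
    have h2 := pglue_a_bd χ hχ1 m y
    have b1 : |pglue_psi χ m y' - pglue_psi χ m y| ≤
        χ m y' * |pglue_a χ m y' - pglue_a χ m y| + |χ m y' - χ m y| * pglue_a χ m y := by
      rw [e1]
      refine (abs_add_le _ _).trans ?_
      rw [abs_mul, abs_mul, abs_of_nonneg h1.1, abs_of_nonneg h2.1]
    have b2 : |(1 - χ m y') * pglue_a χ m y' - (1 - χ m y) * pglue_a χ m y| ≤
        (1 - χ m y') * |pglue_a χ m y' - pglue_a χ m y| + |χ m y' - χ m y| * pglue_a χ m y := by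
      rw [e2]
      refine (abs_sub _ _).trans ?_
      rw [abs_mul, abs_mul, abs_of_nonneg (by linarith : (0:ℝ) ≤ 1 - χ m y'), abs_of_nonneg h2.1]
    have b3 : |χ m y' - χ m y| * pglue_a χ m y ≤ |χ m y' - χ m y| := by
      have := mul_le_mul_of_nonneg_left h2.2 (abs_nonneg (χ m y' - χ m y))
      linarith
    nlinarith

theorem pglue_summable {Y : Type} (χ : ℕ → Y → ℝ) (hχ1 : ∀ n y, 0 ≤ χ n y ∧ χ n y ≤ 1) (y : Y) :
    Summable (fun n => pglue_psi χ n y) := by
  refine summable_of_sum_range_le (c := 1) (fun n => pglue_psi_nonneg χ hχ1 n y) ?_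
  intro m
  rw [pglue_sum]
  linarith [(pglue_a_bd χ hχ1 m y).1]

theorem pglue_tsum_le {Y : Type} (χ : ℕ → Y → ℝ) (hχ1 : ∀ n y, 0 ≤ χ n y ∧ χ n y ≤ 1) (y : Y) :
    ∑' n, pglue_psi χ n y ≤ 1 := by
  refine Real.tsum_le_of_sum_range_le (fun n => pglue_psi_nonneg χ hχ1 n y) ?_
  intro m
  rw [pglue_sum]
  linarith [(pglue_a_bd χ hχ1 m y).1]

theorem pglue_tsum_ge {Y : Type} (χ : ℕ → Y → ℝ) (hχ1 : ∀ n y, 0 ≤ χ n y ∧ χ n y ≤ 1) (y : Y)
    (h : ∃ n, χ n y = 1) : 1 ≤ ∑' n, pglue_psi χ n y := by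
  obtain ⟨N, hN⟩ := h
  have h1 := (pglue_summable χ hχ1 y).sum_le_tsum (Finset.range (N + 1))
    (fun n _ => pglue_psi_nonneg χ hχ1 n y)
  rw [pglue_sum, pglue_a_succ, hN] at h1
  linarith

theorem pglue_dsum {Y : Type} (χ : ℕ → Y → ℝ) (hχ1 : ∀ n y, 0 ≤ χ n y ∧ χ n y ≤ 1)
    (r : ℕ → ℝ) (hr0 : ∀ n, 0 ≤ r n) (hr : Summable r) (y y' : Y)
    (h : ∀ n, |χ n y' - χ n y| ≤ r n) :
    Summable (fun n => |pglue_psi χ n y' - pglue_psi χ n y|) ∧
    ∑' n, |pglue_psi χ n y' - pglue_psi χ n y| ≤ 2 * ∑' n, r n := by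
  have key : ∀ m, ∑ n ∈ Finset.range m, |pglue_psi χ n y' - pglue_psi χ n y| ≤ 2 * ∑' n, r n := by
    intro m
    have h1 := pglue_diff χ hχ1 m y y'
    have h2 : ∑ n ∈ Finset.range m, |χ n y' - χ n y| ≤ ∑' n, r n :=
      (Finset.sum_le_sum fun n _ => h n).trans (hr.sum_le_tsum _ (fun n _ => hr0 n))
    have h3 := abs_nonneg (pglue_a χ m y' - pglue_a χ m y)
    linarith
  exact ⟨summable_of_sum_range_le (fun n => abs_nonneg _) key,
    Real.tsum_le_of_sum_range_le (fun n => abs_nonneg _) key⟩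

theorem pglue_psi_meas {Y : Type} [MeasurableSpace Y] (χ : ℕ → Y → ℝ) (hχ : ∀ n, Measurable (χ n))
    (n : ℕ) : Measurable (pglue_psi χ n) := by
  unfold pglue_psi pglue_a
  refine (hχ n).mul ?_
  exact Finset.measurable_fun_prod _ (fun j _ => measurable_const.sub (hχ j))


theorem param_glue {Y : Type} [MeasurableSpace Y] (k : ℕ) (g : Fin k → Y → Y)
    (hg : ∀ i, Measurable (g i)) (C ε : ℝ) (hC : 0 ≤ C) (χ : ℕ → Y → ℝ) (f : ℕ → Fin k → Y → ℝ)
    (r : ℕ → ℝ) (hr0 : ∀ n, 0 ≤ r n) (hr : Summable r) (hrε : 4 * k * C * ∑' n, r n ≤ ε)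
    (hχ : ∀ n, Measurable (χ n)) (hχ1 : ∀ n y, 0 ≤ χ n y ∧ χ n y ≤ 1)
    (hχr : ∀ n i y, |χ n (g i y) - χ n y| ≤ r n) (hf : ∀ n i, Measurable (f n i))
    (hfC : ∀ n i y, |f n i y| ≤ C)
    (hff : ∀ n y, χ n y ≠ 0 → ∑ i, (f n i (g i y) - f n i y) ≤ -(1 / 2)) (D : Set Y)
    (hD : ∀ y ∈ D, ∃ n, χ n y = 1) :
    ∃ φ : Fin k → Y → ℝ, (∀ i, Measurable (φ i)) ∧ (∀ i y, |φ i y| ≤ 2 * C) ∧
      ∀ y, D.indicator (fun _ => (1 : ℝ)) y + ∑ i, (φ i (g i y) - φ i y) ≤ ε := by
  classical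
  have sm : ∀ i y, Summable (fun n => pglue_psi χ n y * f n i y) := by
    intro i y
    refine Summable.of_norm_bounded (g := fun n => pglue_psi χ n y * C)
      ((pglue_summable χ hχ1 y).mul_right C) ?_
    intro n
    rw [norm_mul, Real.norm_of_nonneg (pglue_psi_nonneg χ hχ1 n y), Real.norm_eq_abs]
    exact mul_le_mul_of_nonneg_left (hfC n i y) (pglue_psi_nonneg χ hχ1 n y)
  refine ⟨fun i y => 2 * ∑' n, pglue_psi χ n y * f n i y, ?_, ?_, ?_⟩
  · intro i
    refine measurable_const.mul ?_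
    refine measurable_of_tendsto_metrizable
      (f := fun m y => ∑ n ∈ Finset.range m, pglue_psi χ n y * f n i y) ?_ ?_
    · intro m
      exact Finset.measurable_fun_sum _ (fun n _ => (pglue_psi_meas χ hχ n).mul (hf n i))
    · rw [tendsto_pi_nhds]
      intro y
      exact (sm i y).hasSum.tendsto_sum_nat
  · intro i y
    rw [abs_mul, abs_of_pos (by norm_num : (0:ℝ) < 2)]
    have h1 : |∑' n, pglue_psi χ n y * f n i y| ≤ ∑' n, pglue_psi χ n y * C := by
      rw [← Real.norm_eq_abs]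
      refine tsum_of_norm_bounded ((pglue_summable χ hχ1 y).mul_right C).hasSum ?_
      intro n
      rw [norm_mul, Real.norm_of_nonneg (pglue_psi_nonneg χ hχ1 n y), Real.norm_eq_abs]
      exact mul_le_mul_of_nonneg_left (hfC n i y) (pglue_psi_nonneg χ hχ1 n y)
    rw [tsum_mul_right] at h1
    have h2 := pglue_tsum_le χ hχ1 y
    nlinarith
  · intro y
    have hind : D.indicator (fun _ => (1 : ℝ)) y ≤ ∑' n, pglue_psi χ n y := by
      by_cases hy : y ∈ D
      · rw [Set.indicator_of_mem hy]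
        exact pglue_tsum_ge χ hχ1 y (hD y hy)
      · rw [Set.indicator_of_notMem hy]
        exact tsum_nonneg (fun n => pglue_psi_nonneg χ hχ1 n y)
    -- termwise decomposition
    have hd := fun i => pglue_dsum χ hχ1 r hr0 hr y (g i y) (fun n => hχr n i y)
    have s1 : ∀ i, Summable (fun n => (pglue_psi χ n (g i y) - pglue_psi χ n y) * f n i (g i y)) := by
      intro i
      refine Summable.of_norm_bounded (g := fun n => |pglue_psi χ n (g i y) - pglue_psi χ n y| * C)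
        ((hd i).1.mul_right C) ?_
      intro n
      rw [norm_mul, Real.norm_eq_abs, Real.norm_eq_abs]
      exact mul_le_mul_of_nonneg_left (hfC n i _) (abs_nonneg _)
    have s2 : ∀ i, Summable (fun n => pglue_psi χ n y * (f n i (g i y) - f n i y)) := by
      intro i
      have h1 := (sm i (g i y)).sub (sm i y)
      have h2 := h1.sub (s1 i)
      refine h2.congr ?_
      intro n; ring
    have e1 : ∀ i, (2 * ∑' n, pglue_psi χ n (g i y) * f n i (g i y)) -
        2 * ∑' n, pglue_psi χ n y * f n i y =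
        2 * ∑' n, (pglue_psi χ n (g i y) - pglue_psi χ n y) * f n i (g i y) +
        2 * ∑' n, pglue_psi χ n y * (f n i (g i y) - f n i y) := by
      intro i
      rw [← mul_sub, ← (sm i (g i y)).tsum_sub (sm i y), ← mul_add, ← (s1 i).tsum_add (s2 i)]
      congr 1
      apply tsum_congr
      intro n; ring
    simp only [e1]
    rw [Finset.sum_add_distrib, ← Finset.mul_sum, ← Finset.mul_sum]
    have b1 : ∑ i, ∑' n, (pglue_psi χ n (g i y) - pglue_psi χ n y) * f n i (g i y) ≤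
        k * (C * (2 * ∑' n, r n)) := by
      have : ∀ i ∈ (Finset.univ : Finset (Fin k)),
          ∑' n, (pglue_psi χ n (g i y) - pglue_psi χ n y) * f n i (g i y) ≤
          C * (2 * ∑' n, r n) := by
        intro i _
        have h1 : |∑' n, (pglue_psi χ n (g i y) - pglue_psi χ n y) * f n i (g i y)| ≤
            ∑' n, |pglue_psi χ n (g i y) - pglue_psi χ n y| * C := by
          rw [← Real.norm_eq_abs]
          refine tsum_of_norm_bounded ((hd i).1.mul_right C).hasSum ?_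
          intro n
          rw [norm_mul, Real.norm_eq_abs, Real.norm_eq_abs]
          exact mul_le_mul_of_nonneg_left (hfC n i _) (abs_nonneg _)
        rw [tsum_mul_right] at h1
        have h2 := mul_le_mul_of_nonneg_right (hd i).2 hC
        have h3 := le_abs_self (∑' n, (pglue_psi χ n (g i y) - pglue_psi χ n y) * f n i (g i y))
        linarith
      have := Finset.sum_le_sum this
      rw [Finset.sum_const, Finset.card_univ, Fintype.card_fin, nsmul_eq_mul] at this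
      exact this
    have b2 : ∑ i, ∑' n, pglue_psi χ n y * (f n i (g i y) - f n i y) ≤
        -(1 / 2) * ∑' n, pglue_psi χ n y := by
      rw [← Summable.tsum_finsetSum (fun i _ => s2 i), ← tsum_mul_left]
      refine Summable.tsum_le_tsum ?_ (summable_sum (fun i _ => s2 i))
        ((pglue_summable χ hχ1 y).mul_left _)
      intro n
      rw [← Finset.mul_sum]
      by_cases h0 : χ n y = 0
      · simp [pglue_psi, h0]
      · have h1 := mul_le_mul_of_nonneg_left (hff n y h0) (pglue_psi_nonneg χ hχ1 n y)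
        linarith
    have e2 : 2 * (k * (C * (2 * ∑' n, r n))) = 4 * k * C * ∑' n, r n := by ring
    linarith


end Pool.Agent.Helper557.Rz
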