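import Pool.Agent.Helper557.Eq.Defs
import Pool.Agent.Helper557.Rz.M_meas

set_option autoImplicit false

open MeasureTheory Set

namespace Pool.Agent.Helper557.Rz

def preg_mn (f : ℕ → ℝ) : ℕ → ℝ
  | 0 => f 0
  | n + 1 => min (preg_mn f n) (f (n + 1))

theorem preg_mn_pos (f : ℕ → ℝ) (N : ℕ) : 0 < preg_mn f N ↔ ∀ j ≤ N, 0 < f j := by
  induction N with
  | zero => simp [preg_mn]
  | succ n ih =>
    simp only [preg_mn, lt_min_iff, ih]
    constructor
    · rintro ⟨h1, h2⟩ j hj
      rcases Nat.lt_succ_iff_lt_or_eq.mp (Nat.lt_succ_of_le hj) with h | h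
      · exact h1 j (by omega)
      · rw [h]; exact h2
    · intro h
      exact ⟨fun j hj => h j (by omega), h (n + 1) le_rfl⟩

theorem preg_mn_bd (f : ℕ → ℝ) (hf : ∀ j, 0 ≤ f j ∧ f j ≤ 1) (N : ℕ) :
    0 ≤ preg_mn f N ∧ preg_mn f N ≤ 1 := by
  induction N with
  | zero => exact hf 0
  | succ n ih =>
    simp only [preg_mn]
    exact ⟨le_min ih.1 (hf _).1, (min_le_left _ _).trans ih.2⟩

/-- Caratheodory functions with values in `[0,1]` -/
structure PregCar {P : Type} [MeasurableSpace P] (h : S 3 → P → ℝ) : Prop where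
  cont : ∀ p, Continuous (fun x => h x p)
  meas : ∀ x, Measurable (h x)
  bd : ∀ x p, 0 ≤ h x p ∧ h x p ≤ 1

theorem PregCar.joint {P : Type} [MeasurableSpace P] {h : S 3 → P → ℝ} (H : PregCar h) :
    Measurable (Function.uncurry h) :=
  measurable_uncurry_of_continuous_of_measurable H.cont H.meas

theorem PregCar.mn {P : Type} [MeasurableSpace P] {h : ℕ → S 3 → P → ℝ}
    (H : ∀ i, PregCar (h i)) (N : ℕ) : PregCar (fun x p => preg_mn (fun j => h j x p) N) := by
  induction N with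
  | zero => exact H 0
  | succ n ih =>
    simp only [preg_mn]
    exact ⟨fun p => (ih.cont p).min ((H _).cont p), fun x => (ih.meas x).min ((H _).meas x),
      fun x p => ⟨le_min (ih.bd x p).1 ((H _).bd x p).1, (min_le_left _ _).trans (ih.bd x p).2⟩⟩

theorem preg_summable {P : Type} [MeasurableSpace P] {h : ℕ → S 3 → P → ℝ}
    (H : ∀ i, PregCar (h i)) (x : S 3) (p : P) :
    Summable (fun i : ℕ => (1 : ℝ) / 2 / 2 ^ i * h i x p) := by
  refine Summable.of_nonneg_of_le (fun i => mul_nonneg (by positivity) ((H i).bd x p).1)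
    (fun i => ?_) (hasSum_geometric_two' (1 : ℝ)).summable
  exact mul_le_of_le_one_right (by positivity) ((H i).bd x p).2

theorem PregCar.sum {P : Type} [MeasurableSpace P] {h : ℕ → S 3 → P → ℝ}
    (H : ∀ i, PregCar (h i)) :
    PregCar (fun x p => ∑' i : ℕ, (1 : ℝ) / 2 / 2 ^ i * h i x p) := by
  refine ⟨fun p => ?_, fun x => ?_, fun x p => ⟨?_, ?_⟩⟩
  · refine continuous_tsum (fun i => continuous_const.mul ((H i).cont p))
      (hasSum_geometric_two' (1 : ℝ)).summable fun i x => ?_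
    rw [Real.norm_of_nonneg (mul_nonneg (by positivity) ((H i).bd x p).1)]
    exact mul_le_of_le_one_right (by positivity) ((H i).bd x p).2
  · refine measurable_of_tendsto_metrizable
      (f := fun n p => ∑ i ∈ Finset.range n, (1 : ℝ) / 2 / 2 ^ i * h i x p) (fun n => ?_) ?_
    · exact Finset.measurable_sum _ fun i _ => ((H i).meas x).const_mul _
    · rw [tendsto_pi_nhds]
      intro p
      exact (preg_summable H x p).hasSum.tendsto_sum_nat
  · exact tsum_nonneg fun i => mul_nonneg (by positivity) ((H i).bd x p).1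
  · have h1 := (preg_summable H x p).tsum_le_tsum
      (g := fun i : ℕ => (1 : ℝ) / 2 / 2 ^ i)
      (fun i => mul_le_of_le_one_right (by positivity) ((H i).bd x p).2)
      (hasSum_geometric_two' (1 : ℝ)).summable
    rw [(hasSum_geometric_two' (1 : ℝ)).tsum_eq] at h1
    exact h1

theorem preg_sum_pos {P : Type} [MeasurableSpace P] {h : ℕ → S 3 → P → ℝ}
    (H : ∀ i, PregCar (h i)) (x : S 3) (p : P) :
    0 < ∑' i : ℕ, (1 : ℝ) / 2 / 2 ^ i * h i x p ↔ ∃ i, 0 < h i x p := by
  constructor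
  · intro hpos
    by_contra hcon
    push Not at hcon
    have h0 : ∀ i, h i x p = 0 := fun i => le_antisymm (hcon i) ((H i).bd x p).1
    simp [h0] at hpos
  · rintro ⟨i, hi⟩
    exact (preg_summable H x p).tsum_pos
      (fun j => mul_nonneg (by positivity) ((H j).bd x p).1) i (by positivity)

/-- the class of good sets -/
def PregGood {P : Type} [MeasurableSpace P] (D : Set (S 3 × P)) : Prop :=
  ∀ δ : ℝ, 0 < δ → ∃ h h' : S 3 → P → ℝ, PregCar h ∧ PregCar h' ∧
    (∀ x p, (x, p) ∈ D → 0 < h x p) ∧ (∀ x p, (x, p) ∉ D → 0 < h' x p) ∧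
    ∀ p, sg 3 {x | 0 < h x p ∧ 0 < h' x p} ≤ ENNReal.ofReal δ

theorem PregGood.compl {P : Type} [MeasurableSpace P] {D : Set (S 3 × P)} (H : PregGood D) :
    PregGood Dᶜ := by
  intro δ hδ
  obtain ⟨h, h', c, c', k, k', b⟩ := H δ hδ
  refine ⟨h', h, c', c, k', ?_, ?_⟩
  · intro x p hx
    exact k x p (by_contra fun hc => hx hc)
  · intro p
    have : {x | 0 < h' x p ∧ 0 < h x p} = {x | 0 < h x p ∧ 0 < h' x p} := by
      ext x; exact and_comm
    rw [this]; exact b p

theorem preg_open (U : Set (S 3)) (hU : IsOpen U) : ∃ f : S 3 → ℝ, Continuous f ∧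
    (∀ x, 0 ≤ f x ∧ f x ≤ 1) ∧ ∀ x, 0 < f x ↔ x ∈ U := by
  by_cases hne : Uᶜ.Nonempty
  · refine ⟨fun x => min 1 (Metric.infDist x Uᶜ),
      continuous_const.min (Metric.continuous_infDist_pt _),
      fun x => ⟨le_min zero_le_one Metric.infDist_nonneg, min_le_left _ _⟩, fun x => ?_⟩
    rw [lt_min_iff, ← (hU.isClosed_compl).notMem_iff_infDist_pos hne]
    simp
  · rw [Set.not_nonempty_iff_eq_empty, Set.compl_empty_iff] at hne
    refine ⟨fun _ => 1, continuous_const, fun x => ⟨zero_le_one, le_rfl⟩, fun x => ?_⟩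
    rw [hne]; simp

theorem preg_rect {P : Type} [MeasurableSpace P] (A : Set (S 3)) (B : Set P)
    (hA : MeasurableSet A) (hB : MeasurableSet B) : PregGood (A ×ˢ B) := by
  classical
  haveI := sg_prob 3 (by norm_num)
  intro δ hδ
  have hδ2 : ENNReal.ofReal (δ / 2) ≠ 0 := by
    rw [Ne, ENNReal.ofReal_eq_zero]; linarith
  obtain ⟨U, hAU, hU, _, hUA⟩ := hA.exists_isOpen_sdiff_lt (μ := sg 3) (measure_ne_top _ _) hδ2
  obtain ⟨U', hAU', hU', _, hUA'⟩ :=
    hA.compl.exists_isOpen_sdiff_lt (μ := sg 3) (measure_ne_top _ _) hδ2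
  obtain ⟨f, fc, fb, fp⟩ := preg_open U hU
  obtain ⟨f', fc', fb', fp'⟩ := preg_open U' hU'
  refine ⟨fun x p => if p ∈ B then f x else 0, fun x p => if p ∈ B then f' x else 1,
    ⟨?_, ?_, ?_⟩, ⟨?_, ?_, ?_⟩, ?_, ?_, ?_⟩
  · intro p
    by_cases hp : p ∈ B
    · simpa only [hp, if_true] using fc
    · simpa only [hp, if_false] using continuous_const
  · intro x
    exact Measurable.ite hB measurable_const measurable_const
  · intro x p
    by_cases hp : p ∈ B
    · simpa only [hp, if_true] using fb x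
    · simp only [hp, if_false]; norm_num
  · intro p
    by_cases hp : p ∈ B
    · simpa only [hp, if_true] using fc'
    · simpa only [hp, if_false] using continuous_const
  · intro x
    exact Measurable.ite hB measurable_const measurable_const
  · intro x p
    by_cases hp : p ∈ B
    · simpa only [hp, if_true] using fb' x
    · simp only [hp, if_false]; norm_num
  · rintro x p ⟨hx, hp⟩
    have hx' : x ∈ A := hx
    have hp' : p ∈ B := hp
    simp only [hp', if_true]
    exact (fp x).mpr (hAU hx')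
  · intro x p hxp
    by_cases hp : p ∈ B
    · simp only [hp, if_true]
      refine (fp' x).mpr (hAU' fun hx => hxp ⟨hx, hp⟩)
    · simp only [hp, if_false]; norm_num
  · intro p
    by_cases hp : p ∈ B
    · simp only [hp, if_true, fp, fp']
      have hsub : {x | x ∈ U ∧ x ∈ U'} ⊆ (U \ A) ∪ (U' \ Aᶜ) := by
        rintro x ⟨h1, h2⟩
        by_cases hx : x ∈ A
        · right; exact ⟨h2, fun h => h hx⟩
        · left; exact ⟨h1, hx⟩
      calc sg 3 {x | x ∈ U ∧ x ∈ U'} ≤ sg 3 ((U \ A) ∪ (U' \ Aᶜ)) := measure_mono hsub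
        _ ≤ sg 3 (U \ A) + sg 3 (U' \ Aᶜ) := measure_union_le _ _
        _ ≤ ENNReal.ofReal (δ / 2) + ENNReal.ofReal (δ / 2) := add_le_add hUA.le hUA'.le
        _ = ENNReal.ofReal δ := by
            rw [← ENNReal.ofReal_add (by linarith) (by linarith)]; congr 1; ring
    · simp [hp]

theorem preg_geom (δ : ℝ) (n : ℕ) :
    ∑ i ∈ Finset.range n, δ / 2 ^ (i + 2) = δ / 2 - δ / 2 ^ (n + 1) := by
  induction n with
  | zero => simp
  | succ n ih =>
    rw [Finset.sum_range_succ, ih]
    field_simp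
    ring

theorem preg_geom' (δ : ℝ) (hδ : 0 < δ) (n : ℕ) :
    ∑ i ∈ Finset.range n, ENNReal.ofReal (δ / 2 ^ (i + 2)) ≤ ENNReal.ofReal (δ / 2) := by
  rw [← ENNReal.ofReal_sum_of_nonneg (fun i _ => by positivity), preg_geom]
  apply ENNReal.ofReal_le_ofReal
  have : 0 < δ / 2 ^ (n + 1) := by positivity
  linarith

theorem preg_union {P : Type} [MeasurableSpace P] (D : ℕ → Set (S 3 × P))
    (H : ∀ i, PregGood (D i)) : PregGood (⋃ i, D i) := by
  classical
  haveI := sg_prob 3 (by norm_num)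
  intro δ hδ
  choose h h' hc hc' hk hk' hb using fun i : ℕ => H i (δ / 2 ^ (i + 2)) (by positivity)
  -- the tails
  let V : ℕ → Set (S 3 × P) := fun N =>
    {z | (∃ i, N < i ∧ 0 < h i z.1 z.2) ∧ ∀ j ≤ N, 0 < h' j z.1 z.2}
  have hVm : ∀ N, MeasurableSet (V N) := by
    intro N
    have e : V N = (⋃ i, ⋃ (_ : N < i), {z | 0 < h i z.1 z.2}) ∩
        (⋂ j, ⋂ (_ : j ≤ N), {z | 0 < h' j z.1 z.2}) := by
      ext z
      simp only [V, Set.mem_inter_iff, Set.mem_iUnion, Set.mem_iInter, exists_prop]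
      rfl
    rw [e]
    refine MeasurableSet.inter ?_ ?_
    · exact MeasurableSet.iUnion fun i => MeasurableSet.iUnion fun _ =>
        measurableSet_lt measurable_const (hc i).joint
    · exact MeasurableSet.iInter fun i => MeasurableSet.iInter fun _ =>
        measurableSet_lt measurable_const (hc' i).joint
  let Vs : ℕ → P → Set (S 3) := fun N p => {x | (x, p) ∈ V N}
  let W : P → ℕ → Set (S 3) := fun p i => {x | 0 < h i x p ∧ 0 < h' i x p}
  have hVsm : ∀ N, Measurable fun p => sg 3 (Vs N p) := fun N =>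
    measurable_measure_prodMk_right (hVm N)
  have hWsum : ∀ p, ∑' i, sg 3 (W p i) ≠ ⊤ := by
    intro p
    refine ne_top_of_le_ne_top (b := ENNReal.ofReal (δ / 2)) ENNReal.ofReal_ne_top ?_
    refine ENNReal.tsum_le_of_sum_range_le fun n => ?_
    exact (Finset.sum_le_sum fun i _ => hb i p).trans (preg_geom' δ hδ n)
  have hex : ∀ p, ∃ N, sg 3 (Vs N p) ≤ ENNReal.ofReal (δ / 2) := by
    intro p
    have hanti : Antitone fun N => Vs N p := by
      intro N M hNM x hx
      obtain ⟨⟨i, hi, hi'⟩, hj⟩ := hx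
      exact ⟨⟨i, lt_of_le_of_lt hNM hi, hi'⟩, fun j hjN => hj j (hjN.trans hNM)⟩
    have hlim := tendsto_measure_iInter_atTop (μ := sg 3) (s := fun N => Vs N p)
      (fun N => ((hVm N).preimage measurable_prodMk_right).nullMeasurableSet) hanti
      ⟨0, measure_ne_top _ _⟩
    have hz : sg 3 (⋂ N, Vs N p) = 0 := by
      refine measure_mono_null ?_ (measure_limsup_atTop_eq_zero (hWsum p))
      intro x hx
      rw [Set.mem_iInter] at hx
      rw [Filter.mem_limsup_iff_frequently_mem, Filter.frequently_atTop]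
      intro n
      obtain ⟨⟨i, hi, hi'⟩, _⟩ := hx n
      refine ⟨i, hi.le, hi', ?_⟩
      exact (hx i).2 i le_rfl
    rw [hz] at hlim
    have hpos : (0 : ENNReal) < ENNReal.ofReal (δ / 2) := by
      rw [ENNReal.ofReal_pos]; linarith
    obtain ⟨N, hN⟩ := (hlim.eventually (gt_mem_nhds hpos)).exists
    exact ⟨N, hN.le⟩
  let Nf : P → ℕ := fun p => Nat.find (hex p)
  have hNm : Measurable Nf := by
    refine measurable_find hex fun k => ?_
    exact measurableSet_le (hVsm k) measurable_const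
  refine ⟨fun x p => ∑' i : ℕ, (1 : ℝ) / 2 / 2 ^ i * h i x p,
    fun x p => preg_mn (fun j => h' j x p) (Nf p), PregCar.sum hc, ⟨?_, ?_, ?_⟩, ?_, ?_, ?_⟩
  · intro p
    exact (PregCar.mn hc' (Nf p)).cont p
  · intro x
    have h1 : Measurable (fun z : ℕ × P => preg_mn (fun j => h' j x z.2) z.1) :=
      measurable_from_prod_countable_right fun n => (PregCar.mn hc' n).meas x
    exact h1.comp (hNm.prodMk measurable_id)
  · intro x p
    exact (PregCar.mn hc' (Nf p)).bd x p
  · intro x p hx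
    obtain ⟨i, hi⟩ := Set.mem_iUnion.mp hx
    rw [preg_sum_pos hc]
    exact ⟨i, hk i x p hi⟩
  · intro x p hx
    rw [preg_mn_pos]
    intro j _
    exact hk' j x p fun hj => hx (Set.mem_iUnion.mpr ⟨j, hj⟩)
  · intro p
    have hsub : {x | 0 < (∑' i : ℕ, (1 : ℝ) / 2 / 2 ^ i * h i x p) ∧
        0 < preg_mn (fun j => h' j x p) (Nf p)} ⊆
        (⋃ i ∈ Finset.range (Nf p + 1), W p i) ∪ Vs (Nf p) p := by
      rintro x ⟨h1, h2⟩
      rw [preg_sum_pos hc] at h1
      rw [preg_mn_pos] at h2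
      obtain ⟨i, hi⟩ := h1
      by_cases hiN : i ≤ Nf p
      · left
        rw [Set.mem_iUnion₂]
        exact ⟨i, Finset.mem_range.mpr (by omega), hi, h2 i hiN⟩
      · right
        exact ⟨⟨i, not_le.mp hiN, hi⟩, h2⟩
    calc sg 3 _ ≤ sg 3 ((⋃ i ∈ Finset.range (Nf p + 1), W p i) ∪ Vs (Nf p) p) := measure_mono hsub
      _ ≤ sg 3 (⋃ i ∈ Finset.range (Nf p + 1), W p i) + sg 3 (Vs (Nf p) p) := measure_union_le _ _
      _ ≤ (∑ i ∈ Finset.range (Nf p + 1), sg 3 (W p i)) + sg 3 (Vs (Nf p) p) := by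
          gcongr
          exact measure_biUnion_finset_le _ _
      _ ≤ ENNReal.ofReal (δ / 2) + ENNReal.ofReal (δ / 2) := by
          refine add_le_add ?_ (Nat.find_spec (hex p))
          exact (Finset.sum_le_sum fun i _ => hb i p).trans (preg_geom' δ hδ _)
      _ = ENNReal.ofReal δ := by
          rw [← ENNReal.ofReal_add (by linarith) (by linarith)]; congr 1; ring

theorem param_regular (P : Type) [MeasurableSpace P] (D : Set (S 3 × P)) (hD : MeasurableSet D) (δ : ℝ)
    (hδ : 0 < δ) : ∃ h h' : S 3 → P → ℝ, (∀ p, Continuous (fun x => h x p)) ∧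
      (∀ x, Measurable (h x)) ∧ (∀ p, Continuous (fun x => h' x p)) ∧ (∀ x, Measurable (h' x)) ∧
      (∀ x p, 0 ≤ h x p ∧ h x p ≤ 1) ∧ (∀ x p, 0 ≤ h' x p ∧ h' x p ≤ 1) ∧
      (∀ x p, (x, p) ∈ D → 0 < h x p) ∧ (∀ x p, (x, p) ∉ D → 0 < h' x p) ∧
      ∀ p, sg 3 {x | 0 < h x p ∧ 0 < h' x p} ≤ ENNReal.ofReal δ := by
  have key : PregGood D := by
    induction D, hD using MeasurableSpace.induction_on_inter generateFrom_prod.symm
      isPiSystem_prod with
    | empty =>
      have := preg_rect (P := P) (∅ : Set (S 3)) (∅ : Set P) MeasurableSet.empty MeasurableSet.empty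
      simpa using this
    | basic t ht =>
      obtain ⟨A, hA, B, hB, rfl⟩ := ht
      exact preg_rect A B hA hB
    | compl t _ ih => exact ih.compl
    | iUnion f _ _ ih => exact preg_union f ih
  obtain ⟨h, h', c, c', k, k', b⟩ := key δ hδ
  exact ⟨h, h', c.cont, c.meas, c'.cont, c'.meas, c.bd, c'.bd, k, k', b⟩


end Pool.Agent.Helper557.Rz
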