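import Pool.Agent.Helper557.Eq.Defs
import Pool.Agent.Helper557.Rz.M_meas

set_option autoImplicit false

open MeasureTheory Set

namespace Pool.Agent.Helper557.Rz

/-- the displacement functional -/
noncomputable def psel_T {k : ℕ} (g : Fin k → Iso 3) (f : Fin k → C(S 3, ℝ)) (x : S 3) : ℝ :=
  ∑ i, (f i (rot (g i) x) - f i x)

lemma psel_T_cont {k : ℕ} (g : Fin k → Iso 3) (f : Fin k → C(S 3, ℝ)) :
    Continuous (psel_T g f) := by
  unfold psel_T
  refine continuous_finsetSum _ fun i _ => ?_
  exact ((f i).continuous.comp (rot_continuous (g i))).sub (f i).continuous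

lemma psel_T_close {k : ℕ} (g : Fin k → Iso 3) (f f' : Fin k → C(S 3, ℝ)) (x : S 3)
    (h : dist f f' < 1 / (4 * ((k : ℝ) + 1))) : psel_T g f' x < psel_T g f x + 1 / 2 := by
  have hk : (0 : ℝ) < (k : ℝ) + 1 := by positivity
  have h1 : ∀ i y, |f i y - f' i y| ≤ 1 / (4 * ((k : ℝ) + 1)) := by
    intro i y
    have h2 : dist (f i y) (f' i y) ≤ dist (f i) (f' i) := ContinuousMap.dist_apply_le_dist y
    have h3 : dist (f i) (f' i) ≤ dist f f' := dist_le_pi_dist f f' i
    rw [Real.dist_eq] at h2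
    linarith
  have h4 : psel_T g f' x - psel_T g f x ≤ ∑ _i : Fin k, 2 * (1 / (4 * ((k : ℝ) + 1))) := by
    unfold psel_T
    rw [← Finset.sum_sub_distrib]
    refine Finset.sum_le_sum fun i _ => ?_
    have a1 := abs_le.1 (h1 i (rot (g i) x))
    have a2 := abs_le.1 (h1 i x)
    linarith [a1.1, a1.2, a2.1, a2.2]
  have h5 : ∑ _i : Fin k, 2 * (1 / (4 * ((k : ℝ) + 1))) < 1 / 2 := by
    rw [Finset.sum_const, Finset.card_univ, Fintype.card_fin, nsmul_eq_mul]
    have : (k : ℝ) * (2 * (1 / (4 * ((k : ℝ) + 1)))) = (1 / 2) * ((k : ℝ) / ((k : ℝ) + 1)) := by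
      field_simp
      ring
    rw [this]
    have h6 : (k : ℝ) / ((k : ℝ) + 1) < 1 := by
      rw [div_lt_one hk]; linarith
    linarith
  linarith

lemma psel_meas {P : Type} [MeasurableSpace P] (q : S 3 → P → ℝ)
    (hq : ∀ p, Continuous (fun x => q x p)) (hq' : ∀ x, Measurable (q x))
    (T : S 3 → ℝ) (hT : Continuous T) [Nonempty (S 3)] :
    MeasurableSet {p | ∀ x, q x p = 0 → T x < -(1 / 2)} := by
  let D : ℕ → S 3 := TopologicalSpace.denseSeq (S 3)
  have hD : DenseRange D := TopologicalSpace.denseRange_denseSeq (S 3)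
  let M : S 3 → P → ℝ := fun x p => max |q x p| (-(1 / 2) - T x)
  have hMc : ∀ p, Continuous (fun x => M x p) := fun p =>
    (hq p).abs.max (continuous_const.sub hT)
  have hMm : ∀ x, Measurable (M x) := by
    intro x
    exact ((hq' x).abs).max measurable_const
  have key : {p | ∀ x, q x p = 0 → T x < -(1 / 2)} =
      ⋃ n : ℕ, ⋂ m : ℕ, {p | 1 / ((n : ℝ) + 1) ≤ M (D m) p} := by
    ext p
    simp only [Set.mem_setOf_eq, Set.mem_iUnion, Set.mem_iInter]
    constructor
    · intro h
      have hpos : ∀ x, 0 < M x p := by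
        intro x
        by_cases hx : q x p = 0
        · exact lt_max_of_lt_right (by linarith [h x hx])
        · exact lt_max_of_lt_left (abs_pos.2 hx)
      obtain ⟨x0, -, hx0⟩ := isCompact_univ.exists_isMinOn (Set.univ_nonempty (α := S 3))
        (hMc p).continuousOn
      obtain ⟨n, hn⟩ := exists_nat_one_div_lt (hpos x0)
      refine ⟨n, fun m => ?_⟩
      have := hx0 (Set.mem_univ (D m))
      simp only [Set.mem_setOf_eq] at this
      linarith
    · rintro ⟨n, hn⟩ x hx
      have hcl : IsClosed {x | 1 / ((n : ℝ) + 1) ≤ M x p} :=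
        isClosed_le continuous_const (hMc p)
      have hall : ∀ x, x ∈ {x | 1 / ((n : ℝ) + 1) ≤ M x p} := by
        intro x
        have h1 : closure (Set.range D) ⊆ {x | 1 / ((n : ℝ) + 1) ≤ M x p} := by
          refine closure_minimal ?_ hcl
          rintro _ ⟨m, rfl⟩
          exact hn m
        exact h1 (hD x)
      have h2 : 1 / ((n : ℝ) + 1) ≤ max |q x p| (-(1 / 2) - T x) := hall x
      have h3 : (0 : ℝ) < 1 / ((n : ℝ) + 1) := by positivity
      rw [hx, abs_zero] at h2
      rcases le_max_iff.1 h2 with h4 | h4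
      · linarith
      · linarith
  rw [key]
  exact MeasurableSet.iUnion fun n => MeasurableSet.iInter fun m =>
    measurableSet_le measurable_const (hMm (D m))

theorem param_select (k : ℕ) (g : Fin k → Iso 3) (C : ℝ) (hf : Flow 3 k g C) (P : Type)
    [MeasurableSpace P] (q : S 3 → P → ℝ) (hq : ∀ p, Continuous (fun x => q x p))
    (hq' : ∀ x, Measurable (q x)) (hs : ∀ p, sg 3 {x | q x p = 0} ≤ ENNReal.ofReal (1 / 8)) :
    ∃ f : Fin k → S 3 → P → ℝ, (∀ i, Measurable (fun z : S 3 × P => f i z.1 z.2)) ∧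
      (∀ i x p, |f i x p| ≤ C) ∧
      ∀ x p, q x p = 0 → ∑ i, (f i (rot (g i) x) p - f i x p) ≤ -(1 / 2) := by
  classical
  rcases isEmpty_or_nonempty P with hP | ⟨⟨p0⟩⟩
  · exact ⟨fun _ _ _ => 0, fun i => measurable_const, fun i x p => (hP.false p).elim,
      fun x p => (hP.false p).elim⟩
  · let B : Set (Fin k → C(S 3, ℝ)) := {f | ∀ i x, |f i x| ≤ C}
    obtain ⟨f0, hf0, -⟩ := hf {x | q x p0 = 0} (isClosed_eq (hq p0) continuous_const) (hs p0)
    haveI : Nonempty B := ⟨⟨f0, hf0⟩⟩
    haveI hne : Nonempty (S 3) := by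
      refine ⟨⟨EuclideanSpace.single 0 1, ?_⟩⟩
      simp
    let F : ℕ → B := TopologicalSpace.denseSeq B
    have hF : DenseRange F := TopologicalSpace.denseRange_denseSeq B
    have hex : ∀ p, ∃ j, ∀ x, q x p = 0 → psel_T g (F j).1 x < -(1 / 2) := by
      intro p
      obtain ⟨f, hfB, hfT⟩ := hf {x | q x p = 0} (isClosed_eq (hq p) continuous_const) (hs p)
      have hε : (0 : ℝ) < 1 / (4 * ((k : ℝ) + 1)) := by positivity
      obtain ⟨j, hj⟩ := hF.exists_dist_lt (⟨f, hfB⟩ : B) hε
      refine ⟨j, fun x hx => ?_⟩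
      have h1 := psel_T_close g f (F j).1 x hj
      have h2 : psel_T g f x ≤ -1 := hfT x hx
      linarith
    have hm : Measurable fun p => Nat.find (hex p) := by
      refine measurable_find hex fun j => ?_
      exact psel_meas q hq hq' (psel_T g (F j).1) (psel_T_cont g _)
    refine ⟨fun i x p => (F (Nat.find (hex p))).1 i x, fun i => ?_, fun i x p => ?_,
      fun x p hx => ?_⟩
    · have hG : Measurable (fun z : S 3 × ℕ => (F z.2).1 i z.1) := by
        refine measurable_from_prod_countable_left fun j => ?_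
        exact ((F j).1 i).continuous.measurable
      exact hG.comp (measurable_fst.prodMk (hm.comp measurable_snd))
    · exact (F (Nat.find (hex p))).2 i x
    · exact (Nat.find_spec (hex p) x hx).le


end Pool.Agent.Helper557.Rz
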