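import Pool.Agent.Helper557.Eq.Defs
import Pool.Agent.Helper557.Rz.M_meas

set_option autoImplicit false

open MeasureTheory Set

namespace Pool.Agent.Helper557.Rz

theorem pthr_lim (P : Type) (h : S 3 → P → ℝ)
    (hc : ∀ p, Continuous (fun x => h x p)) (p : P) (j : ℕ) (ε : ℝ) (hε : 0 < ε) :
    ∃ m : ℕ, j + 1 ≤ m ∧ sg 3 {x | 0 < h x p ∧ h x p ≤ (1 / 2 : ℝ) ^ m} ≤ ENNReal.ofReal ε := by
  haveI := sg_prob 3 (by norm_num)
  have hmeas : ∀ m : ℕ, MeasurableSet {x | 0 < h x p ∧ h x p ≤ (1 / 2 : ℝ) ^ m} := by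
    intro m
    exact (measurableSet_lt measurable_const (hc p).measurable).inter
      (measurableSet_le (hc p).measurable measurable_const)
  have hanti : Antitone fun m : ℕ => {x | 0 < h x p ∧ h x p ≤ (1 / 2 : ℝ) ^ m} := by
    intro m m' hm x hx
    refine ⟨hx.1, hx.2.trans ?_⟩
    exact pow_le_pow_of_le_one (by norm_num) (by norm_num) hm
  have hinter : ⋂ m : ℕ, {x | 0 < h x p ∧ h x p ≤ (1 / 2 : ℝ) ^ m} = ∅ := by
    rw [eq_empty_iff_forall_notMem]
    intro x hx
    rw [mem_iInter] at hx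
    have h0 : 0 < h x p := (hx 0).1
    obtain ⟨m, hm⟩ := exists_pow_lt_of_lt_one h0 (show (1 / 2 : ℝ) < 1 by norm_num)
    exact absurd (hx m).2 (not_le.2 hm)
  have htend := tendsto_measure_iInter_atTop (μ := sg 3) (fun m => (hmeas m).nullMeasurableSet)
    hanti ⟨0, measure_ne_top _ _⟩
  rw [hinter, measure_empty] at htend
  have hev := (htend.eventually (gt_mem_nhds (ENNReal.ofReal_pos.2 hε))).and
    (Filter.eventually_ge_atTop (j + 1))
  obtain ⟨m, h1, h2⟩ := hev.exists
  exact ⟨m, h2, h1.le⟩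

theorem pthr_meas (P : Type) [MeasurableSpace P] (h : S 3 → P → ℝ)
    (hc : ∀ p, Continuous (fun x => h x p)) (hm : ∀ x, Measurable (h x)) (c : ℝ) :
    Measurable fun p => sg 3 {x | 0 < h x p ∧ h x p ≤ c} := by
  haveI := sg_prob 3 (by norm_num)
  have hu : Measurable (Function.uncurry h) :=
    measurable_uncurry_of_continuous_of_measurable hc hm
  have hs : MeasurableSet {z : S 3 × P | 0 < Function.uncurry h z ∧ Function.uncurry h z ≤ c} :=
    (measurableSet_lt measurable_const hu).inter (measurableSet_le hu measurable_const)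
  exact measurable_measure_prodMk_right hs

theorem param_threshold (P : Type) [MeasurableSpace P] (h : S 3 → P → ℝ)
    (hc : ∀ p, Continuous (fun x => h x p)) (hm : ∀ x, Measurable (h x))
    (h01 : ∀ x p, 0 ≤ h x p ∧ h x p ≤ 1) (η : ℕ → ℝ) (hη : ∀ n, 0 < η n)
    (h0 : ∀ p, sg 3 {x | 0 < h x p} ≤ ENNReal.ofReal (η 0)) :
    ∃ q : ℕ → S 3 → P → ℝ, (∀ n p, Continuous (fun x => q n x p)) ∧ (∀ n x, Measurable (q n x)) ∧
      (∀ n x p, 0 ≤ q n x p) ∧ (∀ n p, sg 3 {x | q n x p = 0} ≤ ENNReal.ofReal (η n)) ∧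
      ∀ x p, 0 < h x p → ∃ n, q n x p = 0 := by
  classical
  have hex : ∀ (n j : ℕ) (p : P), ∃ m : ℕ, j + 1 ≤ m ∧
      sg 3 {x | 0 < h x p ∧ h x p ≤ (1 / 2 : ℝ) ^ m} ≤ ENNReal.ofReal (η (n + 1)) :=
    fun n j p => pthr_lim P h hc p j (η (n + 1)) (hη _)
  let k : ℕ → P → ℕ := fun n => Nat.rec (fun _ => 0) (fun n kn p => Nat.find (hex n (kn p) p)) n
  have hk0 : ∀ p, k 0 p = 0 := fun p => rfl
  have hks : ∀ n p, k (n + 1) p = Nat.find (hex n (k n p) p) := fun n p => rfl
  have hk1 : ∀ n p, k n p + 1 ≤ k (n + 1) p := fun n p => (Nat.find_spec (hex n (k n p) p)).1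
  have hk2 : ∀ n p, sg 3 {x | 0 < h x p ∧ h x p ≤ (1 / 2 : ℝ) ^ (k (n + 1) p)} ≤
      ENNReal.ofReal (η (n + 1)) := fun n p => (Nat.find_spec (hex n (k n p) p)).2
  have hkm : ∀ n, Measurable (k n) := by
    intro n
    induction n with
    | zero => exact measurable_const
    | succ n ih =>
      show Measurable fun p => Nat.find (hex n (k n p) p)
      refine measurable_find _ fun m => ?_
      exact (measurableSet_le (ih.add_const 1) measurable_const).inter
        (measurableSet_le (pthr_meas P h hc hm _) measurable_const)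
  have hkn : ∀ n p, n ≤ k n p := by
    intro n p
    induction n with
    | zero => exact Nat.zero_le _
    | succ n ih =>
      have := hk1 n p
      omega
  have hrm : ∀ n, Measurable fun p => (1 / 2 : ℝ) ^ (k n p) := fun n =>
    (Measurable.of_discrete (f := fun m : ℕ => (1 / 2 : ℝ) ^ m)).comp (hkm n)
  refine ⟨fun n x p => max (max ((1 / 2 : ℝ) ^ (k (n + 1) p) - h x p)
    (h x p - (1 / 2 : ℝ) ^ (k n p))) 0, ?_, ?_, ?_, ?_, ?_⟩
  · intro n p
    exact ((continuous_const.sub (hc p)).max ((hc p).sub continuous_const)).max continuous_const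
  · intro n x
    exact (((hrm (n + 1)).sub (hm x)).max ((hm x).sub (hrm n))).max measurable_const
  · intro n x p
    exact le_max_right _ _
  · intro n p
    have hsub : ∀ x, max (max ((1 / 2 : ℝ) ^ (k (n + 1) p) - h x p)
        (h x p - (1 / 2 : ℝ) ^ (k n p))) 0 = 0 →
        (1 / 2 : ℝ) ^ (k (n + 1) p) ≤ h x p ∧ h x p ≤ (1 / 2 : ℝ) ^ (k n p) := by
      intro x hx
      have h1 := (le_max_left _ _).trans hx.le
      have h2 := (le_max_left _ _).trans h1
      have h3 := (le_max_right _ _).trans h1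
      constructor
      · linarith
      · linarith
    have hpos : ∀ m : ℕ, (0 : ℝ) < (1 / 2 : ℝ) ^ m := fun m => by positivity
    cases n with
    | zero =>
      refine le_trans (measure_mono ?_) (h0 p)
      intro x hx
      exact (hpos _).trans_le (hsub x hx).1
    | succ n =>
      refine le_trans (measure_mono ?_) (hk2 n p)
      intro x hx
      exact ⟨(hpos _).trans_le (hsub x hx).1, (hsub x hx).2⟩
  · intro x p hx
    have hexn : ∃ n, (1 / 2 : ℝ) ^ (k (n + 1) p) ≤ h x p := by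
      obtain ⟨m, hm'⟩ := exists_pow_lt_of_lt_one hx (show (1 / 2 : ℝ) < 1 by norm_num)
      refine ⟨m, ?_⟩
      have h1 : m ≤ k (m + 1) p := (Nat.le_succ m).trans (hkn (m + 1) p)
      exact (pow_le_pow_of_le_one (by norm_num) (by norm_num) h1).trans hm'.le
    refine ⟨Nat.find hexn, ?_⟩
    have h1 := Nat.find_spec hexn
    have h2 : h x p ≤ (1 / 2 : ℝ) ^ (k (Nat.find hexn) p) := by
      rcases Nat.eq_zero_or_pos (Nat.find hexn) with h3 | h3
      · rw [h3, hk0, pow_zero]
        exact (h01 x p).2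
      · have h4 := Nat.find_min hexn (Nat.sub_lt h3 one_pos)
        rw [show Nat.find hexn - 1 + 1 = Nat.find hexn by omega] at h4
        exact (not_le.1 h4).le
    apply max_eq_right
    apply max_le
    · linarith
    · linarith


end Pool.Agent.Helper557.Rz
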