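import Pool.Agent.Helper557.Eq.Defs
import Pool.Agent.Helper557.Eq.M_pexp
import Pool.Agent.Helper557.Eq.M_pglue
import Pool.Agent.Helper557.Eq.M_preg
import Pool.Agent.Helper557.Eq.M_psel
import Pool.Agent.Helper557.Eq.M_pthr
import Pool.Agent.Helper557.Rz.M_meas

set_option autoImplicit false

open MeasureTheory Set

namespace Pool.Agent.Helper557.Rz

theorem one_sided (k : ℕ) (g : Fin k → Iso 3) (C : ℝ) (hC : 0 ≤ C) (hf : Flow 3 k g C) (ε : ℝ)
    (hε : 0 < ε) : ∃ η : ℝ, 0 < η ∧ ∀ (P : Type) [MeasurableSpace P] (D : Set (S 3 × P)),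
      MeasurableSet D → (∀ p, sg 3 {x | (x, p) ∈ D} ≤ ENNReal.ofReal η) →
      ∃ φ : Fin k → S 3 × P → ℝ, (∀ i, Measurable (φ i)) ∧ (∀ i y, |φ i y| ≤ 2 * C) ∧
        ∀ y, D.indicator (fun _ => (1 : ℝ)) y + ∑ i, (φ i (rot (g i) y.1, y.2) - φ i y) ≤ ε := by
  set M : ℕ := ⌈2 * (4 * k * C) / ε⌉₊ + 1 with hM
  have hM1 : 1 ≤ M := by omega
  have hMpos : (0 : ℝ) < M := by exact_mod_cast hM1
  have hMle : 2 * (4 * k * C) / ε ≤ M := by
    have := Nat.le_ceil (2 * (4 * k * C) / ε)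
    rw [hM]
    push_cast
    linarith
  set N : ℕ → ℕ := fun n => M * 2 ^ n with hN
  have hN1 : ∀ n, 1 ≤ N n := fun n => Nat.one_le_iff_ne_zero.2 (by
    rw [hN]
    positivity)
  set r : ℕ → ℝ := fun n => 1 / (N n : ℝ) with hr
  have hr' : ∀ n, r n = (1 / (M : ℝ)) * (1 / 2) ^ n := by
    intro n
    simp only [hr, hN]
    push_cast
    rw [one_div_pow, one_div_mul_one_div]
  have hrs : Summable r := by
    have : r = fun n => (1 / (M : ℝ)) * (1 / 2) ^ n := funext hr'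
    rw [this]
    exact summable_geometric_two.mul_left _
  have hrt : ∑' n, r n = (1 / (M : ℝ)) * 2 := by
    have : r = fun n => (1 / (M : ℝ)) * (1 / 2) ^ n := funext hr'
    rw [this, tsum_mul_left, tsum_geometric_two]
  have hrε : 4 * k * C * ∑' n, r n ≤ ε := by
    rw [hrt, div_le_iff₀ hε] at *
    have h1 : 4 * (k : ℝ) * C * (1 / (M : ℝ) * 2) = (2 * (4 * k * C)) / M := by
      field_simp
    rw [h1, div_le_iff₀ hMpos]
    linarith
  have hb : (0 : ℝ) < 1 + 2 * k := by positivity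
  set η : ℕ → ℝ := fun n => (1 / 8) / (1 + 2 * (k : ℝ)) ^ (N n) with hη
  have hη0 : ∀ n, 0 < η n := fun n => by
    simp only [hη]
    positivity
  refine ⟨η 0 / 2, half_pos (hη0 0), ?_⟩
  intro P _ D hD hDs
  obtain ⟨h, h', hc, hm, hc', hm', h01, h01', hpos, hpos', hsm⟩ :=
    param_regular P D hD (η 0 / 2) (half_pos (hη0 0))
  have h0 : ∀ p, sg 3 {x | 0 < h x p} ≤ ENNReal.ofReal (η 0) := by
    intro p
    have hsub : {x | 0 < h x p} ⊆ {x | (x, p) ∈ D} ∪ {x | 0 < h x p ∧ 0 < h' x p} := by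
      intro x hx
      by_cases hxD : (x, p) ∈ D
      · exact Or.inl hxD
      · exact Or.inr ⟨hx, hpos' x p hxD⟩
    refine (measure_mono hsub).trans ((measure_union_le _ _).trans ?_)
    refine (add_le_add (hDs p) (hsm p)).trans ?_
    rw [← ENNReal.ofReal_add (half_pos (hη0 0)).le (half_pos (hη0 0)).le, add_halves]
  obtain ⟨q, hqc, hqm, hq0, hqs, hqh⟩ := param_threshold P h hc hm h01 η hη0 h0
  have hex := fun n => param_expand k g P (q n) (hqc n) (hqm n) (hq0 n) (η n) (hqs n) (N n) (hN1 n)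
  choose q' χ hq'c hq'm hq'0 hq's hχm hχ1 hχq hχq' hχr using hex
  have h8 : ∀ n, (1 + 2 * (k : ℝ)) ^ N n * η n = 1 / 8 := by
    intro n
    simp only [hη]
    field_simp
  have hsel := fun n => param_select k g C hf P (q' n) (hq'c n) (hq'm n)
    (fun p => by
      have := hq's n p
      rwa [h8 n] at this)
  choose f hfm hfC hff using hsel
  obtain ⟨φ, hφm, hφC, hφ⟩ := param_glue (Y := S 3 × P) k (fun i y => (rot (g i) y.1, y.2))
    (fun i => ((rot_continuous (g i)).measurable.comp measurable_fst).prodMk measurable_snd)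
    C ε hC (fun n z => χ n z.1 z.2) (fun n i z => f n i z.1 z.2) r
    (fun n => by simp only [hr]; positivity) hrs hrε hχm (fun n y => hχ1 n y.1 y.2)
    (fun n i y => hχr n i y.1 y.2) hfm (fun n i y => hfC n i y.1 y.2)
    (fun n y hy => hff n y.1 y.2 (hχq' n y.1 y.2 hy)) D
    (fun y hy => by
      obtain ⟨n, hn⟩ := hqh y.1 y.2 (hpos y.1 y.2 hy)
      exact ⟨n, hχq n y.1 y.2 hn⟩)
  exact ⟨φ, hφm, hφC, hφ⟩


end Pool.Agent.Helper557.Rz
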