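import Pool.Agent.Helper557.Eq.Defs
import Pool.Agent.Helper557.Eq.M_HB
import Pool.Agent.Helper557.Eq.M_decay2
import Pool.Agent.Helper557.Eq.M_pone
import Pool.Agent.Helper557.Rz.M_meas

set_option autoImplicit false

open MeasureTheory Set

namespace Pool.Agent.Helper557.Rz

theorem sphere_approx (k : ℕ) (g : Fin k → Iso 3) (κ C : ℝ) (h : SGD 3 k g κ) (hC : 0 < C)
    (hf : Flow 3 k g C) : ∃ C' : ℝ, 0 ≤ C' ∧ ∀ (P : Type) [MeasurableSpace P] (f : S 3 → P → ℝ),
      Measurable (fun z : S 3 × P => f z.1 z.2) → (∀ x p, |f x p| ≤ 1) →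
      (∀ p, ∫ x, f x p ∂(sg 3) = 0) →
      ∃ (u : S 3 → P → ℝ) (φ : Fin k → S 3 → P → ℝ), Measurable (fun z : S 3 × P => u z.1 z.2) ∧
        (∀ i, Measurable (fun z : S 3 × P => φ i z.1 z.2)) ∧ (∀ x p, |u x p| ≤ 1 / 2) ∧
        (∀ i x p, |φ i x p| ≤ C') ∧
        ∀ x p, f x p = u x p + ∑ i, (φ i (rot (g i) x) p - φ i x p) := by
  classical
  obtain ⟨η, hη, hone⟩ := one_sided k g C hC.le hf (1 / 16) (by norm_num)
  obtain ⟨C1, hC1, hdecay⟩ := param_decay k g κ h η hη
  refine ⟨C1 + 8 * C, by positivity, ?_⟩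
  intro P _ f hfm hf1 hf0
  obtain ⟨a, φ, ham, hφm, ha1, hφ1, hasg, hdec⟩ := hdecay P f hfm hf1 hf0
  set D : Set (S 3 × P) := {z | 1 / 8 < |a z.1 z.2|} with hDdef
  have hD : MeasurableSet D :=
    measurableSet_lt measurable_const (continuous_abs.measurable.comp ham)
  obtain ⟨φ0, hφ0m, hφ0b, hφ0⟩ := hone P D hD (fun p => hasg p)
  have hgm : ∀ i, Measurable (fun z : S 3 × P => (rot (g i) z.1, z.2)) := fun i =>
    ((rot_continuous (g i)).measurable.comp measurable_fst).prodMk measurable_snd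
  have hvm : Measurable (D.indicator (fun z : S 3 × P => a z.1 z.2)) := ham.indicator hD
  have hvD : ∀ y, |D.indicator (fun z : S 3 × P => a z.1 z.2) y| ≤ D.indicator (fun _ => (1 : ℝ)) y := by
    intro y
    by_cases hy : y ∈ D
    · rw [indicator_of_mem hy, indicator_of_mem hy]
      exact ha1 y.1 y.2
    · rw [indicator_of_notMem hy, indicator_of_notMem hy]
      simp
  obtain ⟨w, φ', hw, hφ', hwb, hφ'b, hdec'⟩ :=
    two_sided k (fun i (z : S 3 × P) => (rot (g i) z.1, z.2)) hgm (2 * C) (1 / 16) (by positivity)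
      (by norm_num) D hD φ0 hφ0m hφ0b hφ0 (D.indicator (fun z : S 3 × P => a z.1 z.2)) hvm hvD
  refine ⟨fun x p => a x p - D.indicator (fun z : S 3 × P => a z.1 z.2) (x, p) + w (x, p),
    fun i x p => φ i x p + φ' i (x, p), ?_, ?_, ?_, ?_, ?_⟩
  · exact (ham.sub hvm).add hw
  · intro i
    exact (hφm i).add (hφ' i)
  · intro x p
    have h1 : |a x p - D.indicator (fun z : S 3 × P => a z.1 z.2) (x, p)| ≤ 1 / 8 := by
      by_cases hy : (x, p) ∈ D
      · rw [indicator_of_mem hy]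
        simp
      · rw [indicator_of_notMem hy, sub_zero]
        exact not_lt.1 hy
    have h2 := hwb (x, p)
    have h3 := abs_add_le (a x p - D.indicator (fun z : S 3 × P => a z.1 z.2) (x, p)) (w (x, p))
    show |a x p - D.indicator (fun z : S 3 × P => a z.1 z.2) (x, p) + w (x, p)| ≤ 1 / 2
    linarith
  · intro i x p
    have h1 := hφ1 i x p
    have h2 := hφ'b i (x, p)
    have h3 := abs_add_le (φ i x p) (φ' i (x, p))
    show |φ i x p + φ' i (x, p)| ≤ C1 + 8 * C
    linarith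
  · intro x p
    have h1 := hdec x p
    have h2 := hdec' (x, p)
    simp only at h2
    have h3 : ∑ i, ((φ i (rot (g i) x) p + φ' i (rot (g i) x, p)) - (φ i x p + φ' i (x, p)))
        = ∑ i, (φ i (rot (g i) x) p - φ i x p) + ∑ i, (φ' i (rot (g i) x, p) - φ' i (x, p)) := by
      rw [← Finset.sum_add_distrib]
      apply Finset.sum_congr rfl
      intro i _
      ring
    show f x p = a x p - D.indicator (fun z : S 3 × P => a z.1 z.2) (x, p) + w (x, p)
      + ∑ i, ((φ i (rot (g i) x) p + φ' i (rot (g i) x, p)) - (φ i x p + φ' i (x, p)))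
    rw [h3]
    linarith


end Pool.Agent.Helper557.Rz
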