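import Pool.Agent.Helper557.Eq.Defs

set_option autoImplicit false

open MeasureTheory Set

namespace Pool.Agent.Helper557.Rz

/-- the geometric series: if every member of a symmetric scalable class can be halved by a flow, it is
the divergence of a flow -/
theorem halving {Y : Type} [MeasurableSpace Y] (k : ℕ) (γ : Fin k → Y → Y) (hγ : ∀ i, Measurable (γ i))
    (C : ℝ) (hC : 0 ≤ C) (D : Fin k → Set Y) (F : Set (Y → ℝ))
    (h : ∀ f ∈ F, ∃ (u : Y → ℝ) (φ : Fin k → Y → ℝ), (fun y => 2 * u y) ∈ F ∧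
      (∀ i, Measurable (φ i)) ∧ (∀ i y, |φ i y| ≤ C) ∧ (∀ i y, y ∉ D i → φ i y = 0) ∧
      (∀ y, |u y| ≤ 1) ∧ ∀ y, f y = u y + ∑ i, (φ i (γ i y) - φ i y)) (f : Y → ℝ) (hf : f ∈ F) :
    ∃ φ : Fin k → Y → ℝ, (∀ i, Measurable (φ i)) ∧ (∀ i y, |φ i y| ≤ 2 * C) ∧
      (∀ i y, y ∉ D i → φ i y = 0) ∧ ∀ y, f y = ∑ i, (φ i (γ i y) - φ i y) := by
  choose U Φ hUF hΦm hΦC hΦD hU1 hUeq using h
  let g : ℕ → {f : Y → ℝ // f ∈ F} := fun n => Nat.rec ⟨f, hf⟩
    (fun _ p => ⟨fun y => 2 * U p.1 p.2 y, hUF p.1 p.2⟩) n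
  have hg0 : (g 0).1 = f := rfl
  have hgs : ∀ n y, (g (n + 1)).1 y = 2 * U (g n).1 (g n).2 y := fun n y => rfl
  let ph : ℕ → Fin k → Y → ℝ := fun n => Φ (g n).1 (g n).2
  have hphC : ∀ n i y, ‖(1 / 2 : ℝ) ^ n * ph n i y‖ ≤ (1 / 2 : ℝ) ^ n * C := by
    intro n i y
    rw [norm_mul, norm_pow]
    have e1 : ‖(1 / 2 : ℝ)‖ = 1 / 2 := by norm_num
    rw [e1]
    exact mul_le_mul_of_nonneg_left (hΦC _ _ i y) (by positivity)
  have hgeo : HasSum (fun n : ℕ => (1 / 2 : ℝ) ^ n * C) (2 * C) := by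
    have h1 := (hasSum_geometric_of_lt_one (r := (1 / 2 : ℝ)) (by norm_num)
      (by norm_num)).mul_right C
    have h2 : (1 - 1 / 2 : ℝ)⁻¹ = 2 := by norm_num
    rwa [h2] at h1
  have hsum : ∀ i y, Summable (fun n => (1 / 2 : ℝ) ^ n * ph n i y) := fun i y =>
    Summable.of_norm_bounded hgeo.summable (fun n => hphC n i y)
  refine ⟨fun i y => ∑' n, (1 / 2 : ℝ) ^ n * ph n i y, ?_, ?_, ?_, ?_⟩
  · intro i
    refine measurable_of_tendsto_metrizable (f := fun (N : ℕ) (y : Y) =>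
      ∑ n ∈ Finset.range N, (1 / 2 : ℝ) ^ n * ph n i y) ?_ ?_
    · intro N
      exact Finset.measurable_fun_sum _ fun n _ => (hΦm _ _ i).const_mul _
    · rw [tendsto_pi_nhds]
      intro y
      exact (hsum i y).hasSum.tendsto_sum_nat
  · intro i y
    exact tsum_of_norm_bounded hgeo (fun n => hphC n i y)
  · intro i y hy
    have h1 : ∀ n, (1 / 2 : ℝ) ^ n * ph n i y = 0 := fun n => by
      have : ph n i y = 0 := hΦD _ _ i y hy
      rw [this, mul_zero]
    simp only [h1, tsum_zero]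
  · intro y
    have htel : ∀ m : ℕ, f y = ∑ n ∈ Finset.range m,
        (1 / 2 : ℝ) ^ n * (∑ i, (ph n i (γ i y) - ph n i y)) + (1 / 2 : ℝ) ^ m * (g m).1 y := by
      intro m
      induction m with
      | zero => simp [hg0]
      | succ m ih =>
        rw [ih, Finset.sum_range_succ, hgs]
        have h1 : (g m).1 y = U (g m).1 (g m).2 y + ∑ i, (ph m i (γ i y) - ph m i y) :=
          hUeq (g m).1 (g m).2 y
        rw [h1, pow_succ]
        ring
    have hz : Filter.Tendsto (fun m : ℕ => (1 / 2 : ℝ) ^ m * (g m).1 y) Filter.atTop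
        (nhds 0) := by
      rw [← Filter.tendsto_add_atTop_iff_nat 1]
      refine squeeze_zero_norm (a := fun m : ℕ => (1 / 2 : ℝ) ^ m) ?_
        (tendsto_pow_atTop_nhds_zero_of_lt_one (by norm_num) (by norm_num))
      intro m
      rw [hgs, norm_mul, norm_mul, norm_pow]
      have e1 : ‖(1 / 2 : ℝ)‖ = 1 / 2 := by norm_num
      have e2 : ‖(2 : ℝ)‖ = 2 := by norm_num
      have e3 : ‖U (g m).1 (g m).2 y‖ ≤ 1 := hU1 _ _ y
      rw [e1, e2, pow_succ]
      have e4 : (0 : ℝ) ≤ (1 / 2) ^ m := by positivity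
      nlinarith [norm_nonneg (U (g m).1 (g m).2 y)]
    have hlim1 : Filter.Tendsto (fun m : ℕ => ∑ n ∈ Finset.range m,
        (1 / 2 : ℝ) ^ n * (∑ i, (ph n i (γ i y) - ph n i y))) Filter.atTop (nhds (f y)) := by
      have h1 : (fun m : ℕ => ∑ n ∈ Finset.range m,
          (1 / 2 : ℝ) ^ n * (∑ i, (ph n i (γ i y) - ph n i y))) =
          fun m : ℕ => f y - (1 / 2 : ℝ) ^ m * (g m).1 y := by
        funext m
        have := htel m
        linarith
      rw [h1]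
      have := hz.const_sub (f y)
      rwa [sub_zero] at this
    have hS : HasSum (fun n : ℕ => ∑ i, ((1 / 2 : ℝ) ^ n * ph n i (γ i y) -
        (1 / 2 : ℝ) ^ n * ph n i y))
        (∑ i, ((∑' n, (1 / 2 : ℝ) ^ n * ph n i (γ i y)) - ∑' n, (1 / 2 : ℝ) ^ n * ph n i y)) :=
      hasSum_sum fun i _ => (hsum i (γ i y)).hasSum.sub (hsum i y).hasSum
    have hlim2 := hS.tendsto_sum_nat
    refine tendsto_nhds_unique hlim1 (hlim2.congr fun m => ?_)
    refine Finset.sum_congr rfl fun n _ => ?_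
    rw [Finset.mul_sum]
    exact Finset.sum_congr rfl fun i _ => by rw [mul_sub]


end Pool.Agent.Helper557.Rz
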