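import Pool.Agent.Helper557.Eq.Defs
import Pool.Agent.Helper557.Eq.Gap
import Pool.Agent.Helper557.Eq.M_ThmA0
import Pool.Agent.Helper557.Eq.M_series
import Pool.Agent.Helper557.Rz.M_meas

set_option autoImplicit false

open MeasureTheory Set

namespace Pool.Agent.Helper557.Rz

theorem ThmA_int {h : S 3 → ℝ} (hm : Measurable h) (c : ℝ) (hb : ∀ x, |h x| ≤ c) :
    Integrable h (sg 3) := by
  haveI := sg_prob 3 (by norm_num)
  exact Integrable.of_bound hm.aestronglyMeasurable c (Filter.Eventually.of_forall hb)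

theorem ThmA_rot (g : Iso 3) {h : S 3 → ℝ} (hm : Measurable h) :
    ∫ x, h (rot g x) ∂(sg 3) = ∫ x, h x ∂(sg 3) := by
  have h1 := rot_mp 3 (by norm_num) g
  have h2 := integral_map (μ := sg 3) (φ := rot g) (f := h) h1.measurable.aemeasurable
    hm.aestronglyMeasurable
  rw [h1.map_eq] at h2
  exact h2.symm

theorem ThmA_mean {k : ℕ} (g : Fin k → Iso 3) (f u : S 3 → ℝ) (φ : Fin k → S 3 → ℝ) (C : ℝ)
    (hφm : ∀ i, Measurable (φ i)) (hφb : ∀ i x, |φ i x| ≤ C)
    (hfm : Measurable f) (hfb : ∀ x, |f x| ≤ 1)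
    (hf0 : ∫ x, f x ∂(sg 3) = 0)
    (h : ∀ x, f x = u x + ∑ i, (φ i (rot (g i) x) - φ i x)) : ∫ x, u x ∂(sg 3) = 0 := by
  have e : ∀ x, u x = f x - ∑ i, (φ i (rot (g i) x) - φ i x) := by
    intro x
    have := h x
    linarith
  have hi1 : ∀ i, Integrable (φ i) (sg 3) := fun i => ThmA_int (hφm i) C (hφb i)
  have hi2 : ∀ i, Integrable (fun x => φ i (rot (g i) x)) (sg 3) := fun i =>
    ThmA_int ((hφm i).comp (rot_mp 3 (by norm_num) (g i)).measurable) C (fun x => hφb i _)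
  have hi3 : ∀ i, Integrable (fun x => φ i (rot (g i) x) - φ i x) (sg 3) :=
    fun i => (hi2 i).sub (hi1 i)
  simp only [e]
  rw [integral_sub (ThmA_int hfm 1 hfb) (integrable_finsetSum _ fun i _ => hi3 i),
    hf0, integral_finsetSum _ (fun i _ => hi3 i), Finset.sum_eq_zero, sub_zero]
  intro i _
  rw [integral_sub (hi2 i) (hi1 i), ThmA_rot (g i) (hφm i), sub_self]

theorem sphere_flow : ∃ (k : ℕ) (g : Fin k → Iso 3) (C : ℝ), ∀ (P : Type) [MeasurableSpace P]
    (f : S 3 → P → ℝ), Measurable (fun z : S 3 × P => f z.1 z.2) → (∀ x p, |f x p| ≤ 1) →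
      (∀ p, ∫ x, f x p ∂(sg 3) = 0) →
      ∃ φ : Fin k → S 3 → P → ℝ, (∀ i, Measurable (fun z : S 3 × P => φ i z.1 z.2)) ∧
        (∀ i x p, |φ i x p| ≤ C) ∧
        ∀ x p, f x p = ∑ i, (φ i (rot (g i) x) p - φ i x p) := by
  obtain ⟨k, g, κ, C, hSG, hC, hF⟩ := gap_flow
  obtain ⟨C', hC', happ⟩ := sphere_approx k g κ C hSG hC hF
  refine ⟨k, g, 2 * C', ?_⟩
  intro P _ f hfm hf1 hf0
  have sec : ∀ (h : S 3 → P → ℝ), Measurable (fun z : S 3 × P => h z.1 z.2) → ∀ p,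
      Measurable (fun x => h x p) := fun h hm p => hm.comp measurable_prodMk_right
  obtain ⟨φ, h1, h2, -, h4⟩ := halving (Y := S 3 × P) k
    (fun i z => (rot (g i) z.1, z.2)) (fun i =>
      ((rot_mp 3 (by norm_num) (g i)).measurable.comp measurable_fst).prodMk measurable_snd)
    C' hC' (fun _ => univ)
    {f : S 3 × P → ℝ | Measurable f ∧ (∀ y, |f y| ≤ 1) ∧ ∀ p, ∫ x, f (x, p) ∂(sg 3) = 0} (by
      rintro f ⟨hfm, hf1, hf0⟩
      obtain ⟨u, φ, a1, a2, a3, a4, a5⟩ := happ P (fun x p => f (x, p)) hfm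
        (fun x p => hf1 (x, p)) hf0
      refine ⟨fun y => u y.1 y.2, fun i y => φ i y.1 y.2, ⟨?_, ?_, ?_⟩, a2, fun i y => a4 i _ _,
        fun i y hy => absurd (mem_univ y) hy, ?_, fun y => a5 y.1 y.2⟩
      · exact a1.const_mul 2
      · intro y
        show |2 * u y.1 y.2| ≤ 1
        rw [abs_mul, abs_two]
        linarith [a3 y.1 y.2]
      · intro p
        show ∫ x, 2 * u x p ∂(sg 3) = 0
        rw [integral_const_mul, ThmA_mean g (fun x => f (x, p)) (fun x => u x p)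
          (fun i x => φ i x p) C' (fun i => sec _ (a2 i) p) (fun i x => a4 i x p)
          (hfm.comp measurable_prodMk_right) (fun x => hf1 (x, p)) (hf0 p)
          (fun x => a5 x p), mul_zero]
      · intro y
        linarith [a3 y.1 y.2])
    (fun z => f z.1 z.2) ⟨hfm, fun y => hf1 y.1 y.2, hf0⟩
  exact ⟨fun i x p => φ i (x, p), h1, fun i x p => h2 i (x, p), fun x p => h4 (x, p)⟩


end Pool.Agent.Helper557.Rz
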