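import Pool.Agent.Helper557.Eq.Defs
import Pool.Agent.Helper557.Eq.M_ThmA
import Pool.Agent.Helper557.Rz.M_meas

set_option autoImplicit false

open MeasureTheory Set

namespace Pool.Agent.Helper557.Rz

theorem polar_pt : ∃ x0 : E 3, ‖x0‖ = 1 :=
  ⟨EuclideanSpace.single (0 : Fin 3) (1 : ℝ), by simp⟩

theorem polar (c : E 3) (R : ℝ) : UP (fun P _ => {f' : E 3 → P → ℝ | ∃ f : E 3 → P → ℝ, Nice R P f ∧
    ∀ y p, f' y p = f y p - sm c f y p}) := by
  classical
  obtain ⟨k, g, C, hflow⟩ := sphere_flow
  have hprob : IsProbabilityMeasure (sg 3) := sg_prob 3 (by norm_num)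
  obtain ⟨x0, hx0⟩ := polar_pt
  let γ : Fin k → (E 3 ≃ᵢ E 3) := fun i =>
    (IsometryEquiv.addRight (-c)).trans ((g i).toIsometryEquiv.trans (IsometryEquiv.addRight c))
  have hγ : ∀ i y, γ i y = g i (y - c) + c := by
    intro i y
    show g i (y + -c) + c = _
    rw [← sub_eq_add_neg]
  -- the direction
  let nv : E 3 → E 3 := fun y => if y = c then x0 else ‖y - c‖⁻¹ • (y - c)
  have hnv : ∀ y, nv y ∈ Metric.sphere (0 : E 3) 1 := by
    intro y
    rw [mem_sphere_zero_iff_norm]
    show ‖(if y = c then x0 else ‖y - c‖⁻¹ • (y - c))‖ = 1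
    split
    · exact hx0
    · rename_i h
      have h1 : ‖y - c‖ ≠ 0 := norm_ne_zero_iff.2 (sub_ne_zero.2 h)
      rw [norm_smul, norm_inv, norm_norm, inv_mul_cancel₀ h1]
  have hnvm : Measurable nv := by
    refine Measurable.ite (measurableSet_singleton c) measurable_const ?_
    have h1 : Measurable (fun y : E 3 => y - c) := measurable_id.sub_const c
    exact (h1.norm.inv).smul h1
  let n : E 3 → S 3 := fun y => ⟨nv y, hnv y⟩
  have hnm : Measurable n := hnvm.subtype_mk
  refine ⟨k, γ, 2 * |C|, R + 2 * ‖c‖, ?_⟩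
  rintro P _ f' ⟨f, ⟨hfm, hfb, hfs⟩, hf'⟩
  let F : S 3 → ℝ × P → ℝ := fun x q => f (c + q.1 • (x : E 3)) q.2
  have hFm : Measurable (fun z : S 3 × (ℝ × P) => F z.1 z.2) := by
    have h1 : Measurable (fun z : S 3 × (ℝ × P) => (c + z.2.1 • (z.1 : E 3), z.2.2)) := by
      refine Measurable.prodMk ?_ (measurable_snd.comp measurable_snd)
      refine Measurable.const_add ?_ c
      exact (measurable_fst.comp measurable_snd).smul (measurable_subtype_coe.comp measurable_fst)
    exact hfm.comp h1
  have hFb : ∀ x q, |F x q| ≤ 1 := fun x q => hfb _ _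
  let mn : ℝ × P → ℝ := fun q => ∫ x, F x q ∂(sg 3)
  have hmnm : Measurable mn := by
    have h1 : StronglyMeasurable (Function.uncurry F) := hFm.stronglyMeasurable
    exact (h1.integral_prod_left).measurable
  have hFi : ∀ q, Integrable (fun x => F x q) (sg 3) := by
    intro q
    have h1 : Measurable (fun x => F x q) := hFm.comp (measurable_id.prodMk measurable_const)
    exact Integrable.of_bound h1.aestronglyMeasurable 1
      (Filter.Eventually.of_forall fun x => hFb x q)
  have hmnb : ∀ q, |mn q| ≤ 1 := by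
    intro q
    have h1 := norm_integral_le_of_norm_le_const (μ := sg 3) (f := fun x => F x q) (C := 1)
      (Filter.Eventually.of_forall fun x => hFb x q)
    simpa using h1
  obtain ⟨φ, hφm, hφb, hφ⟩ := hflow (ℝ × P) (fun x q => (F x q - mn q) / 2)
    ((hFm.sub (hmnm.comp measurable_snd)).div_const 2)
    (by
      intro x q
      rw [abs_div, abs_two, div_le_one (by norm_num)]
      have h1 := abs_sub (F x q) (mn q)
      linarith [hFb x q, hmnb q])
    (by
      intro q
      have h1 : ∫ x, (F x q - mn q) / 2 ∂(sg 3) = (∫ x, (F x q - mn q) ∂(sg 3)) / 2 :=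
        integral_div 2 _
      rw [h1, integral_sub (hFi q) (integrable_const _), integral_const]
      simp [mn])
  let Φ : Fin k → E 3 → P → ℝ := fun i y p =>
    if y ≠ c ∧ ‖y - c‖ ≤ R + ‖c‖ then 2 * φ i (n y) (‖y - c‖, p) else 0
  refine ⟨Φ, ?_, ?_, ?_, ?_⟩
  · intro i
    have hset : MeasurableSet {q : E 3 × P | q.1 ≠ c ∧ ‖q.1 - c‖ ≤ R + ‖c‖} := by
      refine MeasurableSet.inter ?_ ?_
      · exact (measurable_fst (measurableSet_singleton c)).compl
      · exact measurableSet_le ((measurable_fst.sub_const c).norm) measurable_const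
    refine Measurable.ite hset ?_ measurable_const
    refine Measurable.const_mul ?_ 2
    have h1 : Measurable (fun q : E 3 × P => (n q.1, (‖q.1 - c‖, q.2))) :=
      (hnm.comp measurable_fst).prodMk
        (((measurable_fst.sub_const c).norm).prodMk measurable_snd)
    exact (hφm i).comp h1
  · intro i x p
    show |if x ≠ c ∧ ‖x - c‖ ≤ R + ‖c‖ then 2 * φ i (n x) (‖x - c‖, p) else 0| ≤ 2 * |C|
    split
    · rw [abs_mul, abs_two]
      have h1 := hφb i (n x) (‖x - c‖, p)
      have h2 := le_abs_self C
      linarith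
    · rw [abs_zero]
      positivity
  · intro i x p hx
    show (if x ≠ c ∧ ‖x - c‖ ≤ R + ‖c‖ then 2 * φ i (n x) (‖x - c‖, p) else 0) = 0
    rw [if_neg]
    rintro ⟨_, h1⟩
    have h2 : ‖x‖ ≤ ‖x - c‖ + ‖c‖ := by
      have := norm_add_le (x - c) c
      rwa [sub_add_cancel] at this
    linarith
  · intro y p
    rw [hf' y p]
    have hnorm : ∀ i, ‖γ i y - c‖ = ‖y - c‖ := by
      intro i
      rw [hγ, add_sub_cancel_right]
      exact (g i).norm_map _
    by_cases hy : y = c
    · have hγc : ∀ i, γ i y = c := by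
        intro i
        rw [hγ, hy, sub_self, map_zero, zero_add]
      have h1 : sm c f y p = f y p := by
        unfold sm
        rw [hy, sub_self, norm_zero]
        simp
      rw [h1, sub_self]
      symm
      refine Finset.sum_eq_zero fun i _ => ?_
      have h2 : Φ i (γ i y) p = 0 := by
        show (if γ i y ≠ c ∧ _ then _ else (0 : ℝ)) = 0
        rw [if_neg]
        rintro ⟨h3, _⟩
        exact h3 (hγc i)
      have h3 : Φ i y p = 0 := by
        show (if y ≠ c ∧ _ then _ else (0 : ℝ)) = 0
        rw [if_neg]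
        rintro ⟨h4, _⟩
        exact h4 hy
      rw [h2, h3, sub_zero]
    · have hyc : y - c ≠ 0 := sub_ne_zero.2 hy
      have hr : ‖y - c‖ ≠ 0 := norm_ne_zero_iff.2 hyc
      have hγy : ∀ i, γ i y ≠ c := by
        intro i h
        have h1 := hnorm i
        rw [h, sub_self, norm_zero] at h1
        exact hr h1.symm
      by_cases hR : ‖y - c‖ ≤ R + ‖c‖
      · have h1 : ∀ i, Φ i (γ i y) p = 2 * φ i (rot (g i) (n y)) (‖y - c‖, p) := by
          intro i
          show (if γ i y ≠ c ∧ ‖γ i y - c‖ ≤ R + ‖c‖ then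
            2 * φ i (n (γ i y)) (‖γ i y - c‖, p) else 0) = _
          rw [if_pos ⟨hγy i, by rw [hnorm i]; exact hR⟩, hnorm i]
          congr 2
          apply Subtype.ext
          show (if γ i y = c then x0 else ‖γ i y - c‖⁻¹ • (γ i y - c)) =
            g i (if y = c then x0 else ‖y - c‖⁻¹ • (y - c))
          rw [if_neg (hγy i), if_neg hy, hnorm i, hγ, add_sub_cancel_right, map_smul]
        have h2 : ∀ i, Φ i y p = 2 * φ i (n y) (‖y - c‖, p) := by
          intro i
          exact if_pos ⟨hy, hR⟩
        have h3 := hφ (n y) (‖y - c‖, p)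
        have h4 : F (n y) (‖y - c‖, p) = f y p := by
          show f (c + ‖y - c‖ • (if y = c then x0 else ‖y - c‖⁻¹ • (y - c))) p = f y p
          rw [if_neg hy, smul_smul, mul_inv_cancel₀ hr, one_smul, add_sub_cancel]
        have h5 : mn (‖y - c‖, p) = sm c f y p := rfl
        rw [h4, h5] at h3
        have h6 : f y p - sm c f y p = 2 * ((f y p - sm c f y p) / 2) := by ring
        rw [h6, h3, Finset.mul_sum]
        refine Finset.sum_congr rfl fun i _ => ?_
        rw [h1, h2]
        ring
      · have hlow : ∀ z : E 3, ‖z‖ = ‖y - c‖ → R < ‖c + z‖ := by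
          intro z hz
          have h1 := norm_sub_norm_le z (-c)
          rw [norm_neg, sub_neg_eq_add, hz, add_comm z c] at h1
          push Not at hR
          linarith
        have h1 : f y p = 0 := by
          apply hfs
          have := hlow (y - c) rfl
          rwa [add_sub_cancel] at this
        have h2 : sm c f y p = 0 := by
          unfold sm
          have h3 : ∀ x : S 3, f (c + ‖y - c‖ • (x : E 3)) p = 0 := by
            intro x
            apply hfs
            apply hlow
            rw [norm_smul, norm_norm, norm_eq_of_mem_sphere, mul_one]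
          simp [h3]
        rw [h1, h2, sub_zero]
        symm
        refine Finset.sum_eq_zero fun i _ => ?_
        have h3 : Φ i (γ i y) p = 0 := by
          show (if γ i y ≠ c ∧ ‖γ i y - c‖ ≤ R + ‖c‖ then _ else (0 : ℝ)) = 0
          rw [if_neg]
          rintro ⟨_, h4⟩
          rw [hnorm i] at h4
          exact hR h4
        have h4 : Φ i y p = 0 := by
          show (if y ≠ c ∧ ‖y - c‖ ≤ R + ‖c‖ then _ else (0 : ℝ)) = 0
          rw [if_neg]
          rintro ⟨_, h5⟩
          exact hR h5
        rw [h3, h4, sub_zero]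


end Pool.Agent.Helper557.Rz
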