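import Pool.Agent.Helper557.Eq.Defs
import Pool.Agent.Helper557.Rz.M_meas

set_option autoImplicit false

open MeasureTheory Set

namespace Pool.Agent.Helper557.Rz

theorem smnice_polar (H : E 3 → ℝ) : ∫ y, H y =
    ∫ q : S 3 × Ioi (0 : ℝ), H (q.2.1 • q.1.1) ∂((volume : Measure (E 3)).toSphere.prod
      (Measure.volumeIoiPow (Module.finrank ℝ (E 3) - 1))) := by
  have h1 := (volume : Measure (E 3)).measurePreserving_homeomorphUnitSphereProd.integral_comp
    (Homeomorph.measurableEmbedding _) (fun q : S 3 × Ioi (0 : ℝ) => H (q.2.1 • q.1.1))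
  rw [← h1]
  have h2 : ∀ x : ({0}ᶜ : Set (E 3)), H ((homeomorphUnitSphereProd (E 3) x).2.1 •
      (homeomorphUnitSphereProd (E 3) x).1.1) = H x := by
    intro x
    have hx : ‖(x : E 3)‖ ≠ 0 := norm_ne_zero_iff.2 x.2
    rw [homeomorphUnitSphereProd_apply_snd_coe, homeomorphUnitSphereProd_apply_fst_coe, smul_smul,
      mul_inv_cancel₀ hx, one_smul]
  simp_rw [h2]
  rw [integral_subtype_comap (measurableSet_singleton _).compl (fun x : E 3 => H x),
    restrict_compl_singleton]

theorem smnice_polar_int (H : E 3 → ℝ) (hH : Integrable H) :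
    Integrable (fun q : S 3 × Ioi (0 : ℝ) => H (q.2.1 • q.1.1))
      ((volume : Measure (E 3)).toSphere.prod
        (Measure.volumeIoiPow (Module.finrank ℝ (E 3) - 1))) := by
  have h1 := (volume : Measure (E 3)).measurePreserving_homeomorphUnitSphereProd.integrable_comp_emb
    (Homeomorph.measurableEmbedding _) (g := fun q : S 3 × Ioi (0 : ℝ) => H (q.2.1 • q.1.1))
  rw [← h1]
  have h2 : (fun q : S 3 × Ioi (0 : ℝ) => H (q.2.1 • q.1.1)) ∘ (homeomorphUnitSphereProd (E 3)) =
      fun x : ({0}ᶜ : Set (E 3)) => H x := by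
    funext x
    have hx : ‖(x : E 3)‖ ≠ 0 := norm_ne_zero_iff.2 x.2
    show H ((homeomorphUnitSphereProd (E 3) x).2.1 • (homeomorphUnitSphereProd (E 3) x).1.1) = H x
    rw [homeomorphUnitSphereProd_apply_snd_coe, homeomorphUnitSphereProd_apply_fst_coe, smul_smul,
      mul_inv_cancel₀ hx, one_smul]
  rw [h2]
  have h3 : IntegrableOn H ({0}ᶜ : Set (E 3)) := hH.integrableOn
  rw [integrableOn_iff_comap_subtypeVal (measurableSet_singleton _).compl] at h3
  exact h3

theorem smnice_meas (c : E 3) (R : ℝ) (P : Type) [MeasurableSpace P] (f : E 3 → P → ℝ)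
    (hf : Nice R P f) : Measurable (fun q : E 3 × P => sm c f q.1 q.2) := by
  have := sg_prob 3 (by norm_num)
  have h1 : Measurable (fun z : (E 3 × P) × S 3 =>
      ((c + ‖z.1.1 - c‖ • (z.2 : E 3), z.1.2) : E 3 × P)) := by
    apply Measurable.prodMk
    · have h2 : Measurable (fun z : (E 3 × P) × S 3 => z.1.1) := measurable_fst.comp measurable_fst
      have h3 : Measurable (fun z : (E 3 × P) × S 3 => (z.2 : E 3)) :=
        measurable_subtype_coe.comp measurable_snd
      exact measurable_const.add (((h2.sub measurable_const).norm).smul h3)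
    · exact measurable_snd.comp measurable_fst
  have h4 : StronglyMeasurable (fun z : (E 3 × P) × S 3 =>
      f (c + ‖z.1.1 - c‖ • (z.2 : E 3)) z.1.2) := (hf.1.comp h1).stronglyMeasurable
  exact (h4.integral_prod_right' (ν := sg 3)).measurable

theorem smnice_integrable (c : E 3) (R : ℝ) (P : Type) [MeasurableSpace P] (f : E 3 → P → ℝ)
    (hf : Nice R P f) (p : P) : Integrable (fun y => f y p) := by
  have hmeas : Measurable (fun y => f y p) := hf.1.comp measurable_prodMk_right
  have hsupp : Function.support (fun y => f y p) ⊆ Metric.closedBall 0 R := by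
    intro y hy
    rw [mem_closedBall_zero_iff]
    by_contra hcon
    push Not at hcon
    exact hy (hf.2.2 y p hcon)
  rw [← integrableOn_iff_integrable_of_support_subset hsupp]
  apply Measure.integrableOn_of_bounded (M := 1) (measure_closedBall_lt_top).ne
    hmeas.aestronglyMeasurable
  exact Filter.Eventually.of_forall fun y => hf.2.1 y p

theorem smnice_tau : (volume : Measure (E 3)).toSphere Set.univ ≠ 0 := by
  intro h0
  have h1 := (sg_prob 3 (by norm_num)).measure_univ
  unfold sg at h1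
  rw [Measure.smul_apply, h0, smul_eq_mul, mul_zero] at h1
  exact zero_ne_one h1

theorem smnice_sg (h : S 3 → ℝ) : ∫ x, h x ∂((volume : Measure (E 3)).toSphere) =
    (volume : Measure (E 3)).toSphere.real Set.univ * ∫ x, h x ∂(sg 3) := by
  unfold sg
  rw [integral_smul_measure, smul_eq_mul, ENNReal.toReal_inv, ← mul_assoc]
  have h1 : (volume : Measure (E 3)).toSphere.real Set.univ ≠ 0 :=
    (ENNReal.toReal_pos smnice_tau (measure_ne_top _ _)).ne'
  have h2 : ((volume : Measure (E 3)).toSphere Set.univ).toReal =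
      (volume : Measure (E 3)).toSphere.real Set.univ := rfl
  rw [h2, mul_inv_cancel₀ h1, one_mul]

theorem smnice_integral (c : E 3) (R : ℝ) (P : Type) [MeasurableSpace P] (f : E 3 → P → ℝ)
    (hf : Nice R P f) (p : P) : ∫ y, sm c f y p = ∫ y, f y p := by
  have hint : Integrable (fun y => f (c + y) p) :=
    (smnice_integrable c R P f hf p).comp_add_left c
  rw [← integral_add_left_eq_self (fun y => sm c f y p) c,
    ← integral_add_left_eq_self (fun y => f y p) c]
  rw [smnice_polar (fun y => sm c f (c + y) p), smnice_polar (fun y => f (c + y) p)]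
  have hL : ∀ q : S 3 × Ioi (0 : ℝ), sm c f (c + q.2.1 • q.1.1) p =
      ∫ x : S 3, f (c + q.2.1 • (x : E 3)) p ∂(sg 3) := by
    intro q
    unfold sm
    have h1 : ‖c + q.2.1 • q.1.1 - c‖ = q.2.1 := by
      rw [add_sub_cancel_left, norm_smul, Real.norm_eq_abs, abs_of_pos q.2.2]
      have h2 : ‖(q.1.1 : E 3)‖ = 1 := by simp
      rw [h2, mul_one]
    rw [h1]
  simp_rw [hL]
  rw [integral_fun_snd (fun r : Ioi (0 : ℝ) => ∫ x : S 3, f (c + r.1 • (x : E 3)) p ∂(sg 3)),
    integral_prod_symm _ (smnice_polar_int (fun y => f (c + y) p) hint), smul_eq_mul,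
    ← integral_const_mul]
  congr 1
  funext r
  exact (smnice_sg (fun x => f (c + r.1 • (x : E 3)) p)).symm

theorem sm_nice (c : E 3) (R : ℝ) (P : Type) [MeasurableSpace P] (f : E 3 → P → ℝ) (hf : Nice R P f) :
    Nice (R + 2 * ‖c‖) P (sm c f) ∧ (∀ p, ∫ y, sm c f y p = ∫ y, f y p) ∧
      (∀ y y' p, ‖y - c‖ = ‖y' - c‖ → sm c f y p = sm c f y' p) := by
  have hprob := sg_prob 3 (by norm_num)
  refine ⟨⟨smnice_meas c R P f hf, ?_, ?_⟩, fun p => smnice_integral c R P f hf p, ?_⟩
  · intro y p
    have h1 := norm_integral_le_of_norm_le_const (μ := sg 3)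
      (f := fun x : S 3 => f (c + ‖y - c‖ • (x : E 3)) p) (C := 1)
      (Filter.Eventually.of_forall fun x => hf.2.1 _ p)
    rw [probReal_univ, mul_one] at h1
    exact h1
  · intro y p hy
    unfold sm
    have h1 : ∀ x : S 3, f (c + ‖y - c‖ • (x : E 3)) p = 0 := by
      intro x
      apply hf.2.2
      have h2 : ‖‖y - c‖ • (x : E 3)‖ = ‖y - c‖ := by
        rw [norm_smul, norm_norm]
        have h3 : ‖(x : E 3)‖ = 1 := by simp
        rw [h3, mul_one]
      have h4 : ‖‖y - c‖ • (x : E 3)‖ ≤ ‖c + ‖y - c‖ • (x : E 3)‖ + ‖c‖ := by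
        calc ‖‖y - c‖ • (x : E 3)‖ = ‖(c + ‖y - c‖ • (x : E 3)) - c‖ := by
              rw [add_sub_cancel_left]
          _ ≤ _ := norm_sub_le _ _
      have h5 : ‖y‖ ≤ ‖y - c‖ + ‖c‖ := by
        calc ‖y‖ = ‖(y - c) + c‖ := by rw [sub_add_cancel]
          _ ≤ _ := norm_add_le _ _
      rw [h2] at h4
      linarith
    simp_rw [h1]
    exact integral_zero _ _
  · intro y y' p h
    unfold sm
    rw [h]


end Pool.Agent.Helper557.Rz
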