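import Pool.Agent.Helper557.Eq.Defs
import Pool.Agent.Helper557.Rz.M_meas
import Pool.Agent.Helper557.Rz.M_poly

set_option autoImplicit false

open MeasureTheory Set

namespace Pool.Agent.Helper557.Rz

lemma uniform_inner_le (b x : S 3) : inner ℝ (b : E 3) (x : E 3) ∈ Icc (-1 : ℝ) 1 := by
  have h := abs_real_inner_le_norm (b : E 3) (x : E 3)
  have hb : ‖(b : E 3)‖ = 1 := by
    have := b.2
    rwa [mem_sphere_iff_norm, sub_zero] at this
  have hx : ‖(x : E 3)‖ = 1 := by
    have := x.2
    rwa [mem_sphere_iff_norm, sub_zero] at this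
  rw [hb, hx, mul_one] at h
  exact abs_le.1 h

lemma uniform_cont (b : S 3) : Continuous fun x : S 3 => inner ℝ (b : E 3) (x : E 3) :=
  continuous_const.inner continuous_subtype_val

lemma uniform_integral (f : ℝ → ℝ) :
    ∫ t, f t ∂((2⁻¹ : ENNReal) • (volume : Measure ℝ).restrict (Ioc (-1) 1)) =
      (1 / 2) * ∫ t in (-1 : ℝ)..1, f t := by
  rw [integral_smul_measure, intervalIntegral.integral_of_le (by norm_num)]
  simp

lemma uniform_bcf (b : S 3) (f : BoundedContinuousFunction ℝ ℝ) :
    ∫ x : S 3, f (inner ℝ (b : E 3) (x : E 3)) ∂(sg 3) = (1 / 2) * ∫ t in (-1 : ℝ)..1, f t := by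
  haveI := sg_prob 3 (by norm_num)
  refine eq_of_abs_sub_le_all fun ε hε => ?_
  obtain ⟨p, hp⟩ := exists_polynomial_near_of_continuousOn (-1) 1 f f.continuous.continuousOn
    (ε / 2) (by positivity)
  have h1 := sph_poly b p
  have hfi : Integrable (fun x : S 3 => f (inner ℝ (b : E 3) (x : E 3))) (sg 3) :=
    (f.continuous.comp (uniform_cont b)).integrable_of_hasCompactSupport
      (HasCompactSupport.of_compactSpace _)
  have hpi : Integrable (fun x : S 3 => p.eval (inner ℝ (b : E 3) (x : E 3))) (sg 3) :=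
    (p.continuous.comp (uniform_cont b)).integrable_of_hasCompactSupport
      (HasCompactSupport.of_compactSpace _)
  have e1 : |∫ x : S 3, (p.eval (inner ℝ (b : E 3) (x : E 3)) -
      f (inner ℝ (b : E 3) (x : E 3))) ∂(sg 3)| ≤ ε / 2 := by
    have := norm_integral_le_of_norm_le_const (μ := sg 3) (C := ε / 2)
      (f := fun x : S 3 => p.eval (inner ℝ (b : E 3) (x : E 3)) -
        f (inner ℝ (b : E 3) (x : E 3))) (ae_of_all _ fun x =>
        (hp _ (uniform_inner_le b x)).le)
    simpa using this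
  have e2 : |∫ t in (-1 : ℝ)..1, (p.eval t - f t)| ≤ ε := by
    have := intervalIntegral.norm_integral_le_of_norm_le_const (a := (-1 : ℝ)) (b := 1)
      (C := ε / 2) (f := fun t => p.eval t - f t) (fun t ht => by
        rw [uIoc_of_le (by norm_num)] at ht
        exact (hp t ⟨ht.1.le, ht.2⟩).le)
    rw [Real.norm_eq_abs] at this
    refine this.trans ?_
    norm_num
  rw [integral_sub hpi hfi] at e1
  rw [intervalIntegral.integral_sub (p.continuous.intervalIntegrable _ _)
    (f.continuous.intervalIntegrable _ _)] at e2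
  rw [h1] at e1
  rw [abs_le] at e1 e2 ⊢
  constructor
  · linarith [e1.1, e1.2, e2.1, e2.2]
  · linarith [e1.1, e1.2, e2.1, e2.2]

theorem sph_uniform (b : S 3) (F : ℝ → ℝ) (hF : Measurable F) (hb : ∀ t, |F t| ≤ 1) :
    ∫ x : S 3, F (inner ℝ (b : E 3) (x : E 3)) ∂(sg 3) = (1 / 2) * ∫ t in (-1 : ℝ)..1, F t := by
  haveI := sg_prob 3 (by norm_num)
  have hm : Measurable fun x : S 3 => inner ℝ (b : E 3) (x : E 3) := (uniform_cont b).measurable
  haveI : IsFiniteMeasure ((2⁻¹ : ENNReal) • (volume : Measure ℝ).restrict (Ioc (-1) 1)) := by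
    refine ⟨?_⟩
    rw [Measure.smul_apply, Measure.restrict_apply_univ, Real.volume_Ioc]
    norm_num
    exact ENNReal.mul_lt_top (by simp) (by simp)
  have h : (sg 3).map (fun x : S 3 => inner ℝ (b : E 3) (x : E 3)) =
      (2⁻¹ : ENNReal) • (volume : Measure ℝ).restrict (Ioc (-1) 1) := by
    haveI : IsFiniteMeasure ((sg 3).map (fun x : S 3 => inner ℝ (b : E 3) (x : E 3))) :=
      Measure.isFiniteMeasure_map _ _
    refine ext_of_forall_integral_eq_of_IsFiniteMeasure fun f => ?_
    rw [integral_map hm.aemeasurable f.continuous.aestronglyMeasurable, uniform_integral]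
    exact uniform_bcf b f
  rw [← integral_map (φ := fun x : S 3 => inner ℝ (b : E 3) (x : E 3)) hm.aemeasurable
    hF.aestronglyMeasurable, h, uniform_integral]


end Pool.Agent.Helper557.Rz
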