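import Pool.Agent.Helper557.Eq.Defs
import Pool.Agent.Helper557.Eq.M_uniform
import Pool.Agent.Helper557.Rz.M_meas

set_option autoImplicit false

open MeasureTheory Set

namespace Pool.Agent.Helper557.Rz
/-! ### auxiliary lemmas -/

/-- `A(a)` for a bounded measurable function vanishing beyond `4`. -/
lemma smooth_int (H : ℝ → ℝ) (hH : Measurable H) (hb : ∀ w, |H w| ≤ 1) (a b : ℝ) :
    IntervalIntegrable H volume a b := by
  refine (intervalIntegrable_const (c := (1 : ℝ))).mono_fun' hH.aestronglyMeasurable ?_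
  exact Filter.Eventually.of_forall fun w => by simpa using hb w

lemma smooth_zero (H : ℝ → ℝ) (hz : ∀ w, 4 < w → H w = 0) (a : ℝ) (ha : 4 ≤ a) :
    ∫ w in a..4, H w = 0 := by
  rw [intervalIntegral.integral_symm, neg_eq_zero]
  refine intervalIntegral.integral_zero_ae ?_
  refine Filter.Eventually.of_forall fun w hw => hz w ?_
  rw [Set.uIoc_of_le ha] at hw
  exact hw.1

lemma smooth_B (H : ℝ → ℝ) (hH : Measurable H) (hb : ∀ w, |H w| ≤ 1)
    (a b : ℝ) :
    |(∫ w in a..4, H w) - ∫ w in b..4, H w| ≤ |a - b| := by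
  have h1 : (∫ w in a..4, H w) - ∫ w in b..4, H w = ∫ w in a..b, H w := by
    rw [sub_eq_iff_eq_add]
    exact (intervalIntegral.integral_add_adjacent_intervals (smooth_int H hH hb _ _)
      (smooth_int H hH hb _ _)).symm
  rw [h1, ← Real.norm_eq_abs]
  have := intervalIntegral.norm_integral_le_of_norm_le_const (a := a) (b := b) (f := H) (C := 1)
    (fun w _ => by simpa using hb w)
  simpa [abs_sub_comm] using this

/-- the radial function -/
noncomputable def smooth_cl (s : ℝ) : ℝ := max 1 (min s 5)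

lemma smooth_cl_lip (s t : ℝ) : |smooth_cl s - smooth_cl t| ≤ |s - t| := by
  unfold smooth_cl
  refine (abs_max_sub_max_le_max _ _ _ _).trans ?_
  simp only [sub_self, abs_zero]
  refine max_le (abs_nonneg _) ?_
  refine (abs_min_sub_min_le_max _ _ _ _).trans ?_
  simp

lemma smooth_cl_mem (s : ℝ) : 1 ≤ smooth_cl s ∧ smooth_cl s ≤ 5 := by
  unfold smooth_cl
  refine ⟨le_max_left _ _, max_le (by norm_num) (min_le_right _ _)⟩

lemma smooth_formula (H : ℝ → ℝ) (hH : Measurable H) (hb : ∀ w, |H w| ≤ 1)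
    (hz : ∀ w, 4 < w → H w = 0) (s : ℝ) (hs : 0 ≤ s) :
    (1 / 2) * ∫ t in (-1 : ℝ)..1, H (9 + s ^ 2 + 6 * s * t) =
      (∫ w in (3 - smooth_cl s) ^ 2..4, H w) / (12 * max s 1) := by
  rcases hs.eq_or_lt with rfl | hs
  · have h1 : ∀ t : ℝ, H (9 + (0 : ℝ) ^ 2 + 6 * 0 * t) = 0 := fun t => hz _ (by norm_num)
    have h2 : smooth_cl 0 = 1 := by simp [smooth_cl]
    rw [h2, smooth_zero H hz _ (by norm_num)]
    simp only [h1]
    simp
  have h6 : (6 * s) ≠ 0 := by positivity
  have hsub : ∫ t in (-1 : ℝ)..1, H (9 + s ^ 2 + 6 * s * t) =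
      (6 * s)⁻¹ * ∫ w in (3 - s) ^ 2..(3 + s) ^ 2, H w := by
    have := intervalIntegral.integral_comp_add_mul (a := (-1 : ℝ)) (b := 1) H h6 (9 + s ^ 2)
    rw [this, smul_eq_mul]
    congr 2 <;> ring
  have hsplit : ∫ w in (3 - s) ^ 2..(3 + s) ^ 2, H w = ∫ w in (3 - s) ^ 2..4, H w := by
    rw [← intervalIntegral.integral_add_adjacent_intervals (smooth_int H hH hb _ 4)
      (smooth_int H hH hb _ _), intervalIntegral.integral_symm ((3 + s) ^ 2) 4,
      smooth_zero H hz ((3 + s) ^ 2) (by nlinarith)]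
    simp
  rw [hsub, hsplit]
  by_cases h1 : s ≤ 1
  · have h2 : smooth_cl s = 1 := by
      unfold smooth_cl
      rw [max_eq_left]; exact (min_le_left _ _).trans h1
    rw [h2, smooth_zero H hz _ (by nlinarith), smooth_zero H hz _ (by norm_num)]
    simp
  push Not at h1
  rw [max_eq_left h1.le]
  have h3 : ∫ w in (3 - s) ^ 2..4, H w = ∫ w in (3 - smooth_cl s) ^ 2..4, H w := by
    by_cases h5 : s ≤ 5
    · have : smooth_cl s = s := by
        unfold smooth_cl
        rw [min_eq_left h5, max_eq_right h1.le]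
      rw [this]
    · push Not at h5
      have : smooth_cl s = 5 := by
        unfold smooth_cl
        rw [min_eq_right h5.le, max_eq_right (by norm_num)]
      rw [this, smooth_zero H hz _ (by nlinarith), smooth_zero H hz _ (by norm_num)]
  rw [h3]
  field_simp
  ring

lemma smooth_lip (H : ℝ → ℝ) (hH : Measurable H) (hb : ∀ w, |H w| ≤ 1)
    (s t : ℝ) :
    |(∫ w in (3 - smooth_cl s) ^ 2..4, H w) / (12 * max s 1) -
      (∫ w in (3 - smooth_cl t) ^ 2..4, H w) / (12 * max t 1)| ≤ |s - t| := by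
  set X := ∫ w in (3 - smooth_cl s) ^ 2..4, H w with hX
  set Y := ∫ w in (3 - smooth_cl t) ^ 2..4, H w with hY
  set m := max s 1 with hm
  set n := max t 1 with hn
  have hm1 : 1 ≤ m := le_max_right _ _
  have hn1 : 1 ≤ n := le_max_right _ _
  have hmn : |m - n| ≤ |s - t| := by
    refine (abs_max_sub_max_le_max _ _ _ _).trans ?_
    simp
  have hXY : |X - Y| ≤ 4 * |s - t| := by
    refine (smooth_B H hH hb _ _).trans ?_
    have e : (3 - smooth_cl s) ^ 2 - (3 - smooth_cl t) ^ 2 =
        (smooth_cl s + smooth_cl t - 6) * (smooth_cl s - smooth_cl t) := by ring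
    rw [e, abs_mul]
    have h1 := smooth_cl_mem s
    have h2 := smooth_cl_mem t
    have h3 : |smooth_cl s + smooth_cl t - 6| ≤ 4 := by rw [abs_le]; constructor <;> linarith
    exact mul_le_mul h3 (smooth_cl_lip s t) (abs_nonneg _) (by norm_num)
  have hY4 : |Y| ≤ 4 := by
    have := smooth_B H hH hb ((3 - smooth_cl t) ^ 2) 4
    simp only [intervalIntegral.integral_same, sub_zero] at this
    refine this.trans ?_
    have h2 := smooth_cl_mem t
    rw [abs_le]; constructor <;> nlinarith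
  have e : X / (12 * m) - Y / (12 * n) = (X - Y) / (12 * m) + Y * (n - m) / (12 * (m * n)) := by
    field_simp
    ring
  rw [e]
  refine (abs_add_le _ _).trans ?_
  have p1 : |(X - Y) / (12 * m)| ≤ 4 * |s - t| / 12 := by
    rw [abs_div, abs_of_pos (by positivity : (0 : ℝ) < 12 * m)]
    refine div_le_div₀ (by positivity) hXY (by norm_num) (by linarith)
  have p2 : |Y * (n - m) / (12 * (m * n))| ≤ 4 * |s - t| / 12 := by
    rw [abs_div, abs_of_pos (by positivity : (0 : ℝ) < 12 * (m * n)), abs_mul, abs_sub_comm n m]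
    refine div_le_div₀ (by positivity) (mul_le_mul hY4 hmn (abs_nonneg _) (by norm_num))
      (by norm_num) ?_
    nlinarith
  have := abs_nonneg (s - t)
  linarith

lemma smooth_norm (b : S 3) (c : E 3) (hc : c = (3 : ℝ) • (b : E 3)) (s : ℝ) (x : S 3) :
    ‖c + s • (x : E 3)‖ = Real.sqrt (9 + s ^ 2 + 6 * s * inner ℝ (b : E 3) (x : E 3)) := by
  have hx : ‖(x : E 3)‖ = 1 := by simpa using x.2
  have hb : ‖(b : E 3)‖ = 1 := by simpa using b.2
  have h1 : 9 + s ^ 2 + 6 * s * inner ℝ (b : E 3) (x : E 3) = ‖c + s • (x : E 3)‖ ^ 2 := by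
    rw [norm_add_sq_real, hc, norm_smul, norm_smul, hx, hb, inner_smul_left, inner_smul_right]
    simp only [Real.norm_eq_abs, mul_one, sq_abs, conj_trivial]
    norm_num
    ring
  rw [h1, Real.sqrt_sq (norm_nonneg _)]


theorem smoothing : ∃ L : ℝ, 0 ≤ L ∧ ∀ (P : Type) [MeasurableSpace P] (f : E 3 → P → ℝ), Nice 2 P f →
    ∀ y y' p, |sm (EuclideanSpace.single 0 3) (sm 0 f) y p - sm (EuclideanSpace.single 0 3) (sm 0 f) y' p|
      ≤ L * ‖y - y'‖ := by
  haveI : IsProbabilityMeasure (sg 3) := sg_prob 3 (by norm_num)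
  refine ⟨1, zero_le_one, fun P _ f hf y y' p => ?_⟩
  obtain ⟨hfm, hf1, hf2⟩ := hf
  have hfp : Measurable (fun x => f x p) := hfm.comp (measurable_id.prodMk measurable_const)
  set Fb : ℝ → ℝ := fun r => ∫ x : S 3, f (r • (x : E 3)) p ∂(sg 3) with hFb
  have hFbm : Measurable Fb := by
    have h1 : Measurable (fun q : ℝ × S 3 => f (q.1 • (q.2 : E 3)) p) :=
      hfp.comp (measurable_fst.smul (measurable_subtype_coe.comp measurable_snd))
    exact (h1.stronglyMeasurable.integral_prod_right').measurable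
  have hFb1 : ∀ r, |Fb r| ≤ 1 := by
    intro r
    have := norm_integral_le_of_norm_le_const (μ := sg 3) (f := fun x : S 3 => f (r • (x : E 3)) p)
      (C := 1) (Filter.Eventually.of_forall fun x => by simpa using hf1 _ p)
    simpa using this
  have hFb2 : ∀ r, 2 < r → Fb r = 0 := by
    intro r hr
    have : ∀ x : S 3, f (r • (x : E 3)) p = 0 := by
      intro x
      refine hf2 _ p ?_
      have hx : ‖(x : E 3)‖ = 1 := by simp
      rw [norm_smul, hx, mul_one, Real.norm_eq_abs, abs_of_pos (by linarith)]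
      exact hr
    simp [hFb, this]
  set H : ℝ → ℝ := fun w => Fb (Real.sqrt w) with hH
  have hHm : Measurable H := hFbm.comp Real.continuous_sqrt.measurable
  have hH1 : ∀ w, |H w| ≤ 1 := fun w => hFb1 _
  have hH2 : ∀ w, 4 < w → H w = 0 := by
    intro w hw
    refine hFb2 _ ?_
    rw [show (2 : ℝ) = Real.sqrt 4 by
      rw [show (4 : ℝ) = 2 ^ 2 by norm_num, Real.sqrt_sq (by norm_num)]]
    exact Real.sqrt_lt_sqrt (by norm_num) hw
  have h0 : ∀ z, sm 0 f z p = Fb ‖z‖ := by
    intro z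
    simp [sm, hFb]
  set c : E 3 := EuclideanSpace.single 0 3 with hc
  let b : S 3 := ⟨EuclideanSpace.single 0 1, by simp⟩
  have hcb : c = (3 : ℝ) • (b : E 3) := by
    ext i
    simp [hc, b, EuclideanSpace.single_apply]
  have key : ∀ z : E 3, sm c (sm 0 f) z p =
      (∫ w in (3 - smooth_cl ‖z - c‖) ^ 2..4, H w) / (12 * max ‖z - c‖ 1) := by
    intro z
    rw [← smooth_formula H hHm hH1 hH2 _ (norm_nonneg _),
      ← sph_uniform b (fun t => H (9 + ‖z - c‖ ^ 2 + 6 * ‖z - c‖ * t))
        (hHm.comp (by fun_prop)) (fun t => hH1 _)]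
    unfold sm
    refine integral_congr_ae (Filter.Eventually.of_forall fun x => ?_)
    have := h0 (c + ‖z - c‖ • (x : E 3))
    unfold sm at this
    simp only at this ⊢
    rw [this, smooth_norm b c hcb]
  rw [key, key, one_mul]
  refine (smooth_lip H hHm hH1 _ _).trans ?_
  refine (abs_norm_sub_norm_le _ _).trans ?_
  simp


end Pool.Agent.Helper557.Rz
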