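import Pool.Agent.Helper557.Eq.Defs

set_option autoImplicit false

open MeasureTheory Set

namespace Pool.Agent.Helper557.Rz

theorem UP_mono {F G : ∀ (P : Type) [MeasurableSpace P], Set (E 3 → P → ℝ)}
    (h : ∀ (P : Type) [MeasurableSpace P], F P ⊆ G P) (hG : UP G) : UP F := by
  obtain ⟨k, γ, C, R, h'⟩ := hG
  exact ⟨k, γ, C, R, fun P _ f hf => h' P f (h P hf)⟩

theorem UP_add {F G : ∀ (P : Type) [MeasurableSpace P], Set (E 3 → P → ℝ)} (hF : UP F) (hG : UP G) :
    UP (fun P _ => {f | ∃ f₁ ∈ F P, ∃ f₂ ∈ G P, ∀ x p, f x p = f₁ x p + f₂ x p}) := by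
  obtain ⟨k1, γ1, C1, R1, h1⟩ := hF
  obtain ⟨k2, γ2, C2, R2, h2⟩ := hG
  refine ⟨k1 + k2, Fin.append γ1 γ2, max C1 C2, max R1 R2, ?_⟩
  rintro P _ f ⟨f1, hf1, f2, hf2, hf⟩
  obtain ⟨φ1, a1, b1, c1, e1⟩ := h1 P f1 hf1
  obtain ⟨φ2, a2, b2, c2, e2⟩ := h2 P f2 hf2
  refine ⟨Fin.append φ1 φ2, ?_, ?_, ?_, ?_⟩
  · intro i
    refine Fin.addCases (fun j => ?_) (fun j => ?_) i
    · simp only [Fin.append_left]
      exact a1 j
    · simp only [Fin.append_right]
      exact a2 j
  · intro i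
    refine Fin.addCases (fun j => ?_) (fun j => ?_) i
    · simp only [Fin.append_left]
      exact fun x p => (b1 j x p).trans (le_max_left _ _)
    · simp only [Fin.append_right]
      exact fun x p => (b2 j x p).trans (le_max_right _ _)
  · intro i
    refine Fin.addCases (fun j => ?_) (fun j => ?_) i
    · simp only [Fin.append_left]
      exact fun x p hx => c1 j x p ((le_max_left _ _).trans_lt hx)
    · simp only [Fin.append_right]
      exact fun x p hx => c2 j x p ((le_max_right _ _).trans_lt hx)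
  · intro x p
    rw [hf x p, e1 x p, e2 x p, Fin.sum_univ_add]
    simp only [Fin.append_left, Fin.append_right]


end Pool.Agent.Helper557.Rz
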