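import Pool.Agent.Helper557.Eq.Defs
import Pool.Agent.Helper557.Eq.M_grid
import Pool.Agent.Helper557.Eq.M_polar
import Pool.Agent.Helper557.Eq.M_series
import Pool.Agent.Helper557.Eq.M_smnice
import Pool.Agent.Helper557.Eq.M_smooth
import Pool.Agent.Helper557.Eq.M_up
import Pool.Agent.Helper557.Rz.M_meas

set_option autoImplicit false

open MeasureTheory Set

namespace Pool.Agent.Helper557.Rz

theorem R3_intg {φ : E 3 → ℝ} {C R : ℝ} (hm : Measurable φ) (hb : ∀ x, |φ x| ≤ C)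
    (hs : ∀ x, R < ‖x‖ → φ x = 0) : Integrable φ := by
  have h1 : IntegrableOn φ (Metric.closedBall 0 R) := by
    refine Measure.integrableOn_of_bounded (M := C) ?_ hm.aestronglyMeasurable ?_
    · exact (isCompact_closedBall (0 : E 3) R).measure_lt_top.ne
    · exact Filter.Eventually.of_forall (fun x => by simpa [Real.norm_eq_abs] using hb x)
  refine h1.integrable_of_forall_notMem_eq_zero ?_
  intro x hx
  apply hs
  simpa [Metric.mem_closedBall, dist_zero_right, not_le] using hx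

theorem R3_mp (γ : E 3 ≃ᵢ E 3) : MeasurePreserving γ (volume : Measure (E 3)) volume := by
  have h1 : MeasurePreserving (γ.toRealLinearIsometryEquiv : E 3 → E 3) volume volume :=
    γ.toRealLinearIsometryEquiv.measurePreserving
  have h2 : MeasurePreserving (fun x : E 3 => x + γ 0) volume volume :=
    measurePreserving_add_right volume (γ 0)
  have h3 := h2.comp h1
  have h4 : (fun x : E 3 => x + γ 0) ∘ (γ.toRealLinearIsometryEquiv : E 3 → E 3) = γ := by
    funext x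
    simp
  rwa [h4] at h3

theorem R3_int_flow (γ : E 3 ≃ᵢ E 3) {φ : E 3 → ℝ} {C R : ℝ} (hm : Measurable φ)
    (hb : ∀ x, |φ x| ≤ C) (hs : ∀ x, R < ‖x‖ → φ x = 0) :
    Integrable (fun x => φ (γ x) - φ x) ∧ ∫ x, (φ (γ x) - φ x) = 0 := by
  have h1 := R3_intg hm hb hs
  have h2 : Integrable (fun x => φ (γ x)) := (R3_mp γ).integrable_comp_of_integrable h1
  refine ⟨h2.sub h1, ?_⟩
  rw [integral_sub h2 h1]
  have h3 : ∫ x, φ (γ x) = ∫ x, φ x :=
    (R3_mp γ).integral_comp γ.toHomeomorph.measurableEmbedding φ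
  rw [h3, sub_self]

theorem R3_flow : UP (fun P _ => {f : E 3 → P → ℝ | Nice 2 P f ∧
    (∀ x p, x ∉ cube (0 : E 3) 1 → f x p = 0) ∧ ∀ p, ∫ x, f x p = 0}) := by
  obtain ⟨k₁, γ₁, C₁, R₁, h₁⟩ := polar 0 2
  obtain ⟨k₂, γ₂, C₂, R₂, h₂⟩ := polar (EuclideanSpace.single 0 3) 2
  obtain ⟨L, hL, hsm⟩ := smoothing
  obtain ⟨k₃, γ₃, C₃, R₃, h₃⟩ := grid L 8 hL (by norm_num)
  set C : ℝ := max (max C₁ C₂) (max C₃ 0) with hCdef
  set R' : ℝ := max R₁ (max R₂ R₃) with hRdef
  have hC0 : 0 ≤ C := le_max_of_le_right (le_max_right _ _)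
  have hC₁ : C₁ ≤ C := le_max_of_le_left (le_max_left _ _)
  have hC₂ : C₂ ≤ C := le_max_of_le_left (le_max_right _ _)
  have hC₃ : C₃ ≤ C := le_max_of_le_right (le_max_left _ _)
  have hR₁ : R₁ ≤ R' := le_max_left _ _
  have hR₂ : R₂ ≤ R' := le_max_of_le_right (le_max_left _ _)
  have hR₃ : R₃ ≤ R' := le_max_of_le_right (le_max_right _ _)
  have hcn : ‖(EuclideanSpace.single 0 3 : E 3)‖ = 3 := by
    rw [EuclideanSpace.norm_single]; norm_num
  have hcube : ∀ x : E 3, 2 < ‖x‖ → x ∉ cube (0 : E 3) 1 := by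
    intro x hx hc
    have h0 := hc 0
    have h1 := hc 1
    have h2 := hc 2
    simp only [PiLp.zero_apply, zero_add] at h0 h1 h2
    have h5 : ‖x‖ ^ 2 = x 0 ^ 2 + x 1 ^ 2 + x 2 ^ 2 := by
      rw [EuclideanSpace.norm_sq_eq, Fin.sum_univ_three]
      simp [Real.norm_eq_abs, sq_abs]
    nlinarith [h0.1, h0.2, h1.1, h1.2, h2.1, h2.2]
  -- the family of isometries
  set γ : Fin (k₁ + k₂ + k₃) → (E 3 ≃ᵢ E 3) := Fin.append (Fin.append γ₁ γ₂) γ₃ with hγ
  refine ⟨k₁ + k₂ + k₃, γ, 2 * C, R', ?_⟩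
  intro P _ f hf
  -- the key step
  have key : ∀ f : E 3 → P → ℝ, (Nice 2 P f ∧ (∀ x p, x ∉ cube (0 : E 3) 1 → f x p = 0) ∧
      ∀ p, ∫ x, f x p = 0) → ∃ (u : E 3 → P → ℝ) (φ : Fin (k₁ + k₂ + k₃) → E 3 → P → ℝ),
      (Nice 2 P (fun x p => 2 * u x p) ∧ (∀ x p, x ∉ cube (0 : E 3) 1 → 2 * u x p = 0) ∧
        ∀ p, ∫ x, 2 * u x p = 0) ∧ (∀ i, Measurable (fun q : E 3 × P => φ i q.1 q.2)) ∧
      (∀ i x p, |φ i x p| ≤ C) ∧ (∀ i x p, R' < ‖x‖ → φ i x p = 0) ∧
      (∀ x p, |u x p| ≤ 1 / 2) ∧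
      ∀ x p, f x p = u x p + ∑ i, (φ i (γ i x) p - φ i x p) := by
    intro f ⟨hf, hfc, hfi⟩
    obtain ⟨φ₁, hm₁, hb₁, hs₁, he₁⟩ := h₁ P (fun y p => f y p - sm 0 f y p) ⟨f, hf, fun _ _ => rfl⟩
    obtain ⟨hn1, hi1, -⟩ := sm_nice 0 2 P f hf
    have hn1' : Nice 2 P (sm 0 f) := by simpa using hn1
    obtain ⟨φ₂, hm₂, hb₂, hs₂, he₂⟩ := h₂ P
      (fun y p => sm 0 f y p - sm (EuclideanSpace.single 0 3) (sm 0 f) y p)
      ⟨sm 0 f, hn1', fun _ _ => rfl⟩
    obtain ⟨hn2, hi2, -⟩ := sm_nice (EuclideanSpace.single 0 3) 2 P (sm 0 f) hn1'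
    have hn2' : Nice 8 P (sm (EuclideanSpace.single 0 3) (sm 0 f)) := by
      rw [hcn] at hn2
      norm_num at hn2
      exact hn2
    obtain ⟨u, φ₃, hmu, hbu, hcu, hm₃, hb₃, hs₃, he₃⟩ := h₃ P
      (sm (EuclideanSpace.single 0 3) (sm 0 f)) hn2' (hsm P f hf) (by
        intro p
        rw [hi2 p, hi1 p, hfi p])
    set φ : Fin (k₁ + k₂ + k₃) → E 3 → P → ℝ := Fin.append (Fin.append φ₁ φ₂) φ₃ with hφ
    have hall : ∀ (Q : (E 3 → P → ℝ) → Prop), (∀ i, Q (φ₁ i)) → (∀ i, Q (φ₂ i)) →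
        (∀ i, Q (φ₃ i)) → ∀ i, Q (φ i) := by
      intro Q q1 q2 q3 i
      refine Fin.addCases (fun j => ?_) (fun j => ?_) i
      · rw [hφ, Fin.append_left]
        refine Fin.addCases (fun l => ?_) (fun l => ?_) j
        · rw [Fin.append_left]; exact q1 l
        · rw [Fin.append_right]; exact q2 l
      · rw [hφ, Fin.append_right]; exact q3 j
    have hM : ∀ i, Measurable (fun q : E 3 × P => φ i q.1 q.2) :=
      hall (fun g => Measurable (fun q : E 3 × P => g q.1 q.2)) hm₁ hm₂ hm₃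
    have hB : ∀ i x p, |φ i x p| ≤ C :=
      hall (fun g => ∀ x p, |g x p| ≤ C) (fun i x p => (hb₁ i x p).trans hC₁)
        (fun i x p => (hb₂ i x p).trans hC₂) (fun i x p => (hb₃ i x p).trans hC₃)
    have hS : ∀ i x p, R' < ‖x‖ → φ i x p = 0 :=
      hall (fun g => ∀ x p, R' < ‖x‖ → g x p = 0) (fun i x p h => hs₁ i x p (hR₁.trans_lt h))
        (fun i x p h => hs₂ i x p (hR₂.trans_lt h)) (fun i x p h => hs₃ i x p (hR₃.trans_lt h))
    have hE : ∀ x p, f x p = u x p + ∑ i, (φ i (γ i x) p - φ i x p) := by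
      intro x p
      rw [Fin.sum_univ_add, Fin.sum_univ_add]
      simp only [hφ, hγ, Fin.append_left, Fin.append_right]
      have e1 := he₁ x p
      have e2 := he₂ x p
      have e3 := he₃ x p
      linarith
    have hmp : ∀ i p, Measurable (fun x => φ i x p) := by
      intro i p
      exact (hM i).comp (measurable_id.prodMk measurable_const)
    have hI : ∀ i p, Integrable (fun x => φ i (γ i x) p - φ i x p) ∧
        ∫ x, (φ i (γ i x) p - φ i x p) = 0 := fun i p =>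
      R3_int_flow (γ i) (hmp i p) (fun x => hB i x p) (fun x h => hS i x p h)
    have hui : ∀ p, ∫ x, u x p = 0 := by
      intro p
      have hfint : Integrable (fun x => f x p) :=
        R3_intg (hf.1.comp (measurable_id.prodMk measurable_const)) (fun x => hf.2.1 x p)
          (fun x h => hf.2.2 x p h)
      have h6 : (fun x => u x p) = fun x => f x p - ∑ i, (φ i (γ i x) p - φ i x p) := by
        funext x
        rw [hE x p]; ring
      rw [h6, integral_sub hfint (integrable_finset_sum _ (fun i _ => (hI i p).1)),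
        integral_finset_sum _ (fun i _ => (hI i p).1), hfi p]
      simp only [(hI _ p).2]
      simp
    refine ⟨u, φ, ⟨⟨?_, ?_, ?_⟩, ?_, ?_⟩, hM, hB, hS, hbu, hE⟩
    · exact hmu.const_mul 2
    · intro x p
      have := hbu x p
      rw [abs_mul]
      norm_num
      linarith
    · intro x p hx
      simp only [hcu x p (hcube x hx), mul_zero]
    · intro x p hx
      rw [hcu x p hx, mul_zero]
    · intro p
      rw [integral_const_mul, hui p, mul_zero]
  -- apply the geometric series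
  have hmeas : ∀ i, Measurable (fun q : E 3 × P => (γ i q.1, q.2)) := fun i =>
    ((γ i).continuous.measurable.comp measurable_fst).prodMk measurable_snd
  obtain ⟨ψ, hψ1, hψ2, hψ3, hψ4⟩ := halving (Y := E 3 × P) (k₁ + k₂ + k₃)
    (fun i q => (γ i q.1, q.2)) hmeas C hC0 (fun _ => {q | ‖q.1‖ ≤ R'})
    {g | Nice 2 P (fun x p => g (x, p)) ∧ (∀ x p, x ∉ cube (0 : E 3) 1 → g (x, p) = 0) ∧
      ∀ p, ∫ x, g (x, p) = 0} (by
      intro g hg
      obtain ⟨u, φ, hu, hM, hB, hS, hb, hE⟩ := key (fun x p => g (x, p)) hg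
      refine ⟨fun q => u q.1 q.2, fun i q => φ i q.1 q.2, hu, hM, fun i q => hB i q.1 q.2, ?_,
        fun q => (hb q.1 q.2).trans (by norm_num), fun q => hE q.1 q.2⟩
      intro i q hq
      exact hS i q.1 q.2 (not_le.1 hq)) (fun q => f q.1 q.2) hf
  refine ⟨fun i x p => ψ i (x, p), fun i => hψ1 i, fun i x p => hψ2 i (x, p), ?_,
    fun x p => hψ4 (x, p)⟩
  intro i x p hx
  exact hψ3 i (x, p) (fun h => absurd hx (not_lt.2 h))


end Pool.Agent.Helper557.Rz
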