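import Pool.Agent.Helper557.Eq.Defs

set_option autoImplicit false

open MeasureTheory Set

namespace Pool.Agent.Helper557.Rz
/-! ### auxiliary lemmas for `cx_props` -/

lemma cx_continuous_setB {d : ℕ} (e : Fin 3 ↪ Fin d) :
    Continuous (fun p : E d × E 3 => setB e p.1 p.2) := by
  unfold setB
  refine (PiLp.continuous_toLp 2 _).comp ?_
  refine continuous_pi fun j => ?_
  by_cases hj : j ∈ Set.range e
  · simp only [if_pos hj]
    fun_prop
  · simp only [if_neg hj]
    fun_prop

lemma cx_measurable_cube {d : ℕ} : MeasurableSet (cube (0 : E d) 1) := by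
  have : cube (0 : E d) 1 = ⋂ i : Fin d, {x : E d | (0 : E d) i ≤ x i ∧ x i < (0 : E d) i + 1} := by
    ext x
    simp [cube]
  rw [this]
  refine MeasurableSet.iInter fun i => ?_
  have hm : Measurable (fun x : E d => x i) := by fun_prop
  exact (measurableSet_le measurable_const hm).inter (measurableSet_lt hm measurable_const)

lemma cx_mem_cube {d : ℕ} (x : E d) : x ∈ cube (0 : E d) 1 ↔ ∀ i, 0 ≤ x i ∧ x i < 1 := by
  simp [cube]

lemma cx_volume_cube {d : ℕ} : (volume : Measure (E d)) (cube (0 : E d) 1) = 1 := by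
  have h := (PiLp.volume_preserving_ofLp (Fin d)).measure_preimage
    (s := Set.univ.pi fun _ : Fin d => Set.Ico (0 : ℝ) 1)
    (MeasurableSet.univ_pi fun _ => measurableSet_Ico).nullMeasurableSet
  have h2 : (WithLp.ofLp ⁻¹' (Set.univ.pi fun _ : Fin d => Set.Ico (0 : ℝ) 1) : Set (E d))
      = cube (0 : E d) 1 := by
    ext x
    rw [cx_mem_cube]
    simp [Set.mem_pi]
  rw [h2] at h
  rw [h, Real.volume_pi_Ico]
  simp

/-- exchange of the block of coordinates -/
noncomputable def cx_L {d : ℕ} (e : Fin 3 ↪ Fin d) : (E d × E 3) →ₗ[ℝ] (E d × E 3) where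
  toFun p := (setB e p.1 p.2, pr e p.1)
  map_add' p q := by
    refine Prod.ext ?_ ?_
    · ext j
      by_cases hj : j ∈ Set.range e
      · obtain ⟨i, rfl⟩ := hj
        simp [setB_mem]
      · simp [setB_notMem _ _ _ _ hj]
    · ext i
      simp [pr_apply]
  map_smul' c p := by
    refine Prod.ext ?_ ?_
    · ext j
      by_cases hj : j ∈ Set.range e
      · obtain ⟨i, rfl⟩ := hj
        simp [setB_mem]
      · simp [setB_notMem _ _ _ _ hj]
    · ext i
      simp [pr_apply]

lemma cx_L_apply {d : ℕ} (e : Fin 3 ↪ Fin d) (p : E d × E 3) :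
    cx_L e p = (setB e p.1 p.2, pr e p.1) := rfl

lemma cx_L_L {d : ℕ} (e : Fin 3 ↪ Fin d) (p : E d × E 3) : cx_L e (cx_L e p) = p := by
  rw [cx_L_apply, cx_L_apply]
  refine Prod.ext ?_ ?_
  · simp only
    rw [setB_setB, setB_pr]
  · simp only
    rw [pr_setB]

lemma cx_L_det {d : ℕ} (e : Fin 3 ↪ Fin d) :
    LinearMap.det (cx_L e) * LinearMap.det (cx_L e) = 1 := by
  rw [← LinearMap.det_comp]
  have : cx_L e ∘ₗ cx_L e = LinearMap.id := by
    apply LinearMap.ext
    intro p
    exact cx_L_L e p
  rw [this, LinearMap.det_id]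

lemma cx_L_mp {d : ℕ} (e : Fin 3 ↪ Fin d) :
    Measure.map (cx_L e) ((volume : Measure (E d)).prod (volume : Measure (E 3)))
      = (volume : Measure (E d)).prod (volume : Measure (E 3)) := by
  have hdet := cx_L_det e
  have h0 : LinearMap.det (cx_L e) ≠ 0 := by
    intro h
    rw [h] at hdet
    simp at hdet
  rw [Measure.map_linearMap_addHaar_eq_smul_addHaar _ h0]
  have h1 : |(LinearMap.det (cx_L e))⁻¹| = 1 := by
    rw [abs_inv]
    have : |LinearMap.det (cx_L e)| = 1 := by
      rcases mul_self_eq_one_iff.mp hdet with h | h <;> rw [h] <;> simp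
    rw [this, inv_one]
  rw [h1]
  simp

lemma cx_L_measurable {d : ℕ} (e : Fin 3 ↪ Fin d) : Measurable (cx_L e) :=
  (LinearMap.continuous_of_finiteDimensional (cx_L e)).measurable

lemma cx_setB_cube {d : ℕ} (e : Fin 3 ↪ Fin d) (x : E d) (y : E 3)
    (h : setB e x y ∈ cube (0 : E d) 1) : y ∈ cube (0 : E 3) 1 := by
  rw [cx_mem_cube] at h ⊢
  intro i
  have := h (e i)
  rwa [setB_mem] at this

lemma cx_setB_cube_iff {d : ℕ} (e : Fin 3 ↪ Fin d) (x : E d) (y : E 3)
    (hx : ∀ j, j ∉ Set.range e → 0 ≤ x j ∧ x j < 1) :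
    setB e x y ∈ cube (0 : E d) 1 ↔ y ∈ cube (0 : E 3) 1 := by
  refine ⟨cx_setB_cube e x y, fun h => ?_⟩
  rw [cx_mem_cube] at h ⊢
  intro j
  by_cases hj : j ∈ Set.range e
  · obtain ⟨i, rfl⟩ := hj
    rw [setB_mem]
    exact h i
  · rw [setB_notMem _ _ _ _ hj]
    exact hx j hj

/-- integrable on the block -/
lemma cx_integrable {d : ℕ} (e : Fin 3 ↪ Fin d) (f : E d → ℝ) (hf : Measurable f)
    (hb : ∀ x, |f x| ≤ 1) (hs : ∀ x, x ∉ cube (0 : E d) 1 → f x = 0) (x : E d) :
    Integrable (fun y : E 3 => f (setB e x y)) := by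
  have hm : Measurable (fun y : E 3 => f (setB e x y)) :=
    hf.comp ((cx_continuous_setB e).comp (continuous_const.prodMk continuous_id)).measurable
  have h1 : (fun y : E 3 => f (setB e x y))
      = (cube (0 : E 3) 1).indicator (fun y : E 3 => f (setB e x y)) := by
    funext y
    by_cases hy : y ∈ cube (0 : E 3) 1
    · rw [Set.indicator_of_mem hy]
    · rw [Set.indicator_of_notMem hy]
      exact hs _ fun h => hy (cx_setB_cube e x y h)
  rw [h1, integrable_indicator_iff cx_measurable_cube]
  refine Measure.integrableOn_of_bounded (M := 1) ?_ hm.aestronglyMeasurable ?_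
  · rw [cx_volume_cube]; simp
  · exact Filter.Eventually.of_forall fun y => by simpa using hb _

lemma cx_integral_le {d : ℕ} (e : Fin 3 ↪ Fin d) (f : E d → ℝ) (hf : Measurable f)
    (hb : ∀ x, |f x| ≤ 1) (hs : ∀ x, x ∉ cube (0 : E d) 1 → f x = 0) (x : E d) :
    |∫ y : E 3, f (setB e x y)| ≤ 1 := by
  have h1 : ∀ y : E 3, ‖f (setB e x y)‖ ≤ (cube (0 : E 3) 1).indicator (fun _ => (1 : ℝ)) y := by
    intro y
    by_cases hy : y ∈ cube (0 : E 3) 1
    · rw [Set.indicator_of_mem hy]
      simpa using hb _
    · rw [Set.indicator_of_notMem hy]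
      rw [hs _ fun h => hy (cx_setB_cube e x y h)]
      simp
  have hi : Integrable ((cube (0 : E 3) 1).indicator (fun _ => (1 : ℝ))) := by
    rw [integrable_indicator_iff cx_measurable_cube]
    refine integrableOn_const ?_
    rw [cx_volume_cube]; simp
  calc |∫ y : E 3, f (setB e x y)| = ‖∫ y : E 3, f (setB e x y)‖ := rfl
    _ ≤ ∫ y : E 3, (cube (0 : E 3) 1).indicator (fun _ => (1 : ℝ)) y :=
        norm_integral_le_of_norm_le hi (Filter.Eventually.of_forall h1)
    _ = 1 := by
        rw [integral_indicator cx_measurable_cube]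
        simp [Measure.real, cx_volume_cube]


theorem cx_props (d : ℕ) (e : Fin 3 ↪ Fin d) (f : E d → ℝ) (hf : Measurable f)
    (hb : ∀ x, |f x| ≤ 1) (hs : ∀ x, x ∉ cube (0 : E d) 1 → f x = 0) :
    Measurable (cx e f) ∧ (∀ x, |cx e f x| ≤ 1) ∧ (∀ x, x ∉ cube (0 : E d) 1 → cx e f x = 0) ∧
      ∫ x, cx e f x = ∫ x, f x ∧ ∀ x, ∫ y : E 3, (f (setB e x y) - cx e f (setB e x y)) = 0 := by
  have hmF : Measurable (fun p : E d × E 3 => f (setB e p.1 p.2)) :=
    hf.comp (cx_continuous_setB e).measurable
  have hmI : Measurable (fun x : E d => ∫ y : E 3, f (setB e x y)) :=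
    (StronglyMeasurable.integral_prod_right' (ν := (volume : Measure (E 3)))
      hmF.stronglyMeasurable).measurable
  refine ⟨?_, ?_, ?_, ?_, ?_⟩
  · exact hmI.indicator cx_measurable_cube
  · intro x
    unfold cx
    by_cases hx : x ∈ cube (0 : E d) 1
    · rw [Set.indicator_of_mem hx]
      exact cx_integral_le e f hf hb hs x
    · rw [Set.indicator_of_notMem hx]
      simp
  · intro x hx
    unfold cx
    rw [Set.indicator_of_notMem hx]
  · -- the integral
    set G : E d × E 3 → ℝ := fun p =>
      (cube (0 : E d) 1).indicator (fun _ => (1 : ℝ)) p.1 * f (setB e p.1 p.2) with hG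
    have hmG : Measurable G :=
      ((measurable_const.indicator cx_measurable_cube).comp measurable_fst).mul hmF
    have hGi : Integrable G ((volume : Measure (E d)).prod (volume : Measure (E 3))) := by
      have h1 : G = (cube (0 : E d) 1 ×ˢ cube (0 : E 3) 1).indicator G := by
        funext p
        by_cases hp : p ∈ cube (0 : E d) 1 ×ˢ cube (0 : E 3) 1
        · rw [Set.indicator_of_mem hp]
        · rw [Set.indicator_of_notMem hp]
          simp only [hG]
          by_cases hp1 : p.1 ∈ cube (0 : E d) 1
          · have hp2 : p.2 ∉ cube (0 : E 3) 1 := fun h => hp ⟨hp1, h⟩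
            rw [hs _ fun h => hp2 (cx_setB_cube e _ _ h), mul_zero]
          · rw [Set.indicator_of_notMem hp1, zero_mul]
      rw [h1, integrable_indicator_iff (cx_measurable_cube.prod cx_measurable_cube)]
      refine Measure.integrableOn_of_bounded (M := 1) ?_ hmG.aestronglyMeasurable ?_
      · rw [Measure.prod_prod, cx_volume_cube, cx_volume_cube]; simp
      · refine Filter.Eventually.of_forall fun p => ?_
        simp only [hG, norm_mul]
        have h2 : ‖(cube (0 : E d) 1).indicator (fun _ => (1 : ℝ)) p.1‖ ≤ 1 := by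
          by_cases hp1 : p.1 ∈ cube (0 : E d) 1
          · rw [Set.indicator_of_mem hp1]; simp
          · rw [Set.indicator_of_notMem hp1]; simp
        have h3 : ‖f (setB e p.1 p.2)‖ ≤ 1 := hb _
        calc _ ≤ (1 : ℝ) * 1 := mul_le_mul h2 h3 (norm_nonneg _) zero_le_one
          _ = 1 := one_mul 1
    have hGLi : Integrable (fun p => G (cx_L e p))
        ((volume : Measure (E d)).prod (volume : Measure (E 3))) := by
      have : Integrable G (Measure.map (cx_L e)
          ((volume : Measure (E d)).prod (volume : Measure (E 3)))) := by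
        rw [cx_L_mp]; exact hGi
      exact this.comp_measurable (cx_L_measurable e)
    have e1 : ∫ x, cx e f x = ∫ x : E d, ∫ y : E 3, G (x, y) := by
      refine integral_congr_ae (Filter.Eventually.of_forall fun x => ?_)
      simp only [hG, cx]
      by_cases hx : x ∈ cube (0 : E d) 1
      · rw [Set.indicator_of_mem hx]
        simp only [Set.indicator_of_mem hx, one_mul]
      · rw [Set.indicator_of_notMem hx]
        simp only [Set.indicator_of_notMem hx, zero_mul, integral_zero]
    have e2 : ∫ x : E d, ∫ y : E 3, G (x, y)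
        = ∫ p, G p ∂((volume : Measure (E d)).prod (volume : Measure (E 3))) :=
      (integral_prod G hGi).symm
    have e3 : ∫ p, G p ∂((volume : Measure (E d)).prod (volume : Measure (E 3)))
        = ∫ p, G (cx_L e p) ∂((volume : Measure (E d)).prod (volume : Measure (E 3))) := by
      rw [← integral_map (cx_L_measurable e).aemeasurable hmG.aestronglyMeasurable, cx_L_mp]
    have e4 : ∫ p, G (cx_L e p) ∂((volume : Measure (E d)).prod (volume : Measure (E 3)))
        = ∫ x : E d, ∫ y : E 3, G (cx_L e (x, y)) :=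
      integral_prod (fun p => G (cx_L e p)) hGLi
    have e5 : ∀ x : E d, ∫ y : E 3, G (cx_L e (x, y)) = f x := by
      intro x
      have h1 : ∀ y : E 3, G (cx_L e (x, y))
          = (cube (0 : E d) 1).indicator (fun _ => (1 : ℝ)) (setB e x y) * f x := by
        intro y
        simp only [hG, cx_L_apply]
        rw [setB_setB, setB_pr]
      simp only [h1]
      by_cases hx : x ∈ cube (0 : E d) 1
      · have h2 : ∀ y : E 3, (cube (0 : E d) 1).indicator (fun _ => (1 : ℝ)) (setB e x y)
            = (cube (0 : E 3) 1).indicator (fun _ => (1 : ℝ)) y := by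
          intro y
          have h3 := cx_setB_cube_iff e x y (fun j _ => (cx_mem_cube x).mp hx j)
          by_cases hy : y ∈ cube (0 : E 3) 1
          · rw [Set.indicator_of_mem hy, Set.indicator_of_mem (h3.mpr hy)]
          · rw [Set.indicator_of_notMem hy, Set.indicator_of_notMem (fun h => hy (h3.mp h))]
        simp only [h2]
        rw [integral_mul_const, integral_indicator cx_measurable_cube]
        simp [Measure.real, cx_volume_cube]
      · rw [hs x hx]
        simp
    rw [e1, e2, e3, e4]
    simp only [e5]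
  · intro x
    by_cases hP : ∀ j, j ∉ Set.range e → 0 ≤ x j ∧ x j < 1
    · have h1 : ∀ y : E 3, cx e f (setB e x y)
          = (cube (0 : E 3) 1).indicator (fun _ => (∫ y' : E 3, f (setB e x y'))) y := by
        intro y
        unfold cx
        have h3 := cx_setB_cube_iff e x y hP
        by_cases hy : y ∈ cube (0 : E 3) 1
        · rw [Set.indicator_of_mem hy, Set.indicator_of_mem (h3.mpr hy)]
          simp only [setB_setB]
        · rw [Set.indicator_of_notMem hy, Set.indicator_of_notMem (fun h => hy (h3.mp h))]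
      simp only [h1]
      rw [integral_sub (cx_integrable e f hf hb hs x)]
      · rw [integral_indicator cx_measurable_cube]
        simp [Measure.real, cx_volume_cube]
      · rw [integrable_indicator_iff cx_measurable_cube]
        refine integrableOn_const ?_
        rw [cx_volume_cube]; simp
    · push_neg at hP
      obtain ⟨j, hj, hj2⟩ := hP
      have hn : ∀ y : E 3, setB e x y ∉ cube (0 : E d) 1 := by
        intro y h
        rw [cx_mem_cube] at h
        have := h j
        rw [setB_notMem _ _ _ _ hj] at this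
        exact absurd this.2 (not_lt.mpr (hj2 this.1))
      have h1 : ∀ y : E 3, f (setB e x y) - cx e f (setB e x y) = 0 := by
        intro y
        unfold cx
        rw [Set.indicator_of_notMem (hn y), hs _ (hn y), sub_zero]
      simp only [h1, integral_zero]


end Pool.Agent.Helper557.Rz
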