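import Pool.Agent.Helper557.Eq.Defs

set_option autoImplicit false

open MeasureTheory Set

namespace Pool.Agent.Helper557.Rz
theorem cxinv_mem {d : ℕ} (e : Fin 3 ↪ Fin d) (x : E d) (hx : x ∈ cube (0 : E d) 1) (y : E 3)
    (hy : y ∈ cube (0 : E 3) 1) : setB e x y ∈ cube (0 : E d) 1 := by
  intro j
  by_cases hj : j ∈ Set.range e
  · obtain ⟨i, rfl⟩ := hj
    rw [setB_mem]
    exact hy i
  · rw [setB_notMem _ _ _ _ hj]
    exact hx j

theorem cxinv_notMem {d : ℕ} (e : Fin 3 ↪ Fin d) (x : E d) (y : E 3)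
    (hy : y ∉ cube (0 : E 3) 1) : setB e x y ∉ cube (0 : E d) 1 := by
  intro h
  apply hy
  intro i
  have h1 := h (e i)
  rw [setB_mem] at h1
  exact h1


theorem cx_inv (d : ℕ) (e : Fin 3 ↪ Fin d) (f : E d → ℝ) (hs : ∀ x, x ∉ cube (0 : E d) 1 → f x = 0)
    (J : Set (Fin d))
    (h : ∀ x ∈ cube (0 : E d) 1, ∀ x' ∈ cube (0 : E d) 1, (∀ i, i ∉ J → x i = x' i) → f x = f x') :
    ∀ x ∈ cube (0 : E d) 1, ∀ x' ∈ cube (0 : E d) 1, (∀ i, i ∉ J ∪ Set.range e → x i = x' i) →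
      cx e f x = cx e f x' := by
  intro x hx x' hx' hxx
  unfold cx
  rw [Set.indicator_of_mem hx, Set.indicator_of_mem hx']
  congr 1
  funext y
  by_cases hy : y ∈ cube (0 : E 3) 1
  · refine h _ (cxinv_mem e x hx y hy) _ (cxinv_mem e x' hx' y hy) ?_
    intro j hjJ
    by_cases hj : j ∈ Set.range e
    · obtain ⟨i, rfl⟩ := hj
      rw [setB_mem, setB_mem]
    · rw [setB_notMem _ _ _ _ hj, setB_notMem _ _ _ _ hj]
      apply hxx
      rintro (hc | hc)
      · exact hjJ hc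
      · exact hj hc
  · rw [hs _ (cxinv_notMem e x y hy), hs _ (cxinv_notMem e x' y hy)]


end Pool.Agent.Helper557.Rz
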