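import Pool.Agent.Helper557.Eq.Defs
import Pool.Agent.Helper557.Eq.M_R3

set_option autoImplicit false

open MeasureTheory Set

namespace Pool.Agent.Helper557.Rz
lemma liftR_cont_setB {d : ℕ} (e : Fin 3 ↪ Fin d) :
    Continuous (fun q : E 3 × E d => setB e q.2 q.1) := by
  unfold setB
  refine (PiLp.continuous_toLp 2 _).comp (continuous_pi fun j => ?_)
  by_cases hj : j ∈ Set.range e
  · simp only [if_pos hj]; fun_prop
  · simp only [if_neg hj]; fun_prop

lemma liftR_cont_pr {d : ℕ} (e : Fin 3 ↪ Fin d) : Continuous (fun x : E d => pr e x) := by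
  unfold pr
  refine (PiLp.continuous_toLp 2 _).comp (continuous_pi fun j => ?_)
  fun_prop

lemma liftR_setB_sub {d : ℕ} (e : Fin 3 ↪ Fin d) (x x' : E d) (v v' : E 3) :
    setB e x v - setB e x' v' = setB e (x - x') (v - v') := by
  ext j
  by_cases hj : j ∈ Set.range e
  · obtain ⟨i, rfl⟩ := hj
    rw [PiLp.sub_apply, setB_mem, setB_mem, setB_mem, PiLp.sub_apply]
  · rw [PiLp.sub_apply, setB_notMem _ _ _ _ hj, setB_notMem _ _ _ _ hj, setB_notMem _ _ _ _ hj,
      PiLp.sub_apply]

lemma liftR_pr_sub {d : ℕ} (e : Fin 3 ↪ Fin d) (x x' : E d) :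
    pr e x - pr e x' = pr e (x - x') := by
  ext j
  rw [PiLp.sub_apply, pr_apply, pr_apply, pr_apply, PiLp.sub_apply]

/-- the lifted isometry -/
noncomputable def liftR_iso {d : ℕ} (e : Fin 3 ↪ Fin d) (γ : E 3 ≃ᵢ E 3) : E d ≃ᵢ E d where
  toFun := fun x => setB e x (γ (pr e x))
  invFun := fun x => setB e x (γ.symm (pr e x))
  left_inv := fun x => by
    simp only [pr_setB, setB_setB, IsometryEquiv.symm_apply_apply, setB_pr]
  right_inv := fun x => by
    simp only [pr_setB, setB_setB, IsometryEquiv.apply_symm_apply, setB_pr]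
  isometry_toFun := by
    refine Isometry.of_dist_eq fun x x' => ?_
    change dist (setB e x (γ (pr e x))) (setB e x' (γ (pr e x'))) = dist x x'
    have h1 : ‖γ (pr e x) - γ (pr e x')‖ = ‖pr e (x - x')‖ := by
      rw [← dist_eq_norm, γ.isometry.dist_eq, dist_eq_norm, liftR_pr_sub]
    have h2 : ‖setB e (x - x') (γ (pr e x) - γ (pr e x'))‖ ^ 2 = ‖x - x'‖ ^ 2 := by
      rw [norm_setB, h1]; ring
    rw [dist_eq_norm, liftR_setB_sub, dist_eq_norm]
    exact (pow_left_inj₀ (norm_nonneg _) (norm_nonneg _) two_ne_zero).1 h2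

lemma liftR_iso_apply {d : ℕ} (e : Fin 3 ↪ Fin d) (γ : E 3 ≃ᵢ E 3) (x : E d) :
    liftR_iso e γ x = setB e x (γ (pr e x)) := rfl

/-- the invariant set -/
def liftR_set {d : ℕ} (e : Fin 3 ↪ Fin d) : Set (E d) :=
  {x | ∀ j, j ∉ Set.range e → 0 ≤ x j ∧ x j < 1}

lemma liftR_meas_set {d : ℕ} (e : Fin 3 ↪ Fin d) : MeasurableSet (liftR_set e) := by
  have : liftR_set e = ⋂ j : Fin d, {x : E d | j ∉ Set.range e → 0 ≤ x j ∧ x j < 1} := by
    ext x; simp [liftR_set]
  rw [this]
  refine MeasurableSet.iInter fun j => ?_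
  by_cases hj : j ∈ Set.range e
  · have h2 : {x : E d | j ∉ Set.range e → 0 ≤ x j ∧ x j < 1} = Set.univ := by
      ext x
      constructor
      · intro _; trivial
      · intro _ h; exact absurd hj h
    rw [h2]; exact MeasurableSet.univ
  · have h2 : {x : E d | j ∉ Set.range e → 0 ≤ x j ∧ x j < 1} =
        (fun x : E d => x j) ⁻¹' (Set.Ico 0 1) := by
      ext x
      constructor
      · intro h; exact h hj
      · intro h _; exact h
    rw [h2]
    have hc : Continuous (fun x : E d => x j) := by fun_prop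
    exact hc.measurable measurableSet_Ico

lemma liftR_cube3 {y : E 3} (h : y ∈ cube (0 : E 3) 1) : ‖y‖ ≤ 2 := by
  have h1 : ‖y‖ ^ 2 ≤ 2 ^ 2 := by
    rw [EuclideanSpace.norm_sq_eq]
    have h2 : ∀ i ∈ (Finset.univ : Finset (Fin 3)), ‖y i‖ ^ 2 ≤ 1 := by
      intro i _
      have h3 := h i
      rw [PiLp.zero_apply, zero_add] at h3
      rw [Real.norm_eq_abs, sq_abs]
      nlinarith [h3.1, h3.2]
    refine (Finset.sum_le_sum h2).trans ?_
    simp
    norm_num
  exact le_of_sq_le_sq h1 (by norm_num)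

lemma liftR_cube_setB {d : ℕ} (e : Fin 3 ↪ Fin d) (x : E d) (y : E 3)
    (h : setB e x y ∈ cube (0 : E d) 1) : y ∈ cube (0 : E 3) 1 := by
  intro i
  have h1 := h (e i)
  rw [setB_mem] at h1
  exact h1

lemma liftR_norm {d : ℕ} (e : Fin 3 ↪ Fin d) {x : E d} (hx : x ∈ liftR_set e) {R : ℝ}
    (h : ‖pr e x‖ ≤ R) : ‖x‖ ≤ R + d := by
  have hR : 0 ≤ R := (norm_nonneg _).trans h
  have h1 : ‖x‖ ^ 2 ≤ (R + d) ^ 2 := by
    rw [norm_split e x]
    have h2 : ∑ j ∈ Finset.univ.filter (fun j => j ∉ Set.range e), ‖x j‖ ^ 2 ≤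
        ∑ j : Fin d, (1 : ℝ) := by
      refine (Finset.sum_le_sum (g := fun _ => (1 : ℝ)) fun j hj => ?_).trans
        (Finset.sum_le_sum_of_subset_of_nonneg (Finset.filter_subset _ _)
          fun _ _ _ => zero_le_one)
      have h3 := hx j (Finset.mem_filter.1 hj).2
      rw [Real.norm_eq_abs, sq_abs]
      nlinarith [h3.1, h3.2]
    rw [Finset.sum_const, Finset.card_univ, Fintype.card_fin, nsmul_eq_mul, mul_one] at h2
    have h4 : ‖pr e x‖ ^ 2 ≤ R ^ 2 := pow_le_pow_left₀ (norm_nonneg _) h 2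
    have h5 : (d : ℝ) ≤ (d : ℝ) ^ 2 := by
      have : d ≤ d ^ 2 := Nat.le_self_pow two_ne_zero d
      exact_mod_cast this
    have h6 : 0 ≤ R * (d : ℝ) := mul_nonneg hR (Nat.cast_nonneg d)
    nlinarith
  exact le_of_sq_le_sq h1 (add_nonneg hR (Nat.cast_nonneg d))


theorem block_flow (d : ℕ) (e : Fin 3 ↪ Fin d) : UC False {f : E d → ℝ | Measurable f ∧
    (∀ x, |f x| ≤ 1) ∧ (∀ x, x ∉ cube (0 : E d) 1 → f x = 0) ∧
      ∀ x, ∫ y : E 3, f (setB e x y) = 0} := by
  classical
  obtain ⟨k, γ, C, R, H⟩ := R3_flow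
  refine ⟨k, fun i => liftR_iso e (γ i), C, R + d, ?_⟩
  rintro f ⟨hfm, hf1, hf0, hfi⟩
  have hF : (fun (y : E 3) (x : E d) => f (setB e x y)) ∈ {f : E 3 → E d → ℝ | Nice 2 (E d) f ∧
      (∀ x p, x ∉ cube (0 : E 3) 1 → f x p = 0) ∧ ∀ p, ∫ x, f x p = 0} := by
    have h0 : ∀ (y : E 3) (x : E d), y ∉ cube (0 : E 3) 1 → f (setB e x y) = 0 :=
      fun y x hy => hf0 _ fun hc => hy (liftR_cube_setB e x y hc)
    refine ⟨⟨hfm.comp (liftR_cont_setB e).measurable, fun y x => hf1 _, fun y x hy => ?_⟩,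
      fun y x hy => h0 y x hy, fun x => hfi x⟩
    refine h0 y x fun hc => ?_
    have := liftR_cube3 hc
    linarith
  obtain ⟨φ, hm, hC, hR, hφ⟩ := H (E d) _ hF
  refine ⟨fun i => (liftR_set e).indicator (fun x => φ i (pr e x) (setB e x 0)), ?_, ?_⟩
  · intro i
    refine ⟨?_, ?_, ?_, fun h => h.elim⟩
    · refine Measurable.indicator ?_ (liftR_meas_set e)
      have hc : Continuous (fun x : E d => ((pr e x, setB e x 0) : E 3 × E d)) :=
        (liftR_cont_pr e).prodMk
          ((liftR_cont_setB e).comp (continuous_const.prodMk continuous_id))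
      exact (hm i).comp hc.measurable
    · intro x
      beta_reduce
      by_cases hx : x ∈ liftR_set e
      · rw [Set.indicator_of_mem hx]
        exact hC i _ _
      · rw [Set.indicator_of_notMem hx, abs_zero]
        exact (abs_nonneg _).trans (hC i 0 0)
    · intro x hx
      beta_reduce
      by_cases hx' : x ∈ liftR_set e
      · rw [Set.indicator_of_mem hx']
        refine hR i _ _ ?_
        by_contra hcon
        push Not at hcon
        have := liftR_norm e hx' hcon
        linarith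
      · rw [Set.indicator_of_notMem hx']
  · intro x
    by_cases hx : x ∈ liftR_set e
    · have hx2 : ∀ i, liftR_iso e (γ i) x ∈ liftR_set e := by
        intro i j hj
        rw [liftR_iso_apply, setB_notMem _ _ _ _ hj]
        exact hx j hj
      have h1 : ∀ i, (liftR_set e).indicator (fun x => φ i (pr e x) (setB e x 0))
          (liftR_iso e (γ i) x) = φ i (γ i (pr e x)) (setB e x 0) := by
        intro i
        rw [Set.indicator_of_mem (hx2 i), liftR_iso_apply, pr_setB, setB_setB]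
      have h2 : ∀ i, (liftR_set e).indicator (fun x => φ i (pr e x) (setB e x 0)) x =
          φ i (pr e x) (setB e x 0) := fun i => Set.indicator_of_mem hx _
      simp only [h1, h2]
      rw [← hφ (pr e x) (setB e x 0), setB_setB, setB_pr]
    · have hx2 : ∀ i, liftR_iso e (γ i) x ∉ liftR_set e := by
        intro i hcon
        refine hx fun j hj => ?_
        have := hcon j hj
        rwa [liftR_iso_apply, setB_notMem _ _ _ _ hj] at this
      have h1 : ∀ i, (liftR_set e).indicator (fun x => φ i (pr e x) (setB e x 0))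
          (liftR_iso e (γ i) x) = 0 := fun i => Set.indicator_of_notMem (hx2 i) _
      have h2 : ∀ i, (liftR_set e).indicator (fun x => φ i (pr e x) (setB e x 0)) x = 0 :=
        fun i => Set.indicator_of_notMem hx _
      simp only [h1, h2, sub_zero, Finset.sum_const_zero]
      refine hf0 x fun hc => hx fun j _ => ?_
      have := hc j
      rw [PiLp.zero_apply, zero_add] at this
      exact this


end Pool.Agent.Helper557.Rz
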