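import Pool.Agent.Helper557.Eq.Defs

set_option autoImplicit false

open MeasureTheory Set

namespace Pool.Agent.Helper557.Rz

theorem uc_adm_mono {b : Prop} {d : ℕ} {C C' R R' : ℝ} {φ : E d → ℝ} (h : Adm b C R φ)
    (hC : C ≤ C') (hR : R ≤ R') : Adm b C' R' φ :=
  ⟨h.meas, fun x => (h.bdd x).trans hC, fun x hx => h.supp x (lt_of_le_of_lt hR hx), h.int⟩

theorem uc_adm_neg {b : Prop} {d : ℕ} {C R : ℝ} {φ : E d → ℝ} (h : Adm b C R φ) :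
    Adm b C R (fun x => - φ x) := by
  refine ⟨h.meas.neg, fun x => ?_, fun x hx => ?_, fun hb x => ?_⟩
  · rw [abs_neg]; exact h.bdd x
  · rw [h.supp x hx, neg_zero]
  · obtain ⟨m, hm⟩ := h.int hb x
    exact ⟨-m, by rw [hm]; push_cast; rfl⟩

theorem UC_mono {b : Prop} {d : ℕ} {F G : Set (E d → ℝ)} (h : F ⊆ G) (hG : UC b G) : UC b F := by
  obtain ⟨k, γ, C, R, hk⟩ := hG
  exact ⟨k, γ, C, R, fun f hf => hk f (h hf)⟩

theorem UC_add {b : Prop} {d : ℕ} {F G : Set (E d → ℝ)} (hF : UC b F) (hG : UC b G) :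
    UC b {f | ∃ f₁ ∈ F, ∃ f₂ ∈ G, ∀ x, f x = f₁ x + f₂ x} := by
  obtain ⟨k1, γ1, C1, R1, h1⟩ := hF
  obtain ⟨k2, γ2, C2, R2, h2⟩ := hG
  refine ⟨k1 + k2, Fin.append γ1 γ2, max C1 C2, max R1 R2, ?_⟩
  rintro f ⟨f₁, hf1, f₂, hf2, hf⟩
  obtain ⟨φ1, hφ1, e1⟩ := h1 f₁ hf1
  obtain ⟨φ2, hφ2, e2⟩ := h2 f₂ hf2
  refine ⟨Fin.append φ1 φ2, ?_, ?_⟩
  · intro i
    refine Fin.addCases (fun i => ?_) (fun i => ?_) i
    · rw [Fin.append_left]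
      exact uc_adm_mono (hφ1 i) (le_max_left _ _) (le_max_left _ _)
    · rw [Fin.append_right]
      exact uc_adm_mono (hφ2 i) (le_max_right _ _) (le_max_right _ _)
  · intro x
    rw [Fin.sum_univ_add]
    simp only [Fin.append_left, Fin.append_right]
    rw [hf, e1, e2]

theorem UC_neg {b : Prop} {d : ℕ} {F : Set (E d → ℝ)} (hF : UC b F) :
    UC b {f | ∃ f₁ ∈ F, ∀ x, f x = - f₁ x} := by
  obtain ⟨k, γ, C, R, hk⟩ := hF
  refine ⟨k, γ, C, R, ?_⟩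
  rintro f ⟨f₁, hf1, hf⟩
  obtain ⟨φ, hφ, e⟩ := hk f₁ hf1
  refine ⟨fun i x => - φ i x, fun i => uc_adm_neg (hφ i), ?_⟩
  intro x
  rw [hf, e, ← Finset.sum_neg_distrib]
  apply Finset.sum_congr rfl
  intro i _
  ring

theorem UC_sum {b : Prop} {d m : ℕ} (F : Fin m → Set (E d → ℝ)) (hF : ∀ j, UC b (F j)) :
    UC b {f | ∃ g : Fin m → E d → ℝ, (∀ j, g j ∈ F j) ∧ ∀ x, f x = ∑ j, g j x} := by
  induction m with
  | zero =>
    refine ⟨0, Fin.elim0, 0, 0, ?_⟩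
    rintro f ⟨g, _, hf⟩
    refine ⟨Fin.elim0, fun i => i.elim0, fun x => ?_⟩
    rw [hf]
    simp
  | succ m ih =>
    refine UC_mono ?_ (UC_add (hF 0) (ih (fun j => F j.succ) (fun j => hF j.succ)))
    rintro f ⟨g, hg, hf⟩
    refine ⟨g 0, hg 0, fun x => ∑ j : Fin m, g j.succ x, ⟨fun j => g j.succ, fun j => hg j.succ,
      fun x => rfl⟩, fun x => ?_⟩
    rw [hf, Fin.sum_univ_succ]

theorem UC_basic (b : Prop) {d : ℕ} (γ : E d ≃ᵢ E d) (C R : ℝ) :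
    UC b {f | ∃ φ : E d → ℝ, Adm b C R φ ∧ ∀ x, f x = φ (γ x) - φ x} := by
  refine ⟨1, fun _ => γ, C, R, ?_⟩
  rintro f ⟨φ, hφ, hf⟩
  refine ⟨fun _ => φ, fun _ => hφ, fun x => ?_⟩
  rw [hf]
  simp

theorem UC_TR (b : Prop) {d m : ℕ} (v : Fin m → E d) (C R : ℝ) :
    UC b {f | TR b m v C R f} := by
  refine ⟨m, fun i => IsometryEquiv.addRight (v i), C, R, ?_⟩
  rintro f ⟨φ, hφ, hf⟩
  exact ⟨φ, hφ, hf⟩


end Pool.Agent.Helper557.Rz
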