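import Pool.Agent.Helper557.Eq.Defs
import Pool.Agent.Helper557.Eq.M_cx
import Pool.Agent.Helper557.Eq.M_cxinv
import Pool.Agent.Helper557.Eq.M_liftR
import Pool.Agent.Helper557.Eq.M_uc

set_option autoImplicit false

open MeasureTheory Set

namespace Pool.Agent.Helper557.Rz
/-- auxiliary class -/
def Rd_G (d : ℕ) (J : Set (Fin d)) : Set (E d → ℝ) :=
  {f | Measurable f ∧ (∀ x, |f x| ≤ 1) ∧ (∀ x, x ∉ cube (0 : E d) 1 → f x = 0) ∧
    ∫ x, f x = 0 ∧ ∀ x ∈ cube (0 : E d) 1, ∀ x' ∈ cube (0 : E d) 1,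
      (∀ i, i ∉ J → x i = x' i) → f x = f x'}

theorem Rd_cube_eq (d : ℕ) : cube (0 : E d) 1 =
    (WithLp.ofLp : E d → (Fin d → ℝ)) ⁻¹' (Set.pi Set.univ fun _ => Set.Ico (0 : ℝ) 1) := by
  ext x
  simp [cube, Set.mem_pi]

theorem Rd_cube_meas (d : ℕ) : MeasurableSet (cube (0 : E d) 1) := by
  rw [Rd_cube_eq]
  exact (PiLp.volume_preserving_ofLp (Fin d)).measurable
    (MeasurableSet.univ_pi fun _ => measurableSet_Ico)

theorem Rd_vol (d : ℕ) : (volume (cube (0 : E d) 1)) = 1 := by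
  rw [Rd_cube_eq, (PiLp.volume_preserving_ofLp (Fin d)).measure_preimage
    (MeasurableSet.univ_pi fun _ => measurableSet_Ico).nullMeasurableSet, volume_pi_pi]
  simp

theorem Rd_univ (d : ℕ) : UC False (Rd_G d Set.univ) := by
  refine ⟨0, Fin.elim0, 0, 0, fun f hf => ⟨Fin.elim0, fun i => i.elim0, fun x => ?_⟩⟩
  obtain ⟨h1, h2, h3, h4, h5⟩ := hf
  have h0 : (0 : E d) ∈ cube (0 : E d) 1 := by
    intro i
    simp
  have hfi : f = (cube (0 : E d) 1).indicator (fun _ => f 0) := by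
    funext y
    by_cases hy : y ∈ cube (0 : E d) 1
    · rw [Set.indicator_of_mem hy]
      exact h5 y hy 0 h0 (fun i hi => absurd (Set.mem_univ i) hi)
    · rw [Set.indicator_of_notMem hy]
      exact h3 y hy
  have hint : ∫ x, f x = f 0 := by
    conv_lhs => rw [hfi]
    rw [integral_indicator_const _ (Rd_cube_meas d)]
    simp [Measure.real, Rd_vol]
  have hf0 : f 0 = 0 := by rw [← hint]; exact h4
  have : f x = 0 := by
    rw [hfi, hf0]
    simp
  rw [this]
  simp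

theorem Rd_step (d : ℕ) (J : Set (Fin d)) (e : Fin 3 ↪ Fin d)
    (h : UC False (Rd_G d (J ∪ Set.range e))) : UC False (Rd_G d J) := by
  refine UC_mono ?_ (UC_add h (UC_add (block_flow d e) (block_flow d e)))
  intro f hf
  obtain ⟨h1, h2, h3, h4, h5⟩ := hf
  obtain ⟨c1, c2, c3, c4, c5⟩ := cx_props d e f h1 h2 h3
  have key : (fun x => (f x - cx e f x) / 2) ∈ {f : E d → ℝ | Measurable f ∧
      (∀ x, |f x| ≤ 1) ∧ (∀ x, x ∉ cube (0 : E d) 1 → f x = 0) ∧
      ∀ x, ∫ y : E 3, f (setB e x y) = 0} := by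
    refine ⟨(h1.sub c1).div_const 2, fun x => ?_, fun x hx => ?_, fun x => ?_⟩
    · have := h2 x
      have := c2 x
      rw [abs_le] at *
      constructor <;> simp only [] <;> linarith [(h2 x), (c2 x)]
    · simp only []
      rw [h3 x hx, c3 x hx]
      simp
    · simp only []
      rw [integral_div, c5 x]
      simp
  refine ⟨cx e f, ⟨c1, c2, c3, by rw [c4, h4], cx_inv d e f h3 J h5⟩,
    fun x => (f x - cx e f x) / 2 + (f x - cx e f x) / 2,
    ⟨_, key, _, key, fun x => rfl⟩, fun x => ?_⟩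
  simp only []
  ring

theorem Rd_all (d : ℕ) (hd : 3 ≤ d) : ∀ n : ℕ, ∀ J : Set (Fin d), (Jᶜ).ncard ≤ n →
    UC False (Rd_G d J) := by
  intro n
  induction n with
  | zero =>
    intro J hJ
    have h0 : (Jᶜ).ncard = 0 := by omega
    rw [Set.ncard_eq_zero (Set.toFinite _), Set.compl_empty_iff] at h0
    rw [h0]
    exact Rd_univ d
  | succ n ih =>
    intro J hJ
    by_cases hJu : J = Set.univ
    · rw [hJu]; exact Rd_univ d
    · obtain ⟨j, hj⟩ := (Set.ne_univ_iff_exists_notMem J).mp hJu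
      let e0 : Fin 3 ↪ Fin d := Fin.castLEEmb hd
      let e : Fin 3 ↪ Fin d := e0.trans (Equiv.swap (e0 0) j).toEmbedding
      have he : e 0 = j := by
        simp [e]
      refine Rd_step d J e (ih _ ?_)
      have hlt : ((J ∪ Set.range e)ᶜ).ncard < (Jᶜ).ncard := by
        apply Set.ncard_lt_ncard _ (Set.toFinite _)
        refine ⟨Set.compl_subset_compl.mpr Set.subset_union_left, fun hsub => ?_⟩
        have := hsub (show j ∈ Jᶜ from hj)
        exact this (Or.inr ⟨0, he⟩)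
      omega


theorem Rd_flow (d : ℕ) (hd : 3 ≤ d) : UC False {f : E d → ℝ | Measurable f ∧
    (∀ x, |f x| ≤ 1) ∧ (∀ x, x ∉ cube (0 : E d) 1 → f x = 0) ∧ ∫ x, f x = 0} := by
  refine UC_mono ?_ (Rd_all d hd _ ∅ le_rfl)
  rintro f ⟨h1, h2, h3, h4⟩
  refine ⟨h1, h2, h3, h4, fun x _ x' _ h => ?_⟩
  have : x = x' := by
    ext i
    exact h i (by simp)
  rw [this]


end Pool.Agent.Helper557.Rz
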