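import Pool.Agent.Helper557.Eq.Defs

set_option autoImplicit false

open MeasureTheory Set

namespace Pool.Agent.Helper557.Rz
theorem fold_zv_apply {d : ℕ} (z : Fin d → ℤ) (i : Fin d) : (zv z : E d) i = z i := rfl

theorem fold_zv_add {d : ℕ} (z w : Fin d → ℤ) : (zv (z + w) : E d) = zv z + zv w := by
  ext i
  simp [fold_zv_apply]

theorem fold_le_norm {d : ℕ} (x : E d) (i : Fin d) : |x i| ≤ ‖x‖ := PiLp.norm_apply_le x i

/-- the integer part -/
noncomputable def foldFl {d : ℕ} (x : E d) : Fin d → ℤ := fun i => ⌊x i⌋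

theorem fold_mem_cube {d : ℕ} (z : Fin d → ℤ) (x : E d) :
    x ∈ cube (zv z) 1 ↔ z = foldFl x := by
  unfold cube foldFl
  rw [mem_ofPred_eq, funext_iff]
  refine forall_congr' fun i => ?_
  rw [fold_zv_apply, eq_comm, Int.floor_eq_iff]

theorem fold_mem_cube_zero {d : ℕ} (z : Fin d → ℤ) (x : E d) :
    x + zv z ∈ cube (zv z) 1 ↔ x ∈ cube (0 : E d) 1 := by
  unfold cube
  rw [mem_ofPred_eq, mem_ofPred_eq]
  refine forall_congr' fun i => ?_
  rw [PiLp.add_apply, fold_zv_apply, PiLp.zero_apply]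
  constructor
  · rintro ⟨h1, h2⟩; constructor <;> linarith
  · rintro ⟨h1, h2⟩; constructor <;> linarith

theorem fold_sub_mem {d : ℕ} (x : E d) : x - zv (foldFl x) ∈ cube (0 : E d) 1 := by
  rw [← fold_mem_cube_zero (foldFl x), sub_add_cancel, fold_mem_cube]

theorem fold_cube_meas {d : ℕ} (v : E d) (s : ℝ) : MeasurableSet (cube v s) := by
  have : cube v s = ⋂ i, {x : E d | v i ≤ x i ∧ x i < v i + s} := by
    ext x; simp [cube]
  rw [this]
  refine MeasurableSet.iInter fun i => ?_
  have hm : Measurable fun x : E d => x i := by fun_prop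
  exact (measurableSet_le measurable_const hm).inter (measurableSet_lt hm measurable_const)

/-- the box of integer vectors -/
noncomputable def foldBox (d N : ℕ) : Finset (Fin d → ℤ) :=
  Fintype.piFinset fun _ => Finset.Icc (-(N : ℤ)) N

theorem fold_not_mem_box {d N : ℕ} {z : Fin d → ℤ} (h : z ∉ foldBox d N) :
    ∃ i, (N : ℤ) + 1 ≤ |z i| := by
  unfold foldBox at h
  rw [Fintype.mem_piFinset] at h
  push Not at h
  obtain ⟨i, hi⟩ := h
  refine ⟨i, ?_⟩
  rw [Finset.mem_Icc, ← abs_le] at hi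
  omega

theorem fold_zero_of_cube {d N : ℕ} {R : ℝ} (hN : R ≤ N) {f : E d → ℝ}
    (hf : ∀ x, R < ‖x‖ → f x = 0) {x : E d} (hx : x ∈ cube (0 : E d) 1) {z : Fin d → ℤ}
    (hz : z ∉ foldBox d N) : f (x + zv z) = 0 := by
  obtain ⟨i, hi⟩ := fold_not_mem_box hz
  apply hf
  refine lt_of_lt_of_le ?_ (fold_le_norm _ i)
  have h1 := hx i
  rw [PiLp.zero_apply] at h1
  rw [PiLp.add_apply, fold_zv_apply]
  have h2 : (N : ℝ) + 1 ≤ |(z i : ℝ)| := by
    have : (((N : ℤ) + 1 : ℤ) : ℝ) ≤ ((|z i| : ℤ) : ℝ) := by exact_mod_cast hi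
    push_cast at this
    exact this
  have h3 : |x i| < 1 := by rw [abs_lt]; constructor <;> linarith [h1.1, h1.2]
  have h4 : |(z i : ℝ)| ≤ |x i + z i| + |x i| := by
    have := abs_sub (x i + z i) (x i)
    rwa [add_sub_cancel_left] at this
  linarith

theorem fold_zero_of_floor {d N : ℕ} {R : ℝ} (hN : R ≤ N) {f : E d → ℝ}
    (hf : ∀ x, R < ‖x‖ → f x = 0) {x : E d} (hz : foldFl x ∉ foldBox d N) : f x = 0 := by
  have h := fold_zero_of_cube hN hf (fold_sub_mem x) hz
  rwa [sub_add_cancel] at h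

theorem fold_finite {d : ℕ} {R : ℝ} {f : E d → ℝ}
    (hf : ∀ x, R < ‖x‖ → f x = 0) (x : E d) :
    (Function.support fun z : Fin d → ℤ => f (x + zv z)).Finite := by
  obtain ⟨N, hN⟩ := exists_nat_ge (R + ‖x‖)
  refine (Finset.finite_toSet (foldBox d N)).subset ?_
  intro z hz
  by_contra hcon
  obtain ⟨i, hi⟩ := fold_not_mem_box hcon
  apply hz
  apply hf
  refine lt_of_lt_of_le ?_ (fold_le_norm _ i)
  rw [PiLp.add_apply, fold_zv_apply]
  have h2 : (N : ℝ) + 1 ≤ |(z i : ℝ)| := by
    have : (((N : ℤ) + 1 : ℤ) : ℝ) ≤ ((|z i| : ℤ) : ℝ) := by exact_mod_cast hi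
    push_cast at this
    exact this
  have h3 := fold_le_norm x i
  have h4 : |(z i : ℝ)| ≤ |x i + z i| + |x i| := by
    have := abs_sub (x i + z i) (x i)
    rwa [add_sub_cancel_left] at this
  linarith

theorem fold_per {d : ℕ} (f : E d → ℝ) : Per (fun x => ∑ᶠ z : Fin d → ℤ, f (x + zv z)) := by
  intro w x
  show ∑ᶠ z : Fin d → ℤ, f (x + zv w + zv z) = ∑ᶠ z : Fin d → ℤ, f (x + zv z)
  rw [← finsum_comp_equiv (Equiv.addLeft w) (f := fun z : Fin d → ℤ => f (x + zv z))]
  refine finsum_congr fun z => ?_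
  rw [Equiv.coe_addLeft, fold_zv_add, add_assoc]

theorem fold_eq_cube {d N : ℕ} {R : ℝ} (hN : R ≤ N) {f : E d → ℝ}
    (hf : ∀ x, R < ‖x‖ → f x = 0) {x : E d} (hx : x ∈ cube (0 : E d) 1) :
    ∑ᶠ z : Fin d → ℤ, f (x + zv z) = ∑ z ∈ foldBox d N, f (x + zv z) := by
  refine finsum_eq_sum_of_support_subset _ ?_
  intro z hz
  by_contra hcon
  exact hz (fold_zero_of_cube hN hf hx hcon)

theorem fold_eq {d N : ℕ} {R : ℝ} (hN : R ≤ N) {f : E d → ℝ}
    (hf : ∀ x, R < ‖x‖ → f x = 0) (x : E d) :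
    ∑ᶠ z : Fin d → ℤ, f (x + zv z) = ∑ z ∈ foldBox d N, f ((x - zv (foldFl x)) + zv z) := by
  rw [← fold_eq_cube hN hf (fold_sub_mem x)]
  have h := fold_per f (foldFl x) (x - zv (foldFl x))
  simp only [sub_add_cancel] at h
  exact h

theorem fold_sub_meas {d : ℕ} : Measurable fun x : E d => x - zv (foldFl x) := by
  have h : (fun x : E d => x - zv (foldFl x)) =
      fun x => WithLp.toLp 2 (fun i => Int.fract (x i)) := by
    funext x
    ext i
    simp only [PiLp.sub_apply, fold_zv_apply, foldFl]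
    rfl
  rw [h]
  refine (WithLp.measurable_toLp 2 _).comp ?_
  refine measurable_pi_lambda _ fun i => ?_
  have hm : Measurable fun x : E d => x i := by fun_prop
  exact measurable_fract.comp hm


/-- the periodic sum, for functions supported in the ball of radius `R` -/
theorem fold (b : Prop) {d : ℕ} (C R : ℝ) : ∃ (m : ℕ) (v : Fin m → E d) (C' R' : ℝ),
    ∀ f : E d → ℝ, Adm b C R f → ∃ f' : E d → ℝ, Measurable f' ∧ Per f' ∧ (∀ x, |f' x| ≤ C') ∧
      (b → ∀ x, ∃ n : ℤ, f' x = n) ∧
      (∀ x, f' x = ∑ᶠ z : Fin d → ℤ, f (x + zv z)) ∧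
      TR b m v C' R' (fun x => f x - (cube 0 1).indicator f' x) := by
  classical
  obtain ⟨N, hN⟩ := exists_nat_ge R
  let B := foldBox d N
  let e := B.equivFin
  refine ⟨B.card, fun i => zv (e.symm i).1, (B.card + 1) * |C|, R, fun f hf => ?_⟩
  have hC : C ≤ (B.card + 1) * |C| := by
    have h1 : 0 ≤ (B.card : ℝ) * |C| := by positivity
    have h2 := le_abs_self C
    linarith
  refine ⟨fun x => ∑ᶠ z : Fin d → ℤ, f (x + zv z), ?_, fold_per f, ?_, ?_, fun x => rfl, ?_⟩
  · have h : (fun x => ∑ᶠ z : Fin d → ℤ, f (x + zv z)) =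
        fun x => ∑ z ∈ foldBox d N, f ((x - zv (foldFl x)) + zv z) :=
      funext fun x => fold_eq hN hf.supp x
    rw [h]
    refine Finset.measurable_sum _ fun z _ => ?_
    exact hf.meas.comp (fold_sub_meas.add_const _)
  · intro x
    show |∑ᶠ z : Fin d → ℤ, f (x + zv z)| ≤ _
    rw [fold_eq hN hf.supp x]
    calc |∑ z ∈ foldBox d N, f ((x - zv (foldFl x)) + zv z)|
        ≤ ∑ z ∈ foldBox d N, |f ((x - zv (foldFl x)) + zv z)| := Finset.abs_sum_le_sum_abs _ _
      _ ≤ ∑ z ∈ foldBox d N, |C| := Finset.sum_le_sum fun z _ => (hf.bdd _).trans (le_abs_self C)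
      _ = B.card * |C| := by rw [Finset.sum_const, nsmul_eq_mul]
      _ ≤ (B.card + 1) * |C| := by nlinarith [abs_nonneg C]
  · intro hb x
    show ∃ n : ℤ, ∑ᶠ z : Fin d → ℤ, f (x + zv z) = n
    rw [fold_eq hN hf.supp x]
    choose g hg using hf.int hb
    refine ⟨∑ z ∈ foldBox d N, g ((x - zv (foldFl x)) + zv z), ?_⟩
    rw [Int.cast_sum]
    exact Finset.sum_congr rfl fun z _ => hg _
  · refine ⟨fun i x => -((cube (zv (e.symm i).1) 1).indicator f x), fun i => ?_, fun x => ?_⟩
    · have hcase : ∀ x, (cube (zv (e.symm i).1) 1).indicator f x = f x ∨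
          (cube (zv (e.symm i).1) 1).indicator f x = 0 := by
        intro x
        by_cases hx : x ∈ cube (zv (e.symm i).1) 1
        · left; exact indicator_of_mem hx f
        · right; exact indicator_of_notMem hx f
      refine ⟨(hf.meas.indicator (fold_cube_meas _ _)).neg, fun x => ?_, fun x hx => ?_,
        fun hb x => ?_⟩
      · rw [abs_neg]
        rcases hcase x with h | h
        · rw [h]; exact (hf.bdd x).trans hC
        · rw [h, abs_zero]; positivity
      · show -((cube (zv (e.symm i).1) 1).indicator f x) = 0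
        rcases hcase x with h | h
        · rw [h, hf.supp x hx, neg_zero]
        · rw [h, neg_zero]
      · show ∃ m : ℤ, -((cube (zv (e.symm i).1) 1).indicator f x) = m
        rcases hcase x with h | h
        · obtain ⟨m, hm⟩ := hf.int hb x
          exact ⟨-m, by rw [h, hm]; push_cast; ring⟩
        · exact ⟨0, by rw [h]; simp⟩
    · have h1 : ∀ F : (Fin d → ℤ) → ℝ, ∑ i, F (e.symm i).1 = ∑ z ∈ B, F z := by
        intro F
        rw [Equiv.sum_comp e.symm (fun z : B => F z.1)]
        exact Finset.sum_coe_sort B F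
      have h2 := h1 (fun z => (cube (zv z) 1).indicator f x -
        (cube (zv z) 1).indicator f (x + zv z))
      have h3 : ∑ i, (-((cube (zv (e.symm i).1) 1).indicator f (x + zv (e.symm i).1)) -
          -((cube (zv (e.symm i).1) 1).indicator f x)) =
          ∑ i, ((cube (zv (e.symm i).1) 1).indicator f x -
            (cube (zv (e.symm i).1) 1).indicator f (x + zv (e.symm i).1)) :=
        Finset.sum_congr rfl fun i _ => by ring
      show f x - (cube 0 1).indicator (fun x => ∑ᶠ z : Fin d → ℤ, f (x + zv z)) x = _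
      rw [h3, h2, Finset.sum_sub_distrib]
      congr 1
      · -- f as a sum of pieces
        by_cases hz : foldFl x ∈ B
        · rw [Finset.sum_eq_single_of_mem (foldFl x) hz]
          · rw [indicator_of_mem ((fold_mem_cube _ x).2 rfl)]
          · intro z _ hne
            exact indicator_of_notMem (fun h => hne ((fold_mem_cube z x).1 h)) f
        · rw [fold_zero_of_floor hN hf.supp hz]
          symm
          refine Finset.sum_eq_zero fun z hzB => ?_
          refine indicator_of_notMem (fun h => hz ?_) f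
          rw [← (fold_mem_cube z x).1 h]; exact hzB
      · by_cases hx : x ∈ cube (0 : E d) 1
        · rw [indicator_of_mem hx, fold_eq_cube hN hf.supp hx]
          refine Finset.sum_congr rfl fun z _ => ?_
          rw [indicator_of_mem ((fold_mem_cube_zero z x).2 hx)]
        · rw [indicator_of_notMem hx]
          symm
          refine Finset.sum_eq_zero fun z _ => ?_
          exact indicator_of_notMem (fun h => hx ((fold_mem_cube_zero z x).1 h)) f


end Pool.Agent.Helper557.Rz
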