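import Pool.Agent.Helper557.Eq.Defs

set_option autoImplicit false

open MeasureTheory Set

namespace Pool.Agent.Helper557.Rz

theorem TT_lift {d : ℕ} (a : E d → TTc) (ha : Measurable a) :
    ∃ b : E d → ℝ, Measurable b ∧ (∀ x, 0 ≤ b x ∧ b x < 1) ∧ (∀ x, ((b x : ℝ) : TTc) = a x) ∧
      ∀ (z : Fin d → ℤ), (∀ x, a (x + zv z) = a x) → ∀ x, b (x + zv z) = b x := by
  have hm : Measurable (fun y : TTc => ((AddCircle.equivIco (1 : ℝ) 0 y : Ico (0 : ℝ) (0 + 1)) : ℝ)) := by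
    apply measurable_of_continuousOn_compl_singleton (0 : TTc)
    intro y hy
    have hy' : y ≠ ((0 : ℝ) : TTc) := hy
    exact (continuous_subtype_val.continuousAt.comp
      (AddCircle.continuousAt_equivIco (1 : ℝ) 0 hy')).continuousWithinAt
  refine ⟨fun x => ((AddCircle.equivIco (1 : ℝ) 0 (a x) : Ico (0 : ℝ) (0 + 1)) : ℝ),
    hm.comp ha, fun x => ?_, fun x => ?_, fun z hz x => ?_⟩
  · have h := (AddCircle.equivIco (1 : ℝ) 0 (a x)).2
    exact ⟨h.1, by simpa using h.2⟩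
  · exact AddCircle.coe_equivIco
  · show ((AddCircle.equivIco (1 : ℝ) 0 (a (x + zv z)) : Ico (0 : ℝ) (0 + 1)) : ℝ) = _
    rw [hz x]

theorem TT_int (r : ℝ) (h : ((r : ℝ) : TTc) = 0) : ∃ n : ℤ, r = n := by
  obtain ⟨n, hn⟩ := AddCircle.coe_eq_zero_iff (1 : ℝ) |>.1 h
  exact ⟨n, by rw [← hn]; simp⟩


end Pool.Agent.Helper557.Rz
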