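import Pool.Agent.Helper557.Eq.Defs

set_option autoImplicit false

open MeasureTheory Set

namespace Pool.Agent.Helper557.Rz
lemma marks_step {r ε : ℝ} (hr : r ≠ 0) (h1 : |r| < ε) (h2 : |r| < 1 / 2) (t : ℝ) :
    ∃ j : ℕ, 1 ≤ j ∧ j ≤ ⌈2 / |r|⌉₊ + 1 ∧ ∃ k : ℤ, 0 < t - j * r - k ∧ t - j * r - k < ε ∧
      t - j * r - k < 1 := by
  have hpos : 0 < |r| := abs_pos.mpr hr
  set s := Int.fract t with hs
  have hs0 : 0 ≤ s := Int.fract_nonneg t
  have hs1 : s < 1 := Int.fract_lt_one t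
  have hts : t = s + ⌊t⌋ := by rw [hs]; exact (Int.fract_add_floor t).symm
  rcases lt_or_gt_of_ne hr with hneg | hp
  · -- r < 0
    have habs : |r| = -r := abs_of_neg hneg
    have hq0 : 0 ≤ (1 - s) / |r| := div_nonneg (by linarith) hpos.le
    have hfl : (⌊(1 - s) / |r|⌋₊ : ℝ) ≤ (1 - s) / |r| := Nat.floor_le hq0
    have hfl2 : (1 - s) / |r| < ⌊(1 - s) / |r|⌋₊ + 1 := Nat.lt_floor_add_one _
    have hmul : (1 - s) / |r| * |r| = 1 - s := by field_simp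
    have ha1 : (⌊(1 - s) / |r|⌋₊ : ℝ) * |r| ≤ 1 - s := by
      have := mul_le_mul_of_nonneg_right hfl hpos.le
      rwa [hmul] at this
    have ha2 : 1 - s < (⌊(1 - s) / |r|⌋₊ + 1) * |r| := by
      conv_lhs => rw [← hmul]
      exact mul_lt_mul_of_pos_right hfl2 hpos
    refine ⟨⌊(1 - s) / |r|⌋₊ + 1, by omega, ?_, ⌊t⌋ + 1, ?_, ?_, ?_⟩
    · have h3 : (⌊(1 - s) / |r|⌋₊ : ℝ) ≤ 2 / |r| := by
        refine hfl.trans ?_
        exact div_le_div_of_nonneg_right (by linarith) hpos.le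
      have h4 : (⌊(1 - s) / |r|⌋₊ : ℝ) ≤ (⌈2 / |r|⌉₊ : ℝ) := h3.trans (Nat.le_ceil _)
      have h5 : ⌊(1 - s) / |r|⌋₊ ≤ ⌈2 / |r|⌉₊ := by exact_mod_cast h4
      omega
    · push_cast
      nlinarith
    · push_cast
      nlinarith
    · push_cast
      nlinarith
  · -- 0 < r
    have habs : |r| = r := abs_of_pos hp
    have hq0 : 0 < (s + 1) / |r| := div_pos (by linarith) hpos
    have hce : (s + 1) / |r| ≤ (⌈(s + 1) / |r|⌉₊ : ℝ) := Nat.le_ceil _
    have hce2 : (⌈(s + 1) / |r|⌉₊ : ℝ) < (s + 1) / |r| + 1 := Nat.ceil_lt_add_one hq0.le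
    have hmul : (s + 1) / |r| * |r| = s + 1 := by field_simp
    have h2r : 2 < (s + 1) / |r| := by
      rw [lt_div_iff₀ hpos]; linarith
    have hge : 2 < (⌈(s + 1) / |r|⌉₊ : ℝ) := lt_of_lt_of_le h2r hce
    have hge' : 2 < ⌈(s + 1) / |r|⌉₊ := by exact_mod_cast hge
    obtain ⟨m, hm⟩ : ∃ m : ℕ, ⌈(s + 1) / |r|⌉₊ = m + 1 := ⟨⌈(s + 1) / |r|⌉₊ - 1, by omega⟩
    rw [hm] at hce hce2 hge'
    push_cast at hce hce2
    have ha1 : s + 1 ≤ (m + 1) * |r| := by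
      conv_lhs => rw [← hmul]
      exact mul_le_mul_of_nonneg_right hce hpos.le
    have ha2 : m * |r| < s + 1 := by
      rw [← hmul]
      exact mul_lt_mul_of_pos_right (by linarith) hpos
    refine ⟨m, by omega, ?_, ⌊t⌋ - 1, ?_, ?_, ?_⟩
    · have h3 : (m : ℝ) ≤ 2 / |r| := by
        have : (s + 1) / |r| ≤ 2 / |r| := div_le_div_of_nonneg_right (by linarith) hpos.le
        linarith
      have h4 : (m : ℝ) ≤ (⌈2 / |r|⌉₊ : ℝ) := h3.trans (Nat.le_ceil _)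
      have h5 : m ≤ ⌈2 / |r|⌉₊ := by exact_mod_cast h4
      omega
    · push_cast
      nlinarith
    · push_cast
      nlinarith
    · push_cast
      nlinarith

lemma marks_recur {a : ℝ} (ha : Irrational a) {ε : ℝ} (hε : 0 < ε) :
    ∃ B : ℕ, ∀ t : ℝ, ∃ j : ℕ, 1 ≤ j ∧ j ≤ B ∧ Int.fract (t - j * a) ∈ Ioo 0 ε := by
  obtain ⟨n, hn⟩ := exists_nat_one_div_lt (show (0:ℝ) < min ε (1 / 2) from lt_min hε (by norm_num))
  obtain ⟨p, q, hq0, hqn, hpq⟩ := Real.exists_int_int_abs_mul_sub_le a (Nat.succ_pos n)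
  have hle : |(q : ℝ) * a - p| < min ε (1 / 2) := by
    refine lt_of_le_of_lt (hpq.trans ?_) hn
    apply one_div_le_one_div_of_le (by positivity)
    push_cast
    linarith
  have hr : (q : ℝ) * a - p ≠ 0 := by
    intro h
    exact (ha.intCast_mul hq0.ne').ne_int p (by linarith)
  obtain ⟨Q, rfl⟩ : ∃ Q : ℕ, q = Q := ⟨q.toNat, by omega⟩
  have hQ : 1 ≤ Q := by omega
  refine ⟨(⌈2 / |((Q : ℤ) : ℝ) * a - p|⌉₊ + 1) * Q, fun t => ?_⟩
  obtain ⟨j, hj1, hj2, k, hk1, hk2, hk3⟩ := marks_step hr (hle.trans_le (min_le_left _ _))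
    (hle.trans_le (min_le_right _ _)) t
  refine ⟨j * Q, Nat.mul_pos hj1 hQ, Nat.mul_le_mul_right _ hj2, ?_⟩
  have hfr : Int.fract (t - ((j * Q : ℕ) : ℝ) * a) = t - j * (((Q : ℤ) : ℝ) * a - p) - k := by
    rw [Int.fract_eq_iff]
    refine ⟨hk1.le, hk3, k - j * p, ?_⟩
    push_cast
    ring
  rw [hfr]
  exact ⟨hk1, hk2⟩


theorem exists_marks (d : ℕ) (hd : 3 ≤ d) : ∃ (α : Fin 3 → E d) (ρ : Fin 3 → E d ≃ E d)
    (M : Fin 3 → ℕ → Set (E d)) (B : Fin 3 → ℕ → ℕ), Mark ρ M B ∧ (∀ i x, ρ i x = x + α i) ∧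
      (∀ v : E d, ∀ i x, ρ i (x + v) = ρ i x + v) ∧
      ∀ (z : Fin d → ℤ), Cm ρ M (fun x => x + zv z) := by
  classical
  obtain ⟨a, ha⟩ : ∃ a : ℝ, Irrational a := ⟨√2, irrational_sqrt_two⟩
  have hrec : ∀ n : ℕ, ∃ B : ℕ, ∀ t : ℝ, ∃ j : ℕ, 1 ≤ j ∧ j ≤ B ∧
      Int.fract (t - j * a) ∈ Ioo 0 (1 / ((n : ℝ) + 1)) := fun n =>
    marks_recur ha (by positivity)
  choose B hB using hrec
  let c : Fin 3 → Fin d := fun i => Fin.castLE hd i
  have hc : Function.Injective c := Fin.castLE_injective hd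
  let α : Fin 3 → E d := fun i => EuclideanSpace.single (c i) a
  let ρ : Fin 3 → E d ≃ E d := fun i => Equiv.addRight (α i)
  let M : Fin 3 → ℕ → Set (E d) := fun i n =>
    {x | Int.fract (x (c i)) ∈ Ioo (0 : ℝ) (1 / ((n : ℝ) + 1))}
  have hmem : ∀ i n x, x ∈ M i n ↔ Int.fract (x (c i)) ∈ Ioo (0 : ℝ) (1 / ((n : ℝ) + 1)) :=
    fun _ _ _ => Iff.rfl
  have hρ : ∀ i x, ρ i x = x + α i := fun i x => rfl
  have hρs : ∀ i x, (ρ i).symm x = x - α i := by
    intro i x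
    rw [Equiv.symm_apply_eq, hρ, sub_add_cancel]
  have hαs : ∀ i, α i (c i) = a := by
    intro i
    simp [α]
  have hαn : ∀ i j, i ≠ j → α j (c i) = 0 := by
    intro i j hij
    have : c i ≠ c j := fun h => hij (hc h)
    simp [α, this]
  have hit : ∀ i (j : ℕ) (x : E d), (((ρ i).symm^[j]) x) (c i) = x (c i) - j * a := by
    intro i j
    induction j with
    | zero => intro x; simp
    | succ j ih =>
      intro x
      rw [Function.iterate_succ_apply', hρs, PiLp.sub_apply, ih, hαs]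
      push_cast
      ring
  refine ⟨α, ρ, M, fun _ n => B n, ⟨?_, ?_, ?_, ?_, ?_, ?_, ?_⟩, hρ, ?_, ?_⟩
  · intro i
    exact measurable_add_const (α i)
  · intro i
    have : ((ρ i).symm : E d → E d) = fun x => x - α i := funext (hρs i)
    rw [this]
    exact measurable_sub_const (α i)
  · intro i j x
    rw [hρ, hρ, hρ, hρ, add_right_comm]
  · intro i n
    have h1 : Measurable (fun x : E d => Int.fract (x (c i))) :=
      measurable_fract.comp (by fun_prop)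
    exact h1 measurableSet_Ioo
  · intro i j n x hij
    rw [hmem, hmem, hρ, PiLp.add_apply, hαn i j hij, add_zero]
  · intro i n x
    obtain ⟨j, h1, h2, h3⟩ := hB n (x (c i))
    refine ⟨j, h1, h2, ?_⟩
    rw [hmem, hit]
    exact h3
  · intro i x
    by_cases h0 : 0 < Int.fract (x (c i))
    · obtain ⟨N, hN⟩ := exists_nat_one_div_lt h0
      refine ⟨N, fun n hn hx => ?_⟩
      have h2 : Int.fract (x (c i)) < 1 / ((n : ℝ) + 1) := hx.2
      have h3 : 1 / ((n : ℝ) + 1) ≤ 1 / ((N : ℝ) + 1) := by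
        apply one_div_le_one_div_of_le (by positivity)
        have : (N : ℝ) ≤ n := by exact_mod_cast hn
        linarith
      linarith
    · exact ⟨0, fun n _ hx => h0 hx.1⟩
  · intro v i x
    rw [hρ, hρ, add_right_comm]
  · intro z
    refine ⟨?_, ?_⟩
    · intro i x
      show ρ i (x + zv z) = ρ i x + zv z
      rw [hρ, hρ, add_right_comm]
    · intro i n x
      rw [hmem, hmem]
      show Int.fract ((x + zv z) (c i)) ∈ Ioo (0 : ℝ) (1 / ((n : ℝ) + 1)) ↔ _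
      rw [PiLp.add_apply]
      have : (zv z : E d) (c i) = (z (c i) : ℝ) := rfl
      rw [this, Int.fract_add_intCast]


end Pool.Agent.Helper557.Rz
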