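import Pool.Agent.Helper557.Eq.Defs

set_option autoImplicit false

open MeasureTheory Set

namespace Pool.Agent.Helper557.Rz

theorem tr_adm_mono {b : Prop} {d : ℕ} {C R C' R' : ℝ} {φ : E d → ℝ} (h : Adm b C R φ)
    (hC : C ≤ C') (hR : R ≤ R') : Adm b C' R' φ :=
  ⟨h.meas, fun x => (h.bdd x).trans hC, fun x hx => h.supp x (lt_of_le_of_lt hR hx), h.int⟩

theorem tr_adm_neg {b : Prop} {d : ℕ} {C R : ℝ} {φ : E d → ℝ} (h : Adm b C R φ) :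
    Adm b C R (fun x => - φ x) := by
  refine ⟨h.meas.neg, fun x => ?_, fun x hx => ?_, fun hb x => ?_⟩
  · rw [abs_neg]; exact h.bdd x
  · rw [h.supp x hx, neg_zero]
  · obtain ⟨m, hm⟩ := h.int hb x
    exact ⟨-m, by rw [hm]; push_cast; rfl⟩

theorem tr_append {b : Prop} {d : ℕ} {m₁ m₂ : ℕ} {v₁ : Fin m₁ → E d} {v₂ : Fin m₂ → E d}
    {C₁ R₁ C₂ R₂ : ℝ} {f₁ f₂ : E d → ℝ} (h₁ : TR b m₁ v₁ C₁ R₁ f₁) (h₂ : TR b m₂ v₂ C₂ R₂ f₂) :
    TR b (m₁ + m₂) (Fin.append v₁ v₂) (max C₁ C₂) (max R₁ R₂) (fun x => f₁ x + f₂ x) := by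
  obtain ⟨φ₁, a₁, e₁⟩ := h₁
  obtain ⟨φ₂, a₂, e₂⟩ := h₂
  refine ⟨Fin.append φ₁ φ₂, ?_, ?_⟩
  · intro i
    refine Fin.addCases (fun i => ?_) (fun i => ?_) i
    · rw [Fin.append_left]
      exact tr_adm_mono (a₁ i) (le_max_left _ _) (le_max_left _ _)
    · rw [Fin.append_right]
      exact tr_adm_mono (a₂ i) (le_max_right _ _) (le_max_right _ _)
  · intro x
    rw [Fin.sum_univ_add]
    simp only [Fin.append_left, Fin.append_right]
    rw [e₁ x, e₂ x]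

theorem tr_neg {b : Prop} {d : ℕ} {m : ℕ} {v : Fin m → E d} {C R : ℝ} {f : E d → ℝ}
    (h : TR b m v C R f) : TR b m v C R (fun x => - f x) := by
  obtain ⟨φ, a, e⟩ := h
  refine ⟨fun i x => - φ i x, fun i => tr_adm_neg (a i), fun x => ?_⟩
  show -f x = ∑ i, (-φ i (x + v i) - -φ i x)
  rw [e x, ← Finset.sum_neg_distrib]
  refine Finset.sum_congr rfl (fun i _ => ?_)
  ring

theorem TR_add {b : Prop} {d : ℕ} (m₁ m₂ : ℕ) (v₁ : Fin m₁ → E d) (v₂ : Fin m₂ → E d) (C₁ R₁ C₂ R₂ : ℝ) :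
    ∃ (m : ℕ) (v : Fin m → E d) (C R : ℝ), ∀ f₁ f₂ : E d → ℝ, TR b m₁ v₁ C₁ R₁ f₁ →
      TR b m₂ v₂ C₂ R₂ f₂ → TR b m v C R (fun x => f₁ x + f₂ x) ∧
        TR b m v C R (fun x => f₁ x - f₂ x) := by
  refine ⟨m₁ + m₂, Fin.append v₁ v₂, max C₁ C₂, max R₁ R₂, fun f₁ f₂ h₁ h₂ => ⟨tr_append h₁ h₂, ?_⟩⟩
  have h := tr_append h₁ (tr_neg h₂)
  simpa only [← sub_eq_add_neg] using h

theorem TR_iso {b : Prop} {d : ℕ} (γ : E d ≃ᵢ E d) (m : ℕ) (v : Fin m → E d) (C R : ℝ) :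
    ∃ (v' : Fin m → E d) (R' : ℝ), ∀ f : E d → ℝ, TR b m v C R f →
      TR b m v' C R' (fun x => f (γ x)) := by
  let e := γ.toRealAffineIsometryEquiv
  have he : ∀ x, e x = γ x := fun x => rfl
  have hv : ∀ (x w : E d), γ (x + e.linearIsometryEquiv.symm w) = γ x + w := by
    intro x w
    have h := e.map_vadd x (e.linearIsometryEquiv.symm w)
    rw [he, he, LinearIsometryEquiv.apply_symm_apply, vadd_eq_add, vadd_eq_add, add_comm] at h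
    rw [h, add_comm]
  refine ⟨fun j => e.linearIsometryEquiv.symm (v j), R + ‖γ 0‖, ?_⟩
  rintro f ⟨φ, a, hf⟩
  refine ⟨fun j x => φ j (γ x), fun j => ⟨(a j).meas.comp γ.continuous.measurable,
    fun x => (a j).bdd _, fun x hx => (a j).supp _ ?_, fun hb x => (a j).int hb _⟩, fun x => ?_⟩
  · have h1 : ‖x‖ = dist (γ x) (γ 0) := by
      rw [γ.dist_eq, dist_zero_right]
    have h2 : dist (γ x) (γ 0) ≤ ‖γ x‖ + ‖γ 0‖ := by
      rw [dist_eq_norm]; exact norm_sub_le _ _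
    linarith
  · show f (γ x) = _
    rw [hf (γ x)]
    refine Finset.sum_congr rfl (fun j _ => ?_)
    show φ j (γ x + v j) - φ j (γ x) =
      φ j (γ (x + e.linearIsometryEquiv.symm (v j))) - φ j (γ x)
    rw [hv x (v j)]


end Pool.Agent.Helper557.Rz
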