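import Pool.Agent.Helper557.Eq.Defs
import Pool.Agent.Helper557.Eq.M_fold

set_option autoImplicit false

open MeasureTheory Set

namespace Pool.Agent.Helper557.Rz

lemma unfold_adm_mono {b : Prop} {d : ℕ} {C R C' R' : ℝ} {φ : E d → ℝ} (h : Adm b C R φ)
    (hC : C ≤ C') (hR : R ≤ R') : Adm b C' R' φ :=
  ⟨h.meas, fun x => (h.bdd x).trans hC, fun x hx => h.supp x (lt_of_le_of_lt hR hx), h.int⟩

lemma unfold_tr_add {b : Prop} {d : ℕ} {m₁ m₂ : ℕ} {v₁ : Fin m₁ → E d} {v₂ : Fin m₂ → E d}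
    {C₁ R₁ C₂ R₂ : ℝ} {f₁ f₂ : E d → ℝ} (h₁ : TR b m₁ v₁ C₁ R₁ f₁) (h₂ : TR b m₂ v₂ C₂ R₂ f₂) :
    TR b (m₁ + m₂) (Fin.append v₁ v₂) (max C₁ C₂) (max R₁ R₂) (fun x => f₁ x + f₂ x) := by
  obtain ⟨φ₁, ha₁, he₁⟩ := h₁
  obtain ⟨φ₂, ha₂, he₂⟩ := h₂
  refine ⟨Fin.append φ₁ φ₂, ?_, ?_⟩
  · intro i
    refine Fin.addCases (fun i => ?_) (fun i => ?_) i
    · rw [Fin.append_left]
      exact unfold_adm_mono (ha₁ i) (le_max_left _ _) (le_max_left _ _)
    · rw [Fin.append_right]
      exact unfold_adm_mono (ha₂ i) (le_max_right _ _) (le_max_right _ _)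
  · intro x
    rw [Fin.sum_univ_add]
    simp only [Fin.append_left, Fin.append_right]
    rw [he₁ x, he₂ x]

lemma unfold_cube_bdd {d : ℕ} (w : E d) : ∃ R : ℝ, ∀ x ∈ cube w 1, ‖x‖ ≤ R := by
  refine ⟨‖w‖ + Real.sqrt (d : ℝ), fun x hx => ?_⟩
  have h1 : ‖x - w‖ ≤ Real.sqrt (d : ℝ) := by
    rw [EuclideanSpace.norm_eq]
    apply Real.sqrt_le_sqrt
    calc ∑ i, ‖(x - w) i‖ ^ 2 ≤ ∑ _i : Fin d, (1 : ℝ) := by
          apply Finset.sum_le_sum
          intro i _
          have := hx i
          have h2 : ‖(x - w) i‖ ≤ 1 := by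
            rw [Real.norm_eq_abs, abs_le, PiLp.sub_apply]
            constructor <;> linarith [this.1, this.2]
          have h3 := norm_nonneg ((x - w) i)
          nlinarith
      _ = d := by simp
  calc ‖x‖ = ‖w + (x - w)‖ := by rw [add_sub_cancel]
    _ ≤ ‖w‖ + ‖x - w‖ := norm_add_le _ _
    _ ≤ _ := by linarith

lemma unfold_cube_meas {d : ℕ} (w : E d) (s : ℝ) : MeasurableSet (cube w s) := by
  have : cube w s = ⋂ i, {x : E d | w i ≤ x i ∧ x i < w i + s} := by
    ext x; simp [cube]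
  rw [this]
  refine MeasurableSet.iInter fun i => ?_
  have hm : Measurable (fun x : E d => x i) :=
    (EuclideanSpace.proj (𝕜 := ℝ) i : E d →L[ℝ] ℝ).continuous.measurable
  exact (measurableSet_le measurable_const hm).inter (measurableSet_lt hm measurable_const)

lemma unfold_zv_apply {d : ℕ} (z : Fin d → ℤ) (i : Fin d) : (zv z : E d) i = z i := rfl

lemma unfold_single (b : Prop) {d : ℕ} (w : E d) (C : ℝ) : ∃ (m' : ℕ) (v' : Fin m' → E d)
    (C' R' : ℝ), ∀ ψ : E d → ℝ, Measurable ψ → Per ψ →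
      (∀ x, |ψ x| ≤ C) → (b → ∀ x, ∃ n : ℤ, ψ x = n) →
      TR b m' v' C' R' (fun x => (cube 0 1).indicator (fun x => ψ (x + w) - ψ x) x) := by
  obtain ⟨R, hR⟩ := unfold_cube_bdd w
  obtain ⟨m, v, C', R', hf⟩ := fold b (d := d) (max C 0) R
  refine ⟨1 + m, Fin.append (fun _ : Fin 1 => w) v, max (max C 0) C', max R R', ?_⟩
  intro ψ hm hp hb hi
  set F : E d → ℝ := (cube w 1).indicator ψ with hF
  have hadm : Adm b (max C 0) R F := by
    refine ⟨hm.indicator (unfold_cube_meas w 1), ?_, ?_, ?_⟩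
    · intro x
      rw [hF]
      by_cases hx : x ∈ cube w 1
      · rw [indicator_of_mem hx]; exact (hb x).trans (le_max_left _ _)
      · rw [indicator_of_notMem hx]; simp
    · intro x hx
      rw [hF]
      apply indicator_of_notMem
      intro hx'
      exact absurd (hR x hx') (not_le.mpr hx)
    · intro hb' x
      rw [hF]
      by_cases hx : x ∈ cube w 1
      · rw [indicator_of_mem hx]; exact hi hb' x
      · rw [indicator_of_notMem hx]; exact ⟨0, by simp⟩
  obtain ⟨f', _, _, _, _, hsum, hTR⟩ := hf F hadm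
  have hf' : f' = ψ := by
    funext x
    rw [hsum x]
    set z₀ : Fin d → ℤ := fun i => ⌈w i - x i⌉ with hz₀
    rw [finsum_eq_single _ z₀]
    · rw [hF, indicator_of_mem]
      · exact hp z₀ x
      · intro i
        rw [PiLp.add_apply, unfold_zv_apply, hz₀]
        have h1 := Int.le_ceil (w i - x i)
        have h2 := Int.ceil_lt_add_one (w i - x i)
        simp only
        constructor <;> linarith
    · intro z hz
      rw [hF]
      apply indicator_of_notMem
      intro hmem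
      apply hz
      funext i
      have := hmem i
      rw [PiLp.add_apply, unfold_zv_apply] at this
      rw [hz₀]
      simp only
      symm
      rw [Int.ceil_eq_iff]
      constructor <;> linarith [this.1, this.2]
  have h1 : TR b 1 (fun _ : Fin 1 => w) (max C 0) R (fun x => F (x + w) - F x) := by
    refine ⟨fun _ => F, fun _ => hadm, fun x => ?_⟩
    simp
  have h2 := unfold_tr_add h1 hTR
  have h3 : (fun x => (cube 0 1).indicator (fun x => ψ (x + w) - ψ x) x) =
      (fun x => (F (x + w) - F x) + (F x - (cube 0 1).indicator f' x)) := by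
    funext x
    rw [hf']
    have hiff : x + w ∈ cube w 1 ↔ x ∈ cube 0 1 := by
      unfold cube
      simp only [mem_setOf_eq, PiLp.add_apply, PiLp.zero_apply, zero_add]
      constructor
      · intro h i
        have := h i
        constructor <;> linarith [this.1, this.2]
      · intro h i
        have := h i
        constructor <;> linarith [this.1, this.2]
    have hFw : F (x + w) = (cube 0 1).indicator (fun x => ψ (x + w)) x := by
      rw [hF]
      by_cases hx : x ∈ cube 0 1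
      · rw [indicator_of_mem (hiff.mpr hx), indicator_of_mem hx]
      · rw [indicator_of_notMem (fun h => hx (hiff.mp h)), indicator_of_notMem hx]
    rw [hFw]
    by_cases hx : x ∈ cube 0 1
    · simp only [indicator_of_mem hx]; ring
    · simp only [indicator_of_notMem hx]; ring
  rw [h3]
  exact h2


theorem unfold (b : Prop) {d m : ℕ} (v : Fin m → E d) (C : ℝ) : ∃ (m' : ℕ) (v' : Fin m' → E d)
    (C' R' : ℝ), ∀ ψ : Fin m → E d → ℝ, (∀ j, Measurable (ψ j)) → (∀ j, Per (ψ j)) →
      (∀ j x, |ψ j x| ≤ C) → (b → ∀ j x, ∃ n : ℤ, ψ j x = n) →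
      TR b m' v' C' R' (fun x => (cube 0 1).indicator (fun x => ∑ j, (ψ j (x + v j) - ψ j x)) x) := by
  induction m with
  | zero =>
    refine ⟨0, Fin.elim0, 0, 0, fun ψ _ _ _ _ => ⟨Fin.elim0, fun i => i.elim0, fun x => ?_⟩⟩
    simp
  | succ m ih =>
    obtain ⟨m₁, v₁, C₁, R₁, h₁⟩ := unfold_single b (v 0) C
    obtain ⟨m₂, v₂, C₂, R₂, h₂⟩ := ih (fun j => v j.succ)
    refine ⟨m₁ + m₂, Fin.append v₁ v₂, max C₁ C₂, max R₁ R₂, ?_⟩
    intro ψ hm hp hb hi
    have e₁ := h₁ (ψ 0) (hm 0) (hp 0) (hb 0) (fun hb' => hi hb' 0)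
    have e₂ := h₂ (fun j => ψ j.succ) (fun j => hm _) (fun j => hp _) (fun j => hb _)
      (fun hb' j => hi hb' _)
    have e := unfold_tr_add e₁ e₂
    have h3 : (fun x => (cube 0 1).indicator (fun x => ∑ j, (ψ j (x + v j) - ψ j x)) x) =
      (fun x => (cube 0 1).indicator (fun x => ψ 0 (x + v 0) - ψ 0 x) x +
        (cube 0 1).indicator (fun x => ∑ j : Fin m, (ψ j.succ (x + v j.succ) - ψ j.succ x)) x) := by
      funext x
      by_cases hx : x ∈ cube 0 1
      · simp only [indicator_of_mem hx]; rw [Fin.sum_univ_succ]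
      · simp only [indicator_of_notMem hx]; ring
    rw [h3]
    exact e


end Pool.Agent.Helper557.Rz
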