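import Pool.Agent.Helper557.Eq.Defs
import Pool.Agent.Helper557.Eq.M_H0
import Pool.Agent.Helper557.Eq.M_fold
import Pool.Agent.Helper557.Eq.M_lift
import Pool.Agent.Helper557.Eq.M_marks
import Pool.Agent.Helper557.Eq.M_tr
import Pool.Agent.Helper557.Eq.M_unfold

set_option autoImplicit false

open MeasureTheory Set

namespace Pool.Agent.Helper557.Rz
/-! ### auxiliary lemmas for T2 -/
theorem T2_adm_mono {b : Prop} {d : ℕ} {C R C' R' : ℝ} (hC : C ≤ C') (hR : R ≤ R') {φ : E d → ℝ}
    (h : Adm b C R φ) : Adm b C' R' φ :=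
  ⟨h.meas, fun x => (h.bdd x).trans hC, fun x hx => h.supp x (hR.trans_lt hx), h.int⟩

theorem T2_TR_mono {b : Prop} {d m : ℕ} {v : Fin m → E d} {C R C' R' : ℝ} (hC : C ≤ C')
    (hR : R ≤ R') {f : E d → ℝ} (h : TR b m v C R f) : TR b m v C' R' f := by
  obtain ⟨φ, h1, h2⟩ := h
  exact ⟨φ, fun i => T2_adm_mono hC hR (h1 i), h2⟩

theorem T2_cube_meas {d : ℕ} : MeasurableSet (cube (0 : E d) 1) := by
  have h : cube (0 : E d) 1 = ⋂ i, {x : E d | (0 : E d) i ≤ x i ∧ x i < (0 : E d) i + 1} := by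
    ext x
    simp [cube]
  rw [h]
  refine MeasurableSet.iInter fun i => ?_
  have hm : Measurable (fun x : E d => x i) := by fun_prop
  exact (measurableSet_le measurable_const hm).inter (measurableSet_lt hm measurable_const)

theorem T2_cube_norm {d : ℕ} (x : E d) (hx : x ∈ cube (0 : E d) 1) : ‖x‖ ≤ d + 1 := by
  have h1 : ‖x‖ ^ 2 ≤ d := by
    rw [EuclideanSpace.norm_sq_eq]
    calc ∑ i, ‖x i‖ ^ 2 ≤ ∑ i : Fin d, (1 : ℝ) := by
          refine Finset.sum_le_sum fun i _ => ?_
          have h := hx i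
          simp only [PiLp.zero_apply, zero_add] at h
          rw [Real.norm_eq_abs, sq_abs]
          nlinarith [h.1, h.2]
      _ = d := by simp
  have h2 : (0 : ℝ) ≤ d := Nat.cast_nonneg d
  nlinarith [norm_nonneg x]


theorem T2 (d : ℕ) (hd : 3 ≤ d) (C R : ℝ) : ∃ (m : ℕ) (v : Fin m → E d) (C' R' : ℝ),
    ∀ φ : E d → ℝ, Adm False C R φ → ∃ w : E d → ℝ, Adm True C' R' w ∧
      TR False m v C' R' (fun x => φ x - w x) := by
  obtain ⟨m1, v1, C1, R1, h1⟩ := fold False (d := d) C R
  obtain ⟨α, ρ, M, B, hM, hρ, hρv, hCm⟩ := exists_marks d hd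
  obtain ⟨m2, v2, C2, R2, h2⟩ := unfold False (![α 0, α 1] : Fin 2 → E d) 1
  obtain ⟨m, v, C3, R3, h3⟩ := TR_add (b := False) m1 m2 v1 v2 C1 R1 C2 R2
  refine ⟨m, v, max C3 (C1 + 2), max R3 (d + 1), fun φ hφ => ?_⟩
  obtain ⟨φ', hm, hper, hbd, -, -, hTR⟩ := h1 φ hφ
  obtain ⟨a, b, ha, hb, hab, hτ⟩ := H0 ρ M B hM (fun x => ((φ' x : ℝ) : TTc))
    ((AddCircle.measurable_mk' (a := (1 : ℝ))).comp hm)
  obtain ⟨A, hAm, hA01, hAa, hAz⟩ := TT_lift a ha
  obtain ⟨B', hBm, hB01, hBb, hBz⟩ := TT_lift b hb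
  have hinv : ∀ z : Fin d → ℤ, ∀ x, a (x + zv z) = a x ∧ b (x + zv z) = b x := fun z =>
    hτ (fun x => x + zv z) (hCm z) (fun x => by simp only [hper z x])
  have hAper : Per A := fun z => hAz z fun x => (hinv z x).1
  have hBper : Per B' := fun z => hBz z fun x => (hinv z x).2
  obtain ⟨W, hW⟩ : ∃ W : E d → ℝ, ∀ x, W x =
    φ' x - (A (x + α 0) - A x) - (B' (x + α 1) - B' x) := ⟨_, fun _ => rfl⟩
  have hWint : ∀ x, ∃ n : ℤ, W x = n := by
    intro x
    apply TT_int
    have e := hab x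
    rw [hρ, hρ] at e
    rw [hW, AddCircle.coe_sub, AddCircle.coe_sub, AddCircle.coe_sub, AddCircle.coe_sub, hAa, hAa,
      hBb, hBb, e]
    abel
  have hWm : Measurable W := by
    have : W = fun x => φ' x - (A (x + α 0) - A x) - (B' (x + α 1) - B' x) := funext hW
    rw [this]
    have e1 : Measurable (fun x : E d => A (x + α 0)) := hAm.comp (measurable_add_const _)
    have e2 : Measurable (fun x : E d => B' (x + α 1)) := hBm.comp (measurable_add_const _)
    exact (hm.sub (e1.sub hAm)).sub (e2.sub hBm)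
  have hWb : ∀ x, |W x| ≤ C1 + 2 := by
    intro x
    rw [hW, abs_le]
    have e1 := abs_le.1 (hbd x)
    have e2 := hA01 x
    have e3 := hA01 (x + α 0)
    have e4 := hB01 x
    have e5 := hB01 (x + α 1)
    constructor <;> linarith [e1.1, e1.2, e2.1, e2.2, e3.1, e3.2, e4.1, e4.2, e5.1, e5.2]
  refine ⟨(cube 0 1).indicator W, ?_, ?_⟩
  · have hadm : Adm True (C1 + 2) (d + 1) ((cube (0 : E d) 1).indicator W) := by
      refine ⟨hWm.indicator T2_cube_meas, fun x => ?_, fun x hx => ?_, fun _ x => ?_⟩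
      · by_cases h : x ∈ cube (0 : E d) 1
        · rw [Set.indicator_of_mem h]
          exact hWb x
        · rw [Set.indicator_of_notMem h, abs_zero]
          exact (abs_nonneg _).trans (hWb x)
      · rw [Set.indicator_of_notMem]
        intro h
        exact absurd (T2_cube_norm x h) (not_le.2 hx)
      · by_cases h : x ∈ cube (0 : E d) 1
        · rw [Set.indicator_of_mem h]
          exact hWint x
        · rw [Set.indicator_of_notMem h]
          exact ⟨0, by simp⟩
    exact T2_adm_mono (le_max_right _ _) (le_max_right _ _) hadm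
  · have e1 := h2 ![A, B'] (by
      intro j
      fin_cases j
      · exact hAm
      · exact hBm) (by
      intro j
      fin_cases j
      · exact hAper
      · exact hBper) (by
      intro j x
      fin_cases j
      · exact abs_le.2 ⟨by have := (hA01 x).1; simp; linarith, (hA01 x).2.le⟩
      · exact abs_le.2 ⟨by have := (hB01 x).1; simp; linarith, (hB01 x).2.le⟩) (fun h => h.elim)
    have e2 := (h3 _ _ hTR e1).1
    have e3 : (fun x => φ x - (cube 0 1).indicator W x) = (fun x =>
        (φ x - (cube 0 1).indicator φ' x) + (cube 0 1).indicator (fun x => ∑ j : Fin 2,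
          ((![A, B'] : Fin 2 → E d → ℝ) j (x + (![α 0, α 1] : Fin 2 → E d) j) -
            (![A, B'] : Fin 2 → E d → ℝ) j x)) x) := by
      ext x
      by_cases h : x ∈ cube (0 : E d) 1
      · rw [Set.indicator_of_mem h, Set.indicator_of_mem h, Set.indicator_of_mem h, hW,
          Fin.sum_univ_two]
        simp only [Matrix.cons_val_zero, Matrix.cons_val_one]
        ring
      · rw [Set.indicator_of_notMem h, Set.indicator_of_notMem h, Set.indicator_of_notMem h]
        ring
    rw [e3]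
    exact T2_TR_mono (le_max_left _ _) (le_max_left _ _) e2


end Pool.Agent.Helper557.Rz
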