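import Pool.Agent.Helper557.Eq.Defs
import Pool.Agent.Helper557.Eq.M_H0
import Pool.Agent.Helper557.Eq.M_H1
import Pool.Agent.Helper557.Eq.M_lift
import Pool.Agent.Helper557.Eq.M_marks

set_option autoImplicit false

open MeasureTheory Set

namespace Pool.Agent.Helper557.Rz

theorem TZ_meas {d : ℕ} {A : E d → ℝ} (hA : Measurable A) (v : E d) :
    Measurable (fun x => A (x + v) - A x) :=
  (hA.comp (measurable_add_const v)).sub hA

theorem TZ_per {d : ℕ} {A : E d → ℝ} (hA : Per A) (v : E d) :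
    Per (fun x => A (x + v) - A x) := by
  intro z x
  change A (x + zv z + v) - A (x + zv z) = A (x + v) - A x
  rw [add_right_comm, hA z, hA z]

theorem TZ_abs {a b : ℝ} (ha : 0 ≤ a ∧ a < 1) (hb : 0 ≤ b ∧ b < 1) : |a - b| ≤ 1 := by
  rw [abs_le]
  constructor <;> linarith [ha.1, ha.2, hb.1, hb.2]

theorem TZ (d : ℕ) (hd : 3 ≤ d) (m : ℕ) (v : Fin m → E d) (C : ℝ) :
    ∃ (m' : ℕ) (v' : Fin m' → E d) (C' : ℝ), ∀ (f : E d → ℝ) (φ : Fin m → E d → ℝ),
      (∀ x, ∃ n : ℤ, f x = n) → (∀ j, Measurable (φ j)) → (∀ j, Per (φ j)) →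
      (∀ j x, |φ j x| ≤ C) → (∀ x, f x = ∑ j, (φ j (x + v j) - φ j x)) →
      ∃ ψ : Fin m' → E d → ℝ, (∀ j, Measurable (ψ j)) ∧ (∀ j, Per (ψ j)) ∧
        (∀ j x, |ψ j x| ≤ C') ∧ (∀ j x, ∃ n : ℤ, ψ j x = n) ∧
        ∀ x, f x = ∑ j, (ψ j (x + v' j) - ψ j x) := by
  obtain ⟨α, ρ, M, B, hM, hρ, -, hCm⟩ := exists_marks d hd
  refine ⟨m + 3, Fin.append v α, |C| + m + 2, ?_⟩
  intro f φ hf hφm hφp hφC hfφ
  have hcoe : ∀ {g : E d → ℝ}, Measurable g → Measurable (fun x => (g x : TTc)) := by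
    intro g hg
    exact (AddCircle.continuous_mk' (1:ℝ)).measurable.comp hg
  have h0 : ∀ j, ∃ A Bf : E d → ℝ, Measurable A ∧ Measurable Bf ∧
      (∀ x, 0 ≤ A x ∧ A x < 1) ∧ (∀ x, 0 ≤ Bf x ∧ Bf x < 1) ∧ Per A ∧ Per Bf ∧
      ∀ x, ∃ n : ℤ, φ j x - (A (x + α 0) - A x) - (Bf (x + α 1) - Bf x) = n := by
    intro j
    obtain ⟨a, b, ha, hb, hab, hinv⟩ := H0 ρ M B hM (fun x => (φ j x : TTc)) (hcoe (hφm j))
    obtain ⟨A, hA, hA1, hA2, hA3⟩ := TT_lift a ha
    obtain ⟨Bf, hB, hB1, hB2, hB3⟩ := TT_lift b hb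
    have hper : ∀ z : Fin d → ℤ, ∀ x, a (x + zv z) = a x ∧ b (x + zv z) = b x := by
      intro z
      apply hinv (fun x => x + zv z) (hCm z)
      intro x
      change ((φ j (x + zv z) : ℝ) : TTc) = _
      rw [hφp j z x]
    refine ⟨A, Bf, hA, hB, hA1, hB1, fun z => hA3 z (fun x => (hper z x).1),
      fun z => hB3 z (fun x => (hper z x).2), ?_⟩
    intro x
    apply TT_int
    have h := hab x
    rw [hρ, hρ, ← hA2, ← hA2, ← hB2, ← hB2] at h
    rw [AddCircle.coe_sub, AddCircle.coe_sub, h, AddCircle.coe_sub, AddCircle.coe_sub]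
    abel
  choose A Bf hA hB hA1 hB1 hAp hBp hW using h0
  obtain ⟨W, hWdef⟩ : ∃ W : Fin m → E d → ℝ, W = fun j x =>
    φ j x - (A j (x + α 0) - A j x) - (Bf j (x + α 1) - Bf j x) := ⟨_, rfl⟩
  obtain ⟨F1, hF1⟩ : ∃ F1 : E d → ℝ, F1 = fun x => ∑ j, (A j (x + v j) - A j x) := ⟨_, rfl⟩
  obtain ⟨G1, hG1⟩ : ∃ G1 : E d → ℝ, G1 = fun x => ∑ j, (Bf j (x + v j) - Bf j x) := ⟨_, rfl⟩
  have hF1m : Measurable F1 := by
    rw [hF1]; exact Finset.measurable_sum _ (fun j _ => TZ_meas (hA j) _)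
  have hG1m : Measurable G1 := by
    rw [hG1]; exact Finset.measurable_sum _ (fun j _ => TZ_meas (hB j) _)
  have hF1p : Per F1 := by
    intro z x
    rw [hF1]
    exact Finset.sum_congr rfl (fun j _ => TZ_per (hAp j) (v j) z x)
  have hG1p : Per G1 := by
    intro z x
    rw [hG1]
    exact Finset.sum_congr rfl (fun j _ => TZ_per (hBp j) (v j) z x)
  have hF1b : ∀ x, |F1 x| ≤ m := by
    intro x
    rw [hF1]
    refine (Finset.abs_sum_le_sum_abs _ _).trans ?_
    refine (Finset.sum_le_sum (fun j _ => TZ_abs (hA1 j _) (hA1 j _))).trans ?_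
    simp
  have hG1b : ∀ x, |G1 x| ≤ m := by
    intro x
    rw [hG1]
    refine (Finset.abs_sum_le_sum_abs _ _).trans ?_
    refine (Finset.sum_le_sum (fun j _ => TZ_abs (hB1 j _) (hB1 j _))).trans ?_
    simp
  have hmain : ∀ x, f x - ∑ j, (W j (x + v j) - W j x) =
      (F1 (x + α 0) - F1 x) + (G1 (x + α 1) - G1 x) := by
    intro x
    rw [hfφ x, hWdef, hF1, hG1]
    simp only [← Finset.sum_sub_distrib, ← Finset.sum_add_distrib]
    refine Finset.sum_congr rfl fun j _ => ?_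
    rw [add_right_comm x (v j) (α 0), add_right_comm x (v j) (α 1)]
    ring
  have hWi : ∀ j x, ∃ n : ℤ, W j x = n := by
    intro j x
    rw [hWdef]
    exact hW j x
  have hz : ∀ x, ((F1 (ρ 0 x) : TTc) - (F1 x : TTc)) + ((G1 (ρ 1 x) : TTc) - (G1 x : TTc)) = 0 := by
    intro x
    rw [hρ, hρ, ← AddCircle.coe_sub, ← AddCircle.coe_sub, ← AddCircle.coe_add, ← hmain x]
    choose nW hnW using hWi
    obtain ⟨nf, hnf⟩ := hf x
    rw [hnf]
    have : (nf : ℝ) - ∑ j, (W j (x + v j) - W j x) =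
        ((nf - ∑ j, (nW j (x + v j) - nW j x) : ℤ) : ℝ) := by
      push_cast
      simp only [hnW]
    rw [this]
    exact (AddCircle.coe_eq_zero_iff (1:ℝ)).2 ⟨nf - ∑ j, (nW j (x + v j) - nW j x), by simp⟩
  obtain ⟨w, u, v1, hw, hu, hv1, e1, e2, e3, hinv⟩ := H1 ρ M B hM (fun x => (F1 x : TTc))
    (fun x => (G1 x : TTc)) (hcoe hF1m) (hcoe hG1m) hz
  have hper : ∀ z : Fin d → ℤ, ∀ x, w (x + zv z) = w x ∧ u (x + zv z) = u x ∧
      v1 (x + zv z) = v1 x := by
    intro z
    apply hinv (fun x => x + zv z) (hCm z)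
    · intro x
      change ((F1 (x + zv z) : ℝ) : TTc) = _
      rw [hF1p z x]
    · intro x
      change ((G1 (x + zv z) : ℝ) : TTc) = _
      rw [hG1p z x]
  obtain ⟨wR, hwR, hwR1, hwR2, hwR3⟩ := TT_lift w hw
  obtain ⟨uR, huR, huR1, huR2, huR3⟩ := TT_lift u hu
  obtain ⟨vR, hvR, hvR1, hvR2, hvR3⟩ := TT_lift v1 hv1
  have hwp : Per wR := fun z => hwR3 z (fun x => (hper z x).1)
  have hup : Per uR := fun z => huR3 z (fun x => (hper z x).2.1)
  have hvp : Per vR := fun z => hvR3 z (fun x => (hper z x).2.2)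
  obtain ⟨P, hP⟩ : ∃ P : Fin 3 → E d → ℝ, P = ![
    fun x => F1 x - (wR (x + α 1) - wR x) - (uR (x + α 2) - uR x),
    fun x => G1 x + (wR (x + α 0) - wR x) - (vR (x + α 2) - vR x),
    fun x => (uR (x + α 0) - uR x) + (vR (x + α 1) - vR x)] := ⟨_, rfl⟩
  have hP0 : P 0 = fun x => F1 x - (wR (x + α 1) - wR x) - (uR (x + α 2) - uR x) := by
    rw [hP]; rfl
  have hP1 : P 1 = fun x => G1 x + (wR (x + α 0) - wR x) - (vR (x + α 2) - vR x) := by
    rw [hP]; rfl
  have hP2 : P 2 = fun x => (uR (x + α 0) - uR x) + (vR (x + α 1) - vR x) := by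
    rw [hP]; rfl
  have hC0 : 0 ≤ |C| := abs_nonneg C
  have hm0 : (0:ℝ) ≤ m := Nat.cast_nonneg m
  refine ⟨Fin.append W P, ?_, ?_, ?_, ?_, ?_⟩
  · intro j
    refine Fin.addCases (fun j => ?_) (fun j => ?_) j
    · rw [Fin.append_left, hWdef]
      exact ((hφm j).sub (TZ_meas (hA j) _)).sub (TZ_meas (hB j) _)
    · rw [Fin.append_right]
      fin_cases j
      · change Measurable (P 0)
        rw [hP0]
        exact (hF1m.sub (TZ_meas hwR _)).sub (TZ_meas huR _)
      · change Measurable (P 1)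
        rw [hP1]
        exact (hG1m.add (TZ_meas hwR _)).sub (TZ_meas hvR _)
      · change Measurable (P 2)
        rw [hP2]
        exact (TZ_meas huR _).add (TZ_meas hvR _)
  · intro j
    refine Fin.addCases (fun j => ?_) (fun j => ?_) j
    · rw [Fin.append_left]
      intro z x
      rw [hWdef]
      have h1 := TZ_per (hAp j) (α 0) z x
      have h2 := TZ_per (hBp j) (α 1) z x
      have h3 := hφp j z x
      simp only at h1 h2 ⊢
      rw [h1, h2, h3]
    · rw [Fin.append_right]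
      fin_cases j
      · change Per (P 0)
        intro z x
        rw [hP0]
        have h1 := TZ_per hwp (α 1) z x
        have h2 := TZ_per hup (α 2) z x
        have h3 := hF1p z x
        simp only at h1 h2 ⊢
        rw [h1, h2, h3]
      · change Per (P 1)
        intro z x
        rw [hP1]
        have h1 := TZ_per hwp (α 0) z x
        have h2 := TZ_per hvp (α 2) z x
        have h3 := hG1p z x
        simp only at h1 h2 ⊢
        rw [h1, h2, h3]
      · change Per (P 2)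
        intro z x
        rw [hP2]
        have h1 := TZ_per hup (α 0) z x
        have h2 := TZ_per hvp (α 1) z x
        simp only at h1 h2 ⊢
        rw [h1, h2]
  · intro j x
    refine Fin.addCases (fun j => ?_) (fun j => ?_) j
    · rw [Fin.append_left, hWdef]
      have h1 := abs_le.1 (TZ_abs (hA1 j (x + α 0)) (hA1 j x))
      have h2 := abs_le.1 (TZ_abs (hB1 j (x + α 1)) (hB1 j x))
      have h3 := abs_le.1 ((hφC j x).trans (le_abs_self C))
      rw [abs_le]
      constructor <;> linarith [h1.1, h1.2, h2.1, h2.2, h3.1, h3.2]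
    · rw [Fin.append_right]
      have h1 := abs_le.1 (TZ_abs (hwR1 (x + α 1)) (hwR1 x))
      have h2 := abs_le.1 (TZ_abs (huR1 (x + α 2)) (huR1 x))
      have h3 := abs_le.1 (TZ_abs (hwR1 (x + α 0)) (hwR1 x))
      have h4 := abs_le.1 (TZ_abs (hvR1 (x + α 2)) (hvR1 x))
      have h5 := abs_le.1 (TZ_abs (huR1 (x + α 0)) (huR1 x))
      have h6 := abs_le.1 (TZ_abs (hvR1 (x + α 1)) (hvR1 x))
      have h7 := abs_le.1 (hF1b x)
      have h8 := abs_le.1 (hG1b x)
      fin_cases j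
      · change |P 0 x| ≤ _
        rw [hP0, abs_le]
        constructor <;> linarith [h1.1, h1.2, h2.1, h2.2, h7.1, h7.2]
      · change |P 1 x| ≤ _
        rw [hP1, abs_le]
        constructor <;> linarith [h3.1, h3.2, h4.1, h4.2, h8.1, h8.2]
      · change |P 2 x| ≤ _
        rw [hP2, abs_le]
        constructor <;> linarith [h5.1, h5.2, h6.1, h6.2]
  · intro j x
    refine Fin.addCases (fun j => ?_) (fun j => ?_) j
    · rw [Fin.append_left]
      exact hWi j x
    · rw [Fin.append_right]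
      fin_cases j
      · change ∃ n : ℤ, P 0 x = n
        apply TT_int
        rw [hP0]
        have h := e1 x
        rw [hρ, hρ, ← hwR2, ← hwR2, ← huR2, ← huR2] at h
        simp only [AddCircle.coe_sub]
        rw [h]
        abel
      · change ∃ n : ℤ, P 1 x = n
        apply TT_int
        rw [hP1]
        have h := e2 x
        rw [hρ, hρ, ← hwR2, ← hwR2, ← hvR2, ← hvR2] at h
        simp only [AddCircle.coe_sub, AddCircle.coe_add]
        rw [h]
        abel
      · change ∃ n : ℤ, P 2 x = n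
        apply TT_int
        rw [hP2]
        have h := e3 x
        rw [hρ, hρ, ← huR2, ← huR2, ← hvR2, ← hvR2] at h
        simp only [AddCircle.coe_sub, AddCircle.coe_add]
        exact h
  · intro x
    rw [Fin.sum_univ_add]
    simp only [Fin.append_left, Fin.append_right]
    rw [Fin.sum_univ_three]
    have h := hmain x
    rw [sub_eq_iff_eq_add] at h
    rw [h, hP0, hP1, hP2]
    simp only
    rw [add_right_comm x (α 1) (α 0), add_right_comm x (α 2) (α 0), add_right_comm x (α 2) (α 1)]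
    ring


end Pool.Agent.Helper557.Rz
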