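import Pool.Agent.Helper557.Eq.Defs

set_option autoImplicit false

open MeasureTheory Set

namespace Pool.Agent.Helper557.Rz

theorem foldsum_fin {d : ℕ} (R : ℝ) (y : E d) : {z : Fin d → ℤ | ‖y + zv z‖ ≤ R}.Finite := by
  refine (Set.finite_Icc (fun _ : Fin d => -⌈R + ‖y‖⌉) (fun _ : Fin d => ⌈R + ‖y‖⌉)).subset ?_
  intro z hz
  have hz' : ‖y + zv z‖ ≤ R := hz
  have h1 : ‖zv z‖ ≤ R + ‖y‖ := by
    calc ‖zv z‖ = ‖(y + zv z) - y‖ := by rw [add_sub_cancel_left]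
      _ ≤ ‖y + zv z‖ + ‖y‖ := norm_sub_le _ _
      _ ≤ R + ‖y‖ := by linarith
  have h2 : ∀ i, |(z i : ℝ)| ≤ R + ‖y‖ := by
    intro i
    have h3 : ‖(zv z) i‖ ≤ ‖zv z‖ := PiLp.norm_apply_le (zv z) i
    have h4 : (zv z) i = (z i : ℝ) := rfl
    rw [h4, Real.norm_eq_abs] at h3
    exact h3.trans h1
  rw [Set.mem_Icc, Pi.le_def, Pi.le_def]
  refine ⟨fun i => ?_, fun i => ?_⟩
  · have := (abs_le.mp (h2 i)).1
    have h5 : ((-⌈R + ‖y‖⌉ : ℤ) : ℝ) ≤ (z i : ℝ) := by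
      push_cast
      have := Int.le_ceil (R + ‖y‖)
      linarith
    exact_mod_cast h5
  · have := (abs_le.mp (h2 i)).2
    have h5 : (z i : ℝ) ≤ ((⌈R + ‖y‖⌉ : ℤ) : ℝ) := by
      have := Int.le_ceil (R + ‖y‖)
      linarith
    exact_mod_cast h5

theorem foldsum_supp {d : ℕ} (C R : ℝ) (φ : E d → ℝ) (hφ : Adm False C R φ) (y : E d) :
    (Function.support fun z : Fin d → ℤ => φ (y + zv z)).Finite := by
  refine (foldsum_fin R y).subset ?_
  intro z hz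
  by_contra hcon
  have hcon' : ¬ ‖y + zv z‖ ≤ R := hcon
  exact hz (hφ.supp _ (not_le.mp hcon'))

theorem fold_sum {d : ℕ} (C R : ℝ) (m : ℕ) (v : Fin m → E d) (f : E d → ℝ) (φ : Fin m → E d → ℝ)
    (hφ : ∀ j, Adm False C R (φ j)) (h : ∀ x, f x = ∑ j, (φ j (x + v j) - φ j x)) (x : E d) :
    ∑ᶠ z : Fin d → ℤ, f (x + zv z) = ∑ j, ((∑ᶠ z : Fin d → ℤ, φ j (x + v j + zv z)) -
      ∑ᶠ z : Fin d → ℤ, φ j (x + zv z)) := by
  have h1 : ∀ z : Fin d → ℤ, f (x + zv z) =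
      ∑ j, (φ j (x + v j + zv z) - φ j (x + zv z)) := by
    intro z
    rw [h]
    refine Finset.sum_congr rfl fun j _ => ?_
    rw [add_right_comm]
  have hF : ∀ j, (Function.support fun z : Fin d → ℤ => φ j (x + v j + zv z)).Finite :=
    fun j => foldsum_supp C R (φ j) (hφ j) (x + v j)
  have hG : ∀ j, (Function.support fun z : Fin d → ℤ => φ j (x + zv z)).Finite :=
    fun j => foldsum_supp C R (φ j) (hφ j) x
  rw [finsum_congr h1, finsum_sum_comm]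
  · refine Finset.sum_congr rfl fun j _ => ?_
    exact finsum_sub_distrib (hF j) (hG j)
  · intro j _
    refine ((hF j).union (hG j)).subset ?_
    exact Function.support_sub _ _


end Pool.Agent.Helper557.Rz
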