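import Pool.Agent.Helper557.Eq.Defs
import Pool.Agent.Helper557.Eq.M_TZ
import Pool.Agent.Helper557.Eq.M_fold
import Pool.Agent.Helper557.Eq.M_foldsum
import Pool.Agent.Helper557.Eq.M_uc
import Pool.Agent.Helper557.Eq.M_unfold

set_option autoImplicit false

open MeasureTheory Set

namespace Pool.Agent.Helper557.Rz

theorem T3 (d : ℕ) (hd : 3 ≤ d) (m : ℕ) (v : Fin m → E d) (C R C₁ R₁ : ℝ) :
    UC True {f : E d → ℝ | Adm True C₁ R₁ f ∧ TR False m v C R f} := by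
  obtain ⟨m0, v0, C0, R0, hfold⟩ := fold True (d := d) C₁ R₁
  obtain ⟨m1, v1, C', R', hfoldφ⟩ := fold False (d := d) C R
  obtain ⟨m2, v2, C2, hTZ⟩ := TZ d hd m v C'
  obtain ⟨m3, v3, C3, R3, hunf⟩ := unfold True v2 C2
  refine UC_mono ?_ (UC_add (UC_TR True v3 C3 R3) (UC_TR True v0 C0 R0))
  rintro f ⟨hf, φ, hφ, hfφ⟩
  obtain ⟨f', hf'm, hf'p, hf'b, hf'i, hf's, hTR⟩ := hfold f hf
  choose φ' hφ'm hφ'p hφ'b hφ'i hφ's hφ'T using fun j => hfoldφ (φ j) (hφ j)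
  have hTR' := hTR
  have hdiv : ∀ x, f' x = ∑ j, (φ' j (x + v j) - φ' j x) := by
    intro x
    rw [hf's, fold_sum C R m v f φ hφ hfφ x]
    refine Finset.sum_congr rfl fun j _ => ?_
    rw [hφ's, hφ's]
  have hb : ∀ j x, |φ' j x| ≤ C' := by
    intro j x
    exact hφ'b j x
  obtain ⟨ψ, hψm, hψp, hψb, hψi, hψ⟩ := hTZ f' φ' (hf'i trivial) hφ'm hφ'p hb hdiv
  have h1 := hunf ψ hψm hψp hψb (fun _ => hψi)
  have h2 : (fun x => (cube 0 1).indicator (fun x => ∑ j, (ψ j (x + v2 j) - ψ j x)) x) =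
      (cube (0 : E d) 1).indicator f' := by
    have h3 : (fun x => ∑ j, (ψ j (x + v2 j) - ψ j x)) = f' := funext fun x => (hψ x).symm
    rw [h3]
  rw [h2] at h1
  exact ⟨(cube (0 : E d) 1).indicator f', h1,
    fun x => f x - (cube (0 : E d) 1).indicator f' x, hTR', fun x => by ring⟩


end Pool.Agent.Helper557.Rz
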