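import Pool.Agent.Helper557.Eq.Defs

set_option autoImplicit false

open MeasureTheory Set

namespace Pool.Agent.Helper557.Rz

theorem Eqd_refl {d : ℕ} (F : E d → ℕ) (hF : Measurable F) : Eqd F F :=
  ⟨1, fun _ => IsometryEquiv.refl _, fun _ => F, fun _ => hF, fun x => by simp, fun x => by simp; rfl⟩

theorem Eqd_symm {d : ℕ} {F G : E d → ℕ} (h : Eqd F G) : Eqd G F := by
  obtain ⟨k, γ, w, hw, hF, hG⟩ := h
  refine ⟨k, fun i => (γ i).symm, fun i x => w i ((γ i).symm x),
    fun i => (hw i).comp (γ i).symm.continuous.measurable, hG, fun x => ?_⟩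
  rw [hF]
  simp

theorem Eqd_add {d : ℕ} {F G F' G' : E d → ℕ} (h : Eqd F G) (h' : Eqd F' G') :
    Eqd (fun x => F x + F' x) (fun x => G x + G' x) := by
  obtain ⟨k, γ, w, hw, hF, hG⟩ := h
  obtain ⟨k', γ', w', hw', hF', hG'⟩ := h'
  refine ⟨k + k', Fin.append γ γ', Fin.append w w', ?_, fun x => ?_, fun x => ?_⟩
  · intro i
    refine Fin.addCases (fun i => ?_) (fun i => ?_) i
    · rw [Fin.append_left]; exact hw i
    · rw [Fin.append_right]; exact hw' i
  · rw [Fin.sum_univ_add]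
    simp only [hF, hF', Fin.append_left, Fin.append_right]
  · rw [Fin.sum_univ_add]
    simp only [hG, hG', Fin.append_left, Fin.append_right]

theorem Eqd_iso {d : ℕ} (γ : E d ≃ᵢ E d) (F : E d → ℕ) (hF : Measurable F) :
    Eqd F (fun x => F (γ x)) :=
  ⟨1, fun _ => γ.symm, fun _ => F, fun _ => hF, fun x => by simp, fun x => by simp⟩

theorem Eqd_meas {d : ℕ} {F G : E d → ℕ} (h : Eqd F G) : Measurable F ∧ Measurable G := by
  obtain ⟨k, γ, w, hw, hF, hG⟩ := h
  constructor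
  · rw [funext hF]
    exact Finset.measurable_fun_sum _ fun i _ => hw i
  · rw [funext hG]
    exact Finset.measurable_fun_sum _ fun i _ => (hw i).comp (γ i).symm.continuous.measurable

/-- the isometry `x ↦ t γ (x / t)` -/
noncomputable def eqd_conj {d : ℕ} (t : ℝ) (ht : 0 < t) (γ : E d ≃ᵢ E d) : E d ≃ᵢ E d where
  toFun x := t • γ (t⁻¹ • x)
  invFun x := t • γ.symm (t⁻¹ • x)
  left_inv x := by
    simp only [smul_smul, inv_mul_cancel₀ ht.ne', one_smul, IsometryEquiv.symm_apply_apply,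
      mul_inv_cancel₀ ht.ne']
  right_inv x := by
    simp only [smul_smul, inv_mul_cancel₀ ht.ne', one_smul, IsometryEquiv.apply_symm_apply,
      mul_inv_cancel₀ ht.ne']
  isometry_toFun := Isometry.of_dist_eq fun x y => by
    rw [dist_smul₀, γ.dist_eq, dist_smul₀, ← mul_assoc, ← norm_mul, mul_inv_cancel₀ ht.ne', norm_one, one_mul]

theorem Eqd_scale {d : ℕ} {F G : E d → ℕ} (h : Eqd F G) (t : ℝ) (ht : 0 < t) :
    Eqd (fun x => F (t⁻¹ • x)) (fun x => G (t⁻¹ • x)) := by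
  obtain ⟨k, γ, w, hw, hF, hG⟩ := h
  refine ⟨k, fun i => eqd_conj t ht (γ i), fun i x => w i (t⁻¹ • x),
    fun i => (hw i).comp (measurable_const_smul _), fun x => hF _, fun x => ?_⟩
  beta_reduce
  rw [hG]
  apply Finset.sum_congr rfl
  intro i _
  show w i ((γ i).symm (t⁻¹ • x)) = w i (t⁻¹ • (t • (γ i).symm (t⁻¹ • x)))
  rw [smul_smul, inv_mul_cancel₀ ht.ne', one_smul]


end Pool.Agent.Helper557.Rz
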