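import Pool.Agent.Helper557.Eq.Defs

set_option autoImplicit false

open MeasureTheory Set

namespace Pool.Agent.Helper557.Rz

theorem eqdtr_upd {k : ℕ} (a : Fin k → ℕ) (i0 : Fin k) (h : a i0 ≠ 0) (i : Fin k) :
    Function.update a i0 (a i0 - 1) i + (if i = i0 then 1 else 0) = a i := by
  by_cases hi : i = i0
  · subst hi
    rw [Function.update_self, if_pos rfl]
    omega
  · rw [Function.update_of_ne hi, if_neg hi, add_zero]

theorem eqdtr_mat (k l : ℕ) : ∀ (n : ℕ) (a : Fin k → ℕ) (u : Fin l → ℕ), ∑ i, a i = n →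
    ∑ j, u j = n → ∃ c : Fin k → Fin l → ℕ, (∀ i, ∑ j, c i j = a i) ∧
      (∀ j, ∑ i, c i j = u j) := by
  intro n
  induction n with
  | zero =>
    intro a u ha hu
    rw [Finset.sum_eq_zero_iff] at ha hu
    refine ⟨fun _ _ => 0, fun i => ?_, fun j => ?_⟩
    · simp [ha i (Finset.mem_univ i)]
    · simp [hu j (Finset.mem_univ j)]
  | succ n ih =>
    intro a u ha hu
    have h1 : ∃ i0, a i0 ≠ 0 := by
      by_contra hcon
      push Not at hcon
      rw [Finset.sum_eq_zero (fun i _ => hcon i)] at ha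
      omega
    have h2 : ∃ j0, u j0 ≠ 0 := by
      by_contra hcon
      push Not at hcon
      rw [Finset.sum_eq_zero (fun i _ => hcon i)] at hu
      omega
    obtain ⟨i0, hi0⟩ := h1
    obtain ⟨j0, hj0⟩ := h2
    have ha' : ∑ i, Function.update a i0 (a i0 - 1) i = n := by
      have h3 : ∑ i, (Function.update a i0 (a i0 - 1) i + (if i = i0 then 1 else 0)) = n + 1 := by
        rw [← ha]
        exact Finset.sum_congr rfl fun i _ => eqdtr_upd a i0 hi0 i
      rw [Finset.sum_add_distrib, Finset.sum_ite_eq'] at h3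
      simpa using h3
    have hu' : ∑ i, Function.update u j0 (u j0 - 1) i = n := by
      have h3 : ∑ i, (Function.update u j0 (u j0 - 1) i + (if i = j0 then 1 else 0)) = n + 1 := by
        rw [← hu]
        exact Finset.sum_congr rfl fun i _ => eqdtr_upd u j0 hj0 i
      rw [Finset.sum_add_distrib, Finset.sum_ite_eq'] at h3
      simpa using h3
    obtain ⟨c, hc1, hc2⟩ := ih _ _ ha' hu'
    refine ⟨fun i j => c i j + (if i = i0 then (if j = j0 then 1 else 0) else 0),
      fun i => ?_, fun j => ?_⟩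
    · rw [Finset.sum_add_distrib, hc1, ← eqdtr_upd a i0 hi0 i]
      congr 1
      by_cases hi : i = i0
      · simp [hi]
      · simp [hi]
    · rw [Finset.sum_add_distrib, hc2, ← eqdtr_upd u j0 hj0 j]
      congr 1
      simp

open Classical in
/-- a matrix with given marginals -/
noncomputable def eqdtr_Phi {k l : ℕ} (p : (Fin k → ℕ) × (Fin l → ℕ)) : Fin k → Fin l → ℕ :=
  if h : ∑ i, p.1 i = ∑ j, p.2 j then (eqdtr_mat k l _ p.1 p.2 h rfl).choose else 0

theorem eqdtr_Phi_spec {k l : ℕ} (p : (Fin k → ℕ) × (Fin l → ℕ))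
    (h : ∑ i, p.1 i = ∑ j, p.2 j) : (∀ i, ∑ j, eqdtr_Phi p i j = p.1 i) ∧
      (∀ j, ∑ i, eqdtr_Phi p i j = p.2 j) := by
  unfold eqdtr_Phi
  rw [dif_pos h]
  exact (eqdtr_mat k l _ p.1 p.2 h rfl).choose_spec

theorem Eqd_trans {d : ℕ} {F G H : E d → ℕ} (h : Eqd F G) (h' : Eqd G H) : Eqd F H := by
  obtain ⟨k, γ, w, hw, hF, hG⟩ := h
  obtain ⟨l, δ, v, hv, hG', hH⟩ := h'
  let P : E d → (Fin k → ℕ) × (Fin l → ℕ) := fun y => (fun i => w i ((γ i).symm y), fun j => v j y)
  have hP : Measurable P := by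
    refine Measurable.prodMk ?_ ?_
    · refine measurable_pi_lambda _ fun i => ?_
      exact (hw i).comp (γ i).symm.continuous.measurable
    · exact measurable_pi_lambda _ fun j => hv j
  have hPs : ∀ y, ∑ i, (P y).1 i = ∑ j, (P y).2 j := fun y => by
    show ∑ i, w i ((γ i).symm y) = ∑ j, v j y
    rw [← hG, ← hG']
  have hspec := fun y => eqdtr_Phi_spec (P y) (hPs y)
  have hPhi : ∀ i j, Measurable (fun p : (Fin k → ℕ) × (Fin l → ℕ) => eqdtr_Phi p i j) :=
    fun i j => Measurable.of_discrete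
  refine ⟨k * l, fun q => (γ (finProdFinEquiv.symm q).1).trans (δ (finProdFinEquiv.symm q).2),
    fun q x => eqdtr_Phi (P (γ (finProdFinEquiv.symm q).1 x)) (finProdFinEquiv.symm q).1
      (finProdFinEquiv.symm q).2, ?_, ?_, ?_⟩
  · intro q
    exact (hPhi _ _).comp (hP.comp (γ _).continuous.measurable)
  · intro x
    rw [← Equiv.sum_comp finProdFinEquiv]
    simp only [Equiv.symm_apply_apply]
    rw [Fintype.sum_prod_type, hF]
    refine Finset.sum_congr rfl fun i _ => ?_
    have h1 := (hspec (γ i x)).1 i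
    have h2 : (P (γ i x)).1 i = w i x := by
      show w i ((γ i).symm (γ i x)) = w i x
      rw [(γ i).symm_apply_apply]
    rw [h2] at h1
    exact h1.symm
  · intro x
    rw [← Equiv.sum_comp finProdFinEquiv]
    simp only [Equiv.symm_apply_apply]
    rw [Fintype.sum_prod_type_right, hH]
    refine Finset.sum_congr rfl fun j _ => ?_
    have h1 := (hspec ((δ j).symm x)).2 j
    have h2 : (P ((δ j).symm x)).2 j = v j ((δ j).symm x) := rfl
    rw [h2] at h1
    rw [← h1]
    refine Finset.sum_congr rfl fun i _ => ?_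
    have h3 : γ i (((γ i).trans (δ j)).symm x) = (δ j).symm x := by
      show γ i ((γ i).symm ((δ j).symm x)) = (δ j).symm x
      rw [(γ i).apply_symm_apply]
    rw [h3]


end Pool.Agent.Helper557.Rz
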