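import Pool.Agent.Helper557.Eq.Defs
import Pool.Agent.Helper557.Eq.M_eqd
import Pool.Agent.Helper557.Eq.M_eqdtr

set_option autoImplicit false

open MeasureTheory Set

namespace Pool.Agent.Helper557.Rz
theorem catal_sum {d : ℕ} {ι : Type} (s : Finset ι) (F G : ι → E d → ℕ)
    (h : ∀ i, Eqd (F i) (G i)) :
    Eqd (fun x => ∑ i ∈ s, F i x) (fun x => ∑ i ∈ s, G i x) := by
  classical
  induction s using Finset.induction_on with
  | empty =>
    simp only [Finset.sum_empty]
    exact Eqd_refl _ measurable_const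
  | insert a s ha ih =>
    simp only [Finset.sum_insert ha]
    exact Eqd_add (h a) ih

theorem catal_mul {d : ℕ} (m : ℕ) {F G : E d → ℕ} (h : Eqd F G) :
    Eqd (fun x => m * F x) (fun x => m * G x) := by
  have := catal_sum (Finset.univ : Finset (Fin m)) (fun _ => F) (fun _ => G) (fun _ => h)
  simpa using this

theorem catal_cube_meas {d : ℕ} (v : E d) (s : ℝ) : MeasurableSet (cube v s) := by
  have : cube v s = ⋂ i, (fun x : E d => x i) ⁻¹' (Ico (v i) (v i + s)) := by
    ext x
    simp [cube]
  rw [this]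
  refine MeasurableSet.iInter fun i => ?_
  exact measurableSet_Ico.preimage (by fun_prop)

theorem catal_ind_meas {d : ℕ} (v : E d) (s : ℝ) : Measurable (ind (cube v s)) := by
  unfold ind
  exact Measurable.ite (catal_cube_meas v s) measurable_const measurable_const

theorem catal_trans {d : ℕ} (v : E d) (s : ℝ) : Eqd (ind (cube v s)) (ind (cube 0 s)) := by
  have h := Eqd_iso (IsometryEquiv.addRight v) (ind (cube v s)) (catal_ind_meas v s)
  have e : (fun x => ind (cube v s) ((IsometryEquiv.addRight v) x)) = ind (cube 0 s) := by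
    funext x
    unfold ind
    have : (IsometryEquiv.addRight v) x ∈ cube v s ↔ x ∈ cube 0 s := by
      have e2 : (IsometryEquiv.addRight v) x = x + v := rfl
      rw [e2]
      unfold cube
      simp only [mem_setOf_eq, PiLp.add_apply, PiLp.zero_apply]
      refine forall_congr' fun i => ?_
      constructor
      · rintro ⟨h1, h2⟩
        constructor <;> linarith
      · rintro ⟨h1, h2⟩
        constructor <;> linarith
    by_cases hx : x ∈ cube 0 s
    · rw [if_pos (this.2 hx), if_pos hx]
    · rw [if_neg (fun h => hx (this.1 h)), if_neg hx]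
  rwa [e] at h


theorem catalyst {d : ℕ} (F : Set (E d → ℝ)) (hF : UC True F) : ∃ (M : ℕ) (l : ℝ), 0 < l ∧
    ∀ f g : E d → ℕ, Measurable f → Measurable g → (fun x => (f x : ℝ) - g x) ∈ F →
      Eqd (fun x => f x + M * ind (cube 0 l) x) (fun x => g x + M * ind (cube 0 l) x) := by
  classical
  obtain ⟨k, γ, C, R, hF⟩ := hF
  set K : ℕ := ⌈C⌉₊ with hK
  have hCK : C ≤ K := Nat.le_ceil C
  set s : ℝ := max R 0 + 1 with hs
  have hs0 : 0 < s := by positivity
  have hRs : R < s := by
    have := le_max_left R 0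
    linarith
  set c : E d := WithLp.toLp 2 (fun _ => -s) with hc
  set D : Set (E d) := cube c (2 * s) with hD
  have hball : ∀ x : E d, x ∉ D → R < ‖x‖ := by
    intro x hx
    by_contra hle
    push Not at hle
    apply hx
    intro i
    have h1 : |x i| ≤ ‖x‖ := by
      have := PiLp.norm_apply_le x i
      simpa using this
    have h2 := abs_le.1 (h1.trans (hle.trans hRs.le))
    have h3 : |x i| < s := lt_of_le_of_lt (h1.trans hle) hRs
    have h4 := abs_lt.1 h3
    have e : c i = -s := rfl
    rw [e]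
    constructor <;> linarith
  have hDm : Measurable (ind D) := catal_ind_meas _ _
  refine ⟨3 * K * k, 2 * s, by positivity, ?_⟩
  intro f g hf hg hfg
  obtain ⟨φ, hφ, hfl⟩ := hF _ hfg
  -- the natural number valued flows
  let n : Fin k → E d → ℕ := fun i x => ⌊φ i x + K * (ind D x : ℝ)⌋₊
  have hn : ∀ i x, (n i x : ℝ) = φ i x + K * (ind D x : ℝ) := by
    intro i x
    obtain ⟨m, hm⟩ := (hφ i).int trivial x
    by_cases hx : x ∈ D
    · have h1 : (ind D x : ℝ) = 1 := by simp [ind, hx]
      have h2 := (abs_le.1 ((hφ i).bdd x)).1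
      change ((⌊φ i x + K * (ind D x : ℝ)⌋₊ : ℕ) : ℝ) = _
      rw [h1, hm, mul_one]
      rw [hm] at h2
      have h3 : (0 : ℤ) ≤ m + K := by
        have : (0 : ℝ) ≤ ((m + K : ℤ) : ℝ) := by push_cast; linarith
        exact_mod_cast this
      obtain ⟨p, hp⟩ := Int.eq_ofNat_of_zero_le h3
      have h4 : (m : ℝ) + K = p := by exact_mod_cast hp
      rw [h4, Nat.floor_natCast]
    · have h1 : (ind D x : ℝ) = 0 := by simp [ind, hx]
      have h2 := (hφ i).supp x (hball x hx)
      change ((⌊φ i x + K * (ind D x : ℝ)⌋₊ : ℕ) : ℝ) = _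
      rw [h1, h2]
      simp
  have hnm : ∀ i, Measurable (n i) := by
    intro i
    refine Nat.measurable_floor.comp ?_
    exact (hφ i).meas.add (((measurable_from_top : Measurable (fun m : ℕ => (m : ℝ))).comp
      hDm).const_mul _)
  have hnle : ∀ i x, n i x ≤ 2 * K * ind D x := by
    intro i x
    have h1 := hn i x
    have h2 := (abs_le.1 ((hφ i).bdd x)).2
    have : (n i x : ℝ) ≤ ((2 * K * ind D x : ℕ) : ℝ) := by
      rw [h1]
      push_cast
      by_cases hx : x ∈ D
      · have h1 : (ind D x : ℝ) = 1 := by simp [ind, hx]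
        rw [h1]
        linarith
      · have h1 : (ind D x : ℝ) = 0 := by simp [ind, hx]
        rw [h1, (hφ i).supp x (hball x hx)]
        simp
    exact_mod_cast this
  let N : E d → ℕ := fun x => ∑ i, n i x
  let N' : E d → ℕ := fun x => ∑ i, n i (γ i x)
  let I : E d → ℕ := fun x => K * ∑ i, ind D (γ i x)
  let J : E d → ℕ := fun x => K * ∑ _i : Fin k, ind D x
  have hNN : Eqd N N' := catal_sum Finset.univ _ _ (fun i => Eqd_iso (γ i) (n i) (hnm i))
  have hJI : Eqd J I := catal_mul K (catal_sum Finset.univ (fun _ => ind D)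
    (fun i x => ind D (γ i x)) (fun i => Eqd_iso (γ i) _ hDm))
  have hid : ∀ x, f x + (N x + I x) = g x + (N' x + J x) := by
    intro x
    have h1 : (f x : ℝ) - g x = ∑ i, (φ i (γ i x) - φ i x) := hfl x
    have h2 : ((N x : ℕ) : ℝ) = ∑ i, (φ i x + K * (ind D x : ℝ)) := by
      change ((∑ i, n i x : ℕ) : ℝ) = _
      push_cast
      exact Finset.sum_congr rfl fun i _ => hn i x
    have h3 : ((N' x : ℕ) : ℝ) = ∑ i, (φ i (γ i x) + K * (ind D (γ i x) : ℝ)) := by
      change ((∑ i, n i (γ i x) : ℕ) : ℝ) = _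
      push_cast
      exact Finset.sum_congr rfl fun i _ => hn i _
    have h4 : ((I x : ℕ) : ℝ) = ∑ i, K * (ind D (γ i x) : ℝ) := by
      change ((K * ∑ i, ind D (γ i x) : ℕ) : ℝ) = _
      push_cast
      rw [Finset.mul_sum]
    have h5 : ((J x : ℕ) : ℝ) = ∑ _i : Fin k, K * (ind D x : ℝ) := by
      change ((K * ∑ _i : Fin k, ind D x : ℕ) : ℝ) = _
      push_cast
      rw [Finset.mul_sum]
    have : ((f x + (N x + I x) : ℕ) : ℝ) = ((g x + (N' x + J x) : ℕ) : ℝ) := by
      push_cast
      rw [h2, h3, h4, h5]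
      simp only [Finset.sum_add_distrib, Finset.sum_sub_distrib] at h1 ⊢
      linarith
    exact_mod_cast this
  have hNm : Measurable N := (Eqd_meas hNN).1
  have hJm : Measurable J := (Eqd_meas hJI).1
  -- f + (N + J) ~ g + (N + J)
  have s1 : Eqd (fun x => f x + (N x + J x)) (fun x => f x + (N x + I x)) :=
    Eqd_add (Eqd_refl f hf) (Eqd_add (Eqd_refl N hNm) hJI)
  have s2 : Eqd (fun x => g x + (N' x + J x)) (fun x => g x + (N x + J x)) :=
    Eqd_add (Eqd_refl g hg) (Eqd_add (Eqd_symm hNN) (Eqd_refl J hJm))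
  have s3 : Eqd (fun x => f x + (N x + J x)) (fun x => g x + (N x + J x)) := by
    have e : (fun x => f x + (N x + I x)) = (fun x => g x + (N' x + J x)) := funext hid
    rw [e] at s1
    exact Eqd_trans s1 s2
  have hle : ∀ x, N x + J x ≤ 3 * K * k * ind D x := by
    intro x
    have h1 : N x ≤ ∑ _i : Fin k, 2 * K * ind D x := Finset.sum_le_sum fun i _ => hnle i x
    have h2 : J x = K * (k * ind D x) := by
      change K * ∑ _i : Fin k, ind D x = _
      simp
    rw [Finset.sum_const, Finset.card_univ, Fintype.card_fin, smul_eq_mul] at h1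
    calc N x + J x ≤ k * (2 * K * ind D x) + K * (k * ind D x) := by rw [h2]; gcongr
      _ = _ := by ring
  have hem : Measurable (fun x => 3 * K * k * ind D x - (N x + J x)) :=
    (hDm.const_mul _).sub (hNm.add hJm)
  have s4 := Eqd_add s3 (Eqd_refl _ hem)
  have e1 : (fun x => f x + (N x + J x) + (3 * K * k * ind D x - (N x + J x))) =
      fun x => f x + 3 * K * k * ind D x := by
    funext x
    have := hle x
    omega
  have e2 : (fun x => g x + (N x + J x) + (3 * K * k * ind D x - (N x + J x))) =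
      fun x => g x + 3 * K * k * ind D x := by
    funext x
    have := hle x
    omega
  rw [e1, e2] at s4
  have hcub : Eqd (fun x => 3 * K * k * ind D x) (fun x => 3 * K * k * ind (cube 0 (2 * s)) x) :=
    catal_mul _ (catal_trans c (2 * s))
  have t1 : Eqd (fun x => f x + 3 * K * k * ind (cube 0 (2 * s)) x)
      (fun x => f x + 3 * K * k * ind D x) := Eqd_add (Eqd_refl f hf) (Eqd_symm hcub)
  have t2 : Eqd (fun x => g x + 3 * K * k * ind D x)
      (fun x => g x + 3 * K * k * ind (cube 0 (2 * s)) x) := Eqd_add (Eqd_refl g hg) hcub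
  exact Eqd_trans t1 (Eqd_trans s4 t2)



end Pool.Agent.Helper557.Rz
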