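import Pool.Agent.Helper557.Eq.Defs
import Pool.Agent.Helper557.Eq.M_T2
import Pool.Agent.Helper557.Eq.M_T3
import Pool.Agent.Helper557.Eq.M_tr
import Pool.Agent.Helper557.Eq.M_uc

set_option autoImplicit false

open MeasureTheory Set

namespace Pool.Agent.Helper557.Rz


theorem round_TR_sum {b : Prop} {d : ℕ} : ∀ (k : ℕ) (P : Fin k → (E d → ℝ) → Prop)
    (_ : ∀ i, ∃ (m : ℕ) (v : Fin m → E d) (C R : ℝ), ∀ f, P i f → TR b m v C R f),
    ∃ (m : ℕ) (v : Fin m → E d) (C R : ℝ), ∀ g : Fin k → E d → ℝ, (∀ i, P i (g i)) →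
      TR b m v C R (fun x => ∑ i, g i x)
  | 0, _, _ => ⟨0, fun i => i.elim0, 0, 0, fun g _ =>
      ⟨fun i => i.elim0, fun i => i.elim0, fun x => by simp⟩⟩
  | k + 1, P, hP => by
    obtain ⟨m1, v1, C1, R1, h1⟩ := hP 0
    obtain ⟨m2, v2, C2, R2, h2⟩ := round_TR_sum k (fun i => P i.succ) (fun i => hP i.succ)
    obtain ⟨m, v, C, R, h⟩ := TR_add (b := b) m1 m2 v1 v2 C1 R1 C2 R2
    refine ⟨m, v, C, R, fun g hg => ?_⟩
    have h3 := (h (g 0) (fun x => ∑ i : Fin k, g i.succ x) (h1 _ (hg 0))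
      (h2 (fun i => g i.succ) fun i => hg i.succ)).1
    have e : (fun x => ∑ i, g i x) = fun x => g 0 x + ∑ i : Fin k, g i.succ x :=
      funext fun x => Fin.sum_univ_succ _
    rw [e]
    exact h3

theorem round_adm {d : ℕ} {m : ℕ} {v : Fin m → E d} {C R : ℝ} {F : E d → ℝ}
    (h : TR False m v C R F) (hint : ∀ x, ∃ n : ℤ, F x = n) :
    Adm True (m * (2 * C)) (R + ∑ j, ‖v j‖) F := by
  obtain ⟨φ, h1, h2⟩ := h
  refine ⟨?_, ?_, ?_, fun _ => hint⟩
  · have : F = fun x => ∑ j, (φ j (x + v j) - φ j x) := funext h2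
    rw [this]
    refine Finset.measurable_fun_sum _ fun j _ => ?_
    exact ((h1 j).meas.comp (measurable_id.add_const _)).sub (h1 j).meas
  · intro x
    rw [h2 x]
    calc |∑ j, (φ j (x + v j) - φ j x)| ≤ ∑ j, |φ j (x + v j) - φ j x| :=
          Finset.abs_sum_le_sum_abs _ _
      _ ≤ ∑ _j : Fin m, 2 * C := Finset.sum_le_sum fun j _ => by
          have a1 := (h1 j).bdd (x + v j)
          have a2 := (h1 j).bdd x
          rw [abs_le] at a1 a2 ⊢
          constructor <;> linarith [a1.1, a1.2, a2.1, a2.2]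
      _ = m * (2 * C) := by simp
  · intro x hx
    rw [h2 x]
    refine Finset.sum_eq_zero fun j _ => ?_
    have hS : ‖v j‖ ≤ ∑ j, ‖v j‖ :=
      Finset.single_le_sum (f := fun j => ‖v j‖) (fun _ _ => norm_nonneg _) (Finset.mem_univ j)
    have a3 := norm_sub_le (x + v j) (v j)
    rw [add_sub_cancel_right] at a3
    rw [(h1 j).supp (x + v j) (by linarith), (h1 j).supp x (by linarith [norm_nonneg (v j)]),
      sub_zero]

theorem rounding (d : ℕ) (hd : 3 ≤ d) (k : ℕ) (γ : Fin k → (E d ≃ᵢ E d)) (C R : ℝ) :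
    UC True {f : E d → ℝ | (∀ x, ∃ n : ℤ, f x = n) ∧ Flw False k γ C R f} := by
  obtain ⟨m, v, C', R', hT2⟩ := T2 d hd C R
  have hA : ∀ i : Fin k, ∃ (m' : ℕ) (v' : Fin m' → E d) (C'' R'' : ℝ), ∀ g : E d → ℝ,
      (∃ t : E d → ℝ, TR False m v C' R' t ∧ g = fun x => t (γ i x) - t x) →
        TR False m' v' C'' R'' g := by
    intro i
    obtain ⟨v1, R1, h1⟩ := TR_iso (b := False) (γ i) m v C' R'
    obtain ⟨m2, v2, C2, R2, h2⟩ := TR_add (b := False) m m v1 v C' R1 C' R'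
    refine ⟨m2, v2, C2, R2, ?_⟩
    rintro g ⟨t, ht, rfl⟩
    exact (h2 _ _ (h1 t ht) ht).2
  obtain ⟨m', v', C'', R'', hB⟩ := round_TR_sum (b := False) k
    (fun i g => ∃ t : E d → ℝ, TR False m v C' R' t ∧ g = fun x => t (γ i x) - t x) hA
  refine UC_mono ?_ (UC_add (T3 d hd m' v' C'' R'' (m' * (2 * C'')) (R'' + ∑ j, ‖v' j‖))
    (⟨k, γ, C', R', fun f hf => hf⟩ : UC True {f : E d → ℝ | Flw True k γ C' R' f}))
  rintro f ⟨hint, φ, hφ, hf⟩
  choose w hw ht using fun i => hT2 (φ i) (hφ i)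
  have hTR := hB (fun i x => (φ i (γ i x) - w i (γ i x)) - (φ i x - w i x))
    (fun i => ⟨_, ht i, rfl⟩)
  refine ⟨_, ⟨round_adm hTR ?_, hTR⟩, fun x => ∑ i, (w i (γ i x) - w i x),
    ⟨w, hw, fun x => rfl⟩, ?_⟩
  · intro x
    obtain ⟨n, hn⟩ := hint x
    have hwi : ∀ i y, ∃ n : ℤ, w i y = n := fun i y => (hw i).int trivial y
    choose z hz using hwi
    refine ⟨n - ∑ i, (z i (γ i x) - z i x), ?_⟩
    push_cast
    rw [← hn, hf x]
    simp only [← hz]
    rw [← Finset.sum_sub_distrib]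
    refine Finset.sum_congr rfl fun i _ => by ring
  · intro x
    rw [hf x, ← Finset.sum_add_distrib]
    refine Finset.sum_congr rfl fun i _ => by ring


end Pool.Agent.Helper557.Rz
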