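import Pool.Agent.Helper557.Eq.Defs

set_option autoImplicit false

open MeasureTheory Set

namespace Pool.Agent.Helper557.Rz


theorem slab_box_eq {d : ℕ} (a b : Fin d → ℝ) :
    {x : E d | ∀ i, a i ≤ x i ∧ x i < b i} =
      (WithLp.ofLp : E d → (Fin d → ℝ)) ⁻¹' (Set.pi univ fun i => Ico (a i) (b i)) := by
  ext x
  constructor
  · intro h i _
    exact h i
  · intro h i
    exact h i (mem_univ i)

theorem slab_box_meas {d : ℕ} (a b : Fin d → ℝ) :
    MeasurableSet {x : E d | ∀ i, a i ≤ x i ∧ x i < b i} := by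
  rw [slab_box_eq]
  exact (PiLp.volume_preserving_ofLp (Fin d)).measurable
    (MeasurableSet.univ_pi fun i => measurableSet_Ico)

theorem slab_box_vol {d : ℕ} (a b : Fin d → ℝ) :
    volume {x : E d | ∀ i, a i ≤ x i ∧ x i < b i} = ∏ i, ENNReal.ofReal (b i - a i) := by
  rw [slab_box_eq, (PiLp.volume_preserving_ofLp (Fin d)).measure_preimage
    (MeasurableSet.univ_pi fun i => measurableSet_Ico).nullMeasurableSet, Real.volume_pi_Ico]

theorem slab_eq_box (d : ℕ) (t h : ℝ) : slab d t h =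
    {x : E d | ∀ i, (0 : Fin d → ℝ) i ≤ x i ∧ x i < (fun i : Fin d => if i.val = 0 then h else t) i} := by
  ext x
  constructor
  · rintro ⟨h1, h2, h3⟩ i
    refine ⟨h1 i, ?_⟩
    show x i < if i.val = 0 then h else t
    split_ifs with hi
    · exact h3 i hi
    · exact h2 i hi
  · intro hx
    refine ⟨fun i => (hx i).1, fun i hi => ?_, fun i hi => ?_⟩
    · have h1 : x i < if i.val = 0 then h else t := (hx i).2
      rwa [if_neg hi] at h1
    · have h1 : x i < if i.val = 0 then h else t := (hx i).2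
      rwa [if_pos hi] at h1

theorem slab_meas (d : ℕ) (t h : ℝ) : MeasurableSet (slab d t h) := by
  rw [slab_eq_box]
  exact slab_box_meas _ _

theorem slab_vol (d : ℕ) (hd : 1 ≤ d) (t h : ℝ) (ht : 0 ≤ t) (hh : 0 ≤ h) :
    volume (slab d t h) = ENNReal.ofReal (h * t ^ (d - 1)) := by
  obtain ⟨n, rfl⟩ : ∃ n, d = n + 1 := ⟨d - 1, by omega⟩
  rw [slab_eq_box, slab_box_vol, Fin.prod_univ_succ, ENNReal.ofReal_mul hh]
  congr 1
  · simp
  · simp [ENNReal.ofReal_pow ht]

theorem cube_meas (d : ℕ) (v : E d) (t : ℝ) : MeasurableSet (cube v t) :=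
  slab_box_meas (fun i => v i) (fun i => v i + t)

theorem cube_vol (d : ℕ) (v : E d) (t : ℝ) (ht : 0 ≤ t) : volume (cube v t) = ENNReal.ofReal (t ^ d) := by
  have h := slab_box_vol (fun i => v i) (fun i => v i + t)
  have h1 : volume (cube v t) = ∏ i : Fin d, ENNReal.ofReal ((v i + t) - v i) := h
  rw [h1]
  simp [ENNReal.ofReal_pow ht]


end Pool.Agent.Helper557.Rz
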