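import Pool.Agent.Helper557.Eq.Defs
import Pool.Agent.Helper557.Eq.M_Rd
import Pool.Agent.Helper557.Eq.M_catal
import Pool.Agent.Helper557.Eq.M_round
import Pool.Agent.Helper557.Eq.M_slab
import Pool.Agent.Helper557.Eq.M_uc

set_option autoImplicit false

open MeasureTheory Set

namespace Pool.Agent.Helper557.Rz

theorem catQ_meas {d : ℕ} {A : Set (E d)} (hA : MeasurableSet A) : Measurable (ind A) := by
  unfold ind
  exact Measurable.ite hA measurable_const measurable_const

theorem catQ_ind {d : ℕ} (A : Set (E d)) :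
    (fun x => (ind A x : ℝ)) = A.indicator (1 : E d → ℝ) := by
  funext x
  unfold ind
  by_cases h : x ∈ A
  · rw [if_pos h, Set.indicator_of_mem h]; simp
  · rw [if_neg h, Set.indicator_of_notMem h]; simp

theorem catQ_int {d : ℕ} {A : Set (E d)} (hA : MeasurableSet A) (hfin : volume A ≠ ⊤) :
    Integrable (fun x => (ind A x : ℝ)) ∧ ∫ x, (ind A x : ℝ) = (volume A).toReal := by
  rw [catQ_ind]
  constructor
  · exact (integrable_indicator_iff hA).2 (integrableOn_const hfin)
  · rw [integral_indicator_one hA]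
    rfl

theorem catalyst_cube (d : ℕ) (hd : 3 ≤ d) : ∃ (M : ℕ) (l : ℝ), 0 < l ∧
    ∀ A : Set (E d), MeasurableSet A → A ⊆ cube 0 1 →
      Eqd (fun x => ind A x + M * ind (cube 0 l) x)
        (fun x => ind (slab d 1 (volume A).toReal) x + M * ind (cube 0 l) x) := by
  obtain ⟨k, γ, C, R, hR⟩ := Rd_flow d hd
  have hA1 : ∀ A : Set (E d), A ⊆ cube 0 1 → volume A ≤ 1 := by
    intro A hA
    refine (measure_mono hA).trans ?_
    rw [cube_vol d 0 1 zero_le_one]
    simp
  have hslab : ∀ h : ℝ, h ≤ 1 → slab d 1 h ⊆ cube 0 1 := by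
    intro h hh x hx i
    obtain ⟨h0, h1, h2⟩ := hx
    have e0 : (0 : E d) i = 0 := rfl
    rw [e0]
    refine ⟨h0 i, ?_⟩
    by_cases hi : i.val = 0
    · have := h2 i hi
      linarith
    · have := h1 i hi
      linarith
  have hUC : UC True {f : E d → ℝ | ∃ A : Set (E d), MeasurableSet A ∧ A ⊆ cube 0 1 ∧
      f = fun x => (ind A x : ℝ) - ind (slab d 1 (volume A).toReal) x} := by
    refine UC_mono ?_ (rounding d hd k γ C R)
    rintro f ⟨A, hA, hAc, rfl⟩
    set h : ℝ := (volume A).toReal with hh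
    have hle := hA1 A hAc
    have hfin : volume A ≠ ⊤ := ne_top_of_le_ne_top ENNReal.one_ne_top hle
    have h1 : h ≤ 1 := by
      rw [hh]
      exact ENNReal.toReal_le_of_le_ofReal zero_le_one (by simpa using hle)
    have h0 : 0 ≤ h := ENNReal.toReal_nonneg
    have hSm := slab_meas d 1 h
    have hSv : volume (slab d 1 h) = ENNReal.ofReal h := by
      rw [slab_vol d (by omega) 1 h zero_le_one h0, one_pow, mul_one]
    have hSfin : volume (slab d 1 h) ≠ ⊤ := by rw [hSv]; exact ENNReal.ofReal_ne_top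
    obtain ⟨iA, eA⟩ := catQ_int hA hfin
    obtain ⟨iS, eS⟩ := catQ_int hSm hSfin
    have hind : ∀ (B : Set (E d)) (x : E d), ind B x = 0 ∨ ind B x = 1 := by
      intro B x
      unfold ind
      split_ifs
      · exact Or.inr rfl
      · exact Or.inl rfl
    refine ⟨?_, hR _ ⟨?_, ?_, ?_, ?_⟩⟩
    · intro x
      exact ⟨(ind A x : ℤ) - (ind (slab d 1 h) x : ℤ), by push_cast; rfl⟩
    · exact ((measurable_of_countable (fun n : ℕ => (n : ℝ))).comp (catQ_meas hA)).sub
        ((measurable_of_countable (fun n : ℕ => (n : ℝ))).comp (catQ_meas hSm))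
    · intro x
      rcases hind A x with e1 | e1 <;> rcases hind (slab d 1 h) x with e2 | e2 <;>
        simp [e1, e2]
    · intro x hx
      have e1 : ind A x = 0 := by
        unfold ind
        rw [if_neg fun hxA => hx (hAc hxA)]
      have e2 : ind (slab d 1 h) x = 0 := by
        unfold ind
        rw [if_neg fun hxA => hx (hslab h h1 hxA)]
      simp [e1, e2]
    · rw [integral_sub iA iS, eA, eS, hSv, ENNReal.toReal_ofReal h0, ← hh, sub_self]
  obtain ⟨M, l, hl, H⟩ := catalyst _ hUC
  refine ⟨M, l, hl, fun A hA hAc => ?_⟩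
  exact H (ind A) (ind (slab d 1 (volume A).toReal)) (catQ_meas hA)
    (catQ_meas (slab_meas d 1 _)) ⟨A, hA, hAc, rfl⟩


end Pool.Agent.Helper557.Rz
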