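import Pool.Agent.Helper557.Eq.Defs

set_option autoImplicit false

open MeasureTheory Set

namespace Pool.Agent.Helper557.Rz
lemma eqdout_aux {d k : ℕ} {A : Set (E d)} (v : Fin k → E d → ℕ)
    (h : ∀ x, ind A x = ∑ i, v i x) :
    Pairwise (fun i j => Disjoint {x | v i x ≠ 0} {x | v j x ≠ 0}) ∧
      (⋃ i, {x | v i x ≠ 0}) = A := by
  classical
  constructor
  · intro i j hij
    rw [Set.disjoint_left]
    intro x hx hx'
    have h1 : v i x ≠ 0 := hx
    have h2 : v j x ≠ 0 := hx'
    have h3 : v i x + v j x ≤ ∑ i, v i x := by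
      rw [← Finset.sum_pair hij (f := fun i => v i x)]
      exact Finset.sum_le_sum_of_subset (Finset.subset_univ _)
    rw [← h x] at h3
    have h4 : ind A x ≤ 1 := by
      unfold ind
      split_ifs <;> omega
    omega
  · ext x
    rw [Set.mem_iUnion]
    constructor
    · rintro ⟨i, hi⟩
      have h1 : v i x ≠ 0 := hi
      by_contra hA
      have h2 : ind A x = 0 := by
        unfold ind
        rw [if_neg hA]
      rw [h x, Finset.sum_eq_zero_iff] at h2
      exact h1 (h2 i (Finset.mem_univ i))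
    · intro hA
      by_contra hcon
      push Not at hcon
      have h2 : ind A x = 1 := by
        unfold ind
        rw [if_pos hA]
      rw [h x, Finset.sum_eq_zero] at h2
      · exact absurd h2 (by norm_num)
      · intro i _
        by_contra h3
        exact hcon i h3


theorem Eqd_out {d : ℕ} {A B : Set (E d)} (h : Eqd (ind A) (ind B)) :
    ∃ m : ℕ, ∃ P : Fin m → Set (E d), ∃ γ : Fin m → (E d ≃ᵢ E d),
      (∀ i, MeasurableSet (P i)) ∧ Pairwise (fun i j => Disjoint (P i) (P j)) ∧
      (⋃ i, P i) = A ∧ Pairwise (fun i j => Disjoint (γ i '' P i) (γ j '' P j)) ∧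
      (⋃ i, γ i '' P i) = B := by
  obtain ⟨k, γ, w, hw, hA, hB⟩ := h
  have h1 := eqdout_aux w hA
  have h2 := eqdout_aux (fun i y => w i ((γ i).symm y)) hB
  have h3 : ∀ i, γ i '' {x | w i x ≠ 0} = {y | w i ((γ i).symm y) ≠ 0} := by
    intro i
    ext y
    constructor
    · rintro ⟨x, hx, rfl⟩
      have hx' : w i x ≠ 0 := hx
      show w i ((γ i).symm (γ i x)) ≠ 0
      rw [IsometryEquiv.symm_apply_apply]
      exact hx'
    · intro hy
      exact ⟨(γ i).symm y, hy, IsometryEquiv.apply_symm_apply _ _⟩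
  refine ⟨k, fun i => {x | w i x ≠ 0}, γ, ?_, h1.1, h1.2, ?_, ?_⟩
  · intro i
    exact (measurableSet_singleton 0).compl.preimage (hw i)
  · intro i j hij
    simp only [h3]
    exact h2.1 hij
  · simp only [h3]
    exact h2.2


end Pool.Agent.Helper557.Rz
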