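import Pool.Agent.Helper557.Eq.Defs
import Pool.Agent.Helper557.Eq.M_eqd

set_option autoImplicit false

open MeasureTheory Set

namespace Pool.Agent.Helper557.Rz

theorem fin1_ind {d : ℕ} {A B : Set (E d)} {x y : E d} (h : x ∈ A ↔ y ∈ B) :
    ind A x = ind B y := by
  classical
  unfold ind
  by_cases hx : x ∈ A
  · rw [if_pos hx, if_pos (h.1 hx)]
  · rw [if_neg hx, if_neg (fun hy => hx (h.2 hy))]

theorem catalyst_scaled (d : ℕ) (hd : 3 ≤ d) (M : ℕ) (l : ℝ) (h : ∀ A : Set (E d), MeasurableSet A →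
      A ⊆ cube 0 1 → Eqd (fun x => ind A x + M * ind (cube 0 l) x)
        (fun x => ind (slab d 1 (volume A).toReal) x + M * ind (cube 0 l) x)) (t : ℝ) (ht : 0 < t)
    (A : Set (E d)) (hA : MeasurableSet A) (hAt : A ⊆ cube 0 t) :
    Eqd (fun x => ind A x + M * ind (cube 0 (t * l)) x)
      (fun x => ind (slab d t ((volume A).toReal / t ^ (d - 1))) x + M * ind (cube 0 (t * l)) x) := by
  obtain ⟨A1, hA1⟩ : ∃ A1 : Set (E d), A1 = (fun x => t • x) ⁻¹' A := ⟨_, rfl⟩
  have hmeas : MeasurableSet A1 := by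
    rw [hA1]
    exact measurableSet_preimage (measurable_const_smul t) hA
  have hsub : A1 ⊆ cube 0 1 := by
    intro x hx i
    rw [hA1] at hx
    have h1 := hAt hx i
    have h2 : (t • x : E d) i = t * x i := rfl
    have h3 : (0 : E d) i = 0 := rfl
    rw [h2, h3] at h1
    rw [h3]
    constructor
    · exact nonneg_of_mul_nonneg_right h1.1 ht
    · have h4 : t * x i < t * 1 := by linarith [h1.2]
      linarith [lt_of_mul_lt_mul_left h4 ht.le]
  have hvol : (volume A1).toReal = (volume A).toReal / t ^ d := by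
    rw [hA1, Measure.addHaar_preimage_smul _ ht.ne', finrank_euclideanSpace, Fintype.card_fin,
      ENNReal.toReal_mul, ENNReal.toReal_ofReal (abs_nonneg _), abs_of_pos (by positivity)]
    field_simp
  have hmain := Eqd_scale (h A1 hmeas hsub) t ht
  have hcoord : ∀ (x : E d) i, (t⁻¹ • x : E d) i = t⁻¹ * x i := fun x i => rfl
  have hzero : ∀ i, (0 : E d) i = 0 := fun i => rfl
  have e1 : ∀ x : E d, ind A1 (t⁻¹ • x) = ind A x := by
    intro x
    apply fin1_ind
    rw [hA1, Set.mem_preimage, smul_inv_smul₀ ht.ne']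
  have e2 : ∀ x : E d, ind (cube 0 l) (t⁻¹ • x) = ind (cube 0 (t * l)) x := by
    intro x
    apply fin1_ind
    refine forall_congr' fun i => ?_
    rw [hcoord, hzero, zero_add, zero_add, inv_mul_lt_iff₀ ht]
    refine and_congr ?_ Iff.rfl
    constructor
    · intro h1
      exact nonneg_of_mul_nonneg_right h1 (inv_pos.2 ht)
    · intro h1
      exact mul_nonneg (inv_pos.2 ht).le h1
  have hv : t * ((volume A).toReal / t ^ d) = (volume A).toReal / t ^ (d - 1) := by
    obtain ⟨e, rfl⟩ : ∃ e, d = e + 1 := ⟨d - 1, by omega⟩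
    rw [Nat.add_sub_cancel, pow_succ]
    field_simp
  have e3 : ∀ x : E d, ind (slab d 1 (volume A1).toReal) (t⁻¹ • x) =
      ind (slab d t ((volume A).toReal / t ^ (d - 1))) x := by
    intro x
    apply fin1_ind
    rw [hvol]
    refine and_congr (forall_congr' fun i => ?_) (and_congr (forall_congr' fun i => ?_)
      (forall_congr' fun i => ?_))
    · rw [hcoord]
      constructor
      · intro h1
        exact nonneg_of_mul_nonneg_right h1 (inv_pos.2 ht)
      · intro h1
        exact mul_nonneg (inv_pos.2 ht).le h1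
    · rw [hcoord, inv_mul_lt_iff₀ ht, mul_one]
    · rw [hcoord, inv_mul_lt_iff₀ ht, hv]
  simp only [e1, e2, e3] at hmain
  exact hmain


end Pool.Agent.Helper557.Rz
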