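import Pool.Agent.Helper557.Eq.Defs
import Pool.Agent.Helper557.Eq.M_eqd
import Pool.Agent.Helper557.Eq.M_eqdtr
import Pool.Agent.Helper557.Eq.M_slab

set_option autoImplicit false

open MeasureTheory Set

namespace Pool.Agent.Helper557.Rz
theorem fin2_ind_meas {d : ℕ} (A : Set (E d)) (hA : MeasurableSet A) : Measurable (ind A) := by
  unfold ind
  exact Measurable.ite hA measurable_const measurable_const

theorem fin2_cube_Eqd {d : ℕ} (q : E d) (s : ℝ) : Eqd (ind (cube q s)) (ind (cube 0 s)) := by
  have h := Eqd_iso (IsometryEquiv.addRight q) (ind (cube q s))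
    (fin2_ind_meas _ (cube_meas d q s))
  have h2 : (fun x => ind (cube q s) ((IsometryEquiv.addRight q) x)) = ind (cube (0 : E d) s) := by
    funext x
    have hiff : (IsometryEquiv.addRight q) x ∈ cube q s ↔ x ∈ cube (0 : E d) s := by
      simp only [cube, Set.mem_setOf_eq, IsometryEquiv.addRight_apply, PiLp.add_apply,
        PiLp.zero_apply]
      refine forall_congr' fun i => ?_
      constructor
      · rintro ⟨h1, h2⟩
        constructor <;> linarith
      · rintro ⟨h1, h2⟩
        constructor <;> linarith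
    unfold ind
    by_cases hx : x ∈ cube (0 : E d) s
    · rw [if_pos hx, if_pos (hiff.2 hx)]
    · rw [if_neg hx, if_neg (fun h => hx (hiff.1 h))]
  rw [h2] at h
  exact h

theorem fin2_step {d : ℕ} (A Q : Set (E d)) (hQ : Q ⊆ A) (x : E d) :
    ind A x = ind (A \ Q) x + ind Q x := by
  unfold ind
  by_cases hx : x ∈ Q
  · rw [if_pos (hQ hx), if_pos hx, if_neg (fun h => h.2 hx)]
  · by_cases hA : x ∈ A
    · rw [if_pos hA, if_neg hx, if_pos ⟨hA, hx⟩]
    · rw [if_neg hA, if_neg hx, if_neg (fun h => hA h.1)]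

theorem fin2_induct {d : ℕ} (A : Set (E d)) (hA : MeasurableSet A) (s : ℝ) (hs : 0 < s) (M : ℕ)
    (q : ℕ → E d) (hq : ∀ j < M, cube (q j) s ⊆ A)
    (hd : ∀ i < M, ∀ j < M, i ≠ j → Disjoint (cube (q i) s) (cube (q j) s)) (m : ℕ) (hm : m ≤ M) :
    ∃ A' : Set (E d), MeasurableSet A' ∧ A' ⊆ A ∧ (∀ j < M, m ≤ j → cube (q j) s ⊆ A') ∧
      volume A = volume A' + ENNReal.ofReal (m * s ^ d) ∧
      Eqd (ind A) (fun x => ind A' x + m * ind (cube 0 s) x) := by
  induction m with
  | zero =>
    refine ⟨A, hA, subset_rfl, fun j hj _ => hq j hj, by simp, ?_⟩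
    have h : (fun x => ind A x + ((0 : ℕ) : ℕ) * ind (cube 0 s) x) = ind A := by
      funext x
      simp
    rw [h]
    exact Eqd_refl _ (fin2_ind_meas A hA)
  | succ m ih =>
    obtain ⟨B, hB, hBA, hBq, hvol, hE⟩ := ih (by omega)
    have hmM : m < M := by omega
    have hQB : cube (q m) s ⊆ B := hBq m hmM le_rfl
    have hQm := cube_meas d (q m) s
    refine ⟨B \ cube (q m) s, hB.diff hQm, diff_subset.trans hBA, ?_, ?_, ?_⟩
    · intro j hj hmj
      intro x hx
      refine ⟨hBq j hj (by omega) hx, fun hx' => ?_⟩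
      exact (Set.disjoint_left.1 (hd j hj m hmM (by omega))) hx hx'
    · have h1 : volume B = volume (B \ cube (q m) s) + volume (cube (q m) s) := by
        rw [← measure_diff_add_inter B hQm, inter_eq_self_of_subset_right hQB]
      rw [hvol, h1, cube_vol d (q m) s hs.le, add_assoc, ← ENNReal.ofReal_add (by positivity)
        (by positivity)]
      congr 2
      push_cast
      ring
    · refine Eqd_trans hE ?_
      have hmeas : Measurable (fun x => ind (B \ cube (q m) s) x + m * ind (cube (0 : E d) s) x) :=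
        (fin2_ind_meas _ (hB.diff hQm)).add
          ((fin2_ind_meas _ (cube_meas d 0 s)).const_mul m)
      have h1 := Eqd_add (Eqd_refl _ hmeas) (fin2_cube_Eqd (q m) s)
      have e1 : (fun x => ind B x + m * ind (cube (0 : E d) s) x) =
          (fun x => (ind (B \ cube (q m) s) x + m * ind (cube (0 : E d) s) x) +
            ind (cube (q m) s) x) := by
        funext x
        rw [fin2_step B _ hQB x]
        ring
      have e2 : (fun x => ind (B \ cube (q m) s) x + (m + 1 : ℕ) * ind (cube (0 : E d) s) x) =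
          (fun x => (ind (B \ cube (q m) s) x + m * ind (cube (0 : E d) s) x) +
            ind (cube (0 : E d) s) x) := by
        funext x
        ring
      rw [e1, e2]
      exact h1


theorem packing (d : ℕ) (hd : 3 ≤ d) (M : ℕ) (l : ℝ) (hl : 0 < l) (A : Set (E d))
    (hA : MeasurableSet A) (hAi : (interior A).Nonempty) : ∃ t₀ : ℝ, 0 < t₀ ∧ ∀ t : ℝ, 0 < t → t ≤ t₀ →
      ∃ A' : Set (E d), MeasurableSet A' ∧ A' ⊆ A ∧
        volume A = volume A' + ENNReal.ofReal (M * (t * l) ^ d) ∧
        Eqd (ind A) (fun x => ind A' x + M * ind (cube 0 (t * l)) x) := by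
  obtain ⟨p, hp⟩ := hAi
  obtain ⟨r, hr, hrA⟩ := Metric.isOpen_iff.1 isOpen_interior p hp
  have hball : Metric.ball p r ⊆ A := hrA.trans interior_subset
  have hd0 : (0 : ℝ) < d := by
    have : 0 < d := by omega
    exact_mod_cast this
  set i0 : Fin d := ⟨0, by omega⟩ with hi0
  refine ⟨r / (2 * (d * (M + 1) * l)), by positivity, fun t ht htt => ?_⟩
  have hs : 0 < t * l := by positivity
  set s : ℝ := t * l with hsdef
  have hsr : d * (M + 1) * s < r := by
    rw [le_div_iff₀ (by positivity)] at htt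
    have : d * (M + 1) * s = (t * (2 * (d * (M + 1) * l))) / 2 := by rw [hsdef]; ring
    rw [this]
    linarith
  let q : ℕ → E d := fun j => p + EuclideanSpace.single i0 ((j : ℝ) * s)
  have hqi0 : ∀ j, (q j) i0 = p i0 + j * s := by
    intro j
    simp [q]
  have hqi : ∀ j i, i ≠ i0 → (q j) i = p i := by
    intro j i hi
    simp [q, hi]
  have hq : ∀ j < M, cube (q j) s ⊆ A := by
    intro j hj x hx
    apply hball
    rw [Metric.mem_ball, dist_eq_norm, EuclideanSpace.norm_eq]
    have hjM : (j : ℝ) + 1 ≤ M := by exact_mod_cast hj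
    have hj0 : (0 : ℝ) ≤ j := Nat.cast_nonneg j
    have hM0 : (0 : ℝ) ≤ M := Nat.cast_nonneg M
    have hcoord : ∀ i, ‖(x - p) i‖ ^ 2 ≤ ((M + 1) * s) ^ 2 := by
      intro i
      have h1 := hx i
      have h2 : |x i - p i| ≤ (M + 1) * s := by
        by_cases hi : i = i0
        · subst hi
          rw [hqi0 j] at h1
          rw [abs_le]
          constructor
          · nlinarith [h1.1, mul_nonneg hj0 hs.le, mul_nonneg hM0 hs.le]
          · nlinarith [h1.2, mul_le_mul_of_nonneg_right hjM hs.le]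
        · rw [hqi j i hi] at h1
          rw [abs_le]
          constructor
          · nlinarith [h1.1, mul_nonneg hM0 hs.le]
          · nlinarith [h1.2, mul_nonneg hM0 hs.le]
      rw [PiLp.sub_apply, Real.norm_eq_abs]
      exact pow_le_pow_left₀ (abs_nonneg _) h2 2
    have hsum : ∑ i, ‖(x - p) i‖ ^ 2 ≤ (d * ((M + 1) * s)) ^ 2 := by
      calc ∑ i, ‖(x - p) i‖ ^ 2 ≤ ∑ _i : Fin d, ((M + 1) * s) ^ 2 :=
            Finset.sum_le_sum fun i _ => hcoord i
        _ = d * ((M + 1) * s) ^ 2 := by
            rw [Finset.sum_const, Finset.card_univ, Fintype.card_fin, nsmul_eq_mul]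
        _ ≤ (d * ((M + 1) * s)) ^ 2 := by
            have e1 : ((d : ℝ) * ((M + 1) * s)) ^ 2 = (d : ℝ) ^ 2 * ((M + 1) * s) ^ 2 := by ring
            rw [e1]
            have hd1 : (1 : ℝ) ≤ d := by
              have : 1 ≤ d := by omega
              exact_mod_cast this
            have : (d : ℝ) ≤ (d : ℝ) ^ 2 := by nlinarith
            exact mul_le_mul_of_nonneg_right this (by positivity)
    calc Real.sqrt (∑ i, ‖(x - p) i‖ ^ 2) ≤ Real.sqrt ((d * ((M + 1) * s)) ^ 2) :=
          Real.sqrt_le_sqrt hsum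
      _ = d * ((M + 1) * s) := Real.sqrt_sq (by positivity)
      _ < r := by rw [← mul_assoc]; exact hsr
  have hlt : ∀ i j : ℕ, i < j → Disjoint (cube (q i) s) (cube (q j) s) := by
    intro i j hij
    rw [Set.disjoint_left]
    intro x hx hx'
    have h1 := (hx i0).2
    have h2 := (hx' i0).1
    rw [hqi0] at h1 h2
    have hij' : (i : ℝ) + 1 ≤ j := by exact_mod_cast hij
    nlinarith [mul_le_mul_of_nonneg_right hij' hs.le]
  obtain ⟨A', h1, h2, -, h3, h4⟩ := fin2_induct A hA s hs M q hq (by
    intro i _ j _ hij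
    rcases lt_or_gt_of_ne hij with h | h
    · exact hlt i j h
    · exact (hlt j i h).symm) M le_rfl
  exact ⟨A', h1, h2, h3, h4⟩


end Pool.Agent.Helper557.Rz
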