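import Pool.Agent.Helper557.Eq.Defs
import Pool.Agent.Helper557.Eq.M_eqd
import Pool.Agent.Helper557.Eq.M_eqdtr
import Pool.Agent.Helper557.Eq.M_slab

set_option autoImplicit false

open MeasureTheory Set

namespace Pool.Agent.Helper557.Rz


open Classical in
lemma fin3_ind_meas {d : ℕ} {A : Set (E d)} (hA : MeasurableSet A) : Measurable (ind A) := by
  unfold ind
  exact Measurable.ite hA measurable_const measurable_const

lemma fin3_ind_of_mem {d : ℕ} {A : Set (E d)} {x : E d} (h : x ∈ A) : ind A x = 1 := by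
  simp [ind, h]

lemma fin3_ind_of_notMem {d : ℕ} {A : Set (E d)} {x : E d} (h : x ∉ A) : ind A x = 0 := by
  simp [ind, h]

/-- the corner of the cube containing a point -/
noncomputable def fin3_fl {d : ℕ} (t : ℝ) (x : E d) : Fin d → ℤ := fun i => ⌊x i / t⌋

lemma fin3_mem_cube {d : ℕ} {t : ℝ} (ht : 0 < t) (z : Fin d → ℤ) (x : E d) :
    x ∈ cube (t • zv z : E d) t ↔ fin3_fl t x = z := by
  constructor
  · intro h
    funext i
    have h1 := h i
    have h2 : (t • zv z : E d) i = t * z i := by simp [zv]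
    rw [h2] at h1
    show ⌊x i / t⌋ = z i
    rw [Int.floor_eq_iff, le_div_iff₀ ht, div_lt_iff₀ ht]
    constructor
    · linarith [h1.1]
    · linarith [h1.2]
  · intro h i
    have h2 : (t • zv z : E d) i = t * z i := by simp [zv]
    have h1 : ⌊x i / t⌋ = z i := congrFun h i
    rw [Int.floor_eq_iff, le_div_iff₀ ht, div_lt_iff₀ ht] at h1
    rw [h2]
    constructor
    · linarith [h1.1]
    · linarith [h1.2]

lemma fin3_mem_slab {d : ℕ} (hd : 3 ≤ d) (t h : ℝ) (x : E d) :
    x ∈ slab d t h ↔ (∀ i : Fin d, i.val ≠ 0 → 0 ≤ x i ∧ x i < t) ∧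
      0 ≤ x ⟨0, by omega⟩ ∧ x ⟨0, by omega⟩ < h := by
  constructor
  · rintro ⟨h1, h2, h3⟩
    exact ⟨fun i hi => ⟨h1 i, h2 i hi⟩, h1 _, h3 _ rfl⟩
  · rintro ⟨h1, h2, h3⟩
    refine ⟨fun i => ?_, fun i hi => (h1 i hi).2, fun i hi => ?_⟩
    · by_cases hi : i.val = 0
      · have : i = ⟨0, by omega⟩ := Fin.ext hi
        rw [this]; exact h2
      · exact (h1 i hi).1
    · have : i = ⟨0, by omega⟩ := Fin.ext hi
      rw [this]; exact h3

lemma fin3_slab_add (d : ℕ) (hd : 3 ≤ d) (t H v : ℝ) (hH : 0 ≤ H) (hv : 0 ≤ v) :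
    Eqd (fun x : E d => ind (slab d t H) x + ind (slab d t v) x) (ind (slab d t (H + v))) := by
  set e0 : E d := EuclideanSpace.single (⟨0, by omega⟩ : Fin d) H with he0
  have h1 := Eqd_iso (IsometryEquiv.addRight (-e0)) (ind (slab d t v)) (fin3_ind_meas (slab_meas d t v))
  have h2 := Eqd_add (Eqd_refl (ind (slab d t H)) (fin3_ind_meas (slab_meas d t H))) h1
  have h3 : (fun x : E d => ind (slab d t H) x + ind (slab d t v) ((IsometryEquiv.addRight (-e0)) x)) =
      ind (slab d t (H + v)) := by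
    funext x
    have hx0 : (x + -e0) ⟨0, by omega⟩ = x ⟨0, by omega⟩ - H := by
      simp [he0, sub_eq_add_neg]
    have hxi : ∀ i : Fin d, i.val ≠ 0 → (x + -e0) i = x i := by
      intro i hi
      have hne : i ≠ ⟨0, by omega⟩ := fun h => hi (congrArg Fin.val h)
      simp [he0, hne]
    have hP : (∀ i : Fin d, i.val ≠ 0 → 0 ≤ (x + -e0) i ∧ (x + -e0) i < t) ↔
        (∀ i : Fin d, i.val ≠ 0 → 0 ≤ x i ∧ x i < t) := by
      constructor
      · intro h i hi
        have := h i hi
        rwa [hxi i hi] at this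
      · intro h i hi
        rw [hxi i hi]; exact h i hi
    have hS' : (x + -e0) ∈ slab d t v ↔ (∀ i : Fin d, i.val ≠ 0 → 0 ≤ x i ∧ x i < t) ∧
        H ≤ x ⟨0, by omega⟩ ∧ x ⟨0, by omega⟩ < H + v := by
      rw [fin3_mem_slab hd, hP, hx0]
      constructor
      · rintro ⟨a, b, c⟩; exact ⟨a, by linarith, by linarith⟩
      · rintro ⟨a, b, c⟩; exact ⟨a, by linarith, by linarith⟩
    show ind (slab d t H) x + ind (slab d t v) (x + -e0) = ind (slab d t (H + v)) x
    by_cases hp : ∀ i : Fin d, i.val ≠ 0 → 0 ≤ x i ∧ x i < t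
    · by_cases hx1 : x ⟨0, by omega⟩ < H
      · have hn : (x + -e0) ∉ slab d t v := by
          rw [hS']; rintro ⟨_, h4, _⟩; linarith
        rw [fin3_ind_of_notMem hn, add_zero]
        by_cases hx2 : 0 ≤ x ⟨0, by omega⟩
        · rw [fin3_ind_of_mem ((fin3_mem_slab hd t H x).mpr ⟨hp, hx2, hx1⟩),
            fin3_ind_of_mem ((fin3_mem_slab hd t (H + v) x).mpr ⟨hp, hx2, by linarith⟩)]
        · rw [fin3_ind_of_notMem (fun h => hx2 ((fin3_mem_slab hd t H x).mp h).2.1),
            fin3_ind_of_notMem (fun h => hx2 ((fin3_mem_slab hd t (H + v) x).mp h).2.1)]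
      · have hn : x ∉ slab d t H := fun h => hx1 ((fin3_mem_slab hd t H x).mp h).2.2
        rw [fin3_ind_of_notMem hn, zero_add]
        push Not at hx1
        by_cases hx2 : x ⟨0, by omega⟩ < H + v
        · rw [fin3_ind_of_mem (hS'.mpr ⟨hp, hx1, hx2⟩),
            fin3_ind_of_mem ((fin3_mem_slab hd t (H + v) x).mpr ⟨hp, by linarith, hx2⟩)]
        · rw [fin3_ind_of_notMem (fun h => hx2 (hS'.mp h).2.2),
            fin3_ind_of_notMem (fun h => hx2 ((fin3_mem_slab hd t (H + v) x).mp h).2.2)]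
    · rw [fin3_ind_of_notMem (fun h => hp ((fin3_mem_slab hd t H x).mp h).1),
        fin3_ind_of_notMem (fun h => hp (hS'.mp h).1),
        fin3_ind_of_notMem (fun h => hp ((fin3_mem_slab hd t (H + v) x).mp h).1)]
  rw [h3] at h2
  exact h2

lemma fin3_cell (d : ℕ) (t : ℝ) (ht : 0 < t) (c : E d → ℕ) (hc : Measurable c)
    (h : ∀ A : Set (E d), MeasurableSet A → A ⊆ cube 0 t →
      Eqd (fun x => ind A x + c x) (fun x => ind (slab d t ((volume A).toReal / t ^ (d - 1))) x + c x))
    (A : Set (E d)) (hA : MeasurableSet A) (z : Fin d → ℤ) (hz : A ⊆ cube (t • zv z : E d) t) :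
    Eqd (fun x => ind A x + c x) (fun x => ind (slab d t ((volume A).toReal / t ^ (d - 1))) x + c x) := by
  set v : E d := t • zv z with hv
  set B : Set (E d) := (fun x => x + v) ⁻¹' A with hB
  have hBm : MeasurableSet B := (measurable_add_const v) hA
  have hBvol : volume B = volume A := measure_preimage_add_right volume v A
  have hBsub : B ⊆ cube 0 t := by
    intro x hx i
    have h1 := hz hx i
    have h2 : (x + v) i = x i + v i := rfl
    rw [h2] at h1
    have h3 : (0 : E d) i = 0 := rfl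
    rw [h3]
    constructor
    · linarith [h1.1]
    · linarith [h1.2]
  have h1 := h B hBm hBsub
  rw [hBvol] at h1
  have h2 := Eqd_iso (IsometryEquiv.addRight v) (ind A) (fin3_ind_meas hA)
  have h3 := Eqd_add h2 (Eqd_refl c hc)
  refine Eqd_trans h3 ?_
  have h4 : (fun x : E d => ind A ((IsometryEquiv.addRight v) x) + c x) = fun x => ind B x + c x := by
    funext x
    have h5 : ind A ((IsometryEquiv.addRight v) x) = ind B x := by
      by_cases hx : x ∈ B
      · rw [fin3_ind_of_mem hx]; exact fin3_ind_of_mem hx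
      · rw [fin3_ind_of_notMem hx]; exact fin3_ind_of_notMem hx
    rw [h5]
  rw [h4]
  exact h1

lemma fin3_induct (d : ℕ) (hd : 3 ≤ d) (t : ℝ) (ht : 0 < t) (c : E d → ℕ) (hc : Measurable c)
    (h : ∀ A : Set (E d), MeasurableSet A → A ⊆ cube 0 t →
      Eqd (fun x => ind A x + c x) (fun x => ind (slab d t ((volume A).toReal / t ^ (d - 1))) x + c x))
    (A : Set (E d)) (hA : MeasurableSet A) (Z : Finset (Fin d → ℤ)) :
    Eqd (fun x => (∑ z ∈ Z, ind (A ∩ cube (t • zv z : E d) t) x) + c x)
      (fun x => ind (slab d t (∑ z ∈ Z, (volume (A ∩ cube (t • zv z : E d) t)).toReal / t ^ (d - 1))) x + c x) := by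
  classical
  induction Z using Finset.induction_on with
  | empty =>
    have h1 : ∀ x : E d, ind (slab d t 0) x = 0 := by
      intro x
      refine fin3_ind_of_notMem (fun hx => ?_)
      have := (fin3_mem_slab hd t 0 x).mp hx
      linarith [this.2.1, this.2.2]
    simp only [Finset.sum_empty, h1, zero_add]
    exact Eqd_refl c hc
  | insert z Z hz ih =>
    set Az := A ∩ cube (t • zv z : E d) t with hAz
    have hAzm : MeasurableSet Az := hA.inter (cube_meas d _ t)
    set H := ∑ z ∈ Z, (volume (A ∩ cube (t • zv z : E d) t)).toReal / t ^ (d - 1) with hH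
    have hH0 : 0 ≤ H := Finset.sum_nonneg (fun z _ => by positivity)
    set v := (volume Az).toReal / t ^ (d - 1) with hv
    have hv0 : 0 ≤ v := by positivity
    have e1 : (fun x : E d => (∑ z ∈ insert z Z, ind (A ∩ cube (t • zv z : E d) t) x) + c x) =
        fun x => ind Az x + ((∑ z ∈ Z, ind (A ∩ cube (t • zv z : E d) t) x) + c x) := by
      funext x
      rw [Finset.sum_insert hz]; ring
    have e2 : ∑ z ∈ insert z Z, (volume (A ∩ cube (t • zv z : E d) t)).toReal / t ^ (d - 1) = H + v := by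
      rw [Finset.sum_insert hz]; ring
    rw [e1, e2]
    have s1 := Eqd_add (Eqd_refl (ind Az) (fin3_ind_meas hAzm)) ih
    have s2 := Eqd_add (Eqd_refl (ind (slab d t H)) (fin3_ind_meas (slab_meas d t H)))
      (fin3_cell d t ht c hc h Az hAzm z inter_subset_right)
    have s3 := Eqd_add (fin3_slab_add d hd t H v hH0 hv0) (Eqd_refl c hc)
    refine Eqd_trans s1 ?_
    have e3 : (fun x : E d => ind Az x + (ind (slab d t H) x + c x)) =
        fun x => ind (slab d t H) x + (ind Az x + c x) := by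
      funext x; ring
    rw [e3]
    refine Eqd_trans s2 ?_
    have e4 : (fun x : E d => ind (slab d t H) x + (ind (slab d t v) x + c x)) =
        fun x => ind (slab d t H) x + ind (slab d t v) x + c x := by
      funext x; ring
    rw [e4]
    exact s3

theorem reassemble (d : ℕ) (hd : 3 ≤ d) (t : ℝ) (ht : 0 < t) (c : E d → ℕ) (hc : Measurable c)
    (h : ∀ A : Set (E d), MeasurableSet A → A ⊆ cube 0 t →
      Eqd (fun x => ind A x + c x) (fun x => ind (slab d t ((volume A).toReal / t ^ (d - 1))) x + c x))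
    (A : Set (E d)) (hA : MeasurableSet A) (hb : Bornology.IsBounded A) :
    Eqd (fun x => ind A x + c x) (fun x => ind (slab d t ((volume A).toReal / t ^ (d - 1))) x + c x) := by
  classical
  obtain ⟨R, hR⟩ := hb.exists_norm_le
  set N : ℤ := ⌈R / t⌉ + 1 with hN
  set Z : Finset (Fin d → ℤ) := Fintype.piFinset (fun _ => Finset.Icc (-N) N) with hZ
  have hfl : ∀ x ∈ A, fin3_fl t x ∈ Z := by
    intro x hx
    rw [hZ, Fintype.mem_piFinset]
    intro i
    rw [Finset.mem_Icc]
    have h1 : |x i| ≤ R := by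
      have := EuclideanSpace.norm_eq x
      exact (PiLp.norm_apply_le x i).trans (hR x hx)
    have h2 := abs_le.mp h1
    have h3 : x i / t ≤ R / t := by gcongr; exact h2.2
    have h4 : -(R / t) ≤ x i / t := by
      rw [← neg_div]; gcongr; exact h2.1
    have h5 := Int.le_ceil (R / t)
    have h6 := Int.floor_le (x i / t)
    have h7 := Int.lt_floor_add_one (x i / t)
    show -N ≤ ⌊x i / t⌋ ∧ ⌊x i / t⌋ ≤ N
    constructor
    · have : ((-N : ℤ) : ℝ) < (⌊x i / t⌋ : ℝ) + 1 := by
        rw [hN]; push_cast; linarith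
      have h8 : -N < ⌊x i / t⌋ + 1 := by exact_mod_cast this
      omega
    · have : (⌊x i / t⌋ : ℝ) ≤ ((N : ℤ) : ℝ) := by
        rw [hN]; push_cast; linarith
      exact_mod_cast this
  have hsum : ∀ x, ∑ z ∈ Z, ind (A ∩ cube (t • zv z : E d) t) x = ind A x := by
    intro x
    by_cases hx : x ∈ A
    · rw [fin3_ind_of_mem hx, Finset.sum_eq_single (fin3_fl t x)]
      · exact fin3_ind_of_mem ⟨hx, (fin3_mem_cube ht _ x).mpr rfl⟩
      · intro z _ hne
        exact fin3_ind_of_notMem (fun h' => hne ((fin3_mem_cube ht z x).mp h'.2).symm)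
      · intro hn; exact absurd (hfl x hx) hn
    · rw [fin3_ind_of_notMem hx]
      exact Finset.sum_eq_zero (fun z _ => fin3_ind_of_notMem (fun h' => hx h'.1))
  have hfin : volume A ≠ ⊤ := hb.measure_lt_top.ne
  have hvol : ∑ z ∈ Z, (volume (A ∩ cube (t • zv z : E d) t)).toReal / t ^ (d - 1) =
      (volume A).toReal / t ^ (d - 1) := by
    rw [← Finset.sum_div]
    congr 1
    rw [← ENNReal.toReal_sum (fun z _ => ((measure_mono inter_subset_left).trans_lt hb.measure_lt_top).ne)]
    congr 1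
    rw [← measure_biUnion_finset]
    · congr 1
      ext x
      simp only [mem_iUnion, exists_prop]
      constructor
      · rintro ⟨z, _, hx⟩; exact hx.1
      · intro hx
        exact ⟨fin3_fl t x, hfl x hx, hx, (fin3_mem_cube ht _ x).mpr rfl⟩
    · intro z _ z' _ hne
      rw [Function.onFun, Set.disjoint_left]
      intro x hx hx'
      exact hne (((fin3_mem_cube ht z x).mp hx.2).symm.trans ((fin3_mem_cube ht z' x).mp hx'.2))
    · intro z _
      exact hA.inter (cube_meas d _ t)
  have key := fin3_induct d hd t ht c hc h A hA Z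
  rw [hvol] at key
  simp only [hsum] at key
  exact key


end Pool.Agent.Helper557.Rz
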