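import Pool.Agent.Helper557.Eq.Defs
import Pool.Agent.Helper557.Eq.M_catQ
import Pool.Agent.Helper557.Eq.M_eqd
import Pool.Agent.Helper557.Eq.M_eqdtr
import Pool.Agent.Helper557.Eq.M_fin1
import Pool.Agent.Helper557.Eq.M_fin2
import Pool.Agent.Helper557.Eq.M_fin3
import Pool.Agent.Helper557.Eq.M_slab

set_option autoImplicit false

open MeasureTheory Set

namespace Pool.Agent.Helper557.Rz

theorem final (d : ℕ) (hd : 3 ≤ d) (A B : Set (E d)) (hA : MeasurableSet A) (hB : MeasurableSet B)
    (hA' : Bornology.IsBounded A) (hB' : Bornology.IsBounded B) (hAi : (interior A).Nonempty)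
    (hBi : (interior B).Nonempty) (hv : volume A = volume B) : Eqd (ind A) (ind B) := by
  obtain ⟨M, l, hl, hcat⟩ := catalyst_cube d hd
  obtain ⟨tA, htA, hpA⟩ := packing d hd M l hl A hA hAi
  obtain ⟨tB, htB, hpB⟩ := packing d hd M l hl B hB hBi
  obtain ⟨t, htd⟩ : ∃ t : ℝ, t = min tA tB := ⟨_, rfl⟩
  have ht : 0 < t := by
    rw [htd]
    exact lt_min htA htB
  obtain ⟨A1, hA1, hA1A, hvA, eA⟩ := hpA t ht (by rw [htd]; exact min_le_left _ _)
  obtain ⟨B1, hB1, hB1B, hvB, eB⟩ := hpB t ht (by rw [htd]; exact min_le_right _ _)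
  have hvol : volume A1 = volume B1 := by
    rw [hvA, hvB] at hv
    exact (ENNReal.add_left_inj ENNReal.ofReal_ne_top).mp hv
  have hc : Measurable (fun x : E d => M * ind (cube 0 (t * l)) x) := by
    have h1 : Measurable (ind (cube (0 : E d) (t * l))) := by
      unfold ind
      exact Measurable.ite (cube_meas d 0 (t * l)) measurable_const measurable_const
    exact measurable_const.mul h1
  have hR := reassemble d hd t ht (fun x : E d => M * ind (cube 0 (t * l)) x) hc
    (catalyst_scaled d hd M l hcat t ht)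
  have RA := hR A1 hA1 (hA'.subset hA1A)
  have RB := hR B1 hB1 (hB'.subset hB1B)
  rw [← hvol] at RB
  exact Eqd_trans eA (Eqd_trans RA (Eqd_trans (Eqd_symm RB) (Eqd_symm eB)))


end Pool.Agent.Helper557.Rz
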